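import Pool.Agent.IC65.AsmDefs

/-!
# IC65 module ASM-B: the steps `X_m → X_(m+1)`

`δ_i = (F i).M (n+1) - (F i).M n` is centred subgaussian on the atoms of level `n` with the parameter
`s_i = if Ex then 80 √2^n else 15` (`(F i).sg_succ n`, which depends on the atom only), and it vanishes if
neither `N` nor `Ex` (`M_succ`).  For `y ∈ S n` let `u_i = y_i` if `i ∈ Ns ∪ Es` and `0` otherwise (it depends
on the atoms only); `wn s u = wn (sw n (Ns F n ω) (Es F n ω)) y`, `Qf δ u u = Qf δ y y`, `Vf δ u = Vf δ y`.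
`hw_cond` gives the exponential moment (`c = 1/32`) for the second inequality, `lin_sq_cond` with
`v_j = u_j (lin (X n) y - y_j X_n j)`, `‖v_j‖ ≤ |u_j| (‖lin (X n) y‖ + wn (len (X n)) y)` gives it (`c = 1/8`) for
the first one.  Then `maxl` (twice; `Z = Z₁ + Z₂`).
-/

open Finset
open scoped RealInnerProductSpace

noncomputable section

namespace IC65

namespace AB83

variable {ι : Type} [Fintype ι] [DecidableEq ι] {Ω : ι → Type} [∀ i, Fintype (Ω i)]
  {E : Type} [NormedAddCommGroup E] [InnerProductSpace ℝ E]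
  {p : ∀ i, Ω i → ℝ} {A : ∀ i, Ω i → E} {k : ∀ i, Ω i → ℕ}

/-- the increments -/
def dl (F : ∀ i, Filt (p i) (A i) (k i)) (n : ℕ) (i : ι) (a : Ω i) : E :=
  (F i).M (n + 1) a - (F i).M n a

open Classical in
/-- the subgaussian parameters -/
def sp (F : ∀ i, Filt (p i) (A i) (k i)) (n : ℕ) (i : ι) (a : Ω i) : ℝ :=
  if (F i).Ex n a then 80 * Real.sqrt 2 ^ n else 15

open Classical in
/-- the truncated vector -/
def uu (F : ∀ i, Filt (p i) (A i) (k i)) (n : ℕ) (y : EuclideanSpace ℝ ι) (ω : ∀ i, Ω i) :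
    EuclideanSpace ℝ ι :=
  WithLp.toLp 2 (fun i => if (F i).N n (ω i) ∨ (F i).Ex n (ω i) then y i else 0)

omit [Fintype ι] [DecidableEq ι] in
theorem uu_apply (F : ∀ i, Filt (p i) (A i) (k i)) (n : ℕ) (y : EuclideanSpace ℝ ι)
    (ω : ∀ i, Ω i) (i : ι) (h : (F i).N n (ω i) ∨ (F i).Ex n (ω i)) : uu F n y ω i = y i := by
  unfold uu
  simp only [if_pos h]

omit [Fintype ι] [DecidableEq ι] in
theorem uu_apply' (F : ∀ i, Filt (p i) (A i) (k i)) (n : ℕ) (y : EuclideanSpace ℝ ι)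
    (ω : ∀ i, Ω i) (i : ι) (h : ¬ ((F i).N n (ω i) ∨ (F i).Ex n (ω i))) : uu F n y ω i = 0 := by
  unfold uu
  simp only [if_neg h]

omit [Fintype ι] [DecidableEq ι] in
theorem dl_zero (F : ∀ i, Filt (p i) (A i) (k i)) (n : ℕ) (ω : ∀ i, Ω i) (i : ι)
    (h : ¬ ((F i).N n (ω i) ∨ (F i).Ex n (ω i))) : dl F n i (ω i) = 0 := by
  rw [not_or] at h
  unfold dl
  rw [(F i).M_succ n (ω i) h.1 h.2, sub_self]

omit [Fintype ι] [DecidableEq ι] in
theorem sp_congr (F : ∀ i, Filt (p i) (A i) (k i)) (n : ℕ) (i : ι) (a b : Ω i)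
    (h : (F i).f n a = (F i).f n b) : sp F n i a = sp F n i b := by
  have h1 := (F i).Ex_congr n a b h
  unfold sp
  by_cases h2 : (F i).Ex n a
  · rw [if_pos h2, if_pos (h1.1 h2)]
  · rw [if_neg h2, if_neg (fun h => h2 (h1.2 h))]

omit [Fintype ι] [DecidableEq ι] in
open Classical in
theorem sg_dl (F : ∀ i, Filt (p i) (A i) (k i)) (n : ℕ) (i : ι) (a : Ω i) :
    Sg (univ.filter fun b => (F i).f n b = (F i).f n a) (p i) (dl F n i) (sp F n i a) := by
  have h1 := (F i).sg_succ n a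
  unfold dl sp
  convert h1 using 1

omit [Fintype ι] [DecidableEq ι] in
theorem sp_pos (F : ∀ i, Filt (p i) (A i) (k i)) (n : ℕ) (i : ι) (a : Ω i) : 0 < sp F n i a := by
  unfold sp
  split_ifs
  · positivity
  · norm_num

theorem wn_sp (F : ∀ i, Filt (p i) (A i) (k i)) (n : ℕ) (y : EuclideanSpace ℝ ι)
    (ω : ∀ i, Ω i) : wn (fun i => sp F n i (ω i)) (uu F n y ω) =
      wn (sw n (Ns F n ω) (Es F n ω)) y := by
  unfold wn
  congr 1
  apply sum_congr rfl
  intro i _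
  have hN : i ∈ Ns F n ω ↔ (F i).N n (ω i) := by simp [Ns]
  have hE : i ∈ Es F n ω ↔ (F i).Ex n (ω i) := by simp [Es]
  by_cases h1 : (F i).Ex n (ω i)
  · have e1 : sw n (Ns F n ω) (Es F n ω) i = 80 * Real.sqrt 2 ^ n := by
      unfold sw
      rw [if_pos (hE.2 h1)]
    have e2 : sp F n i (ω i) = 80 * Real.sqrt 2 ^ n := by
      unfold sp
      rw [if_pos h1]
    simp only [uu_apply F n y ω i (Or.inr h1), e1, e2]
  · have e2 : sp F n i (ω i) = 15 := by
      unfold sp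
      rw [if_neg h1]
    by_cases h2 : (F i).N n (ω i)
    · have e1 : sw n (Ns F n ω) (Es F n ω) i = 15 := by
        unfold sw
        rw [if_neg (fun h => h1 (hE.1 h)), if_pos (hN.2 h2)]
      simp only [uu_apply F n y ω i (Or.inl h2), e1, e2]
    · have e1 : sw n (Ns F n ω) (Es F n ω) i = 0 := by
        unfold sw
        rw [if_neg (fun h => h1 (hE.1 h)), if_neg (fun h => h2 (hN.1 h))]
      rw [uu_apply' F n y ω i (by tauto), e1]
      ring

omit [DecidableEq ι] in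
theorem lin_uu (F : ∀ i, Filt (p i) (A i) (k i)) (n : ℕ) (y : EuclideanSpace ℝ ι)
    (ω : ∀ i, Ω i) : lin (fun i => dl F n i (ω i)) (uu F n y ω) =
      lin (fun i => dl F n i (ω i)) y := by
  unfold lin
  apply sum_congr rfl
  intro i _
  by_cases h : (F i).N n (ω i) ∨ (F i).Ex n (ω i)
  · rw [uu_apply F n y ω i h]
  · simp only [dl_zero F n ω i h, smul_zero]

omit [DecidableEq ι] in
theorem len_uu (F : ∀ i, Filt (p i) (A i) (k i)) (n : ℕ) (y : EuclideanSpace ℝ ι)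
    (ω : ∀ i, Ω i) : wn (len fun i => dl F n i (ω i)) (uu F n y ω) =
      wn (len fun i => dl F n i (ω i)) y := by
  unfold wn
  congr 1
  apply sum_congr rfl
  intro i _
  by_cases h : (F i).N n (ω i) ∨ (F i).Ex n (ω i)
  · rw [uu_apply F n y ω i h]
  · simp only [len, dl_zero F n ω i h, norm_zero, zero_mul]

omit [DecidableEq ι] in
theorem Qf_uu (F : ∀ i, Filt (p i) (A i) (k i)) (n : ℕ) (y : EuclideanSpace ℝ ι)
    (ω : ∀ i, Ω i) : Qf (fun i => dl F n i (ω i)) (uu F n y ω) (uu F n y ω) =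
      Qf (fun i => dl F n i (ω i)) y y := by
  rw [Qf_self, Qf_self, lin_uu, len_uu]

omit [DecidableEq ι] in
theorem Vf_uu (F : ∀ i, Filt (p i) (A i) (k i)) (n : ℕ) (y : EuclideanSpace ℝ ι)
    (ω : ∀ i, Ω i) : Vf (fun i => dl F n i (ω i)) (uu F n y ω) =
      Vf (fun i => dl F n i (ω i)) y := by
  unfold Vf
  rw [lin_uu, len_uu]

omit [Fintype ι] [DecidableEq ι] in
theorem uu_congr (F : ∀ i, Filt (p i) (A i) (k i)) (n : ℕ) (y : EuclideanSpace ℝ ι)
    (ω ω' : ∀ i, Ω i) (h : ∀ i, (F i).f n (ω i) = (F i).f n (ω' i)) :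
    uu F n y ω = uu F n y ω' := by
  ext i
  have h1 := (F i).N_congr n _ _ (h i)
  have h2 := (F i).Ex_congr n _ _ (h i)
  by_cases h3 : (F i).N n (ω i) ∨ (F i).Ex n (ω i)
  · rw [uu_apply F n y ω i h3, uu_apply F n y ω' i (by tauto)]
  · rw [uu_apply' F n y ω i h3, uu_apply' F n y ω' i (by tauto)]

omit [Fintype ι] [DecidableEq ι] in
theorem Xc_congr (F : ∀ i, Filt (p i) (A i) (k i)) (n : ℕ)
    (ω ω' : ∀ i, Ω i) (h : ∀ i, (F i).f n (ω i) = (F i).f n (ω' i)) :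
    Xc F n ω = Xc F n ω' := by
  funext i
  exact (F i).M_congr n _ _ (h i)

/-- the vectors for the first inequality -/
def vv (F : ∀ i, Filt (p i) (A i) (k i)) (n : ℕ) (y : EuclideanSpace ℝ ι) (ω : ∀ i, Ω i)
    (j : ι) : E := uu F n y ω j • (lin (Xc F n ω) y - y j • Xc F n ω j)

omit [DecidableEq ι] in
theorem sum_vv (F : ∀ i, Filt (p i) (A i) (k i)) (n : ℕ) (y : EuclideanSpace ℝ ι)
    (ω : ∀ i, Ω i) : ∑ j, ⟪dl F n j (ω j), vv F n y ω j⟫ =
      ∑ j, y j * ⟪Xc F (n + 1) ω j - Xc F n ω j, lin (Xc F n ω) y - y j • Xc F n ω j⟫ := by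
  apply sum_congr rfl
  intro j _
  unfold vv
  rw [real_inner_smul_right]
  have h0 : Xc F (n + 1) ω j - Xc F n ω j = dl F n j (ω j) := rfl
  rw [h0]
  by_cases h : (F j).N n (ω j) ∨ (F j).Ex n (ω j)
  · rw [uu_apply F n y ω j h]
  · simp only [dl_zero F n ω j h, inner_zero_left, mul_zero]

theorem norm_vv (F : ∀ i, Filt (p i) (A i) (k i)) (n : ℕ) (y : EuclideanSpace ℝ ι)
    (ω : ∀ i, Ω i) : Real.sqrt (∑ i, sp F n i (ω i) ^ 2 * ‖vv F n y ω i‖ ^ 2) ≤
      wn (sw n (Ns F n ω) (Es F n ω)) y * (‖lin (Xc F n ω) y‖ + wn (len (Xc F n ω)) y) := by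
  have h0 : 0 ≤ ‖lin (Xc F n ω) y‖ + wn (len (Xc F n ω)) y :=
    add_nonneg (norm_nonneg _) (wn_nonneg _ _)
  apply Real.sqrt_le_iff.2
  refine ⟨mul_nonneg (wn_nonneg _ _) h0, ?_⟩
  rw [mul_pow, ← wn_sp, wn_sq, sum_mul]
  apply sum_le_sum
  intro j _
  have h1 : ‖y j • Xc F n ω j‖ ≤ wn (len (Xc F n ω)) y := by
    unfold wn
    apply Real.le_sqrt_of_sq_le
    have h2 : ‖y j • Xc F n ω j‖ ^ 2 = (len (Xc F n ω) j * y j) ^ 2 := by
      rw [norm_smul, Real.norm_eq_abs, mul_pow, sq_abs, mul_pow]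
      unfold len
      ring
    rw [h2]
    exact single_le_sum (f := fun i => (len (Xc F n ω) i * y i) ^ 2)
      (fun i _ => sq_nonneg _) (mem_univ j)
  have h2 : ‖lin (Xc F n ω) y - y j • Xc F n ω j‖ ≤
      ‖lin (Xc F n ω) y‖ + wn (len (Xc F n ω)) y := (norm_sub_le _ _).trans (by linarith)
  have h3 : ‖lin (Xc F n ω) y - y j • Xc F n ω j‖ ^ 2 ≤
      (‖lin (Xc F n ω) y‖ + wn (len (Xc F n ω)) y) ^ 2 :=
    pow_le_pow_left₀ (norm_nonneg _) h2 2
  have h4 : sp F n j (ω j) ^ 2 * ‖vv F n y ω j‖ ^ 2 =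
      (sp F n j (ω j) * uu F n y ω j) ^ 2 * ‖lin (Xc F n ω) y - y j • Xc F n ω j‖ ^ 2 := by
    unfold vv
    rw [norm_smul, Real.norm_eq_abs, mul_pow, sq_abs]
    ring
  rw [h4]
  exact mul_le_mul_of_nonneg_left h3 (sq_nonneg _)

theorem div_trick {T D B : ℝ} (hD : 0 ≤ D) (h0 : D = 0 → T = 0) (h : |(|T| / D)| ≤ B) :
    |T| ≤ B * D := by
  rcases hD.lt_or_eq with h1 | h1
  · rw [abs_of_nonneg (by positivity), div_le_iff₀ h1] at h
    exact h
  · rw [← h1, mul_zero, h0 h1.symm, abs_zero]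

omit [DecidableEq ι] in
theorem wn_zero_apply {d : ι → ℝ} {u : EuclideanSpace ℝ ι} (h : wn d u = 0) (i : ι) :
    d i * u i = 0 := by
  have h1 := wn_sq d u
  rw [h, zero_pow two_ne_zero] at h1
  have h2 := (sum_eq_zero_iff_of_nonneg (fun i _ => sq_nonneg (d i * u i))).1 h1.symm i
    (mem_univ i)
  exact pow_eq_zero_iff two_ne_zero |>.1 h2

omit [DecidableEq ι] in
theorem exp1 [DecidableEq ι] (hw : Wt p) (F : ∀ i, Filt (p i) (A i) (k i)) (n : ℕ)
    (y : EuclideanSpace ℝ ι) :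
    Ep p (fun ω => Real.exp ((∑ j, ⟪dl F n j (ω j), vv F n y ω j⟫) ^ 2 /
      (8 * ∑ i, sp F n i (ω i) ^ 2 * ‖vv F n y ω i‖ ^ 2))) ≤ 2 := by
  have h := lin_sq_cond p (fun i a => (hw.pos i a).le) (fun i => (F i).f n) (dl F n) (sp F n)
    (sp_pos F n) (sp_congr F n) (by
      intro i a
      convert sg_dl F n i a using 1
      congr) (vv F n y) (by
      intro ω ω' h1
      have h2 := uu_congr F n y ω ω' h1
      have h3 := Xc_congr F n ω ω' h1
      unfold vv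
      rw [h2, h3])
  rw [hw.prod, mul_one] at h
  exact h

theorem exp2 (hw : Wt p) (F : ∀ i, Filt (p i) (A i) (k i)) (n : ℕ)
    (y : EuclideanSpace ℝ ι) :
    Ep p (fun ω => Real.exp (Qf (fun i => dl F n i (ω i)) (uu F n y ω) (uu F n y ω) ^ 2 /
      (32 * wn (fun i => sp F n i (ω i)) (uu F n y ω) ^ 2 *
        Vf (fun i => dl F n i (ω i)) (uu F n y ω) ^ 2))) ≤ 2 := by
  have h := hw_cond p (fun i a => (hw.pos i a).le) (fun i => (F i).f n) (dl F n) (sp F n)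
    (sp_pos F n) (sp_congr F n) (by
      intro i a
      convert sg_dl F n i a using 1
      congr) (uu F n y) (uu F n y) (uu_congr F n y) (uu_congr F n y)
  rw [hw.prod, mul_one] at h
  exact h

end AB83

open AB83 in
theorem asmB : ∃ C : ℝ, 1 ≤ C ∧ ∀ {ι : Type} [Fintype ι] [DecidableEq ι] {Ω : ι → Type}
    [∀ i, Fintype (Ω i)] {E : Type} [NormedAddCommGroup E] [InnerProductSpace ℝ E]
    {p : ∀ i, Ω i → ℝ} {A : ∀ i, Ω i → E} {k : ∀ i, Ω i → ℕ} (_ : Wt p)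
    (F : ∀ i, Filt (p i) (A i) (k i)) (L : ℕ)
    (S : ℕ → Finset (EuclideanSpace ℝ ι))
    (_ : ∀ n ≤ L, (S n).card ≤ 2 ^ 2 ^ (n + 6)),
    ∃ Z : (∀ i, Ω i) → ℝ, (∀ ω, 1 ≤ Z ω) ∧
      (∀ n ≤ L, ∀ y ∈ S n, ∀ ω,
        |∑ j, y j * ⟪Xc F (n + 1) ω j - Xc F n ω j, lin (Xc F n ω) y - y j • Xc F n ω j⟫| ≤
          Real.sqrt 2 ^ n * Z ω * wn (sw n (Ns F n ω) (Es F n ω)) y *
            (‖lin (Xc F n ω) y‖ + wn (len (Xc F n ω)) y) ∧
        |Qf (fun j => Xc F (n + 1) ω j - Xc F n ω j) y y| ≤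
          Real.sqrt 2 ^ n * Z ω * wn (sw n (Ns F n ω) (Es F n ω)) y *
            Vf (fun j => Xc F (n + 1) ω j - Xc F n ω j) y) ∧
      Ep p (fun ω => Z ω ^ 2) ≤ C := by
  obtain ⟨C₁, hC₁, h₁⟩ := maxl (c := 1 / 8) (by norm_num)
  obtain ⟨C₂, hC₂, h₂⟩ := maxl (c := 1 / 32) (by norm_num)
  refine ⟨2 * C₁ + 2 * C₂, by linarith, ?_⟩
  intro ι _ _ Ω _ E _ _ p A k hw F L S hS
  have hP0 : ∀ ω : (∀ i, Ω i), 0 ≤ ∏ i, p i (ω i) :=
    fun ω => prod_nonneg fun i _ => (hw.pos i _).le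
  obtain ⟨Z₁, hZ₁, hY₁, hE₁⟩ := h₁ (fun ω : (∀ i, Ω i) => ∏ i, p i (ω i)) hP0 hw.sum L S hS
    (fun n y ω => |∑ j, ⟪dl F n j (ω j), vv F n y ω j⟫| /
      Real.sqrt (∑ i, sp F n i (ω i) ^ 2 * ‖vv F n y ω i‖ ^ 2)) (by
      intro n _ y _
      refine le_trans (le_of_eq ?_) (exp1 hw F n y)
      unfold Ep
      apply sum_congr rfl
      intro ω _
      congr 2
      rw [div_pow, sq_abs, Real.sq_sqrt (sum_nonneg fun i _ => by positivity)]
      ring)
  obtain ⟨Z₂, hZ₂, hY₂, hE₂⟩ := h₂ (fun ω : (∀ i, Ω i) => ∏ i, p i (ω i)) hP0 hw.sum L S hS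
    (fun n y ω => |Qf (fun i => dl F n i (ω i)) (uu F n y ω) (uu F n y ω)| /
      (wn (fun i => sp F n i (ω i)) (uu F n y ω) *
        Vf (fun i => dl F n i (ω i)) (uu F n y ω))) (by
      intro n _ y _
      refine le_trans (le_of_eq ?_) (exp2 hw F n y)
      unfold Ep
      apply sum_congr rfl
      intro ω _
      congr 2
      rw [div_pow, sq_abs, mul_pow]
      ring)
  refine ⟨fun ω => Z₁ ω + Z₂ ω, fun ω => ?_, ?_, ?_⟩
  · have := hZ₁ ω
    have := hZ₂ ω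
    linarith
  · intro n hn y hy ω
    have hs : 0 ≤ Real.sqrt 2 ^ n := by positivity
    have hz1 := hZ₁ ω
    have hz2 := hZ₂ ω
    constructor
    · have h1 := div_trick (Real.sqrt_nonneg _) (T := ∑ j, ⟪dl F n j (ω j), vv F n y ω j⟫) (by
        intro h0
        rw [Real.sqrt_eq_zero (sum_nonneg fun i _ => by positivity)] at h0
        apply sum_eq_zero
        intro j _
        have h2 := (sum_eq_zero_iff_of_nonneg (fun i _ => by positivity)).1 h0 j (mem_univ j)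
        have h3 := sp_pos F n j (ω j)
        have h4 : ‖vv F n y ω j‖ ^ 2 = 0 := by
          rcases mul_eq_zero.1 h2 with h5 | h5
          · exact absurd h5 (by positivity)
          · exact h5
        have h5 : vv F n y ω j = 0 := by
          rw [← norm_eq_zero]
          exact pow_eq_zero_iff two_ne_zero |>.1 h4
        rw [h5, inner_zero_right]) (hY₁ n hn y hy ω)
      rw [sum_vv] at h1
      refine h1.trans ?_
      rw [mul_assoc (_ * _)]
      apply mul_le_mul _ (norm_vv F n y ω) (Real.sqrt_nonneg _) (by positivity)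
      exact mul_le_mul_of_nonneg_left (by linarith) hs
    · have h1 := div_trick (mul_nonneg (wn_nonneg _ _) (Vf_nonneg _ _))
        (T := Qf (fun i => dl F n i (ω i)) (uu F n y ω) (uu F n y ω)) (by
        intro h0
        rw [Qf_self]
        rcases mul_eq_zero.1 h0 with h2 | h2
        · have h3 : uu F n y ω = 0 := by
            ext i
            have h4 := wn_zero_apply h2 i
            have h5 := sp_pos F n i (ω i)
            rcases mul_eq_zero.1 h4 with h6 | h6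
            · exact absurd h6 h5.ne'
            · rw [h6]; rfl
          rw [h3]
          simp [wn]
        · have h3 := Vf_sq (fun i => dl F n i (ω i)) (uu F n y ω)
          rw [h2, zero_pow two_ne_zero] at h3
          have h4 := sq_nonneg ‖lin (fun i => dl F n i (ω i)) (uu F n y ω)‖
          have h5 := sq_nonneg (wn (len (fun i => dl F n i (ω i))) (uu F n y ω))
          linarith) (hY₂ n hn y hy ω)
      rw [wn_sp, Vf_uu, Qf_uu] at h1
      refine h1.trans ?_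
      rw [mul_assoc (_ * _)]
      apply mul_le_mul_of_nonneg_right _ (mul_nonneg (wn_nonneg _ _) (Vf_nonneg _ _))
      exact mul_le_mul_of_nonneg_left (by linarith) hs
  · have h3 : Ep p (fun ω => (Z₁ ω + Z₂ ω) ^ 2) ≤
        Ep p (fun ω => 2 * Z₁ ω ^ 2 + 2 * Z₂ ω ^ 2) := by
      apply Ep_mono (fun i a => (hw.pos i a).le)
      intro ω
      nlinarith [sq_nonneg (Z₁ ω - Z₂ ω)]
    refine h3.trans ?_
    rw [Ep_add, Ep_const_mul, Ep_const_mul]
    have h4 : Ep p (fun ω => Z₁ ω ^ 2) ≤ C₁ := hE₁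
    have h5 : Ep p (fun ω => Z₂ ω ^ 2) ≤ C₂ := hE₂
    linarith

end IC65
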