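import Pool.Agent.IC65.Basic

/-!
# IC65: data of the deterministic part (everything is for one fixed `ω` and one fixed point `x = y L`)

`X m : ι → E` are the columns at level `m` (`X 0 = 0`), `N m`, `Ex m` the sets of coordinates which may
change at the step `m → m+1` (open, exceptional), `d i = 2^(k_i)`, `y m` the net points of `x` (`y L = x`,
`‖x - y m‖ ≤ Δ m`), `Z ≥ 1` the random factor, `R ≥ ‖D x‖`.
-/

open Finset
open scoped RealInnerProductSpace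

noncomputable section

namespace IC65

variable {ι : Type} [Fintype ι] [DecidableEq ι] {E : Type} [NormedAddCommGroup E]
  [InnerProductSpace ℝ E]

/-- the indicator of a set of coordinates -/
def ind (S : Finset ι) (i : ι) : ℝ := if i ∈ S then 1 else 0

/-- the lengths of the exceptional columns -/
def xe (S : Finset ι) (X : ι → E) (i : ι) : ℝ := if i ∈ S then ‖X i‖ else 0

/-- the subgaussian parameters of the increments at the step `m → m+1` -/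
def sw (m : ℕ) (N Ex : Finset ι) (i : ι) : ℝ :=
  if i ∈ Ex then 80 * Real.sqrt 2 ^ m else if i ∈ N then 15 else 0

/-- the data of the chain of one point -/
structure MData (ι : Type) [Fintype ι] [DecidableEq ι] (E : Type) [NormedAddCommGroup E]
    [InnerProductSpace ℝ E] where
  X : ℕ → ι → E
  d : ι → ℝ
  N : ℕ → Finset ι
  Ex : ℕ → Finset ι
  Γ : ℝ
  Z : ℝ
  R : ℝ
  L : ℕ
  y : ℕ → EuclideanSpace ℝ ι
  Δ : ℕ → ℝ
  Γ0 : 0 ≤ Γ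
  Z1 : 1 ≤ Z
  d0 : ∀ i, 0 ≤ d i
  X0 : ∀ i, X 0 i = 0
  step : ∀ m i, i ∉ N m → i ∉ Ex m → X (m + 1) i = X m i
  len1 : ∀ m i, i ∉ Ex m → ‖X m i‖ ≤ 22 * Real.sqrt 2 ^ m
  len2 : ∀ m i, i ∉ Ex m → ‖X m i‖ ≤ 22 * d i
  lenL : ∀ i, ‖X L i‖ ≤ d i
  Nd : ∀ m, ∀ i ∈ N m, (4 : ℝ) ^ m ≤ d i
  Δ0 : ∀ m, 0 ≤ Δ m
  sumΔ : ∑ m ∈ range (L + 1), Real.sqrt 2 ^ m * Δ m ≤ Γ
  dist : ∀ m ≤ L, ‖y L - y m‖ ≤ Δ m
  yΓ : ∀ m ≤ L, ‖y m‖ ≤ Γ
  dR : wn d (y L) ≤ R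
  /-- self-normalised bounds for the forms `Q_m` -/
  hQ : ∀ m < L, |Qf (X m) (y (m + 1) - y m) (y (m + 1) + y m)| ≤
    Real.sqrt 2 ^ m * Z * ‖y (m + 1) - y m‖ * Vf (X m) (y (m + 1) + y m)
  hQs : ∀ m ≤ L, |Qf (X m) (y m) (y m)| ≤ Real.sqrt 2 ^ m * Z * ‖y m‖ * Vf (X m) (y m)
  hQs' : ∀ m < L, |Qf (X m) (y (m + 1)) (y (m + 1))| ≤
    Real.sqrt 2 ^ m * Z * ‖y (m + 1)‖ * Vf (X m) (y (m + 1))
  hQu : ∀ m < L, |Qf (X m) (y (m + 1) - y m) (y (m + 1) - y m)| ≤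
    Real.sqrt 2 ^ m * Z * ‖y (m + 1) - y m‖ * Vf (X m) (y (m + 1) - y m)
  /-- the step `X m → X (m+1)` -/
  hb1 : ∀ m < L, |∑ j, y (m + 1) j *
      ⟪X (m + 1) j - X m j, lin (X m) (y (m + 1)) - y (m + 1) j • X m j⟫| ≤
    Real.sqrt 2 ^ m * Z * wn (sw m (N m) (Ex m)) (y (m + 1)) *
      (‖lin (X m) (y (m + 1))‖ + wn (len (X m)) (y (m + 1)))
  hb2 : ∀ m < L, |Qf (fun j => X (m + 1) j - X m j) (y (m + 1)) (y (m + 1))| ≤
    Real.sqrt 2 ^ m * Z * wn (sw m (N m) (Ex m)) (y (m + 1)) *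
      Vf (fun j => X (m + 1) j - X m j) (y (m + 1))
  /-- the exceptional coordinates are negligible -/
  hi : ∀ m < L, wn (ind (Ex m)) (y (m + 1)) ≤ Z * Γ / 4 ^ m
  hx1 : ∀ m < L, wn (xe (Ex m) (X m)) (y (m + 1)) ≤ Z * Γ / 4 ^ m
  hx2 : ∀ m < L, wn (xe (Ex (m + 1)) (X (m + 1))) (y (m + 1)) ≤ Z * Γ / 4 ^ m
  hxu : ∀ n < L, ∀ m ≤ n, wn (xe (Ex m) (X m)) (y (n + 1) - y n) ≤
    Real.sqrt 2 ^ n * Z * ‖y (n + 1) - y n‖

/-- `v_m = A_(m+1) y_(m+1) - A_m y_m` -/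
def MData.v (D : MData ι E) (m : ℕ) : E :=
  lin (D.X (m + 1)) (D.y (m + 1)) - lin (D.X m) (D.y m)

end IC65
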