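import Pool.Agent.IC65.HWB

/-!
# IC65 module HW-C: conditional versions

`f_i : Ω_i → κ_i` (the atom), the vectors `u`, `w`, `v` and the parameters `s_i` depend only on the atoms.
`cond_sum`: sum over the atom vectors: `Ep p F = ∑_{a ∈ image f} Ep (p_i 1_{f_i = a_i}) F`
(`Finset.sum_fiberwise`/`sum_comp`) and the same for `∏_i ∑ p_i`; for each atom vector `a` apply the
unconditional version with the weights `q_i b = if f_i b = a_i then p_i b else 0`.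
-/

open Finset
open scoped RealInnerProductSpace

noncomputable section

namespace IC65

variable {ι : Type} [Fintype ι] [DecidableEq ι] {Ω : ι → Type} [∀ i, Fintype (Ω i)]
  {E : Type} [NormedAddCommGroup E] [InnerProductSpace ℝ E]

namespace HWCAux

open Classical in
/-- the weights restricted to the atom of `ω₀` -/
def q {κ : ι → Type} (p : ∀ i, Ω i → ℝ) (f : ∀ i, Ω i → κ i) (ω₀ : ∀ i, Ω i) (i : ι) (b : Ω i) :
    ℝ := if f i b = f i (ω₀ i) then p i b else 0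

variable {κ : ι → Type} (p : ∀ i, Ω i → ℝ) (f : ∀ i, Ω i → κ i)

theorem q_nonneg (hp : ∀ i a, 0 ≤ p i a) (ω₀ : ∀ i, Ω i) (i : ι) (b : Ω i) :
    0 ≤ q p f ω₀ i b := by
  unfold q
  split_ifs
  · exact hp i b
  · exact le_rfl

open Classical in
theorem prod_q (ω₀ ω : ∀ i, Ω i) : ∏ i, q p f ω₀ i (ω i) =
    if (fun i => f i (ω i)) = (fun i => f i (ω₀ i)) then ∏ i, p i (ω i) else 0 := by
  by_cases h : (fun i => f i (ω i)) = (fun i => f i (ω₀ i))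
  · rw [if_pos h]
    apply prod_congr rfl
    intro i _
    unfold q
    rw [if_pos (congrFun h i)]
  · rw [if_neg h]
    obtain ⟨i, hi⟩ : ∃ i, f i (ω i) ≠ f i (ω₀ i) := by
      by_contra hc
      push Not at hc
      exact h (funext hc)
    apply prod_eq_zero (mem_univ i)
    unfold q
    rw [if_neg hi]

open Classical in
theorem Ep_q (ω₀ : ∀ i, Ω i) (F : (∀ i, Ω i) → ℝ) : Ep (q p f ω₀) F =
    ∑ ω : ∀ i, Ω i with (fun i => f i (ω i)) = (fun i => f i (ω₀ i)), (∏ i, p i (ω i)) * F ω := by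
  unfold Ep
  rw [sum_filter]
  apply sum_congr rfl
  intro ω _
  rw [prod_q]
  split_ifs
  · rfl
  · simp

theorem cond_sum (F : (∀ i, Ω i) → ℝ)
    (h : ∀ ω₀ : ∀ i, Ω i, Ep (q p f ω₀) F ≤ 2 * ∏ i, ∑ a, q p f ω₀ i a) :
    Ep p F ≤ 2 * ∏ i, ∑ a, p i a := by
  classical
  set g : (∀ i, Ω i) → (∀ i, κ i) := fun ω i => f i (ω i) with hg
  have h1 : ∀ F : (∀ i, Ω i) → ℝ, Ep p F =
      ∑ a ∈ univ.image g, ∑ ω : ∀ i, Ω i with g ω = a, (∏ i, p i (ω i)) * F ω := by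
    intro F
    unfold Ep
    exact (sum_fiberwise_of_maps_to (fun ω _ => mem_image_of_mem g (mem_univ ω)) _).symm
  have h2 : ∀ a ∈ univ.image g, ∑ ω : ∀ i, Ω i with g ω = a, (∏ i, p i (ω i)) * F ω ≤
      2 * ∑ ω : ∀ i, Ω i with g ω = a, (∏ i, p i (ω i)) * 1 := by
    intro a ha
    obtain ⟨ω₀, _, rfl⟩ := mem_image.1 ha
    have h3 := h ω₀
    rw [← Ep_one, Ep_q, Ep_q] at h3
    exact h3
  rw [← Ep_one, h1 F, h1 (fun _ => 1), mul_sum]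
  exact sum_le_sum h2

theorem Ep_q_congr (ω₀ : ∀ i, Ω i) (F G : (∀ i, Ω i) → ℝ)
    (h : ∀ ω, (∀ i, f i (ω i) = f i (ω₀ i)) → F ω = G ω) :
    Ep (q p f ω₀) F = Ep (q p f ω₀) G := by
  classical
  rw [Ep_q, Ep_q]
  apply sum_congr rfl
  intro ω hω
  rw [h ω (fun i => congrFun (mem_filter.1 hω).2 i)]

open Classical in
theorem Sg_q (X : ∀ i, Ω i → E) (s : ∀ i, Ω i → ℝ)
    (hX : ∀ i a, Sg (univ.filter fun b => f i b = f i a) (p i) (X i) (s i a))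
    (ω₀ : ∀ i, Ω i) (i : ι) : Sg univ (q p f ω₀ i) (X i) (s i (ω₀ i)) := by
  intro v
  have h := hX i (ω₀ i) v
  rw [sum_filter, sum_filter] at h
  unfold q
  simpa only [ite_mul, zero_mul] using h

end HWCAux

open HWCAux

open Classical in
theorem lin_sq_cond {κ : ι → Type} (p : ∀ i, Ω i → ℝ) (hp : ∀ i a, 0 ≤ p i a)
    (f : ∀ i, Ω i → κ i) (X : ∀ i, Ω i → E) (s : ∀ i, Ω i → ℝ) (hs : ∀ i a, 0 < s i a)
    (hsf : ∀ i a b, f i a = f i b → s i a = s i b)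
    (hX : ∀ i a, Sg (univ.filter fun b => f i b = f i a) (p i) (X i) (s i a))
    (v : (∀ i, Ω i) → ι → E) (hv : ∀ ω ω', (∀ i, f i (ω i) = f i (ω' i)) → v ω = v ω') :
    Ep p (fun ω => Real.exp ((∑ i, ⟪X i (ω i), v ω i⟫) ^ 2 /
        (8 * ∑ i, s i (ω i) ^ 2 * ‖v ω i‖ ^ 2))) ≤
      2 * ∏ i, ∑ a, p i a := by
  apply cond_sum p f
  intro ω₀
  rw [Ep_q_congr p f ω₀ _ (fun ω => Real.exp ((∑ i, ⟪X i (ω i), v ω₀ i⟫) ^ 2 /
        (8 * ∑ i, s i (ω₀ i) ^ 2 * ‖v ω₀ i‖ ^ 2)))]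
  · exact lin_sq (q p f ω₀) (q_nonneg p f hp ω₀) X (fun i => s i (ω₀ i))
      (fun i => hs i (ω₀ i)) (Sg_q p f X s hX ω₀) (v ω₀)
  · intro ω hω
    rw [hv ω ω₀ hω]
    simp only [fun i => hsf i (ω i) (ω₀ i) (hω i)]

open Classical in
theorem hw_cond {κ : ι → Type} (p : ∀ i, Ω i → ℝ) (hp : ∀ i a, 0 ≤ p i a)
    (f : ∀ i, Ω i → κ i) (X : ∀ i, Ω i → E) (s : ∀ i, Ω i → ℝ) (hs : ∀ i a, 0 < s i a)
    (hsf : ∀ i a b, f i a = f i b → s i a = s i b)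
    (hX : ∀ i a, Sg (univ.filter fun b => f i b = f i a) (p i) (X i) (s i a))
    (u w : (∀ i, Ω i) → EuclideanSpace ℝ ι)
    (hu : ∀ ω ω', (∀ i, f i (ω i) = f i (ω' i)) → u ω = u ω')
    (hw : ∀ ω ω', (∀ i, f i (ω i) = f i (ω' i)) → w ω = w ω') :
    Ep p (fun ω => Real.exp (Qf (fun i => X i (ω i)) (u ω) (w ω) ^ 2 /
        (32 * wn (fun i => s i (ω i)) (u ω) ^ 2 * Vf (fun i => X i (ω i)) (w ω) ^ 2))) ≤
      2 * ∏ i, ∑ a, p i a := by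
  apply cond_sum p f
  intro ω₀
  rw [Ep_q_congr p f ω₀ _ (fun ω => Real.exp (Qf (fun i => X i (ω i)) (u ω₀) (w ω₀) ^ 2 /
        (32 * wn (fun i => s i (ω₀ i)) (u ω₀) ^ 2 * Vf (fun i => X i (ω i)) (w ω₀) ^ 2)))]
  · exact IC65.hw (q p f ω₀) (q_nonneg p f hp ω₀) X (fun i => s i (ω₀ i))
      (fun i => hs i (ω₀ i)) (Sg_q p f X s hX ω₀) (u ω₀) (w ω₀)
  · intro ω hω
    rw [hu ω ω₀ hω, hw ω ω₀ hω]
    simp only [fun i => hsf i (ω i) (ω₀ i) (hω i)]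

end IC65
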