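import Pool.Agent.IC65.HWDefs

/-!
# IC65 module HW-D: diagonal matrices

Convexity of `exp` with the weights `u_i²/‖u‖²`: `exp(c ∑ ξ_i² u_i²/‖u‖²) ≤ ∑ (u_i²/‖u‖²) exp(c ξ_i²)`, and
`Ep p (fun ω => g (ω i)) = (∏_{j ≠ i} P_j) ∑ p_i g`.  If `u = 0` the exponent is `0`.
-/

open Finset

noncomputable section

namespace IC65

variable {ι : Type} [Fintype ι] [DecidableEq ι] {Ω : ι → Type} [∀ i, Fintype (Ω i)]

/-- functions of one coordinate -/
theorem Ep_single (p : ∀ i, Ω i → ℝ) (h1 : ∀ i, ∑ a, p i a = 1) (i : ι) (g : Ω i → ℝ) :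
    Ep p (fun ω => g (ω i)) = ∑ a, p i a * g a := by
  have h := Ep_prod p (Function.update (fun (j : ι) (_ : Ω j) => (1 : ℝ)) i g)
  have hL : (fun ω : (∀ i, Ω i) =>
      ∏ j, (Function.update (fun (j : ι) (_ : Ω j) => (1 : ℝ)) i g) j (ω j)) =
      fun ω => g (ω i) := by
    funext ω
    rw [Finset.prod_eq_single i]
    · simp
    · intro j _ hj
      rw [Function.update_of_ne hj]
    · intro hi
      exact absurd (Finset.mem_univ i) hi
  have hR : (∏ j, ∑ a, p j a * (Function.update (fun (j : ι) (_ : Ω j) => (1 : ℝ)) i g) j a) =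
      ∑ a, p i a * g a := by
    rw [Finset.prod_eq_single i]
    · simp
    · intro j _ hj
      rw [Function.update_of_ne hj]
      simpa using h1 j
    · intro hi
      exact absurd (Finset.mem_univ i) hi
  rw [hL, hR] at h
  exact h

theorem diag_exp (p : ∀ i, Ω i → ℝ) (hp : ∀ i a, 0 ≤ p i a) (h1 : ∀ i, ∑ a, p i a = 1)
    (xi : ∀ i, Ω i → ℝ) {c : ℝ}
    (hc : 0 ≤ c) (h : ∀ i, ∑ a, p i a * Real.exp (c * xi i a ^ 2) ≤ 2)
    (u : EuclideanSpace ℝ ι) :
    Ep p (fun ω => Real.exp (c * (wn (fun i => xi i (ω i)) u ^ 2 / ‖u‖ ^ 2))) ≤ 2 := by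
  have _ := hc
  by_cases hu : u = 0
  · subst hu
    have h2 : (fun ω : (∀ i, Ω i) =>
        Real.exp (c * (wn (fun i => xi i (ω i)) (0 : EuclideanSpace ℝ ι) ^ 2 /
          ‖(0 : EuclideanSpace ℝ ι)‖ ^ 2))) = fun _ => 1 := by
      funext ω
      simp
    rw [h2, Ep_one]
    simp only [h1, Finset.prod_const_one]
    norm_num
  · have hu0 : 0 < ‖u‖ := norm_pos_iff.2 hu
    have hu2 : ‖u‖ ^ 2 = ∑ i, u i ^ 2 := by
      rw [EuclideanSpace.norm_sq_eq]
      simp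
    have hw0 : ∀ i ∈ (Finset.univ : Finset ι), 0 ≤ u i ^ 2 / ‖u‖ ^ 2 := fun i _ => by positivity
    have hw1 : ∑ i ∈ (Finset.univ : Finset ι), u i ^ 2 / ‖u‖ ^ 2 = 1 := by
      rw [← Finset.sum_div, ← hu2]
      exact div_self (by positivity)
    have hpt : ∀ ω : (∀ i, Ω i),
        Real.exp (c * (wn (fun i => xi i (ω i)) u ^ 2 / ‖u‖ ^ 2)) ≤
        ∑ i, (u i ^ 2 / ‖u‖ ^ 2) * Real.exp (c * xi i (ω i) ^ 2) := by
      intro ω
      have h3 := convexOn_exp.map_sum_le (t := (Finset.univ : Finset ι))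
        (w := fun i => u i ^ 2 / ‖u‖ ^ 2) (p := fun i => c * xi i (ω i) ^ 2) hw0 hw1
        (fun i _ => Set.mem_univ _)
      simp only [smul_eq_mul] at h3
      have h4 : c * (wn (fun i => xi i (ω i)) u ^ 2 / ‖u‖ ^ 2) =
          ∑ i, u i ^ 2 / ‖u‖ ^ 2 * (c * xi i (ω i) ^ 2) := by
        rw [wn_sq, Finset.sum_div, Finset.mul_sum]
        refine Finset.sum_congr rfl fun i _ => ?_
        ring
      rw [h4]
      exact h3
    refine (Ep_mono hp hpt).trans ?_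
    rw [Ep_sum]
    have h5 : ∀ i ∈ (Finset.univ : Finset ι),
        Ep p (fun ω => (u i ^ 2 / ‖u‖ ^ 2) * Real.exp (c * xi i (ω i) ^ 2)) ≤
        (u i ^ 2 / ‖u‖ ^ 2) * 2 := by
      intro i hi
      rw [Ep_const_mul]
      have h6 := Ep_single p h1 i (fun a => Real.exp (c * xi i a ^ 2))
      rw [h6]
      exact mul_le_mul_of_nonneg_left (h i) (hw0 i hi)
    refine (Finset.sum_le_sum h5).trans ?_
    rw [← Finset.sum_mul, hw1]
    norm_num

end IC65
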