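import Mathlib

/-!
# IC65 module MAXL: one random factor for all levels

Finite probability space `(W, P)`.
* `maxl`: let `t₀² = (64 log 2 + 1)/c`, `z_{n,a} = max(Y²/2^n - t₀², 0)`, `Z² = 1 + t₀² + ∑_{n ≤ L} ∑_{a ∈ S n} z_{n,a}`.
  `exp(c Y²) ≥ exp(c 2^n t₀²) · c 2^n z`, so `E z ≤ 2 exp(-c t₀² 2^n)/(c 2^n)` and the sum over the at most
  `2^(2^(n+6)) = exp(64 log 2 · 2^n)` indices is `≤ 2 exp(-2^n)/(c 2^n)`.
* `maxr`: `Z² = 1 + ∑_{n ≤ L} 16^n ∑_{a ∈ S n} ρ²`, `E Z² ≤ 1 + ∑ 16^n 2^(2^(n+1)) 81 exp(-20 · 2^n)`.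
-/

open Finset

noncomputable section

namespace IC65

namespace MaxlAux

theorem geom_half_le (L : ℕ) : ∑ n ∈ range (L + 1), (1 / 2 : ℝ) ^ n ≤ 2 := by
  have h : ∀ K : ℕ, ∑ n ∈ range K, (1 / 2 : ℝ) ^ n = 2 - 2 * (1 / 2) ^ K := by
    intro K
    induction K with
    | zero => simp
    | succ K ih => rw [sum_range_succ, ih, pow_succ]; ring
  rw [h]
  have : (0 : ℝ) ≤ 2 * (1 / 2) ^ (L + 1) := by positivity
  linarith

theorem two_pow_le_exp (k : ℕ) : (2 : ℝ) ^ k ≤ Real.exp k := by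
  have h := Real.add_one_le_exp (1 : ℝ)
  have h2 : (2 : ℝ) ≤ Real.exp 1 := by linarith
  calc (2 : ℝ) ^ k ≤ Real.exp 1 ^ k := pow_le_pow_left₀ (by norm_num) h2 k
    _ = Real.exp k := by rw [← Real.exp_nat_mul, mul_one]

theorem two_pow_eq_exp (k : ℕ) : (2 : ℝ) ^ k = Real.exp (k * Real.log 2) := by
  rw [Real.exp_nat_mul, Real.exp_log (by norm_num)]

/-- expectation of a double sum -/
theorem E_double {W : Type} [Fintype W] (P : W → ℝ) (h1 : ∑ ω, P ω = 1) (k : ℝ) (L : ℕ) {α : Type}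
    (S : ℕ → Finset α) (z : ℕ → α → W → ℝ) :
    ∑ ω, P ω * (k + ∑ n ∈ range (L + 1), ∑ a ∈ S n, z n a ω) =
      k + ∑ n ∈ range (L + 1), ∑ a ∈ S n, ∑ ω, P ω * z n a ω := by
  simp only [mul_add, sum_add_distrib, mul_sum]
  rw [← sum_mul, h1, one_mul, sum_comm]
  congr 1
  refine sum_congr rfl fun n _ => ?_
  rw [sum_comm]

end MaxlAux

open MaxlAux

theorem maxl {c : ℝ} (hc : 0 < c) : ∃ C : ℝ, 1 ≤ C ∧ ∀ {W : Type} [Fintype W] (P : W → ℝ)
    (_ : ∀ ω, 0 ≤ P ω) (_ : ∑ ω, P ω = 1) (L : ℕ) {α : Type} (S : ℕ → Finset α)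
    (_ : ∀ n ≤ L, (S n).card ≤ 2 ^ 2 ^ (n + 6)) (Y : ℕ → α → W → ℝ)
    (_ : ∀ n ≤ L, ∀ a ∈ S n, ∑ ω, P ω * Real.exp (c * Y n a ω ^ 2) ≤ 2),
    ∃ Z : W → ℝ, (∀ ω, 1 ≤ Z ω) ∧
      (∀ n ≤ L, ∀ a ∈ S n, ∀ ω, |Y n a ω| ≤ Real.sqrt 2 ^ n * Z ω) ∧
      ∑ ω, P ω * Z ω ^ 2 ≤ C := by
  set s : ℝ := (64 * Real.log 2 + 1) / c with hs
  have hlog : 0 < Real.log 2 := Real.log_pos (by norm_num)
  have hs0 : 0 < s := by positivity
  refine ⟨1 + s + 4 / c, ?_, ?_⟩
  · have : 0 < 4 / c := by positivity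
    linarith
  intro W _ P hP h1 L α S hS Y hY
  set z : ℕ → α → W → ℝ := fun n a ω => max (Y n a ω ^ 2 / 2 ^ n - s) 0 with hz
  have hz0 : ∀ n a ω, 0 ≤ z n a ω := fun n a ω => le_max_right _ _
  set Z2 : W → ℝ := fun ω => (1 + s) + ∑ n ∈ range (L + 1), ∑ a ∈ S n, z n a ω with hZ2
  have hsum0 : ∀ ω, 0 ≤ ∑ n ∈ range (L + 1), ∑ a ∈ S n, z n a ω :=
    fun ω => sum_nonneg fun n _ => sum_nonneg fun a _ => hz0 n a ω
  have hZ2p : ∀ ω, 1 ≤ Z2 ω := fun ω => by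
    have := hsum0 ω
    simp only [hZ2]
    linarith
  have hsq : ∀ ω, Real.sqrt (Z2 ω) ^ 2 = Z2 ω := fun ω => Real.sq_sqrt (by linarith [hZ2p ω])
  refine ⟨fun ω => Real.sqrt (Z2 ω), fun ω => Real.one_le_sqrt.2 (hZ2p ω), ?_, ?_⟩
  · intro n hn a ha ω
    have h2 : z n a ω ≤ ∑ n ∈ range (L + 1), ∑ a ∈ S n, z n a ω := by
      refine le_trans (single_le_sum (f := fun a => z n a ω) (fun a _ => hz0 n a ω) ha) ?_
      exact single_le_sum (f := fun n => ∑ a ∈ S n, z n a ω)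
        (fun n _ => sum_nonneg fun a _ => hz0 n a ω) (mem_range.2 (by omega))
    have h3 : Y n a ω ^ 2 / 2 ^ n - s ≤ z n a ω := le_max_left _ _
    have h4 : Y n a ω ^ 2 / 2 ^ n ≤ Z2 ω := by
      simp only [hZ2]
      linarith
    rw [div_le_iff₀ (by positivity)] at h4
    have h5 : (Real.sqrt 2 ^ n * Real.sqrt (Z2 ω)) ^ 2 = Z2 ω * 2 ^ n := by
      rw [mul_pow, hsq, ← pow_mul, mul_comm n 2, pow_mul, Real.sq_sqrt (by norm_num)]
      ring
    apply abs_le_of_sq_le_sq _ (by positivity)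
    rw [h5]
    exact h4
  · simp only [hsq]
    simp only [hZ2]
    rw [E_double P h1]
    have hE : ∀ n ≤ L, ∀ a ∈ S n, ∑ ω, P ω * z n a ω ≤
        2 * Real.exp (-((64 * Real.log 2 + 1) * 2 ^ n)) / (c * 2 ^ n) := by
      intro n hn a ha
      have hcn : 0 < c * 2 ^ n := by positivity
      have hpt : ∀ ω, z n a ω ≤ Real.exp (c * Y n a ω ^ 2) *
          (Real.exp (-((64 * Real.log 2 + 1) * 2 ^ n)) / (c * 2 ^ n)) := by
        intro ω
        rcases le_total (Y n a ω ^ 2 / 2 ^ n - s) 0 with h | h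
        · have : z n a ω = 0 := max_eq_right h
          rw [this]
          positivity
        · have h2 : z n a ω = Y n a ω ^ 2 / 2 ^ n - s := max_eq_left h
          have h3 : c * Y n a ω ^ 2 + -((64 * Real.log 2 + 1) * 2 ^ n) = c * 2 ^ n * z n a ω := by
            rw [h2, hs]
            field_simp
            ring
          rw [← mul_div_assoc, ← Real.exp_add, h3, le_div_iff₀ hcn]
          have h4 := Real.add_one_le_exp (c * 2 ^ n * z n a ω)
          linarith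
      calc ∑ ω, P ω * z n a ω ≤ ∑ ω, P ω * (Real.exp (c * Y n a ω ^ 2) *
          (Real.exp (-((64 * Real.log 2 + 1) * 2 ^ n)) / (c * 2 ^ n))) :=
            sum_le_sum fun ω _ => mul_le_mul_of_nonneg_left (hpt ω) (hP ω)
        _ = (∑ ω, P ω * Real.exp (c * Y n a ω ^ 2)) *
          (Real.exp (-((64 * Real.log 2 + 1) * 2 ^ n)) / (c * 2 ^ n)) := by
            rw [sum_mul]
            exact sum_congr rfl fun ω _ => by ring
        _ ≤ 2 * (Real.exp (-((64 * Real.log 2 + 1) * 2 ^ n)) / (c * 2 ^ n)) :=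
            mul_le_mul_of_nonneg_right (hY n hn a ha) (by positivity)
        _ = _ := by ring
    have hlev : ∀ n ∈ range (L + 1), ∑ a ∈ S n, ∑ ω, P ω * z n a ω ≤ 2 / c * (1 / 2) ^ n := by
      intro n hn
      have hnL : n ≤ L := by
        have := mem_range.1 hn
        omega
      have h2 : ∑ a ∈ S n, ∑ ω, P ω * z n a ω ≤ (S n).card •
          (2 * Real.exp (-((64 * Real.log 2 + 1) * 2 ^ n)) / (c * 2 ^ n)) :=
        sum_le_card_nsmul _ _ _ fun a ha => hE n hnL a ha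
      refine h2.trans ?_
      rw [nsmul_eq_mul]
      have h3 : ((S n).card : ℝ) ≤ Real.exp (64 * Real.log 2 * 2 ^ n) := by
        have h4 : ((S n).card : ℝ) ≤ (2 : ℝ) ^ 2 ^ (n + 6) := by exact_mod_cast hS n hnL
        refine h4.trans (le_of_eq ?_)
        rw [two_pow_eq_exp]
        congr 1
        push_cast
        rw [pow_add]
        ring
      have h5 : 0 ≤ 2 * Real.exp (-((64 * Real.log 2 + 1) * 2 ^ n)) / (c * 2 ^ n) := by positivity
      refine (mul_le_mul_of_nonneg_right h3 h5).trans ?_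
      have h6 : Real.exp (64 * Real.log 2 * 2 ^ n) *
          (2 * Real.exp (-((64 * Real.log 2 + 1) * 2 ^ n)) / (c * 2 ^ n)) =
          2 / c * (1 / 2) ^ n * Real.exp (-(2 ^ n)) := by
        have h7 : Real.exp (-(2 ^ n)) = Real.exp (64 * Real.log 2 * 2 ^ n) *
            Real.exp (-((64 * Real.log 2 + 1) * 2 ^ n)) := by
          rw [← Real.exp_add]
          congr 1
          ring
        rw [h7, one_div, inv_pow]
        field_simp
      rw [h6]
      have h8 : Real.exp (-(2 ^ n)) ≤ 1 := by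
        rw [Real.exp_le_one_iff]
        have : (0 : ℝ) ≤ 2 ^ n := by positivity
        linarith
      have h9 : (0 : ℝ) ≤ 2 / c * (1 / 2) ^ n := by positivity
      calc 2 / c * (1 / 2) ^ n * Real.exp (-(2 ^ n)) ≤ 2 / c * (1 / 2) ^ n * 1 :=
            mul_le_mul_of_nonneg_left h8 h9
        _ = _ := mul_one _
    have hfin := sum_le_sum hlev
    rw [← mul_sum] at hfin
    have h10 := mul_le_mul_of_nonneg_left (geom_half_le L) (by positivity : 0 ≤ 2 / c)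
    have h11 : 2 / c * 2 = 4 / c := by ring
    linarith

theorem maxr : ∃ C : ℝ, 1 ≤ C ∧ ∀ {W : Type} [Fintype W] (P : W → ℝ)
    (_ : ∀ ω, 0 ≤ P ω) (_ : ∑ ω, P ω = 1) (L : ℕ) {α : Type} (S : ℕ → Finset α)
    (_ : ∀ n ≤ L, (S n).card ≤ 2 ^ 2 ^ (n + 1)) (Y : ℕ → α → W → ℝ)
    (_ : ∀ n ≤ L, ∀ a ∈ S n, ∑ ω, P ω * Y n a ω ^ 2 ≤ 81 * Real.exp (-20 * 2 ^ n)),
    ∃ Z : W → ℝ, (∀ ω, 1 ≤ Z ω) ∧
      (∀ n ≤ L, ∀ a ∈ S n, ∀ ω, |Y n a ω| ≤ Z ω / 4 ^ n) ∧
      ∑ ω, P ω * Z ω ^ 2 ≤ C := by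
  refine ⟨163, by norm_num, ?_⟩
  intro W _ P hP h1 L α S hS Y hY
  set z : ℕ → α → W → ℝ := fun n a ω => 16 ^ n * Y n a ω ^ 2 with hz
  have hz0 : ∀ n a ω, 0 ≤ z n a ω := fun n a ω => by
    simp only [hz]
    positivity
  set Z2 : W → ℝ := fun ω => 1 + ∑ n ∈ range (L + 1), ∑ a ∈ S n, z n a ω with hZ2
  have hsum0 : ∀ ω, 0 ≤ ∑ n ∈ range (L + 1), ∑ a ∈ S n, z n a ω :=
    fun ω => sum_nonneg fun n _ => sum_nonneg fun a _ => hz0 n a ω
  have hZ2p : ∀ ω, 1 ≤ Z2 ω := fun ω => by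
    have := hsum0 ω
    simp only [hZ2]
    linarith
  have hsq : ∀ ω, Real.sqrt (Z2 ω) ^ 2 = Z2 ω := fun ω => Real.sq_sqrt (by linarith [hZ2p ω])
  refine ⟨fun ω => Real.sqrt (Z2 ω), fun ω => Real.one_le_sqrt.2 (hZ2p ω), ?_, ?_⟩
  · intro n hn a ha ω
    have h2 : z n a ω ≤ ∑ n ∈ range (L + 1), ∑ a ∈ S n, z n a ω := by
      refine le_trans (single_le_sum (f := fun a => z n a ω) (fun a _ => hz0 n a ω) ha) ?_
      exact single_le_sum (f := fun n => ∑ a ∈ S n, z n a ω)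
        (fun n _ => sum_nonneg fun a _ => hz0 n a ω) (mem_range.2 (by omega))
    have h4 : z n a ω ≤ Z2 ω := by
      simp only [hZ2]
      linarith
    rw [le_div_iff₀ (by positivity)]
    have h5 : |Y n a ω| * 4 ^ n = |Y n a ω * 4 ^ n| := by
      rw [abs_mul, abs_of_pos (by positivity : (0 : ℝ) < 4 ^ n)]
    rw [h5]
    apply abs_le_of_sq_le_sq _ (Real.sqrt_nonneg _)
    rw [hsq]
    refine le_trans (le_of_eq ?_) h4
    simp only [hz]
    rw [mul_pow, ← pow_mul, mul_comm n 2, pow_mul]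
    norm_num
    ring
  · simp only [hsq]
    simp only [hZ2]
    rw [E_double P h1]
    have hlev : ∀ n ∈ range (L + 1), ∑ a ∈ S n, ∑ ω, P ω * z n a ω ≤ 81 * (1 / 2) ^ n := by
      intro n hn
      have hnL : n ≤ L := by
        have := mem_range.1 hn
        omega
      have hE : ∀ a ∈ S n, ∑ ω, P ω * z n a ω ≤ 16 ^ n * (81 * Real.exp (-20 * 2 ^ n)) := by
        intro a ha
        have h2 : ∑ ω, P ω * z n a ω = 16 ^ n * ∑ ω, P ω * Y n a ω ^ 2 := by
          rw [mul_sum]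
          refine sum_congr rfl fun ω _ => ?_
          simp only [hz]
          ring
        rw [h2]
        exact mul_le_mul_of_nonneg_left (hY n hnL a ha) (by positivity)
      refine (sum_le_card_nsmul _ _ _ hE).trans ?_
      rw [nsmul_eq_mul]
      have h3 : ((S n).card : ℝ) ≤ Real.exp (2 * 2 ^ n) := by
        have h4 : ((S n).card : ℝ) ≤ (2 : ℝ) ^ 2 ^ (n + 1) := by exact_mod_cast hS n hnL
        refine h4.trans ((two_pow_le_exp _).trans (le_of_eq ?_))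
        congr 1
        push_cast
        rw [pow_succ]
        ring
      have h5 : (0 : ℝ) ≤ 16 ^ n * (81 * Real.exp (-20 * 2 ^ n)) := by positivity
      refine (mul_le_mul_of_nonneg_right h3 h5).trans ?_
      have h6 : (16 : ℝ) ^ n = (1 / 2) ^ n * 2 ^ (5 * n) := by
        rw [pow_mul, ← mul_pow]
        norm_num
      have h7 : (2 : ℝ) ^ (5 * n) ≤ Real.exp (5 * 2 ^ n) := by
        refine (two_pow_le_exp _).trans (Real.exp_le_exp.2 ?_)
        push_cast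
        have : (n : ℝ) ≤ 2 ^ n := by exact_mod_cast (Nat.lt_two_pow_self (n := n)).le
        linarith
      have h8 : Real.exp (2 * 2 ^ n) * (16 ^ n * (81 * Real.exp (-20 * 2 ^ n))) ≤
          81 * (1 / 2) ^ n * (Real.exp (2 * 2 ^ n) * Real.exp (5 * 2 ^ n) * Real.exp (-20 * 2 ^ n)) := by
        rw [h6]
        have h9 : 0 ≤ 81 * (1 / 2 : ℝ) ^ n * (Real.exp (2 * 2 ^ n) * Real.exp (-20 * 2 ^ n)) := by
          positivity
        have h10 := mul_le_mul_of_nonneg_left h7 h9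
        calc _ = 81 * (1 / 2 : ℝ) ^ n * (Real.exp (2 * 2 ^ n) * Real.exp (-20 * 2 ^ n)) * 2 ^ (5 * n) := by
              ring
          _ ≤ _ := h10
          _ = _ := by ring
      refine h8.trans ?_
      rw [← Real.exp_add, ← Real.exp_add]
      have h11 : Real.exp (2 * 2 ^ n + 5 * 2 ^ n + -20 * 2 ^ n) ≤ 1 := by
        rw [Real.exp_le_one_iff]
        have : (0 : ℝ) ≤ 2 ^ n := by positivity
        linarith
      have h12 : (0 : ℝ) ≤ 81 * (1 / 2) ^ n := by positivity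
      calc _ ≤ 81 * (1 / 2 : ℝ) ^ n * 1 := mul_le_mul_of_nonneg_left h11 h12
        _ = _ := mul_one _
    have hfin := sum_le_sum hlev
    rw [← mul_sum] at hfin
    have h10 := geom_half_le L
    linarith

end IC65
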