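import Pool.Agent.IC65.Filt
import Pool.Agent.IC65.HWC
import Pool.Agent.IC65.HWD
import Pool.Agent.IC65.DetDefs
import Pool.Agent.IC65.Maxl

/-!
# IC65: the product space with the filtrations of the columns

`F i : Filt (p i) (A i) (k i)`; `Xc F m ω i = M_m^i(ω_i)`, `Ns`, `Es` the open / exceptional coordinates,
`Gc F L ω i = A_i(ω_i) - M_L^i(ω_i)`, `dk k ω i = 2^(k_i(ω_i))`, `same F m ω ω'`: the same atoms at level `m`.
-/

open Finset
open scoped RealInnerProductSpace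

noncomputable section

namespace IC65

variable {ι : Type} [Fintype ι] [DecidableEq ι] {Ω : ι → Type} [∀ i, Fintype (Ω i)]
  {E : Type} [NormedAddCommGroup E] [InnerProductSpace ℝ E]
  {p : ∀ i, Ω i → ℝ} {A : ∀ i, Ω i → E} {k : ∀ i, Ω i → ℕ}

def Xc (F : ∀ i, Filt (p i) (A i) (k i)) (m : ℕ) (ω : ∀ i, Ω i) (i : ι) : E := (F i).M m (ω i)

open Classical in
def Ns (F : ∀ i, Filt (p i) (A i) (k i)) (m : ℕ) (ω : ∀ i, Ω i) : Finset ι :=
  univ.filter fun i => (F i).N m (ω i)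

open Classical in
def Es (F : ∀ i, Filt (p i) (A i) (k i)) (m : ℕ) (ω : ∀ i, Ω i) : Finset ι :=
  univ.filter fun i => (F i).Ex m (ω i)

def Gc (F : ∀ i, Filt (p i) (A i) (k i)) (L : ℕ) (ω : ∀ i, Ω i) (i : ι) : E :=
  A i (ω i) - (F i).M L (ω i)

def dk (k : ∀ i, Ω i → ℕ) (ω : ∀ i, Ω i) (i : ι) : ℝ := 2 ^ k i (ω i)

def same (F : ∀ i, Filt (p i) (A i) (k i)) (m : ℕ) (ω ω' : ∀ i, Ω i) : Prop :=
  ∀ i, (F i).f m (ω i) = (F i).f m (ω' i)

/-- the hypotheses on the weights -/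
structure Wt (p : ∀ i, Ω i → ℝ) : Prop where
  pos : ∀ i a, 0 < p i a
  one : ∀ i, ∑ a, p i a = 1

theorem Wt.prod {p : ∀ i, Ω i → ℝ} (h : Wt p) : ∏ i, ∑ a, p i a = 1 := by simp [h.one]

theorem Wt.sum {p : ∀ i, Ω i → ℝ} (h : Wt p) : ∑ ω : ∀ i, Ω i, ∏ i, p i (ω i) = 1 := by
  have := Ep_one p
  rw [h.prod] at this
  simpa [Ep] using this

end IC65
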