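import Pool.Agent.IC65.AsmDefs

/-!
# IC65 module ASM-G: the last increment `G = A - M_L`, conditionally on the atoms of level `L`

`L ≥ (F i).L`; `Gc F L ω i` is centred subgaussian with parameter `15` on the atoms of level `L` (`fin_sg`);
the vectors `u`, `w`, `v` are functions of the atoms of level `L`.
* `asmG`: `hw_cond` with `s = 15` (`wn 15 u = 15 ‖u‖`), `maxl` with `c = 1/32` for `Qf/(15 ‖u‖ Vf)`; multiply `Z` by `15`.
* `asmC`: `lin_sq_cond` with `v_j = u_j v` (`⟨lin G u, v⟩ = ∑ ⟨G_j, u_j v⟩`, `∑ ‖u_j v‖² = ‖u‖² ‖v‖²`), `maxl`, `c = 1/8`.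
* `asmZ`: `ζ_i = |⟨G_i, M_L⟩|/‖M_L‖` (`0` if `M_L = 0`); on each atom `M_L` is constant, so `Sg` in the
  direction `M_L/‖M_L‖` and `mgf_sq` with `σ = 15` give `∑ p exp(ζ²/1800) ≤ 2`; `diag_exp`, `maxl`, `c = 1/1800`.
-/

open Finset
open scoped RealInnerProductSpace

noncomputable section

namespace IC65

namespace AsmGAux

theorem Qf_eq_zero_left {ι : Type*} [Fintype ι] {E : Type*} [NormedAddCommGroup E]
    [InnerProductSpace ℝ E] (X : ι → E) (u w : EuclideanSpace ℝ ι) (h : ‖u‖ = 0) :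
    Qf X u w = 0 := by
  have h1 : u = 0 := norm_eq_zero.1 h
  subst h1
  simp [Qf]

theorem Qf_eq_zero_right {ι : Type*} [Fintype ι] {E : Type*} [NormedAddCommGroup E]
    [InnerProductSpace ℝ E] (X : ι → E) (u w : EuclideanSpace ℝ ι) (h : Vf X w = 0) :
    Qf X u w = 0 := by
  have h1 : ‖lin X w‖ ≤ 0 := h ▸ norm_lin_le_Vf X w
  have h2 : wn (len X) w ≤ 0 := h ▸ wn_le_Vf X w
  have h3 : lin X w = 0 := norm_le_zero_iff.1 h1
  have h4 : wn (len X) w = 0 := le_antisymm h2 (wn_nonneg _ _)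
  have h5 : ∑ i, (len X i * w i) ^ 2 = 0 := by rw [← wn_sq, h4]; simp
  have h6 := (sum_eq_zero_iff_of_nonneg (fun i _ => sq_nonneg (len X i * w i))).1 h5
  unfold Qf
  rw [h3, inner_zero_right]
  have h7 : ∑ i, u i * w i * ‖X i‖ ^ 2 = 0 := by
    apply sum_eq_zero
    intro i hi
    have h8 : len X i * w i = 0 := pow_eq_zero_iff (two_ne_zero) |>.1 (h6 i hi)
    have h9 : u i * w i * ‖X i‖ ^ 2 = u i * ‖X i‖ * (len X i * w i) := by
      unfold len; ring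
    rw [h9, h8, mul_zero]
  rw [h7, sub_zero]

/-- a bound for a quotient gives a bound for the numerator -/
theorem of_div {a b c r : ℝ} (hb : 0 ≤ b) (h0 : b = 0 → a = 0) (hc : |a / b| ≤ c)
    (hr : c * b ≤ r) : |a| ≤ r := by
  rcases hb.eq_or_lt with h | h
  · rw [h0 h.symm, abs_zero]
    refine le_trans ?_ hr
    rw [← h, mul_zero]
  · rw [abs_div, abs_of_pos h, div_le_iff₀ h] at hc
    exact hc.trans hr

theorem one_le_15 {C : ℝ} (h : 1 ≤ C) : 1 ≤ 225 * C := by linarith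

variable {ι : Type} [Fintype ι] [DecidableEq ι] {Ω : ι → Type} [∀ i, Fintype (Ω i)]

theorem Ep_15 (p : ∀ i, Ω i → ℝ) (Z : (∀ i, Ω i) → ℝ) {C : ℝ}
    (h : ∑ ω : ∀ i, Ω i, (∏ i, p i (ω i)) * Z ω ^ 2 ≤ C) :
    Ep p (fun ω => (15 * Z ω) ^ 2) ≤ 225 * C := by
  have h1 : Ep p (fun ω => (15 * Z ω) ^ 2) = 225 * ∑ ω : ∀ i, Ω i, (∏ i, p i (ω i)) * Z ω ^ 2 := by
    unfold Ep
    rw [mul_sum]
    apply sum_congr rfl
    intro ω _
    ring
  rw [h1]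
  linarith

/-- one column -/
theorem zet_exp {Ω : Type} [Fintype Ω] {E : Type} [NormedAddCommGroup E]
    [InnerProductSpace ℝ E] {p : Ω → ℝ} {A : Ω → E} {k : Ω → ℕ} (hp : ∀ a, 0 < p a)
    (h1 : ∑ a, p a = 1) (F : Filt p A k) (L : ℕ) (hL : F.L ≤ L) :
    ∑ a, p a * Real.exp (1 / 1800 * (|⟪A a - F.M L a, F.M L a⟫| / ‖F.M L a‖) ^ 2) ≤ 2 := by
  classical
  have h2 : ∀ g : Ω → ℝ, ∑ a, g a =
      ∑ s ∈ univ.image (F.f L), ∑ a with F.f L a = s, g a := fun g =>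
    (sum_fiberwise_of_maps_to (fun a _ => mem_image_of_mem (F.f L) (mem_univ a)) _).symm
  have h3 : ∀ s ∈ univ.image (F.f L), ∑ a with F.f L a = s,
      p a * Real.exp (1 / 1800 * (|⟪A a - F.M L a, F.M L a⟫| / ‖F.M L a‖) ^ 2) ≤
        2 * ∑ a with F.f L a = s, p a := by
    intro s hs
    obtain ⟨a₀, _, rfl⟩ := mem_image.1 hs
    have hM : ∀ a ∈ univ.filter (fun a => F.f L a = F.f L a₀), F.M L a = F.M L a₀ := by
      intro a ha
      exact F.M_congr L a a₀ (mem_filter.1 ha).2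
    set e : E := ‖F.M L a₀‖⁻¹ • F.M L a₀ with he
    have hen : ‖e‖ ≤ 1 := by
      rw [he, norm_smul, norm_inv, norm_norm]
      exact inv_mul_le_one
    have h4 : ∑ a with F.f L a = F.f L a₀,
        p a * Real.exp (1 / 1800 * (|⟪A a - F.M L a, F.M L a⟫| / ‖F.M L a‖) ^ 2) =
        ∑ a with F.f L a = F.f L a₀,
          p a * Real.exp (⟪A a - F.M L a, e⟫ ^ 2 / (8 * 15 ^ 2)) := by
      apply sum_congr rfl
      intro a ha
      congr 2
      rw [hM a ha, he, real_inner_smul_right, div_pow, sq_abs]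
      rw [mul_pow, inv_pow]
      ring
    rw [h4]
    apply mgf_sq _ _ _ (fun a _ => (hp a).le) (by norm_num)
    intro l
    have h5 := F.fin_sg L hL a₀ (l • e)
    have h6 : ∑ a with F.f L a = F.f L a₀, p a * Real.exp (l * ⟪A a - F.M L a, e⟫) ≤
        (∑ a with F.f L a = F.f L a₀, p a) * Real.exp (15 ^ 2 * ‖l • e‖ ^ 2) := by
      convert h5 using 3
      exact congrArg Real.exp (real_inner_smul_right _ _ _).symm
    refine h6.trans ?_
    apply mul_le_mul_of_nonneg_left _ (sum_nonneg fun a _ => (hp a).le)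
    apply Real.exp_le_exp.2
    rw [norm_smul, mul_pow, Real.norm_eq_abs, sq_abs]
    have h7 : ‖e‖ ^ 2 ≤ 1 := pow_le_one₀ (norm_nonneg e) hen
    have h8 : 0 ≤ l ^ 2 := sq_nonneg l
    nlinarith
  calc _ = _ := h2 _
    _ ≤ ∑ s ∈ univ.image (F.f L), 2 * ∑ a with F.f L a = s, p a := sum_le_sum h3
    _ = 2 * ∑ a, p a := by rw [← mul_sum, ← h2]
    _ = 2 := by rw [h1, mul_one]

end AsmGAux

open AsmGAux

theorem asmG : ∃ C : ℝ, 1 ≤ C ∧ ∀ {ι : Type} [Fintype ι] [DecidableEq ι] {Ω : ι → Type}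
    [∀ i, Fintype (Ω i)] {E : Type} [NormedAddCommGroup E] [InnerProductSpace ℝ E]
    {p : ∀ i, Ω i → ℝ} {A : ∀ i, Ω i → E} {k : ∀ i, Ω i → ℕ} (_ : Wt p)
    (F : ∀ i, Filt (p i) (A i) (k i)) (L : ℕ) (_ : ∀ i, (F i).L ≤ L)
    {α : Type} (S : ℕ → Finset α) (_ : ∀ n ≤ L, (S n).card ≤ 2 ^ 2 ^ (n + 6))
    (u w : ℕ → α → (∀ i, Ω i) → EuclideanSpace ℝ ι)
    (_ : ∀ n a ω ω', same F L ω ω' → u n a ω = u n a ω')
    (_ : ∀ n a ω ω', same F L ω ω' → w n a ω = w n a ω'),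
    ∃ Z : (∀ i, Ω i) → ℝ, (∀ ω, 1 ≤ Z ω) ∧
      (∀ n ≤ L, ∀ a ∈ S n, ∀ ω, |Qf (Gc F L ω) (u n a ω) (w n a ω)| ≤
        Real.sqrt 2 ^ n * Z ω * ‖u n a ω‖ * Vf (Gc F L ω) (w n a ω)) ∧
      Ep p (fun ω => Z ω ^ 2) ≤ C := by
  obtain ⟨C, hC, hmax⟩ := maxl (c := 1 / 32) (by norm_num)
  refine ⟨225 * C, one_le_15 hC, ?_⟩
  intro ι _ _ Ω _ E _ _ p A k hW F L hL α S hS u w hu hw
  obtain ⟨Z, hZ1, hZ2, hZ3⟩ := hmax (W := ∀ i, Ω i) (fun ω => ∏ i, p i (ω i))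
    (fun ω => prod_nonneg fun i _ => (hW.pos i _).le) hW.sum L S hS
    (fun n a ω => Qf (Gc F L ω) (u n a ω) (w n a ω) /
      (15 * ‖u n a ω‖ * Vf (Gc F L ω) (w n a ω))) (by
      intro n hn a ha
      have h := hw_cond p (fun i a => (hW.pos i a).le) (fun i => (F i).f L)
        (fun i b => A i b - (F i).M L b) (fun _ _ => 15) (fun _ _ => by norm_num)
        (fun _ _ _ _ => rfl) (fun i a => by convert (F i).fin_sg L (hL i) a)
        (u n a) (w n a) (fun ω ω' h => hu n a ω ω' h) (fun ω ω' h => hw n a ω ω' h)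
      rw [hW.prod, mul_one] at h
      refine le_trans (le_of_eq ?_) h
      unfold Ep
      apply sum_congr rfl
      intro ω _
      congr 2
      have h15 : wn (fun _ : ι => (15 : ℝ)) (u n a ω) ^ 2 = (15 * ‖u n a ω‖) ^ 2 := by
        have := wn_smul_left 15 (fun _ : ι => (1 : ℝ)) (u n a ω)
        simp only [mul_one] at this
        rw [this, wn_one]
        norm_num
      rw [h15]
      show 1 / 32 * (Qf (fun i => A i (ω i) - (F i).M L (ω i)) (u n a ω) (w n a ω) /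
        (15 * ‖u n a ω‖ * Vf (fun i => A i (ω i) - (F i).M L (ω i)) (w n a ω))) ^ 2 = _
      rw [div_pow, mul_pow (15 * ‖u n a ω‖), mul_assoc 32, one_div_mul_eq_div, div_div,
        mul_comm _ (32 : ℝ)])
  refine ⟨fun ω => 15 * Z ω, fun ω => by linarith [hZ1 ω], ?_, Ep_15 p Z hZ3⟩
  intro n hn a ha ω
  have hV := Vf_nonneg (Gc F L ω) (w n a ω)
  refine of_div (b := 15 * ‖u n a ω‖ * Vf (Gc F L ω) (w n a ω)) (by positivity) ?_
    (hZ2 n hn a ha ω) (le_of_eq (by ring))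
  intro h0
  rcases mul_eq_zero.1 h0 with h | h
  · apply Qf_eq_zero_left
    linarith
  · exact Qf_eq_zero_right _ _ _ h

theorem asmC : ∃ C : ℝ, 1 ≤ C ∧ ∀ {ι : Type} [Fintype ι] [DecidableEq ι] {Ω : ι → Type}
    [∀ i, Fintype (Ω i)] {E : Type} [NormedAddCommGroup E] [InnerProductSpace ℝ E]
    {p : ∀ i, Ω i → ℝ} {A : ∀ i, Ω i → E} {k : ∀ i, Ω i → ℕ} (_ : Wt p)
    (F : ∀ i, Filt (p i) (A i) (k i)) (L : ℕ) (_ : ∀ i, (F i).L ≤ L)
    {α : Type} (S : ℕ → Finset α) (_ : ∀ n ≤ L, (S n).card ≤ 2 ^ 2 ^ (n + 6))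
    (u : ℕ → α → (∀ i, Ω i) → EuclideanSpace ℝ ι) (v : ℕ → α → (∀ i, Ω i) → E)
    (_ : ∀ n a ω ω', same F L ω ω' → u n a ω = u n a ω')
    (_ : ∀ n a ω ω', same F L ω ω' → v n a ω = v n a ω'),
    ∃ Z : (∀ i, Ω i) → ℝ, (∀ ω, 1 ≤ Z ω) ∧
      (∀ n ≤ L, ∀ a ∈ S n, ∀ ω, |⟪lin (Gc F L ω) (u n a ω), v n a ω⟫| ≤
        Real.sqrt 2 ^ n * Z ω * ‖u n a ω‖ * ‖v n a ω‖) ∧
      Ep p (fun ω => Z ω ^ 2) ≤ C := by
  obtain ⟨C, hC, hmax⟩ := maxl (c := 1 / 8) (by norm_num)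
  refine ⟨225 * C, one_le_15 hC, ?_⟩
  intro ι _ _ Ω _ E _ _ p A k hW F L hL α S hS u v hu hv
  obtain ⟨Z, hZ1, hZ2, hZ3⟩ := hmax (W := ∀ i, Ω i) (fun ω => ∏ i, p i (ω i))
    (fun ω => prod_nonneg fun i _ => (hW.pos i _).le) hW.sum L S hS
    (fun n a ω => ⟪lin (Gc F L ω) (u n a ω), v n a ω⟫ /
      (15 * ‖u n a ω‖ * ‖v n a ω‖)) (by
      intro n hn a ha
      have h := lin_sq_cond p (fun i a => (hW.pos i a).le) (fun i => (F i).f L)
        (fun i b => A i b - (F i).M L b) (fun _ _ => 15) (fun _ _ => by norm_num)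
        (fun _ _ _ _ => rfl) (fun i a => by convert (F i).fin_sg L (hL i) a)
        (fun ω i => u n a ω i • v n a ω)
        (fun ω ω' h => by rw [hu n a ω ω' h, hv n a ω ω' h])
      rw [hW.prod, mul_one] at h
      refine le_trans (le_of_eq ?_) h
      unfold Ep
      apply sum_congr rfl
      intro ω _
      congr 2
      have h15 : ∑ i, (15 : ℝ) ^ 2 * ‖u n a ω i • v n a ω‖ ^ 2 =
          (15 * ‖u n a ω‖ * ‖v n a ω‖) ^ 2 := by
        rw [mul_pow, mul_pow, EuclideanSpace.norm_sq_eq, mul_sum, sum_mul]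
        apply sum_congr rfl
        intro i _
        rw [norm_smul, mul_pow]
        ring
      have hn' : ∑ i, ⟪A i (ω i) - (F i).M L (ω i), u n a ω i • v n a ω⟫ =
          ⟪lin (Gc F L ω) (u n a ω), v n a ω⟫ := by
        unfold lin
        rw [sum_inner]
        apply sum_congr rfl
        intro i _
        rw [real_inner_smul_left, real_inner_smul_right]
        rfl
      rw [h15, hn', div_pow, one_div_mul_eq_div, div_div, mul_comm _ (8 : ℝ)])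
  refine ⟨fun ω => 15 * Z ω, fun ω => by linarith [hZ1 ω], ?_, Ep_15 p Z hZ3⟩
  intro n hn a ha ω
  refine of_div (b := 15 * ‖u n a ω‖ * ‖v n a ω‖) (by positivity) ?_
    (hZ2 n hn a ha ω) (le_of_eq (by ring))
  intro h0
  rcases mul_eq_zero.1 h0 with h | h
  · have h1 : ‖u n a ω‖ = 0 := by linarith
    rw [norm_eq_zero.1 h1]
    simp
  · rw [norm_eq_zero.1 h, inner_zero_right]

/-- the normalised diagonal term -/
def zet {ι : Type} {Ω : ι → Type} [∀ i, Fintype (Ω i)] {E : Type} [NormedAddCommGroup E]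
    [InnerProductSpace ℝ E] {p : ∀ i, Ω i → ℝ} {A : ∀ i, Ω i → E} {k : ∀ i, Ω i → ℕ}
    (F : ∀ i, Filt (p i) (A i) (k i)) (L : ℕ) (ω : ∀ i, Ω i) (i : ι) : ℝ :=
  |⟪Gc F L ω i, (F i).M L (ω i)⟫| / ‖(F i).M L (ω i)‖

theorem asmZ : ∃ C : ℝ, 1 ≤ C ∧ ∀ {ι : Type} [Fintype ι] [DecidableEq ι] {Ω : ι → Type}
    [∀ i, Fintype (Ω i)] {E : Type} [NormedAddCommGroup E] [InnerProductSpace ℝ E]
    {p : ∀ i, Ω i → ℝ} {A : ∀ i, Ω i → E} {k : ∀ i, Ω i → ℕ} (_ : Wt p)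
    (F : ∀ i, Filt (p i) (A i) (k i)) (L : ℕ) (_ : ∀ i, (F i).L ≤ L)
    (S : ℕ → Finset (EuclideanSpace ℝ ι)) (_ : ∀ n ≤ L, (S n).card ≤ 2 ^ 2 ^ (n + 6)),
    ∃ Z : (∀ i, Ω i) → ℝ, (∀ ω, 1 ≤ Z ω) ∧
      (∀ n ≤ L, ∀ u ∈ S n, ∀ ω, wn (zet F L ω) u ≤ Real.sqrt 2 ^ n * Z ω * ‖u‖) ∧
      Ep p (fun ω => Z ω ^ 2) ≤ C := by
  obtain ⟨C, hC, hmax⟩ := maxl (c := 1 / 1800) (by norm_num)
  refine ⟨C, hC, ?_⟩
  intro ι _ _ Ω _ E _ _ p A k hW F L hL S hS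
  obtain ⟨Z, hZ1, hZ2, hZ3⟩ := hmax (W := ∀ i, Ω i) (fun ω => ∏ i, p i (ω i))
    (fun ω => prod_nonneg fun i _ => (hW.pos i _).le) hW.sum L S hS
    (fun n u ω => wn (zet F L ω) u / ‖u‖) (by
      intro n hn u hu
      have h := diag_exp p (fun i a => (hW.pos i a).le) hW.one
        (fun i a => |⟪A i a - (F i).M L a, (F i).M L a⟫| / ‖(F i).M L a‖)
        (c := 1 / 1800) (by norm_num)
        (fun i => zet_exp (hW.pos i) (hW.one i) (F i) L (hL i)) u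
      refine le_trans (le_of_eq ?_) h
      unfold Ep
      apply sum_congr rfl
      intro ω _
      congr 3
      rw [div_pow]
      rfl)
  refine ⟨Z, hZ1, ?_, hZ3⟩
  intro n hn u hu ω
  have h1 := wn_nonneg (zet F L ω) u
  rw [← abs_of_nonneg h1]
  refine of_div (b := ‖u‖) (norm_nonneg u) ?_ (hZ2 n hn u hu ω) le_rfl
  intro h0
  have h1 : u = 0 := norm_eq_zero.1 h0
  subst h1
  simp [wn]

end IC65
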