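import Pool.Agent.IC65.AsmDefs

/-!
# IC65 module ASM-Q: the forms `Q_m`, for deterministic vectors

`maxl` with `W = ∀ i, Ω i`, `P ω = ∏ p_i(ω_i)`, `c = 1/32` and
`Y n (u,w) ω = Qf (Xc F n ω) u w/(‖u‖ Vf (Xc F n ω) w)`; the hypothesis is `hw` with `s = 1` (`(F i).sg n`, `wn 1 u = ‖u‖`).
If `‖u‖ Vf = 0` then `Qf = 0`.
-/

open Finset
open scoped RealInnerProductSpace

noncomputable section

namespace IC65

private theorem asmQ_zero {ι : Type} [Fintype ι] {E : Type} [NormedAddCommGroup E]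
    [InnerProductSpace ℝ E] (X : ι → E) (u w : EuclideanSpace ℝ ι) (h : ‖u‖ * Vf X w = 0) :
    Qf X u w = 0 := by
  rcases mul_eq_zero.1 h with h1 | h1
  · have h2 : u = 0 := norm_eq_zero.1 h1
    subst h2
    simp [Qf]
  · have h2 : ‖lin X w‖ = 0 := le_antisymm ((norm_lin_le_Vf X w).trans h1.le) (norm_nonneg _)
    have h3 : wn (len X) w = 0 := le_antisymm ((wn_le_Vf X w).trans h1.le) (wn_nonneg _ _)
    have h4 : ∑ i, (len X i * w i) ^ 2 = 0 := by rw [← wn_sq, h3]; norm_num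
    have h5 : ∀ i, len X i * w i = 0 := by
      intro i
      have := (sum_eq_zero_iff_of_nonneg fun i _ => sq_nonneg _).1 h4 i (mem_univ i)
      exact pow_eq_zero_iff (two_ne_zero) |>.1 this
    rw [Qf, norm_eq_zero.1 h2, inner_zero_right, zero_sub, neg_eq_zero]
    refine sum_eq_zero fun i _ => ?_
    have h6 := h5 i
    unfold len at h6
    calc u i * w i * ‖X i‖ ^ 2 = u i * ‖X i‖ * (‖X i‖ * w i) := by ring
      _ = 0 := by rw [h6, mul_zero]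

theorem asmQ : ∃ C : ℝ, 1 ≤ C ∧ ∀ {ι : Type} [Fintype ι] [DecidableEq ι] {Ω : ι → Type}
    [∀ i, Fintype (Ω i)] {E : Type} [NormedAddCommGroup E] [InnerProductSpace ℝ E]
    {p : ∀ i, Ω i → ℝ} {A : ∀ i, Ω i → E} {k : ∀ i, Ω i → ℕ} (_ : Wt p)
    (F : ∀ i, Filt (p i) (A i) (k i)) (L : ℕ)
    (S : ℕ → Finset (EuclideanSpace ℝ ι × EuclideanSpace ℝ ι))
    (_ : ∀ n ≤ L, (S n).card ≤ 2 ^ 2 ^ (n + 6)),
    ∃ Z : (∀ i, Ω i) → ℝ, (∀ ω, 1 ≤ Z ω) ∧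
      (∀ n ≤ L, ∀ a ∈ S n, ∀ ω, |Qf (Xc F n ω) a.1 a.2| ≤
        Real.sqrt 2 ^ n * Z ω * ‖a.1‖ * Vf (Xc F n ω) a.2) ∧
      Ep p (fun ω => Z ω ^ 2) ≤ C := by
  obtain ⟨C, hC, hm⟩ := maxl (c := 1 / 32) (by norm_num)
  refine ⟨C, hC, ?_⟩
  intro ι _ _ Ω _ E _ _ p A k hp F L S hS
  have hY : ∀ n ≤ L, ∀ a ∈ S n, ∑ ω : ∀ i, Ω i, (∏ i, p i (ω i)) *
      Real.exp (1 / 32 * (Qf (Xc F n ω) a.1 a.2 / (‖a.1‖ * Vf (Xc F n ω) a.2)) ^ 2) ≤ 2 := by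
    intro n hn a ha
    have h1 := hw p (fun i b => (hp.pos i b).le) (fun i => (F i).M n) (fun _ => 1)
      (fun _ => one_pos) (fun i => (F i).sg n) a.1 a.2
    rw [hp.prod, mul_one, wn_one] at h1
    refine le_trans (le_of_eq ?_) h1
    unfold Ep
    refine sum_congr rfl fun ω _ => ?_
    congr 2
    have e : Xc F n ω = fun i => (F i).M n (ω i) := rfl
    rw [e, div_pow, mul_pow]
    ring
  obtain ⟨Z, hZ1, hZ2, hZ3⟩ := hm (W := ∀ i, Ω i) (fun ω => ∏ i, p i (ω i))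
    (fun ω => prod_nonneg fun i _ => (hp.pos i _).le) hp.sum L S hS
    (fun n a ω => Qf (Xc F n ω) a.1 a.2 / (‖a.1‖ * Vf (Xc F n ω) a.2)) hY
  refine ⟨Z, hZ1, fun n hn a ha ω => ?_, hZ3⟩
  by_cases h0 : ‖a.1‖ * Vf (Xc F n ω) a.2 = 0
  · rw [asmQ_zero _ _ _ h0, abs_zero]
    have h1 := hZ1 ω
    have h2 := Vf_nonneg (Xc F n ω) a.2
    positivity
  · have h1 : 0 < ‖a.1‖ * Vf (Xc F n ω) a.2 :=
      lt_of_le_of_ne (mul_nonneg (norm_nonneg _) (Vf_nonneg _ _)) (Ne.symm h0)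
    have h2 := hZ2 n hn a ha ω
    rw [abs_div, abs_of_pos h1, div_le_iff₀ h1] at h2
    calc |Qf (Xc F n ω) a.1 a.2| ≤ Real.sqrt 2 ^ n * Z ω * (‖a.1‖ * Vf (Xc F n ω) a.2) := h2
      _ = _ := by ring

end IC65
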