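import Pool.Agent.IC65.AsmDefs

/-!
# IC65 module ASM-X: the exceptional columns

`ξ_i = if Ex then ‖M_m‖ else 0` satisfies `∑ p exp(ξ²/40) ≤ 1 + exp(-20 · 2^m) ≤ 2` (`Ex_exp`); `diag_exp` with
`c = 1/40` gives the exponential moment of `wn (xe ..) u/‖u‖`; `maxl` with the index set
`S n × {0,…,n}` (`(n+1) card ≤ 2^(2^(n+6))`).

`asmR`: `E wn (ind (Es F n ω)) y ^2 = ∑ y_i² P(Ex) ≤ ‖y‖² exp(-20 · 2^n)`,
`E wn (xe ..) y^2 ≤ ‖y‖² · 40 E[exp(ξ²/40) 1_Ex] ≤ 40 ‖y‖² exp(-20 · 2^n)` (`t ≤ 40 exp(t/40)`), at level `n` and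
`n+1`; `Ep_single` for the functions of one coordinate; `maxr` for the three families divided by `Γ`
(if `Γ = 0` then `y = 0`).
-/

open Finset
open scoped RealInnerProductSpace

noncomputable section

namespace IC65

namespace AsmXAux

variable {ι : Type} [Fintype ι] [DecidableEq ι] {Ω : ι → Type} [∀ i, Fintype (Ω i)]
  {E : Type} [NormedAddCommGroup E] [InnerProductSpace ℝ E]
  {p : ∀ i, Ω i → ℝ} {A : ∀ i, Ω i → E} {k : ∀ i, Ω i → ℕ}

open Classical in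
/-- lengths of the exceptional columns as functions of one coordinate -/
def xi (F : ∀ i, Filt (p i) (A i) (k i)) (m : ℕ) (i : ι) (a : Ω i) : ℝ :=
  if (F i).Ex m a then ‖(F i).M m a‖ else 0

open Classical in
/-- indicators of the exceptional columns -/
def ki (F : ∀ i, Filt (p i) (A i) (k i)) (m : ℕ) (i : ι) (a : Ω i) : ℝ :=
  if (F i).Ex m a then 1 else 0

theorem xe_eq (F : ∀ i, Filt (p i) (A i) (k i)) (m : ℕ) (ω : ∀ i, Ω i) :
    xe (Es F m ω) (Xc F m ω) = fun i => xi F m i (ω i) := by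
  classical
  funext i
  unfold xe xi Es Xc
  by_cases h : (F i).Ex m (ω i)
  · rw [if_pos (by simp [h]), if_pos h]
  · rw [if_neg (by simp [h]), if_neg h]

theorem ind_eq (F : ∀ i, Filt (p i) (A i) (k i)) (m : ℕ) (ω : ∀ i, Ω i) :
    ind (Es F m ω) = fun i => ki F m i (ω i) := by
  classical
  funext i
  unfold ind ki Es
  by_cases h : (F i).Ex m (ω i)
  · rw [if_pos (by simp [h]), if_pos h]
  · rw [if_neg (by simp [h]), if_neg h]

theorem exp_xi (hW : Wt p) (F : ∀ i, Filt (p i) (A i) (k i)) (m : ℕ) (i : ι) :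
    ∑ a, p i a * Real.exp (1 / 40 * xi F m i a ^ 2) ≤ 2 := by
  classical
  have h1 := (F i).Ex_exp m
  have h2 : Real.exp (-20 * 2 ^ m) ≤ 1 := by
    apply Real.exp_le_one_iff.2
    have : (0 : ℝ) < 2 ^ m := by positivity
    linarith
  have h3 : ∀ a, p i a * Real.exp (1 / 40 * xi F m i a ^ 2) ≤
      p i a + p i a * (if (F i).Ex m a then Real.exp (‖(F i).M m a‖ ^ 2 / 40) else 0) := by
    intro a
    have hp := (hW.pos i a).le
    unfold xi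
    by_cases h : (F i).Ex m a
    · rw [if_pos h, if_pos h]
      have : 1 / 40 * ‖(F i).M m a‖ ^ 2 = ‖(F i).M m a‖ ^ 2 / 40 := by ring
      rw [this]
      linarith
    · rw [if_neg h, if_neg h]
      simp
  refine (sum_le_sum fun a _ => h3 a).trans ?_
  rw [sum_add_distrib, hW.one i]
  refine le_trans (add_le_add_right ?_ _) (by linarith : (1 : ℝ) + Real.exp (-20 * 2 ^ m) ≤ 2)
  refine le_trans (le_of_eq ?_) h1
  exact sum_congr rfl fun a _ => by congr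

theorem sq_xi (hW : Wt p) (F : ∀ i, Filt (p i) (A i) (k i)) (m : ℕ) (i : ι) :
    ∑ a, p i a * xi F m i a ^ 2 ≤ 40 * Real.exp (-20 * 2 ^ m) := by
  classical
  have h1 := (F i).Ex_exp m
  have h3 : ∀ a, p i a * xi F m i a ^ 2 ≤
      40 * (p i a * (if (F i).Ex m a then Real.exp (‖(F i).M m a‖ ^ 2 / 40) else 0)) := by
    intro a
    have hp := (hW.pos i a).le
    unfold xi
    by_cases h : (F i).Ex m a
    · rw [if_pos h, if_pos h]
      have h4 := Real.add_one_le_exp (‖(F i).M m a‖ ^ 2 / 40)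
      have h5 : ‖(F i).M m a‖ ^ 2 ≤ 40 * Real.exp (‖(F i).M m a‖ ^ 2 / 40) := by linarith
      calc _ ≤ p i a * (40 * Real.exp (‖(F i).M m a‖ ^ 2 / 40)) :=
            mul_le_mul_of_nonneg_left h5 hp
        _ = _ := by ring
    · rw [if_neg h, if_neg h]
      simp
  refine (sum_le_sum fun a _ => h3 a).trans ?_
  rw [← mul_sum]
  refine mul_le_mul_of_nonneg_left (le_trans (le_of_eq ?_) h1) (by norm_num)
  exact sum_congr rfl fun a _ => by congr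

theorem sq_ki (hW : Wt p) (F : ∀ i, Filt (p i) (A i) (k i)) (m : ℕ) (i : ι) :
    ∑ a, p i a * ki F m i a ^ 2 ≤ Real.exp (-20 * 2 ^ m) := by
  classical
  have h1 := (F i).Ex_exp m
  have h3 : ∀ a, p i a * ki F m i a ^ 2 ≤
      p i a * (if (F i).Ex m a then Real.exp (‖(F i).M m a‖ ^ 2 / 40) else 0) := by
    intro a
    have hp := (hW.pos i a).le
    unfold ki
    by_cases h : (F i).Ex m a
    · rw [if_pos h, if_pos h]
      have h4 : 1 ≤ Real.exp (‖(F i).M m a‖ ^ 2 / 40) := Real.one_le_exp (by positivity)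
      exact mul_le_mul_of_nonneg_left (by linarith) hp
    · rw [if_neg h, if_neg h]
      simp
  refine (sum_le_sum fun a _ => h3 a).trans ?_
  refine le_trans (le_of_eq ?_) h1
  exact sum_congr rfl fun a _ => by congr

theorem Ep_wn_sq (hW : Wt p) (x : ∀ i, Ω i → ℝ) {B : ℝ} (h : ∀ i, ∑ a, p i a * x i a ^ 2 ≤ B)
    (y : EuclideanSpace ℝ ι) :
    Ep p (fun ω => wn (fun i => x i (ω i)) y ^ 2) ≤ ‖y‖ ^ 2 * B := by
  simp_rw [wn_sq]
  rw [Ep_sum univ p (fun i ω => (x i (ω i) * y i) ^ 2), EuclideanSpace.norm_sq_eq, sum_mul]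
  apply sum_le_sum
  intro i _
  rw [Ep_single p hW.one i (fun a => (x i a * y i) ^ 2)]
  have h1 : ∑ a, p i a * (x i a * y i) ^ 2 = y i ^ 2 * ∑ a, p i a * x i a ^ 2 := by
    rw [mul_sum]
    exact sum_congr rfl fun a _ => by ring
  rw [h1, Real.norm_eq_abs, sq_abs]
  exact mul_le_mul_of_nonneg_left (h i) (sq_nonneg _)

theorem wn_at_zero (d : ι → ℝ) : wn d (0 : EuclideanSpace ℝ ι) = 0 := by
  simp [wn]

/-- one family of `asmR` -/
theorem one_fam : ∃ C : ℝ, 1 ≤ C ∧ ∀ {ι : Type} [Fintype ι] [DecidableEq ι] {Ω : ι → Type}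
    [∀ i, Fintype (Ω i)] {p : ∀ i, Ω i → ℝ} (_ : Wt p) (L : ℕ)
    (S : ℕ → Finset (EuclideanSpace ℝ ι))
    (_ : ∀ n ≤ L, (S n).card ≤ 2 ^ 2 ^ (n + 1)) {Γ : ℝ} (_ : ∀ n ≤ L, ∀ y ∈ S n, ‖y‖ ≤ Γ)
    (x : ℕ → ∀ i, Ω i → ℝ) (_ : ∀ n i, ∑ a, p i a * x n i a ^ 2 ≤ 40 * Real.exp (-20 * 2 ^ n)),
    ∃ Z : (∀ i, Ω i) → ℝ, (∀ ω, 1 ≤ Z ω) ∧
      (∀ n ≤ L, ∀ y ∈ S n, ∀ ω, wn (fun i => x n i (ω i)) y ≤ Z ω * Γ / 4 ^ n) ∧
      Ep p (fun ω => Z ω ^ 2) ≤ C := by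
  obtain ⟨C, hC, hmax⟩ := maxr
  refine ⟨C, hC, ?_⟩
  intro ι _ _ Ω _ p hW L S hS Γ hΓ x hx
  obtain ⟨Z, hZ1, hZ2, hZ3⟩ := hmax (W := ∀ i, Ω i) (fun ω => ∏ i, p i (ω i))
    (fun ω => prod_nonneg fun i _ => (hW.pos i _).le) hW.sum L S hS
    (fun n y ω => wn (fun i => x n i (ω i)) y / Γ) (by
      intro n hn y hy
      have h1 : ∑ ω : ∀ i, Ω i, (∏ i, p i (ω i)) * (wn (fun i => x n i (ω i)) y / Γ) ^ 2 =
          (Γ ^ 2)⁻¹ * Ep p (fun ω => wn (fun i => x n i (ω i)) y ^ 2) := by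
        unfold Ep
        rw [mul_sum]
        exact sum_congr rfl fun ω _ => by rw [div_pow]; ring
      rw [h1]
      have h2 := Ep_wn_sq hW (x n) (hx n) y
      have hexp := Real.exp_pos (-20 * 2 ^ n)
      rcases eq_or_ne Γ 0 with h0 | h0
      · rw [h0]
        simp
        positivity
      · have hΓ0 : 0 < Γ := lt_of_le_of_ne ((norm_nonneg y).trans (hΓ n hn y hy)) (Ne.symm h0)
        rw [inv_mul_le_iff₀ (by positivity)]
        refine h2.trans ?_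
        have h3 : ‖y‖ ^ 2 ≤ Γ ^ 2 := pow_le_pow_left₀ (norm_nonneg y) (hΓ n hn y hy) 2
        calc ‖y‖ ^ 2 * (40 * Real.exp (-20 * 2 ^ n)) ≤ Γ ^ 2 * (40 * Real.exp (-20 * 2 ^ n)) :=
              mul_le_mul_of_nonneg_right h3 (by positivity)
          _ ≤ _ := mul_le_mul_of_nonneg_left (by linarith) (sq_nonneg _))
  refine ⟨Z, hZ1, ?_, hZ3⟩
  intro n hn y hy ω
  have h1 := (abs_le.1 (hZ2 n hn y hy ω)).2
  rcases eq_or_ne Γ 0 with h0 | h0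
  · have hy0 : y = 0 := by
      have := hΓ n hn y hy
      rw [h0] at this
      exact norm_le_zero_iff.1 this
    rw [hy0, wn_at_zero, h0]
    simp
  · have hΓ0 : 0 < Γ := lt_of_le_of_ne ((norm_nonneg y).trans (hΓ n hn y hy)) (Ne.symm h0)
    rw [div_le_iff₀ hΓ0] at h1
    calc wn (fun i => x n i (ω i)) y ≤ Z ω / 4 ^ n * Γ := h1
      _ = _ := by ring

end AsmXAux

open AsmXAux

theorem asmX : ∃ C : ℝ, 1 ≤ C ∧ ∀ {ι : Type} [Fintype ι] [DecidableEq ι] {Ω : ι → Type}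
    [∀ i, Fintype (Ω i)] {E : Type} [NormedAddCommGroup E] [InnerProductSpace ℝ E]
    {p : ∀ i, Ω i → ℝ} {A : ∀ i, Ω i → E} {k : ∀ i, Ω i → ℕ} (_ : Wt p)
    (F : ∀ i, Filt (p i) (A i) (k i)) (L : ℕ)
    (S : ℕ → Finset (EuclideanSpace ℝ ι))
    (_ : ∀ n ≤ L, (S n).card ≤ 2 ^ 2 ^ (n + 2)),
    ∃ Z : (∀ i, Ω i) → ℝ, (∀ ω, 1 ≤ Z ω) ∧
      (∀ n ≤ L, ∀ m ≤ n, ∀ u ∈ S n, ∀ ω,
        wn (xe (Es F m ω) (Xc F m ω)) u ≤ Real.sqrt 2 ^ n * Z ω * ‖u‖) ∧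
      Ep p (fun ω => Z ω ^ 2) ≤ C := by
  obtain ⟨C, hC, hmax⟩ := maxl (c := 1 / 40) (by norm_num)
  refine ⟨C, hC, ?_⟩
  intro ι _ _ Ω _ E _ _ p A k hW F L S hS
  obtain ⟨Z, hZ1, hZ2, hZ3⟩ := hmax (W := ∀ i, Ω i) (fun ω => ∏ i, p i (ω i))
    (fun ω => prod_nonneg fun i _ => (hW.pos i _).le) hW.sum L
    (α := EuclideanSpace ℝ ι × ℕ) (fun n => S n ×ˢ range (n + 1)) (by
      intro n hn
      rw [card_product, card_range]
      have h1 : n + 1 ≤ 2 ^ n := Nat.lt_two_pow_self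
      calc (S n).card * (n + 1) ≤ 2 ^ 2 ^ (n + 2) * 2 ^ n := Nat.mul_le_mul (hS n hn) h1
        _ = 2 ^ (2 ^ (n + 2) + n) := by rw [← pow_add]
        _ ≤ 2 ^ 2 ^ (n + 6) := by
            apply Nat.pow_le_pow_right (by norm_num)
            have h2 : 2 ^ (n + 6) = 2 ^ (n + 2) + 60 * 2 ^ n := by ring
            omega)
    (fun _ a ω => wn (xe (Es F a.2 ω) (Xc F a.2 ω)) a.1 / ‖a.1‖) (by
      intro n _ a _
      have h1 := diag_exp p (fun i a => (hW.pos i a).le) hW.one (xi F a.2) (c := 1 / 40)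
        (by norm_num) (exp_xi hW F a.2) a.1
      refine le_trans (le_of_eq ?_) h1
      unfold Ep
      apply sum_congr rfl
      intro ω _
      rw [xe_eq, div_pow])
  refine ⟨Z, hZ1, ?_, hZ3⟩
  intro n hn m hm u hu ω
  have h1 := (abs_le.1 (hZ2 n hn (u, m) (mem_product.2 ⟨hu, mem_range.2 (by omega)⟩) ω)).2
  simp only at h1
  rcases eq_or_ne u 0 with h0 | h0
  · rw [h0, wn_at_zero]
    simp
  · rwa [div_le_iff₀ (norm_pos_iff.2 h0)] at h1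

theorem asmR : ∃ C : ℝ, 1 ≤ C ∧ ∀ {ι : Type} [Fintype ι] [DecidableEq ι] {Ω : ι → Type}
    [∀ i, Fintype (Ω i)] {E : Type} [NormedAddCommGroup E] [InnerProductSpace ℝ E]
    {p : ∀ i, Ω i → ℝ} {A : ∀ i, Ω i → E} {k : ∀ i, Ω i → ℕ} (_ : Wt p)
    (F : ∀ i, Filt (p i) (A i) (k i)) (L : ℕ)
    (S : ℕ → Finset (EuclideanSpace ℝ ι))
    (_ : ∀ n ≤ L, (S n).card ≤ 2 ^ 2 ^ (n + 1)) {Γ : ℝ} (_ : ∀ n ≤ L, ∀ y ∈ S n, ‖y‖ ≤ Γ),
    ∃ Z : (∀ i, Ω i) → ℝ, (∀ ω, 1 ≤ Z ω) ∧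
      (∀ n ≤ L, ∀ y ∈ S n, ∀ ω,
        wn (ind (Es F n ω)) y ≤ Z ω * Γ / 4 ^ n ∧
        wn (xe (Es F n ω) (Xc F n ω)) y ≤ Z ω * Γ / 4 ^ n ∧
        wn (xe (Es F (n + 1) ω) (Xc F (n + 1) ω)) y ≤ Z ω * Γ / 4 ^ n) ∧
      Ep p (fun ω => Z ω ^ 2) ≤ C := by
  obtain ⟨C, hC, hfam⟩ := one_fam
  refine ⟨9 * C, by linarith, ?_⟩
  intro ι _ _ Ω _ E _ _ p A k hW F L S hS Γ hΓ
  have hmon : ∀ n : ℕ, Real.exp (-20 * 2 ^ (n + 1)) ≤ Real.exp (-20 * 2 ^ n) := by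
    intro n
    apply Real.exp_le_exp.2
    have : (0 : ℝ) < 2 ^ n := by positivity
    rw [pow_succ]
    linarith
  obtain ⟨Z1, a1, b1, c1⟩ := hfam hW L S hS hΓ (fun n => ki F n) (by
    intro n i
    refine (sq_ki hW F n i).trans ?_
    have := Real.exp_pos (-20 * 2 ^ n)
    linarith)
  obtain ⟨Z2, a2, b2, c2⟩ := hfam hW L S hS hΓ (fun n => xi F n) (fun n i => sq_xi hW F n i)
  obtain ⟨Z3, a3, b3, c3⟩ := hfam hW L S hS hΓ (fun n => xi F (n + 1)) (by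
    intro n i
    refine (sq_xi hW F (n + 1) i).trans ?_
    have := hmon n
    linarith)
  refine ⟨fun ω => Z1 ω + Z2 ω + Z3 ω, ?_, ?_, ?_⟩
  · intro ω
    have := a1 ω
    have := a2 ω
    have := a3 ω
    linarith
  · intro n hn y hy ω
    have hΓ0 : 0 ≤ Γ := (norm_nonneg y).trans (hΓ n hn y hy)
    have h4 : (0 : ℝ) < 4 ^ n := by positivity
    have u1 := a1 ω
    have u2 := a2 ω
    have u3 := a3 ω
    have e1 := b1 n hn y hy ω
    have e2 := b2 n hn y hy ω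
    have e3 := b3 n hn y hy ω
    rw [ind_eq, xe_eq, xe_eq]
    refine ⟨e1.trans ?_, e2.trans ?_, e3.trans ?_⟩
    · exact div_le_div_of_nonneg_right (mul_le_mul_of_nonneg_right (by linarith) hΓ0) h4.le
    · exact div_le_div_of_nonneg_right (mul_le_mul_of_nonneg_right (by linarith) hΓ0) h4.le
    · exact div_le_div_of_nonneg_right (mul_le_mul_of_nonneg_right (by linarith) hΓ0) h4.le
  · have h1 : Ep p (fun ω => (Z1 ω + Z2 ω + Z3 ω) ^ 2) ≤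
        Ep p (fun ω => 3 * (Z1 ω ^ 2 + Z2 ω ^ 2 + Z3 ω ^ 2)) := by
      apply Ep_mono (fun i a => (hW.pos i a).le)
      intro ω
      nlinarith [sq_nonneg (Z1 ω - Z2 ω), sq_nonneg (Z1 ω - Z3 ω), sq_nonneg (Z2 ω - Z3 ω)]
    refine h1.trans ?_
    rw [Ep_const_mul, Ep_add, Ep_add]
    linarith

end IC65
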