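import Pool.Agent.IC65.Defs

/-! # IC65: elementary algebra of `lin`, `wn`, `Qf`, `Vf` (proved) -/

open Finset
open scoped RealInnerProductSpace

noncomputable section

namespace IC65

variable {ι : Type*} [Fintype ι] {E : Type*} [NormedAddCommGroup E] [InnerProductSpace ℝ E]

theorem lin_add (X : ι → E) (u w : EuclideanSpace ℝ ι) : lin X (u + w) = lin X u + lin X w := by
  simp [lin, add_smul, sum_add_distrib]

theorem lin_sub (X : ι → E) (u w : EuclideanSpace ℝ ι) : lin X (u - w) = lin X u - lin X w := by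
  simp [lin, sub_smul, sum_sub_distrib]

theorem lin_add_left (X Y : ι → E) (u : EuclideanSpace ℝ ι) :
    lin (fun i => X i + Y i) u = lin X u + lin Y u := by
  simp [lin, smul_add, sum_add_distrib]

theorem lin_sub_left (X Y : ι → E) (u : EuclideanSpace ℝ ι) :
    lin (fun i => X i - Y i) u = lin X u - lin Y u := by
  simp [lin, smul_sub, sum_sub_distrib]

@[simp] theorem lin_zero (X : ι → E) : lin X 0 = 0 := by simp [lin]

theorem wn_nonneg (d : ι → ℝ) (u : EuclideanSpace ℝ ι) : 0 ≤ wn d u := Real.sqrt_nonneg _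

theorem wn_sq (d : ι → ℝ) (u : EuclideanSpace ℝ ι) : wn d u ^ 2 = ∑ i, (d i * u i) ^ 2 :=
  Real.sq_sqrt (sum_nonneg fun _ _ => sq_nonneg _)

/-- the weighted vector -/
theorem wn_eq_norm (d : ι → ℝ) (u : EuclideanSpace ℝ ι) :
    wn d u = ‖(WithLp.toLp 2 (fun i => d i * u i) : EuclideanSpace ℝ ι)‖ := by
  rw [EuclideanSpace.norm_eq]
  simp only [wn, Real.norm_eq_abs, sq_abs]

theorem wn_add_le (d : ι → ℝ) (u w : EuclideanSpace ℝ ι) : wn d (u + w) ≤ wn d u + wn d w := by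
  rw [wn_eq_norm, wn_eq_norm, wn_eq_norm]
  refine le_trans (le_of_eq ?_) (norm_add_le _ _)
  congr 1
  ext i
  simp [mul_add]

theorem wn_neg (d : ι → ℝ) (u : EuclideanSpace ℝ ι) : wn d (-u) = wn d u := by
  simp [wn]

theorem wn_sub_le (d : ι → ℝ) (u w : EuclideanSpace ℝ ι) : wn d (u - w) ≤ wn d u + wn d w := by
  rw [sub_eq_add_neg]
  exact (wn_add_le _ _ _).trans (by rw [wn_neg])

theorem wn_add_left_le (d e : ι → ℝ) (u : EuclideanSpace ℝ ι) :
    wn (fun i => d i + e i) u ≤ wn d u + wn e u := by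
  rw [wn_eq_norm, wn_eq_norm, wn_eq_norm]
  refine le_trans (le_of_eq ?_) (norm_add_le _ _)
  congr 1
  ext i
  simp [add_mul]

theorem wn_mono {d e : ι → ℝ} (h : ∀ i, |d i| ≤ |e i|) (u : EuclideanSpace ℝ ι) :
    wn d u ≤ wn e u := by
  apply Real.sqrt_le_sqrt
  apply sum_le_sum
  intro i _
  rw [mul_pow, mul_pow]
  exact mul_le_mul_of_nonneg_right (sq_le_sq.2 (h i)) (sq_nonneg _)

theorem wn_smul_left (c : ℝ) (d : ι → ℝ) (u : EuclideanSpace ℝ ι) :
    wn (fun i => c * d i) u = |c| * wn d u := by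
  unfold wn
  rw [← Real.sqrt_sq_eq_abs, ← Real.sqrt_mul (sq_nonneg c), mul_sum]
  congr 1
  apply sum_congr rfl
  intro i _
  ring

theorem wn_one (u : EuclideanSpace ℝ ι) : wn (fun _ => 1) u = ‖u‖ := by
  rw [EuclideanSpace.norm_eq]
  simp [wn, sq_abs]

theorem wn_le_mul_norm {d : ι → ℝ} {c : ℝ} (hc : 0 ≤ c) (h : ∀ i, |d i| ≤ c)
    (u : EuclideanSpace ℝ ι) : wn d u ≤ c * ‖u‖ := by
  rw [← wn_one, ← abs_of_nonneg hc, ← wn_smul_left]
  apply wn_mono
  intro i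
  simpa [abs_of_nonneg hc] using h i

theorem wn_le_mul {d e : ι → ℝ} {c : ℝ} (hc : 0 ≤ c) (h : ∀ i, |d i| ≤ c * |e i|)
    (u : EuclideanSpace ℝ ι) : wn d u ≤ c * wn e u := by
  rw [← abs_of_nonneg hc, ← wn_smul_left]
  apply wn_mono
  intro i
  simpa [abs_mul, abs_of_nonneg hc] using h i

theorem Vf_nonneg (X : ι → E) (w : EuclideanSpace ℝ ι) : 0 ≤ Vf X w := Real.sqrt_nonneg _

theorem Vf_sq (X : ι → E) (w : EuclideanSpace ℝ ι) :
    Vf X w ^ 2 = ‖lin X w‖ ^ 2 + wn (len X) w ^ 2 := Real.sq_sqrt (by positivity)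

theorem norm_lin_le_Vf (X : ι → E) (w : EuclideanSpace ℝ ι) : ‖lin X w‖ ≤ Vf X w := by
  apply Real.le_sqrt_of_sq_le
  have := sq_nonneg (wn (len X) w)
  linarith

theorem wn_le_Vf (X : ι → E) (w : EuclideanSpace ℝ ι) : wn (len X) w ≤ Vf X w := by
  apply Real.le_sqrt_of_sq_le
  have := sq_nonneg ‖lin X w‖
  linarith

theorem Vf_le_add (X : ι → E) (w : EuclideanSpace ℝ ι) : Vf X w ≤ ‖lin X w‖ + wn (len X) w := by
  apply Real.sqrt_le_iff.2
  have h1 := norm_nonneg (lin X w)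
  have h2 := wn_nonneg (len X) w
  exact ⟨by positivity, by nlinarith⟩

theorem sqrt_add_le {a b c d : ℝ} (ha : 0 ≤ a) (hb : 0 ≤ b) (hc : 0 ≤ c) (hd : 0 ≤ d) :
    Real.sqrt ((a + b) ^ 2 + (c + d) ^ 2) ≤
      Real.sqrt (a ^ 2 + c ^ 2) + Real.sqrt (b ^ 2 + d ^ 2) := by
  have h1 := Real.sqrt_nonneg (a ^ 2 + c ^ 2)
  have h2 := Real.sqrt_nonneg (b ^ 2 + d ^ 2)
  have h3 := Real.sq_sqrt (show 0 ≤ a ^ 2 + c ^ 2 by positivity)
  have h4 := Real.sq_sqrt (show 0 ≤ b ^ 2 + d ^ 2 by positivity)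
  apply Real.sqrt_le_iff.2
  refine ⟨by positivity, ?_⟩
  have h5 : a * b + c * d ≤ Real.sqrt (a ^ 2 + c ^ 2) * Real.sqrt (b ^ 2 + d ^ 2) := by
    rw [← Real.sqrt_mul (by positivity)]
    apply Real.le_sqrt_of_sq_le
    nlinarith [sq_nonneg (a * d - b * c)]
  nlinarith

theorem Vf_add_le (X : ι → E) (u w : EuclideanSpace ℝ ι) : Vf X (u + w) ≤ Vf X u + Vf X w := by
  have h1 := wn_nonneg (len X) (u + w)
  refine le_trans (Real.sqrt_le_sqrt ?_) (sqrt_add_le (norm_nonneg (lin X u))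
    (norm_nonneg (lin X w)) (wn_nonneg (len X) u) (wn_nonneg (len X) w))
  rw [lin_add]
  have h2 := norm_add_le (lin X u) (lin X w)
  have h3 := wn_add_le (len X) u w
  gcongr

theorem Vf_sub_left_le (X Y : ι → E) (u : EuclideanSpace ℝ ι) :
    Vf (fun i => X i - Y i) u ≤ Vf X u + Vf Y u := by
  have h1 : wn (len fun i => X i - Y i) u ≤ wn (fun i => len X i + len Y i) u := by
    apply wn_mono
    intro i
    simp only [len, abs_norm]
    rw [abs_of_nonneg (by positivity)]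
    exact norm_sub_le _ _
  have h2 := wn_nonneg (len fun i => X i - Y i) u
  refine le_trans (Real.sqrt_le_sqrt ?_) (sqrt_add_le (norm_nonneg (lin X u))
    (norm_nonneg (lin Y u)) (wn_nonneg (len X) u) (wn_nonneg (len Y) u))
  rw [lin_sub_left]
  have h3 := norm_sub_le (lin X u) (lin Y u)
  have h4 := h1.trans (wn_add_left_le (len X) (len Y) u)
  gcongr

theorem Qf_self (X : ι → E) (y : EuclideanSpace ℝ ι) :
    Qf X y y = ‖lin X y‖ ^ 2 - wn (len X) y ^ 2 := by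
  unfold Qf
  rw [real_inner_self_eq_norm_sq, wn_sq]
  congr 1
  apply sum_congr rfl
  intro i _
  simp only [len]
  ring

theorem Qf_polar (X : ι → E) (y z : EuclideanSpace ℝ ι) :
    Qf X y y - Qf X z z = Qf X (y - z) (y + z) := by
  unfold Qf
  rw [lin_sub, lin_add, inner_sub_left, inner_add_right, inner_add_right,
    real_inner_comm (lin X y) (lin X z)]
  have : ∑ i, (y - z) i * (y + z) i * ‖X i‖ ^ 2 =
      ∑ i, y i * y i * ‖X i‖ ^ 2 - ∑ i, z i * z i * ‖X i‖ ^ 2 := by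
    rw [← sum_sub_distrib]
    apply sum_congr rfl
    intro i _
    simp only [PiLp.sub_apply, PiLp.add_apply]
    ring
  rw [this]
  ring

/-- `V² = Q + 2 ‖D y‖²` -/
theorem Vf_sq' (X : ι → E) (y : EuclideanSpace ℝ ι) :
    Vf X y ^ 2 = Qf X y y + 2 * wn (len X) y ^ 2 := by
  rw [Vf_sq, Qf_self]
  ring

theorem Vf_le_of_Qf {X : ι → E} {y : EuclideanSpace ℝ ι} {a : ℝ} (ha : 0 ≤ a)
    (h : |Qf X y y| ≤ a * Vf X y) : Vf X y ≤ a + 2 * wn (len X) y := by
  have h1 := Vf_sq' X y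
  have h2 := Vf_nonneg X y
  have h3 := wn_nonneg (len X) y
  have h4 := (abs_le.1 h).2
  by_contra hlt
  rw [not_le] at hlt
  nlinarith

theorem Qf_eq_sum [DecidableEq ι] (X : ι → E) (u w : EuclideanSpace ℝ ι) :
    Qf X u w = ∑ i, ∑ j, if i = j then 0 else u i * w j * ⟪X i, X j⟫ := by
  unfold Qf lin
  rw [sum_inner]
  have h : ∀ i, ⟪u i • X i, ∑ j, w j • X j⟫ - u i * w i * ‖X i‖ ^ 2 =
      ∑ j, if i = j then 0 else u i * w j * ⟪X i, X j⟫ := by
    intro i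
    rw [inner_sum]
    have h2 : u i * w i * ‖X i‖ ^ 2 = ∑ j, if i = j then u i * w j * ⟪X i, X j⟫ else 0 := by
      simp
    rw [h2, ← sum_sub_distrib]
    apply sum_congr rfl
    intro j _
    rw [real_inner_smul_left, real_inner_smul_right]
    split_ifs <;> ring
  rw [← sum_sub_distrib]
  exact sum_congr rfl fun i _ => h i

/-- the step from the columns `X` to the columns `Y` -/
theorem Qf_step (X Y : ι → E) (y : EuclideanSpace ℝ ι) :
    Qf Y y y - Qf X y y = 2 * ∑ j, y j * ⟪Y j - X j, lin X y - y j • X j⟫ +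
      Qf (fun j => Y j - X j) y y := by
  have h1 : lin Y y = lin X y + lin (fun j => Y j - X j) y := by
    rw [lin_sub_left]; abel
  have h2 : ⟪lin X y, lin (fun j => Y j - X j) y⟫ = ∑ j, y j * ⟪Y j - X j, lin X y⟫ := by
    rw [show lin (fun j => Y j - X j) y = ∑ j, y j • (Y j - X j) from rfl, inner_sum]
    apply sum_congr rfl
    intro j _
    rw [real_inner_smul_right, real_inner_comm]
  have h3 : ∀ j, y j * ⟪Y j - X j, lin X y - y j • X j⟫ =
      y j * ⟪Y j - X j, lin X y⟫ - y j * y j * ⟪Y j - X j, X j⟫ := by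
    intro j
    rw [inner_sub_right, real_inner_smul_right]
    ring
  have h4 : ∀ j, ‖Y j‖ ^ 2 = ‖X j‖ ^ 2 + 2 * ⟪Y j - X j, X j⟫ + ‖Y j - X j‖ ^ 2 := by
    intro j
    have : Y j = X j + (Y j - X j) := by abel
    conv_lhs => rw [this]
    rw [norm_add_sq_real, real_inner_comm]
  unfold Qf
  simp only [h3, sum_sub_distrib, h4]
  rw [h1]
  rw [inner_add_left, inner_add_right, inner_add_right, real_inner_comm (lin X y)
    (lin (fun j => Y j - X j) y), h2]
  have h5 : ∑ j, y j * y j * (‖X j‖ ^ 2 + 2 * ⟪Y j - X j, X j⟫ + ‖Y j - X j‖ ^ 2) =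
      ∑ j, y j * y j * ‖X j‖ ^ 2 + 2 * ∑ j, y j * y j * ⟪Y j - X j, X j⟫ +
        ∑ j, y j * y j * ‖Y j - X j‖ ^ 2 := by
    rw [mul_sum, ← sum_add_distrib, ← sum_add_distrib]
    apply sum_congr rfl
    intro j _
    ring
  rw [h5]
  ring

end IC65
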