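import Pool.Agent.IC65.PsiD

/-!
# IC65 module DEC1: the entropy decomposition lemma

`Ω` finite, `p > 0`, `∑ p = 1`, `V` centred subgaussian (`Sg univ p V 1`), `S` an event, `β > 4`.
Write `P(A) = ∑_{ω ∈ A} p ω`.  Among all partitions of `S` (finitely many; represent a partition by a
function `at : Ω → Finset Ω`, the atom containing `ω`, or by a labelling) choose one which maximises
`J = ∑_g (P(g)/P(S)) (‖mean g‖² - β log(P(S)/P(g)))` (sum over the atoms `g`).

1. Comparison with the trivial partition: `J ≥ ‖mean S‖² ≥ 0`.  With `H = ∑_g (P(g)/P(S)) log(P(S)/P(g))` and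
   `mean_bound`: `‖mean g‖² ≤ 4 log(1/P(g)) = 4 log(P(S)/P(g)) + 4 log(1/P(S))`, so
   `β H ≤ ∑_g (P(g)/P(S)) ‖mean g‖² ≤ 4 H + 4 log(1/P(S))`, that is `H ≤ 4/(β - 4) log(1/P(S))`.
2. Comparison with the partition where the atom `g` is split into `F` and `g \ F`, `q = P(F)/P(g)` in `(0,1)`:
   `q ‖mean F - mean g‖² ≤ q ‖mean F‖² + (1-q) ‖mean (g \ F)‖² - ‖mean g‖²`
   `≤ β (q log(1/q) + (1-q) log(1/(1-q))) ≤ β (q log(1/q) + q)`.
   For `F = {ω ∈ g | t < ⟨V ω - mean g, u⟩}` (`‖u‖ = 1`, `t > 0`; `F ≠ g` because the mean of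
   `⟨V - mean g, u⟩` over `g` is `0`): `‖mean F - mean g‖ ≥ ⟨mean F - mean g, u⟩ > t`, so
   `t² ≤ β (log(1/q) + 1)`, `q ≤ exp(1 - t²/β)`: `Good`.
-/

open Finset
open scoped RealInnerProductSpace

noncomputable section

namespace IC65

variable {Ω : Type} [Fintype Ω] [DecidableEq Ω] {E : Type} [NormedAddCommGroup E]
  [InnerProductSpace ℝ E]

namespace D90

variable {Ω : Type} {E : Type} [NormedAddCommGroup E] [InnerProductSpace ℝ E]

theorem Psum_pos {p : Ω → ℝ} (hp : ∀ ω, 0 < p ω) {A : Finset Ω} (hA : A.Nonempty) :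
    0 < ∑ ω ∈ A, p ω := sum_pos (fun ω _ => hp ω) hA

theorem smul_mean {p : Ω → ℝ} (hp : ∀ ω, 0 < p ω) (V : Ω → E) {A : Finset Ω}
    (hA : A.Nonempty) : (∑ ω ∈ A, p ω) • mean A p V = ∑ ω ∈ A, p ω • V ω := by
  unfold mean
  rw [smul_smul, mul_inv_cancel₀ (Psum_pos hp hA).ne', one_smul]

/-- variance identity for two pieces -/
theorem two_piece (a b : ℝ) (x y z : E) (h : a • x + b • y = (a + b) • z) :
    a * ‖x‖ ^ 2 + b * ‖y‖ ^ 2 - (a + b) * ‖z‖ ^ 2 =
      a * ‖x - z‖ ^ 2 + b * ‖y - z‖ ^ 2 := by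
  have h2 : a * ⟪x, z⟫ + b * ⟪y, z⟫ = (a + b) * ⟪z, z⟫ := by
    rw [← real_inner_smul_left, ← real_inner_smul_left, ← inner_add_left, h,
      real_inner_smul_left]
  rw [real_inner_self_eq_norm_sq] at h2
  rw [norm_sub_sq_real, norm_sub_sq_real]
  linarith

/-- the functional, for one atom -/
def phi (p : Ω → ℝ) (V : Ω → E) (β PS : ℝ) (A : Finset Ω) : ℝ :=
  ‖mean A p V‖ ^ 2 - β * Real.log (PS / ∑ ω ∈ A, p ω)

/-- the good atoms -/
theorem good_of_split {p : Ω → ℝ} (hp : ∀ ω, 0 < p ω) (V : Ω → E) {β PS : ℝ} (hβ : 0 < β)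
    (hPS : 0 < PS) (g : Finset Ω) (hg : g.Nonempty)
    (h : ∀ F ⊆ g, F.Nonempty → ∀ G ⊆ g, G.Nonempty → Disjoint F G →
      (∀ ω ∈ g, ω ∈ F ∨ ω ∈ G) →
      (∑ ω ∈ F, p ω) * phi p V β PS F + (∑ ω ∈ G, p ω) * phi p V β PS G ≤
        (∑ ω ∈ g, p ω) * phi p V β PS g) : Good g p V β := by
  classical
  intro u hu t ht
  set F := g.filter (fun ω => t < ⟪V ω - mean g p V, u⟫) with hF
  set G := g.filter (fun ω => ¬ t < ⟪V ω - mean g p V, u⟫) with hG
  have hPg := Psum_pos hp hg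
  rcases F.eq_empty_or_nonempty with hFe | hFn
  · rw [hFe, sum_empty]
    positivity
  have hsumFG : ∑ ω ∈ F, p ω + ∑ ω ∈ G, p ω = ∑ ω ∈ g, p ω :=
    sum_filter_add_sum_filter_not g _ _
  have hsumV : ∑ ω ∈ F, p ω • V ω + ∑ ω ∈ G, p ω • V ω = ∑ ω ∈ g, p ω • V ω :=
    sum_filter_add_sum_filter_not g _ _
  have hPF := Psum_pos hp hFn
  have hFt : t * (∑ ω ∈ F, p ω) ≤ ∑ ω ∈ F, p ω * ⟪V ω - mean g p V, u⟫ := by
    rw [mul_sum]
    apply sum_le_sum
    intro ω hω
    rw [hF, mem_filter] at hω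
    rw [mul_comm]
    exact mul_le_mul_of_nonneg_left hω.2.le (hp ω).le
  have hzero : ∀ A : Finset Ω, A.Nonempty → ∀ m : E, ∑ ω ∈ A, p ω * ⟪V ω - m, u⟫ =
      (∑ ω ∈ A, p ω) * ⟪mean A p V - m, u⟫ := by
    intro A hA m
    have h3 : ∑ ω ∈ A, p ω * ⟪V ω - m, u⟫ = ⟪∑ ω ∈ A, p ω • V ω - (∑ ω ∈ A, p ω) • m, u⟫ := by
      rw [inner_sub_left, sum_inner, real_inner_smul_left, sum_mul, ← sum_sub_distrib]
      apply sum_congr rfl
      intro ω _
      rw [inner_sub_left, real_inner_smul_left]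
      ring
    rw [h3, ← smul_mean hp V hA, ← smul_sub, real_inner_smul_left]
  have hGn : G.Nonempty := by
    rw [nonempty_iff_ne_empty]
    intro hGe
    have hFg : F = g := by
      apply (filter_eq_self).2
      intro ω hω
      by_contra hcon
      have : ω ∈ G := by
        rw [hG, mem_filter]
        exact ⟨hω, hcon⟩
      rw [hGe] at this
      simp at this
    rw [hFg, hzero g hg, sub_self, inner_zero_left, mul_zero] at hFt
    have := mul_pos ht hPg
    linarith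
  have hPG := Psum_pos hp hGn
  have hmain := h F (filter_subset _ _) hFn G (filter_subset _ _) hGn
    (disjoint_filter_filter_not _ _ _) (by
      intro ω hω
      by_cases hc : t < ⟪V ω - mean g p V, u⟫
      · left
        rw [hF, mem_filter]
        exact ⟨hω, hc⟩
      · right
        rw [hG, mem_filter]
        exact ⟨hω, hc⟩)
  have htp := two_piece (∑ ω ∈ F, p ω) (∑ ω ∈ G, p ω) (mean F p V) (mean G p V) (mean g p V)
    (by rw [smul_mean hp V hFn, smul_mean hp V hGn, hsumFG, smul_mean hp V hg, hsumV])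
  rw [hsumFG] at htp
  set PF := ∑ ω ∈ F, p ω with hPFd
  set PG := ∑ ω ∈ G, p ω with hPGd
  set Pg := ∑ ω ∈ g, p ω with hPgd
  have hip : t ≤ ⟪mean F p V - mean g p V, u⟫ := by
    rw [hzero F hFn (mean g p V), mul_comm t] at hFt
    exact le_of_mul_le_mul_left hFt hPF
  have hnorm : t ≤ ‖mean F p V - mean g p V‖ := by
    refine hip.trans ?_
    have := real_inner_le_norm (mean F p V - mean g p V) u
    rwa [hu, mul_one] at this
  have hsq : t ^ 2 ≤ ‖mean F p V - mean g p V‖ ^ 2 := by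
    exact pow_le_pow_left₀ ht.le hnorm 2
  have hl1 : Real.log (PS / PF) = Real.log (PS / Pg) + Real.log (Pg / PF) := by
    rw [Real.log_div hPS.ne' hPF.ne', Real.log_div hPS.ne' hPg.ne', Real.log_div hPg.ne' hPF.ne']
    ring
  have hl2 : Real.log (PS / PG) = Real.log (PS / Pg) + Real.log (Pg / PG) := by
    rw [Real.log_div hPS.ne' hPG.ne', Real.log_div hPS.ne' hPg.ne', Real.log_div hPg.ne' hPG.ne']
    ring
  have hlog : PG * Real.log (Pg / PG) ≤ PF := by
    have := Real.log_le_sub_one_of_pos (show 0 < Pg / PG by positivity)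
    have h5 : PG * Real.log (Pg / PG) ≤ PG * (Pg / PG - 1) :=
      mul_le_mul_of_nonneg_left this hPG.le
    have h6 : PG * (Pg / PG - 1) = Pg - PG := by
      field_simp
    linarith
  unfold phi at hmain
  rw [hl1, hl2] at hmain
  have hkey : PF * t ^ 2 ≤ PF * (β * (Real.log (Pg / PF) + 1)) := by
    have h7 : PF * t ^ 2 ≤ PF * ‖mean F p V - mean g p V‖ ^ 2 :=
      mul_le_mul_of_nonneg_left hsq hPF.le
    have h8 : 0 ≤ PG * ‖mean G p V - mean g p V‖ ^ 2 := by positivity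
    have h9 : β * (PG * Real.log (Pg / PG)) ≤ β * PF := mul_le_mul_of_nonneg_left hlog hβ.le
    have h10 : PF * (β * Real.log (PS / Pg)) + PG * (β * Real.log (PS / Pg)) =
        Pg * (β * Real.log (PS / Pg)) := by
      rw [← hsumFG]
      ring
    nlinarith
  have hkey2 : t ^ 2 ≤ β * (Real.log (Pg / PF) + 1) := le_of_mul_le_mul_left hkey hPF
  have hkey3 : t ^ 2 / β - 1 ≤ Real.log (Pg / PF) := by
    have : t ^ 2 / β ≤ Real.log (Pg / PF) + 1 := by
      rw [div_le_iff₀ hβ]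
      linarith
    linarith
  have hkey4 : Real.log (PF / Pg) ≤ 1 - t ^ 2 / β := by
    rw [Real.log_div hPg.ne' hPF.ne'] at hkey3
    rw [Real.log_div hPF.ne' hPg.ne']
    linarith
  have hkey5 : PF / Pg ≤ Real.exp (1 - t ^ 2 / β) := by
    rw [← Real.log_le_iff_le_exp (by positivity)]
    exact hkey4
  rwa [div_le_iff₀ hPg] at hkey5

end D90

theorem dec1 (p : Ω → ℝ) (hp : ∀ ω, 0 < p ω) (h1 : ∑ ω, p ω = 1) (V : Ω → E)
    (hV : Sg univ p V 1) {β : ℝ} (hβ : 4 < β) (S : Finset Ω) (hS : S.Nonempty) :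
    ∃ at' : Ω → Finset Ω, (∀ ω ∈ S, ω ∈ at' ω ∧ at' ω ⊆ S) ∧
      (∀ ω ∈ S, ∀ ω' ∈ at' ω, at' ω' = at' ω) ∧
      (∀ ω ∈ S, Good (at' ω) p V β) ∧
      ∑ ω ∈ S, p ω * Real.log ((∑ ω' ∈ S, p ω') / ∑ ω' ∈ at' ω, p ω') ≤
        4 / (β - 4) * ((∑ ω ∈ S, p ω) * Real.log (1 / ∑ ω ∈ S, p ω)) := by
  classical
  set PS := ∑ ω ∈ S, p ω with hPS
  have hPSpos : 0 < PS := D90.Psum_pos hp hS
  let atl : (Ω → Option Ω) → Ω → Finset Ω := fun lab ω => S.filter (fun ω' => lab ω' = lab ω)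
  let J : (Ω → Option Ω) → ℝ := fun lab => ∑ ω ∈ S, p ω * D90.phi p V β PS (atl lab ω)
  obtain ⟨lab, hlab⟩ := Finite.exists_max J
  have hmem : ∀ l : Ω → Option Ω, ∀ ω ∈ S, ω ∈ atl l ω := by
    intro l ω hω
    exact mem_filter.2 ⟨hω, rfl⟩
  have hsub : ∀ (l : Ω → Option Ω) (ω : Ω), atl l ω ⊆ S := fun l ω => filter_subset _ _
  have hcong : ∀ (l : Ω → Option Ω) (ω : Ω), ∀ ω' ∈ atl l ω, atl l ω' = atl l ω := by
    intro l ω ω' hω'
    have h2 : l ω' = l ω := (mem_filter.1 hω').2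
    show S.filter (fun ω'' => l ω'' = l ω') = S.filter (fun ω'' => l ω'' = l ω)
    rw [h2]
  refine ⟨atl lab, fun ω hω => ⟨hmem lab ω hω, hsub lab ω⟩, fun ω _ => hcong lab ω, ?_, ?_⟩
  · -- good
    intro ω₀ hω₀
    set g := atl lab ω₀ with hg
    have hgS : g ⊆ S := hsub lab ω₀
    have hω₀g : ω₀ ∈ g := hmem lab ω₀ hω₀
    apply D90.good_of_split hp V (by linarith) hPSpos g ⟨ω₀, hω₀g⟩
    intro F hFg hFn G hGg hGn hdis hcov
    obtain ⟨z, hz⟩ : ∃ z, z ∉ Set.range lab := by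
      by_contra hcon
      push_neg at hcon
      have hsurj : Function.Surjective lab := fun z => hcon z
      have h3 := Fintype.card_le_of_surjective lab hsurj
      rw [Fintype.card_option] at h3
      omega
    have hz' : ∀ ω, lab ω ≠ z := fun ω h => hz ⟨ω, h⟩
    let lab' : Ω → Option Ω := fun ω => if ω ∈ F then z else lab ω
    have hF' : ∀ ω ∈ F, lab' ω = z := fun ω hω => if_pos hω
    have hnF' : ∀ ω, ω ∉ F → lab' ω = lab ω := fun ω hω => if_neg hω
    have hlg : ∀ ω ∈ g, lab ω = lab ω₀ := fun ω hω => (mem_filter.1 hω).2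
    have hA : ∀ ω ∈ F, atl lab' ω = F := by
      intro ω hω
      ext ω'
      show ω' ∈ S.filter (fun ω'' => lab' ω'' = lab' ω) ↔ ω' ∈ F
      rw [mem_filter, hF' ω hω]
      constructor
      · rintro ⟨_, h4⟩
        by_contra hcon
        rw [hnF' ω' hcon] at h4
        exact hz' ω' h4
      · intro h4
        exact ⟨hgS (hFg h4), hF' ω' h4⟩
    have hB : ∀ ω ∈ G, atl lab' ω = G := by
      intro ω hω
      have hωF : ω ∉ F := fun h => disjoint_left.1 hdis h hω
      ext ω'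
      show ω' ∈ S.filter (fun ω'' => lab' ω'' = lab' ω) ↔ ω' ∈ G
      rw [mem_filter, hnF' ω hωF, hlg ω (hGg hω)]
      constructor
      · rintro ⟨h5, h4⟩
        by_cases h6 : ω' ∈ F
        · rw [hF' ω' h6] at h4
          exact absurd h4.symm (hz' ω₀)
        · rw [hnF' ω' h6] at h4
          have h7 : ω' ∈ g := mem_filter.2 ⟨h5, h4⟩
          exact (hcov ω' h7).resolve_left h6
      · intro h4
        have h6 : ω' ∉ F := fun h => disjoint_left.1 hdis h h4
        exact ⟨hgS (hGg h4), by rw [hnF' ω' h6, hlg ω' (hGg h4)]⟩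
    have hC : ∀ ω ∈ S, ω ∉ g → atl lab' ω = atl lab ω := by
      intro ω hω hωg
      have hωF : ω ∉ F := fun h => hωg (hFg h)
      have hωl : lab ω ≠ lab ω₀ := fun h => hωg (mem_filter.2 ⟨hω, h⟩)
      ext ω'
      show ω' ∈ S.filter (fun ω'' => lab' ω'' = lab' ω) ↔
        ω' ∈ S.filter (fun ω'' => lab ω'' = lab ω)
      rw [mem_filter, mem_filter, hnF' ω hωF]
      by_cases h6 : ω' ∈ F
      · rw [hF' ω' h6, hlg ω' (hFg h6)]
        constructor
        · rintro ⟨_, h7⟩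
          exact absurd h7.symm (hz' ω)
        · rintro ⟨_, h7⟩
          exact absurd h7.symm hωl
      · rw [hnF' ω' h6]
    have hgFG : g = F ∪ G := by
      ext ω
      rw [mem_union]
      exact ⟨hcov ω, fun h => h.elim (fun h => hFg h) (fun h => hGg h)⟩
    have hJ := hlab lab'
    have hJ1 : J lab' = (∑ ω ∈ S \ g, p ω * D90.phi p V β PS (atl lab ω)) +
        ((∑ ω ∈ F, p ω) * D90.phi p V β PS F + (∑ ω ∈ G, p ω) * D90.phi p V β PS G) := by
      show ∑ ω ∈ S, p ω * D90.phi p V β PS (atl lab' ω) = _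
      rw [← sum_sdiff hgS]
      congr 1
      · apply sum_congr rfl
        intro ω hω
        rw [mem_sdiff] at hω
        rw [hC ω hω.1 hω.2]
      · rw [hgFG, sum_union hdis, sum_mul, sum_mul]
        congr 1
        · apply sum_congr rfl
          intro ω hω
          rw [hA ω hω]
        · apply sum_congr rfl
          intro ω hω
          rw [hB ω hω]
    have hJ2 : J lab = (∑ ω ∈ S \ g, p ω * D90.phi p V β PS (atl lab ω)) +
        (∑ ω ∈ g, p ω) * D90.phi p V β PS g := by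
      show ∑ ω ∈ S, p ω * D90.phi p V β PS (atl lab ω) = _
      rw [← sum_sdiff hgS]
      congr 1
      rw [sum_mul]
      apply sum_congr rfl
      intro ω hω
      rw [hcong lab ω₀ ω hω]
    rw [hJ1, hJ2] at hJ
    linarith
  · -- entropy
    have hJ := hlab (fun _ => none)
    have hJ0 : 0 ≤ J (fun _ => none) := by
      apply sum_nonneg
      intro ω hω
      apply mul_nonneg (hp ω).le
      have h3 : atl (fun _ => none) ω = S := by
        show S.filter (fun ω'' => (none : Option Ω) = none) = S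
        simp
      rw [h3]
      unfold D90.phi
      rw [← hPS, div_self hPSpos.ne', Real.log_one, mul_zero, sub_zero]
      positivity
    have hJ3 : 0 ≤ ∑ ω ∈ S, p ω * D90.phi p V β PS (atl lab ω) := hJ0.trans hJ
    have hb : ∀ ω ∈ S, p ω * D90.phi p V β PS (atl lab ω) ≤
        p ω * (4 * Real.log (1 / PS)) -
          (β - 4) * (p ω * Real.log (PS / ∑ ω' ∈ atl lab ω, p ω')) := by
      intro ω hω
      have hne : (atl lab ω).Nonempty := ⟨ω, hmem lab ω hω⟩
      have hPa := D90.Psum_pos hp hne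
      have h4 := mean_bound p hp h1 V hV (atl lab ω) hne
      have h5 : Real.log (1 / ∑ ω' ∈ atl lab ω, p ω') =
          Real.log (PS / ∑ ω' ∈ atl lab ω, p ω') + Real.log (1 / PS) := by
        rw [Real.log_div hPSpos.ne' hPa.ne', Real.log_div one_ne_zero hPa.ne',
          Real.log_div one_ne_zero hPSpos.ne']
        ring
      have h6 : D90.phi p V β PS (atl lab ω) ≤ 4 * Real.log (1 / PS) -
          (β - 4) * Real.log (PS / ∑ ω' ∈ atl lab ω, p ω') := by
        unfold D90.phi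
        rw [h5] at h4
        linarith
      have h7 := mul_le_mul_of_nonneg_left h6 (hp ω).le
      linarith
    have hsum := sum_le_sum hb
    rw [sum_sub_distrib, ← sum_mul, ← mul_sum, ← hPS] at hsum
    have hpos : 0 < β - 4 := by linarith
    have hfin : (β - 4) * ∑ ω ∈ S, p ω * Real.log (PS / ∑ ω' ∈ atl lab ω, p ω') ≤
        4 * (PS * Real.log (1 / PS)) := by linarith
    rw [div_mul_eq_mul_div, le_div_iff₀ hpos]
    linarith

end IC65
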