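import Pool.Agent.IC65.Dec1

/-!
# IC65 module DEC2: pieces with small information

`Ω` finite, `p > 0`, `∑ p = 1`, `Sg univ p V 1`, `β = 44`, `0 < θ`.  Every event `S` is the disjoint union
of good atoms with `P ≥ θ^(6/5)` and of one exceptional event `e` with `P(e) < θ`.

Strong induction on `S.card`.  If `P(S) < θ` take `e = S` (in particular if `S = ∅`).  Otherwise let `at'` be
the partition of `dec1` (`β = 44`, `4/(β-4) = 1/10`); keep the atoms with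
`log(P(S)/P(at' ω)) ≤ (1/5) log(1/P(S))`, they have `P(at' ω) ≥ P(S)^(6/5) ≥ θ^(6/5)`; let `S₁` be the
union of the other ones.  By Markov `P(S₁) (1/5) log(1/P(S)) ≤ (1/10) P(S) log(1/P(S))`, so `P(S₁) ≤ P(S)/2`
if `P(S) < 1` (if `P(S) = 1` the entropy is `≤ 0`, every term vanishes, and `S₁ = ∅`).  In any case
`S₁` is a proper subset of `S` (`p > 0`, `S` nonempty); apply the induction hypothesis to `S₁`.
-/

open Finset
open scoped RealInnerProductSpace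

noncomputable section

namespace IC65

variable {Ω : Type} [Fintype Ω] [DecidableEq Ω] {E : Type} [NormedAddCommGroup E]
  [InnerProductSpace ℝ E]

theorem dec2 (p : Ω → ℝ) (hp : ∀ ω, 0 < p ω) (h1 : ∑ ω, p ω = 1) (V : Ω → E)
    (hV : Sg univ p V 1) {θ : ℝ} (hθ : 0 < θ) (S : Finset Ω) :
    ∃ (at' : Ω → Finset Ω) (e : Finset Ω), e ⊆ S ∧ ∑ ω ∈ e, p ω < θ ∧ (∀ ω ∈ e, at' ω = e) ∧
      (∀ ω ∈ S, ω ∉ e → ω ∈ at' ω ∧ at' ω ⊆ S \ e ∧ Good (at' ω) p V 44 ∧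
        θ ^ (6 / 5 : ℝ) ≤ ∑ ω' ∈ at' ω, p ω') ∧
      (∀ ω ∈ S, ∀ ω' ∈ at' ω, at' ω' = at' ω) := by
  classical
  induction S using Finset.strongInduction with
  | H S ih =>
  by_cases hSθ : ∑ ω ∈ S, p ω < θ
  · refine ⟨fun _ => S, S, Subset.refl _, hSθ, fun ω _ => rfl, ?_, fun _ _ _ _ => rfl⟩
    intro ω hω hω'
    exact absurd hω hω'
  rw [not_lt] at hSθ
  have hSn : S.Nonempty := by
    rw [nonempty_iff_ne_empty]
    rintro rfl
    rw [sum_empty] at hSθ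
    linarith
  obtain ⟨at1, ha, hb, hc, hd⟩ := dec1 p hp h1 V hV (show (4 : ℝ) < 44 by norm_num) S hSn
  set PS := ∑ ω ∈ S, p ω with hPS
  have hPSpos : 0 < PS := lt_of_lt_of_le hθ hSθ
  have hPS1 : PS ≤ 1 := by
    rw [← h1]
    exact sum_le_sum_of_subset_of_nonneg (subset_univ _) (fun ω _ _ => (hp ω).le)
  have hlog0 : 0 ≤ Real.log (1 / PS) := by
    apply Real.log_nonneg
    rw [le_div_iff₀ hPSpos]
    linarith
  let K := S.filter (fun ω => Real.log (PS / ∑ ω' ∈ at1 ω, p ω') ≤ 1 / 5 * Real.log (1 / PS))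
  let S₁ := S.filter
    (fun ω => ¬ Real.log (PS / ∑ ω' ∈ at1 ω, p ω') ≤ 1 / 5 * Real.log (1 / PS))
  have hKS : ∀ ω, ω ∈ K ↔ ω ∈ S ∧
      Real.log (PS / ∑ ω' ∈ at1 ω, p ω') ≤ 1 / 5 * Real.log (1 / PS) := fun ω => mem_filter
  have hS₁ : ∀ ω, ω ∈ S₁ ↔ ω ∈ S ∧ ω ∉ K := by
    intro ω
    show ω ∈ S.filter (fun ω => ¬ _) ↔ _
    rw [mem_filter, hKS]
    tauto
  have hss : S₁ ⊂ S := by
    rw [Finset.ssubset_iff_subset_ne]
    refine ⟨filter_subset _ _, ?_⟩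
    intro heq
    have hall : ∀ ω ∈ S, 1 / 5 * Real.log (1 / PS) < Real.log (PS / ∑ ω' ∈ at1 ω, p ω') := by
      intro ω hω
      rw [← heq] at hω
      exact not_le.1 (mem_filter.1 hω).2
    have h2 : ∑ ω ∈ S, p ω * (1 / 5 * Real.log (1 / PS)) <
        ∑ ω ∈ S, p ω * Real.log (PS / ∑ ω' ∈ at1 ω, p ω') := by
      apply sum_lt_sum_of_nonempty hSn
      intro ω hω
      exact mul_lt_mul_of_pos_left (hall ω hω) (hp ω)
    rw [← sum_mul, ← hPS] at h2
    have h3 : 0 ≤ PS * Real.log (1 / PS) := by positivity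
    have h4 : (4 : ℝ) / (44 - 4) * (PS * Real.log (1 / PS)) =
        1 / 10 * (PS * Real.log (1 / PS)) := by norm_num
    rw [h4] at hd
    nlinarith
  obtain ⟨at2, e, he, hPe, hate, hgood, hcong⟩ := ih S₁ hss
  have hKc : ∀ ω ∈ K, ∀ ω' ∈ at1 ω, ω' ∈ K := by
    intro ω hω ω' hω'
    have hωS := ((hKS ω).1 hω).1
    rw [hKS]
    refine ⟨(ha ω hωS).2 hω', ?_⟩
    rw [hb ω hωS ω' hω']
    exact ((hKS ω).1 hω).2
  refine ⟨fun ω => if ω ∈ K then at1 ω else at2 ω, e, he.trans hss.1, hPe, ?_, ?_, ?_⟩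
  · intro ω hω
    have h5 : ω ∉ K := ((hS₁ ω).1 (he hω)).2
    simp only [if_neg h5]
    exact hate ω hω
  · intro ω hω hωe
    by_cases hK : ω ∈ K
    · simp only [if_pos hK]
      have hne : (at1 ω).Nonempty := ⟨ω, (ha ω hω).1⟩
      have hPpos : 0 < ∑ ω' ∈ at1 ω, p ω' := sum_pos (fun ω _ => hp ω) hne
      refine ⟨(ha ω hω).1, ?_, hc ω hω, ?_⟩
      · intro ω' hω'
        rw [mem_sdiff]
        refine ⟨(ha ω hω).2 hω', fun h6 => ?_⟩
        exact ((hS₁ ω').1 (he h6)).2 (hKc ω hK ω' hω')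
      · have h7 := ((hKS ω).1 hK).2
        rw [Real.log_div hPSpos.ne' hPpos.ne', Real.log_div one_ne_zero hPSpos.ne',
          Real.log_one, zero_sub] at h7
        have h8 : Real.log (θ ^ (6 / 5 : ℝ)) ≤ Real.log (∑ ω' ∈ at1 ω, p ω') := by
          rw [Real.log_rpow hθ]
          have h9 := Real.log_le_log hθ hSθ
          linarith
        exact (Real.log_le_log_iff (Real.rpow_pos_of_pos hθ _) hPpos).1 h8
    · simp only [if_neg hK]
      have h10 : ω ∈ S₁ := (hS₁ ω).2 ⟨hω, hK⟩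
      obtain ⟨h11, h12, h13, h14⟩ := hgood ω h10 hωe
      refine ⟨h11, ?_, h13, h14⟩
      intro ω' hω'
      have := h12 hω'
      rw [mem_sdiff] at this ⊢
      exact ⟨hss.1 this.1, this.2⟩
  · intro ω hω ω' hω'
    by_cases hK : ω ∈ K
    · simp only [if_pos hK] at hω' ⊢
      rw [if_pos (hKc ω hK ω' hω')]
      exact hb ω hω ω' hω'
    · simp only [if_neg hK] at hω' ⊢
      have h10 : ω ∈ S₁ := (hS₁ ω).2 ⟨hω, hK⟩
      have h15 : ω' ∈ S₁ := by
        by_cases hωe : ω ∈ e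
        · rw [hate ω hωe] at hω'
          exact he hω'
        · exact (mem_sdiff.1 ((hgood ω h10 hωe).2.1 hω')).1
      rw [if_neg ((hS₁ ω').1 h15).2]
      exact hcong ω h10 ω' hω'

end IC65
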