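import Mathlib

/-!
# MP_3f30ee_pr (IC65): isometry of random matrices with independent, unnormalised subgaussian columns

Definitions.  `X : ι → E` is the family of the columns, `u : EuclideanSpace ℝ ι` a vector.

* `lin X u = ∑ u_i X_i` (the vector `A u`), `wn d u = (∑ (d_i u_i)²)^{1/2}` (the norm of `D u` for the
  diagonal matrix `d`), `len X i = ‖X_i‖`;
* `Qf X u w = ∑_{i ≠ j} u_i w_j ⟨X_i, X_j⟩` and `Vf X w = (‖A w‖² + ‖D w‖²)^{1/2}`;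
* `Sg S p V s`: `∑_{ω ∈ S} p ω exp⟨V ω, v⟩ ≤ p(S) exp(s² ‖v‖²)` for all `v` (on the event `S` of a
  finite space with the weights `p`, the vector `V` is centred and `s`-subgaussian).
-/

open Finset
open scoped RealInnerProductSpace

noncomputable section

namespace IC65

variable {ι : Type*} [Fintype ι] {E : Type*} [NormedAddCommGroup E] [InnerProductSpace ℝ E]

/-- `A u = ∑ u_i A_i` -/
def lin (X : ι → E) (u : EuclideanSpace ℝ ι) : E := ∑ i, u i • X i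

/-- the norm of `D u` for a diagonal matrix -/
def wn (d : ι → ℝ) (u : EuclideanSpace ℝ ι) : ℝ := Real.sqrt (∑ i, (d i * u i) ^ 2)

/-- the lengths of the columns -/
def len (X : ι → E) (i : ι) : ℝ := ‖X i‖

/-- `∑_{i ≠ j} u_i w_j ⟨X_i, X_j⟩` -/
def Qf (X : ι → E) (u w : EuclideanSpace ℝ ι) : ℝ :=
  ⟪lin X u, lin X w⟫ - ∑ i, u i * w i * ‖X i‖ ^ 2

/-- `(‖A w‖² + ‖D w‖²)^{1/2}` -/
def Vf (X : ι → E) (w : EuclideanSpace ℝ ι) : ℝ := Real.sqrt (‖lin X w‖ ^ 2 + wn (len X) w ^ 2)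

/-- on the event `S`, the vector `V` is centred and subgaussian with parameter `s` -/
def Sg {Ω : Type*} (S : Finset Ω) (p : Ω → ℝ) (V : Ω → E) (s : ℝ) : Prop :=
  ∀ v : E, ∑ ω ∈ S, p ω * Real.exp ⟪V ω, v⟫ ≤ (∑ ω ∈ S, p ω) * Real.exp (s ^ 2 * ‖v‖ ^ 2)

/-- the mean of `V` on the event `S` -/
def mean {Ω : Type*} (S : Finset Ω) (p : Ω → ℝ) (V : Ω → E) : E :=
  (∑ ω ∈ S, p ω)⁻¹ • ∑ ω ∈ S, p ω • V ω

/-- nested partitions of the finite set `T`, at most `2^(2^m)` cells at level `m`, with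
`∑ 2^(m/2) diam ≤ Γ`, and eventually separating the points of `T` -/
structure Cells (T : Finset (EuclideanSpace ℝ ι)) (Γ : ℝ) where
  c : ℕ → EuclideanSpace ℝ ι → ℕ
  Δ : ℕ → EuclideanSpace ℝ ι → ℝ
  card : ∀ m, (T.image (c m)).card ≤ 2 ^ 2 ^ m
  nest : ∀ m, ∀ x ∈ T, ∀ y ∈ T, c (m + 1) x = c (m + 1) y → c m x = c m y
  Δ_nonneg : ∀ m x, 0 ≤ Δ m x
  diam : ∀ m, ∀ x ∈ T, ∀ y ∈ T, c m x = c m y → ‖x - y‖ ≤ Δ m x
  sum : ∀ x ∈ T, ∀ M, ∑ m ∈ range M, Real.sqrt 2 ^ m * Δ m x ≤ Γ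
  L : ℕ
  sep : ∀ m, L ≤ m → ∀ x ∈ T, ∀ y ∈ T, c m x = c m y → x = y
  bd : ∀ x ∈ T, ‖x‖ ≤ Γ

end IC65
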