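import Pool.Agent.IC65.DetDefs

/-!
# IC65 module DET-B: the preparatory bounds for DET-M and DET-X

For `D : MData` write `x = y L`, `u_m = y (m+1) - y m`; `√2^m ‖u_m‖ ≤ 2 Γ`, `∑_{m<L} √2^m ‖u_m‖ ≤ 2 Γ` (`sum_u`:
`‖u_m‖ ≤ Δ m + Δ (m+1)`, `dist`, `sumΔ`), `ξ_m(y) = wn (xe (Ex m) (X m)) y`.

* `len_le`, `len_le'`: `wn (len (X m)) y ≤ 22 √2^m ‖y‖ + ξ_m(y)` and `≤ 22 wn d y + ξ_m(y)` (`len1`, `len2`:
  `‖X m i‖ ≤ 22 √2^m + xe i`; `wn_mono`, `wn_add_left_le`).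
* `xi_x`: for `m < L` `ξ_m(x) ≤ ξ_m(y (m+1)) + ∑_{m<n<L} ξ_m(u_n) ≤ Z Γ + Z ∑ √2^n ‖u_n‖ ≤ 3 Γ Z` (`hx1`, `hxu`).
* `xi_y`: `ξ_m(y m) ≤ ξ_m(y (m+1)) + ξ_m(u_m) ≤ 3 Γ Z` (`m < L`).
* `len_y`: `wn (len (X m)) (y m) ≤ wn (len (X m)) x + wn (len (X m)) (y m - x)`, the first one is `≤ 22 R + 3 Γ Z`
  (`len_le'`, `dR`), the second one `≤ 22 √2^m Δ m + ξ_m(y m) + ξ_m(x) ≤ 22 Γ + 6 Γ Z`.  If `m = L ≥ 1` then
  `ξ_L(y L) ≤ Z Γ` (`hx2`, `m = L-1`); if `m = L = 0` then `X 0 = 0`.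
* `len_y'`: the same for `y (m+1)`, `m < L`.
* `len_c`: crude bounds from `len_le` (`yΓ`), `xi_y`, `hx1`, `hx2`, `1 ≤ √2^m`, `1 ≤ Z`.
* `sw_le`: `wn (sw m (N m) (Ex m)) y ≤ 15 wn (ind (N m)) y + 80 √2^m wn (ind (Ex m)) y` and
  `wn (ind (N m)) x ≤ wn d x/4^m` by `Nd`, `wn (ind (N m)) (y (m+1) - x) ≤ Δ (m+1)`; `hi`.
* `Vf_c`, `Vf_c'`: `Vf_le_of_Qf` with `hQs`, `hQs'` and `len_c`.
-/

open Finset
open scoped RealInnerProductSpace

noncomputable section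

namespace IC65

variable {ι : Type} [Fintype ι] [DecidableEq ι] {E : Type} [NormedAddCommGroup E]
  [InnerProductSpace ℝ E]

private theorem s1 : (1 : ℝ) ≤ Real.sqrt 2 := by
  rw [Real.one_le_sqrt]; norm_num

private theorem s15 : Real.sqrt 2 ≤ (3 / 2 : ℝ) := by
  rw [Real.sqrt_le_left (by norm_num)]; norm_num

private theorem sp (m : ℕ) : (1 : ℝ) ≤ Real.sqrt 2 ^ m := one_le_pow₀ s1

private theorem R0 (D : MData ι E) : 0 ≤ D.R := (wn_nonneg _ _).trans D.dR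

theorem len_le (D : MData ι E) (m : ℕ) (y : EuclideanSpace ℝ ι) :
    wn (len (D.X m)) y ≤ 22 * Real.sqrt 2 ^ m * ‖y‖ + wn (xe (D.Ex m) (D.X m)) y := by
  have h0 := sp m
  have h1 : wn (len (D.X m)) y ≤
      wn (fun i => (fun _ : ι => 22 * Real.sqrt 2 ^ m) i + xe (D.Ex m) (D.X m) i) y := by
    apply wn_mono
    intro i
    have h2 := norm_nonneg (D.X m i)
    simp only [len, abs_norm]
    refine le_trans ?_ (le_abs_self _)
    unfold xe
    split_ifs with h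
    · linarith
    · have := D.len1 m i h
      linarith
  refine h1.trans ((wn_add_left_le _ _ _).trans ?_)
  have h3 : wn (fun _ : ι => 22 * Real.sqrt 2 ^ m) y ≤ 22 * Real.sqrt 2 ^ m * ‖y‖ := by
    apply wn_le_mul_norm (by linarith)
    intro i
    rw [abs_of_nonneg (by linarith)]
  linarith

theorem len_le' (D : MData ι E) (m : ℕ) (y : EuclideanSpace ℝ ι) :
    wn (len (D.X m)) y ≤ 22 * wn D.d y + wn (xe (D.Ex m) (D.X m)) y := by
  have h1 : wn (len (D.X m)) y ≤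
      wn (fun i => (fun i : ι => 22 * D.d i) i + xe (D.Ex m) (D.X m) i) y := by
    apply wn_mono
    intro i
    have h2 := norm_nonneg (D.X m i)
    have h3 := D.d0 i
    simp only [len, abs_norm]
    refine le_trans ?_ (le_abs_self _)
    unfold xe
    split_ifs with h
    · linarith
    · have := D.len2 m i h
      linarith
  refine h1.trans ((wn_add_left_le _ _ _).trans ?_)
  have h3 : wn (fun i : ι => 22 * D.d i) y ≤ 22 * wn D.d y := by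
    rw [wn_smul_left, abs_of_nonneg (by norm_num : (0 : ℝ) ≤ 22)]
  linarith

private theorem u_le (D : MData ι E) {m : ℕ} (hm : m < D.L) :
    ‖D.y (m + 1) - D.y m‖ ≤ D.Δ m + D.Δ (m + 1) := by
  have h1 := D.dist m hm.le
  have h2 := D.dist (m + 1) hm
  have h3 : D.y (m + 1) - D.y m = (D.y D.L - D.y m) - (D.y D.L - D.y (m + 1)) := by abel
  rw [h3]
  refine (norm_sub_le _ _).trans ?_
  linarith

theorem sum_u (D : MData ι E) :
    ∑ m ∈ range D.L, Real.sqrt 2 ^ m * ‖D.y (m + 1) - D.y m‖ ≤ 2 * D.Γ := by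
  have h1 : ∑ m ∈ range D.L, Real.sqrt 2 ^ m * ‖D.y (m + 1) - D.y m‖ ≤
      ∑ m ∈ range D.L, (Real.sqrt 2 ^ m * D.Δ m + Real.sqrt 2 ^ (m + 1) * D.Δ (m + 1)) := by
    apply sum_le_sum
    intro m hm
    have hu := u_le D (mem_range.1 hm)
    have h0 := sp m
    have h2 := D.Δ0 (m + 1)
    have h3 : Real.sqrt 2 ^ m * ‖D.y (m + 1) - D.y m‖ ≤
        Real.sqrt 2 ^ m * (D.Δ m + D.Δ (m + 1)) :=
      mul_le_mul_of_nonneg_left hu (by linarith)
    have h4 : Real.sqrt 2 ^ m * D.Δ (m + 1) ≤ Real.sqrt 2 ^ (m + 1) * D.Δ (m + 1) := by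
      apply mul_le_mul_of_nonneg_right _ h2
      exact pow_le_pow_right₀ s1 (Nat.le_succ m)
    linarith
  have hs := D.sumΔ
  have h2 : ∑ m ∈ range D.L, Real.sqrt 2 ^ m * D.Δ m ≤ D.Γ := by
    rw [sum_range_succ] at hs
    have := mul_nonneg (pow_nonneg (Real.sqrt_nonneg 2) D.L) (D.Δ0 D.L)
    linarith
  have h3 : ∑ m ∈ range D.L, Real.sqrt 2 ^ (m + 1) * D.Δ (m + 1) ≤ D.Γ := by
    rw [sum_range_succ'] at hs
    have := mul_nonneg (pow_nonneg (Real.sqrt_nonneg 2) 0) (D.Δ0 0)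
    linarith
  rw [sum_add_distrib] at h1
  linarith

theorem sum_u' (D : MData ι E) {m : ℕ} (hm : m < D.L) :
    Real.sqrt 2 ^ m * ‖D.y (m + 1) - D.y m‖ ≤ 2 * D.Γ := by
  refine le_trans ?_ (sum_u D)
  exact single_le_sum (f := fun m => Real.sqrt 2 ^ m * ‖D.y (m + 1) - D.y m‖)
    (fun i _ => mul_nonneg (pow_nonneg (Real.sqrt_nonneg 2) i) (norm_nonneg _))
    (mem_range.2 hm)

private theorem sΔ (D : MData ι E) {m : ℕ} (hm : m ≤ D.L) :
    Real.sqrt 2 ^ m * D.Δ m ≤ D.Γ := by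
  refine le_trans ?_ D.sumΔ
  exact single_le_sum (f := fun m => Real.sqrt 2 ^ m * D.Δ m)
    (fun i _ => mul_nonneg (pow_nonneg (Real.sqrt_nonneg 2) i) (D.Δ0 i))
    (mem_range.2 (Nat.lt_succ_of_le hm))

private theorem div4 {a : ℝ} (ha : 0 ≤ a) (m : ℕ) : a / 4 ^ m ≤ a :=
  div_le_self ha (one_le_pow₀ (by norm_num))

private theorem ZΓ0 (D : MData ι E) : 0 ≤ D.Z * D.Γ :=
  mul_nonneg (zero_le_one.trans D.Z1) D.Γ0

private theorem ΓZ (D : MData ι E) : D.Γ ≤ D.Z * D.Γ :=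
  le_mul_of_one_le_left D.Γ0 D.Z1

private theorem xi_chain (D : MData ι E) {m : ℕ} (k : ℕ) (hm : m + 1 ≤ k) (hk : k ≤ D.L) :
    wn (xe (D.Ex m) (D.X m)) (D.y k) ≤ wn (xe (D.Ex m) (D.X m)) (D.y (m + 1)) +
      ∑ n ∈ Ico (m + 1) k, Real.sqrt 2 ^ n * D.Z * ‖D.y (n + 1) - D.y n‖ := by
  induction k, hm using Nat.le_induction with
  | base => simp
  | succ k hmk ih =>
    have h1 := ih (by omega)
    rw [sum_Ico_succ_top hmk]
    have h2 := D.hxu k (by omega) m (by omega)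
    have h3 : D.y (k + 1) = D.y k + (D.y (k + 1) - D.y k) := by abel
    have h4 := wn_add_le (xe (D.Ex m) (D.X m)) (D.y k) (D.y (k + 1) - D.y k)
    rw [← h3] at h4
    linarith

theorem xi_x (D : MData ι E) {m : ℕ} (hm : m < D.L) :
    wn (xe (D.Ex m) (D.X m)) (D.y D.L) ≤ 3 * D.Γ * D.Z := by
  have h1 := xi_chain D D.L hm le_rfl
  have h2 := D.hx1 m hm
  have h3 := div4 (ZΓ0 D) m
  have h4 : ∑ n ∈ Ico (m + 1) D.L, Real.sqrt 2 ^ n * D.Z * ‖D.y (n + 1) - D.y n‖ ≤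
      ∑ n ∈ range D.L, Real.sqrt 2 ^ n * D.Z * ‖D.y (n + 1) - D.y n‖ := by
    apply sum_le_sum_of_subset_of_nonneg
    · intro n hn
      rw [mem_Ico] at hn
      exact mem_range.2 hn.2
    · intro n _ _
      exact mul_nonneg (mul_nonneg (pow_nonneg (Real.sqrt_nonneg 2) n)
        (zero_le_one.trans D.Z1)) (norm_nonneg _)
  have h5 : ∑ n ∈ range D.L, Real.sqrt 2 ^ n * D.Z * ‖D.y (n + 1) - D.y n‖ =
      D.Z * ∑ n ∈ range D.L, Real.sqrt 2 ^ n * ‖D.y (n + 1) - D.y n‖ := by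
    rw [mul_sum]
    apply sum_congr rfl
    intro n _
    ring
  have h6 := mul_le_mul_of_nonneg_left (sum_u D) (zero_le_one.trans D.Z1)
  linarith

theorem xi_y (D : MData ι E) {m : ℕ} (hm : m < D.L) :
    wn (xe (D.Ex m) (D.X m)) (D.y m) ≤ 3 * D.Γ * D.Z := by
  have h2 := D.hx1 m hm
  have h3 := div4 (ZΓ0 D) m
  have h4 := D.hxu m hm m le_rfl
  have h5 := wn_sub_le (xe (D.Ex m) (D.X m)) (D.y (m + 1)) (D.y (m + 1) - D.y m)
  rw [sub_sub_cancel] at h5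
  have h6 := mul_le_mul_of_nonneg_left (sum_u' D hm) (zero_le_one.trans D.Z1)
  linarith

theorem len_y (D : MData ι E) {m : ℕ} (hm : m ≤ D.L) :
    wn (len (D.X m)) (D.y m) ≤ 22 * D.R + 40 * D.Γ * D.Z := by
  have hR := R0 D
  have hZ := ZΓ0 D
  have hG := ΓZ D
  rcases hm.lt_or_eq with hlt | heq
  · have h1 := wn_add_le (len (D.X m)) (D.y D.L) (D.y m - D.y D.L)
    rw [add_sub_cancel] at h1
    have h2 := len_le' D m (D.y D.L)
    have h3 := len_le D m (D.y m - D.y D.L)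
    have h4 := xi_x D hlt
    have h5 := xi_y D hlt
    have h6 := wn_sub_le (xe (D.Ex m) (D.X m)) (D.y m) (D.y D.L)
    have h7 := D.dist m hm
    rw [norm_sub_rev] at h7
    have h8 := mul_le_mul_of_nonneg_left h7 (pow_nonneg (Real.sqrt_nonneg 2) m)
    have h9 := sΔ D hm
    have h10 := D.dR
    linarith
  · subst heq
    have h1 : wn (len (D.X D.L)) (D.y D.L) ≤ wn D.d (D.y D.L) := by
      apply wn_mono
      intro i
      simp only [len, abs_norm]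
      exact (D.lenL i).trans (le_abs_self _)
    have h2 := D.dR
    linarith

theorem len_y' (D : MData ι E) {m : ℕ} (hm : m < D.L) :
    wn (len (D.X m)) (D.y (m + 1)) ≤ 22 * D.R + 40 * D.Γ * D.Z := by
  have hR := R0 D
  have hZ := ZΓ0 D
  have hG := ΓZ D
  have h1 := wn_add_le (len (D.X m)) (D.y D.L) (D.y (m + 1) - D.y D.L)
  rw [add_sub_cancel] at h1
  have h2 := len_le' D m (D.y D.L)
  have h3 := len_le D m (D.y (m + 1) - D.y D.L)
  have h4 := xi_x D hm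
  have h5 := D.hx1 m hm
  have h5' := div4 (ZΓ0 D) m
  have h6 := wn_sub_le (xe (D.Ex m) (D.X m)) (D.y (m + 1)) (D.y D.L)
  have h7 := D.dist (m + 1) hm
  rw [norm_sub_rev] at h7
  have h8 := mul_le_mul_of_nonneg_left h7 (pow_nonneg (Real.sqrt_nonneg 2) m)
  have h9 := sΔ D (show m + 1 ≤ D.L from hm)
  have h9' : Real.sqrt 2 ^ m * D.Δ (m + 1) ≤ Real.sqrt 2 ^ (m + 1) * D.Δ (m + 1) := by
    apply mul_le_mul_of_nonneg_right _ (D.Δ0 _)
    exact pow_le_pow_right₀ s1 (Nat.le_succ m)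
  have h10 := D.dR
  linarith

private theorem sZΓ (D : MData ι E) (m : ℕ) : D.Z * D.Γ ≤ Real.sqrt 2 ^ m * D.Γ * D.Z := by
  have := mul_le_mul_of_nonneg_right (sp m) (ZΓ0 D)
  linarith

private theorem snΓ (D : MData ι E) (m : ℕ) {y : EuclideanSpace ℝ ι} (hy : ‖y‖ ≤ D.Γ) :
    Real.sqrt 2 ^ m * ‖y‖ ≤ Real.sqrt 2 ^ m * D.Γ * D.Z := by
  have h1 := mul_le_mul_of_nonneg_left (hy.trans (ΓZ D)) (pow_nonneg (Real.sqrt_nonneg 2) m)
  linarith

private theorem snΓ' (D : MData ι E) (m : ℕ) {y : EuclideanSpace ℝ ι} (hy : ‖y‖ ≤ D.Γ) :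
    Real.sqrt 2 ^ (m + 1) * ‖y‖ ≤ 3 / 2 * (Real.sqrt 2 ^ m * D.Γ * D.Z) := by
  have h1 := snΓ D m hy
  have h0 : 0 ≤ Real.sqrt 2 ^ m * ‖y‖ :=
    mul_nonneg (pow_nonneg (Real.sqrt_nonneg 2) m) (norm_nonneg _)
  rw [pow_succ]
  have h2 := mul_le_mul_of_nonneg_left s15 h0
  linarith

theorem len_c (D : MData ι E) {m : ℕ} (hm : m < D.L) :
    wn (len (D.X m)) (D.y (m + 1)) ≤ 40 * Real.sqrt 2 ^ m * D.Γ * D.Z ∧
      wn (len (D.X (m + 1))) (D.y (m + 1)) ≤ 40 * Real.sqrt 2 ^ m * D.Γ * D.Z := by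
  have h0 := ZΓ0 D
  have h1 := sZΓ D m
  have h2 := D.yΓ (m + 1) hm
  have h3 := snΓ D m h2
  have h4 := snΓ' D m h2
  have h5 := D.hx1 m hm
  have h6 := D.hx2 m hm
  have h7 := div4 h0 m
  have h8 := len_le D m (D.y (m + 1))
  have h9 := len_le D (m + 1) (D.y (m + 1))
  constructor
  · linarith
  · linarith

theorem ind_le (D : MData ι E) {m : ℕ} (hm : m < D.L) :
    wn (ind (D.N m)) (D.y (m + 1)) ≤ D.R / 4 ^ m + D.Δ (m + 1) := by
  have h1 := wn_add_le (ind (D.N m)) (D.y D.L) (D.y (m + 1) - D.y D.L)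
  rw [add_sub_cancel] at h1
  have h4 : (0 : ℝ) < 4 ^ m := by positivity
  have h2 : wn (ind (D.N m)) (D.y D.L) ≤ (1 / 4 ^ m) * wn D.d (D.y D.L) := by
    apply wn_le_mul (by positivity)
    intro i
    unfold ind
    split_ifs with h
    · have h5 := D.Nd m i h
      rw [abs_one, abs_of_nonneg (D.d0 i), one_div, inv_mul_eq_div, le_div_iff₀ h4]
      linarith
    · rw [abs_zero]
      positivity
  have h3 : wn (ind (D.N m)) (D.y (m + 1) - D.y D.L) ≤ 1 * ‖D.y (m + 1) - D.y D.L‖ := by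
    apply wn_le_mul_norm zero_le_one
    intro i
    unfold ind
    split_ifs <;> simp
  have h7 := D.dist (m + 1) hm
  rw [norm_sub_rev] at h7
  have h8 : (1 / 4 ^ m) * wn D.d (D.y D.L) ≤ D.R / 4 ^ m := by
    rw [one_div, inv_mul_eq_div]
    exact div_le_div_of_nonneg_right D.dR h4.le
  linarith

theorem sw_le (D : MData ι E) {m : ℕ} (hm : m < D.L) :
    wn (sw m (D.N m) (D.Ex m)) (D.y (m + 1)) ≤
      15 * (D.R / 4 ^ m + D.Δ (m + 1)) + 80 * Real.sqrt 2 ^ m * (D.Z * D.Γ / 4 ^ m) := by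
  have h0 := sp m
  have h1 : wn (sw m (D.N m) (D.Ex m)) (D.y (m + 1)) ≤
      wn (fun i => (fun i => 15 * ind (D.N m) i) i +
        (fun i => 80 * Real.sqrt 2 ^ m * ind (D.Ex m) i) i) (D.y (m + 1)) := by
    apply wn_mono
    intro i
    have h2 : 0 ≤ ind (D.N m) i := by unfold ind; split_ifs <;> norm_num
    have h3 : 0 ≤ ind (D.Ex m) i := by unfold ind; split_ifs <;> norm_num
    refine le_trans ?_ (le_abs_self _)
    unfold sw
    split_ifs with h h'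
    · have h4 : ind (D.Ex m) i = 1 := by unfold ind; rw [if_pos h]
      rw [abs_of_nonneg (by positivity)]
      show 80 * Real.sqrt 2 ^ m ≤ 15 * ind (D.N m) i + 80 * Real.sqrt 2 ^ m * ind (D.Ex m) i
      rw [h4]
      linarith
    · have h4 : ind (D.N m) i = 1 := by unfold ind; rw [if_pos h']
      rw [abs_of_nonneg (by norm_num)]
      show 15 ≤ 15 * ind (D.N m) i + 80 * Real.sqrt 2 ^ m * ind (D.Ex m) i
      rw [h4]
      have : 0 ≤ 80 * Real.sqrt 2 ^ m * ind (D.Ex m) i := by positivity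
      linarith
    · rw [abs_zero]
      positivity
  refine h1.trans ((wn_add_left_le _ _ _).trans ?_)
  rw [wn_smul_left, wn_smul_left, abs_of_nonneg (by norm_num : (0 : ℝ) ≤ 15),
    abs_of_nonneg (by positivity : (0 : ℝ) ≤ 80 * Real.sqrt 2 ^ m)]
  have h5 := ind_le D hm
  have h6 := mul_le_mul_of_nonneg_left (D.hi m hm)
    (by positivity : (0 : ℝ) ≤ 80 * Real.sqrt 2 ^ m)
  linarith

theorem Vf_c (D : MData ι E) {m : ℕ} (hm : m < D.L) :
    Vf (D.X m) (D.y (m + 1)) ≤ 100 * Real.sqrt 2 ^ m * D.Γ * D.Z ∧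
      Vf (D.X (m + 1)) (D.y (m + 1)) ≤ 100 * Real.sqrt 2 ^ m * D.Γ * D.Z := by
  have h0 := ZΓ0 D
  have hZ : 0 ≤ D.Z := zero_le_one.trans D.Z1
  have h1 := sZΓ D m
  have h2 := D.yΓ (m + 1) hm
  obtain ⟨h3, h4⟩ := len_c D hm
  have h5 := Vf_le_of_Qf (by positivity) (D.hQs' m hm)
  have h6 := Vf_le_of_Qf (by positivity) (D.hQs (m + 1) hm)
  have h7 : Real.sqrt 2 ^ m * D.Z * ‖D.y (m + 1)‖ ≤ Real.sqrt 2 ^ m * D.Γ * D.Z := by
    have := mul_le_mul_of_nonneg_left h2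
      (mul_nonneg (pow_nonneg (Real.sqrt_nonneg 2) m) hZ)
    linarith
  have h8 : Real.sqrt 2 ^ (m + 1) * D.Z * ‖D.y (m + 1)‖ ≤
      3 / 2 * (Real.sqrt 2 ^ m * D.Γ * D.Z) := by
    have h9 : 0 ≤ Real.sqrt 2 ^ m * D.Z * ‖D.y (m + 1)‖ := by positivity
    have h10 := mul_le_mul_of_nonneg_right s15 h9
    rw [pow_succ]
    linarith
  constructor
  · linarith
  · linarith

end IC65
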