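import Pool.Agent.IC65.DetB

/-!
# IC65 module DET-M: the chain of the conditional means (uses DET-B)

For `D : MData` write `x = y L`, `u_m = y (m+1) - y m`, `V_m = Vf (X m)`, `Q_m(y) = Qf (X m) y y`, `C` = absolute
constants.  Let `S` be the maximum of all `V_m(y m)` (`m ≤ L`) and `V_m(y (m+1))` (`m < L`).

(e) increments: `Q_(m+1)(y (m+1)) - Q_m(y m) = [Q_m(y (m+1)) - Q_m(y m)] + [Q_(m+1)(y (m+1)) - Q_m(y (m+1))]`.
   The first bracket is `Qf (X m) u_m (y (m+1) + y m)` (`Qf_polar`), `≤ √2^m Z ‖u_m‖ · 2S` (`hQ`, `Vf_add_le`).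
   The second one is `2 ∑_j y_j ⟨δ_j, lin (X m) y - y_j X_j⟩ + Qf δ y y` (`y = y (m+1)`, `δ = X (m+1) - X m`;
   `Qf_step`), by `hb1`, `hb2` and `Vf_sub_left_le` it is
   `≤ 6 √2^m Z wn(sw)(y) (V_m(y) + V_(m+1)(y))`; by `sw_le` this is at most
   `6 √2^m Z (15 Δ (m+1) + 80 √2^m Z Γ/4^m) · 2S + 90 √2^m Z (R/4^m) · 200 √2^m Z Γ` (using `Vf_c` for the term
   with `R`).  Sum over `m < L` (`∑ √2^m √2^m 4^(-m) ≤ 2`, `∑ √2^m Δ (m+1) ≤ Γ`, `sum_u`, `Q_0 = 0` because `X 0 = 0`):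
   `|Q_m(y m)| (m ≤ L), |Q_m(y (m+1))| (m < L) ≤ C Γ Z² (S + R)`.
(f) `V_m² = Q_m + 2 wn²` (`Vf_sq'`) and `len_y`, `len_y'`: `S² ≤ C Γ Z² (S + R) + C (R + Γ Z)²`, so
   `S ≤ C (R + Γ Z²)`.
(g) `|Q_L(y L)| ≤ C Γ Z² (R + Γ Z²)`.
-/

open Finset
open scoped RealInnerProductSpace

noncomputable section

namespace IC65

namespace M90

variable {ι : Type} [Fintype ι] [DecidableEq ι] {E : Type} [NormedAddCommGroup E]
  [InnerProductSpace ℝ E]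

theorem s_sq (m : ℕ) : Real.sqrt 2 ^ m * Real.sqrt 2 ^ m = 2 ^ m := by
  rw [← mul_pow, Real.mul_self_sqrt (by norm_num)]

theorem half_pow (m : ℕ) : Real.sqrt 2 ^ m * Real.sqrt 2 ^ m / 4 ^ m = (1 / 2 : ℝ) ^ m := by
  rw [s_sq, ← div_pow]
  norm_num

theorem s_pos (m : ℕ) : 0 < Real.sqrt 2 ^ m := by positivity

theorem s_le (m : ℕ) : Real.sqrt 2 ^ m ≤ Real.sqrt 2 ^ (m + 1) := by
  apply pow_le_pow_right₀ _ (by omega)
  rw [Real.one_le_sqrt]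
  norm_num

theorem R_nonneg (D : MData ι E) : 0 ≤ D.R := (wn_nonneg _ _).trans D.dR

theorem Z_le_sq (D : MData ι E) : D.Z ≤ D.Z ^ 2 := by
  have := D.Z1
  nlinarith

theorem sum_Δ' (D : MData ι E) : ∑ m ∈ range D.L, Real.sqrt 2 ^ m * D.Δ (m + 1) ≤ D.Γ := by
  refine le_trans ?_ D.sumΔ
  rw [sum_range_succ']
  have h0 : 0 ≤ Real.sqrt 2 ^ 0 * D.Δ 0 := mul_nonneg (s_pos 0).le (D.Δ0 0)
  have : ∑ m ∈ range D.L, Real.sqrt 2 ^ m * D.Δ (m + 1) ≤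
      ∑ m ∈ range D.L, Real.sqrt 2 ^ (m + 1) * D.Δ (m + 1) := by
    apply sum_le_sum
    intro m _
    exact mul_le_mul_of_nonneg_right (s_le m) (D.Δ0 _)
  linarith

/-- the bound of the `m`-th increment -/
def inc (D : MData ι E) (S : ℝ) (m : ℕ) : ℝ :=
  2 * S * D.Z * (Real.sqrt 2 ^ m * ‖D.y (m + 1) - D.y m‖) +
    150 * D.Z * S * (Real.sqrt 2 ^ m * D.Δ (m + 1)) +
    (800 * D.Z ^ 2 * D.Γ * S + 15000 * D.R * D.Γ * D.Z ^ 2) * (1 / 2) ^ m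

theorem sum_inc (D : MData ι E) {S : ℝ} (hS : 0 ≤ S) :
    ∑ m ∈ range D.L, inc D S m ≤ 30000 * (D.Γ * D.Z ^ 2) * (S + D.R) := by
  unfold inc
  rw [sum_add_distrib, sum_add_distrib, ← mul_sum, ← mul_sum, ← mul_sum]
  have h1 := sum_u D
  have h2 := sum_Δ' D
  have h3 := sum_geometric_two_le D.L
  have hZ := D.Z1
  have hΓ := D.Γ0
  have hR := R_nonneg D
  have hZZ := Z_le_sq D
  have e1 : 2 * S * D.Z * (∑ m ∈ range D.L, Real.sqrt 2 ^ m * ‖D.y (m + 1) - D.y m‖) ≤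
      2 * S * D.Z * (2 * D.Γ) := mul_le_mul_of_nonneg_left h1 (by positivity)
  have e2 : 150 * D.Z * S * (∑ m ∈ range D.L, Real.sqrt 2 ^ m * D.Δ (m + 1)) ≤
      150 * D.Z * S * D.Γ := mul_le_mul_of_nonneg_left h2 (by positivity)
  have e3 : (800 * D.Z ^ 2 * D.Γ * S + 15000 * D.R * D.Γ * D.Z ^ 2) *
      (∑ m ∈ range D.L, (1 / 2 : ℝ) ^ m) ≤
      (800 * D.Z ^ 2 * D.Γ * S + 15000 * D.R * D.Γ * D.Z ^ 2) * 2 :=
    mul_le_mul_of_nonneg_left h3 (by positivity)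
  have e4 : S * D.Γ * D.Z ≤ S * D.Γ * D.Z ^ 2 := mul_le_mul_of_nonneg_left hZZ (by positivity)
  have e5 : 0 ≤ S * D.Γ * D.Z ^ 2 := by positivity
  nlinarith

theorem inc_nonneg (D : MData ι E) {S : ℝ} (hS : 0 ≤ S) (m : ℕ) : 0 ≤ inc D S m := by
  unfold inc
  have hZ := D.Z1
  have hΓ := D.Γ0
  have hR := R_nonneg D
  have hΔ := D.Δ0 (m + 1)
  positivity

theorem first (D : MData ι E) {S : ℝ}
    (hA : ∀ m ≤ D.L, Vf (D.X m) (D.y m) ≤ S) (hB : ∀ m < D.L, Vf (D.X m) (D.y (m + 1)) ≤ S)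
    {m : ℕ} (hm : m < D.L) :
    |Qf (D.X m) (D.y (m + 1)) (D.y (m + 1)) - Qf (D.X m) (D.y m) (D.y m)| ≤
      2 * S * D.Z * (Real.sqrt 2 ^ m * ‖D.y (m + 1) - D.y m‖) := by
  rw [Qf_polar]
  refine (D.hQ m hm).trans ?_
  have hZ := D.Z1
  have h1 : Vf (D.X m) (D.y (m + 1) + D.y m) ≤ 2 * S := by
    have := Vf_add_le (D.X m) (D.y (m + 1)) (D.y m)
    have h2 := hA m hm.le
    have h3 := hB m hm
    linarith
  have h4 : 0 ≤ Real.sqrt 2 ^ m * D.Z * ‖D.y (m + 1) - D.y m‖ := by positivity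
  have := mul_le_mul_of_nonneg_left h1 h4
  refine this.trans (le_of_eq ?_)
  ring

theorem second (D : MData ι E) {S : ℝ}
    (hA : ∀ m ≤ D.L, Vf (D.X m) (D.y m) ≤ S) (hB : ∀ m < D.L, Vf (D.X m) (D.y (m + 1)) ≤ S)
    {m : ℕ} (hm : m < D.L) :
    |Qf (D.X (m + 1)) (D.y (m + 1)) (D.y (m + 1)) - Qf (D.X m) (D.y (m + 1)) (D.y (m + 1))| ≤
      150 * D.Z * S * (Real.sqrt 2 ^ m * D.Δ (m + 1)) +
      (800 * D.Z ^ 2 * D.Γ * S + 15000 * D.R * D.Γ * D.Z ^ 2) * (1 / 2) ^ m := by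
  rw [Qf_step]
  have hZ := D.Z1
  have hΓ := D.Γ0
  have hR := R_nonneg D
  have hΔ := D.Δ0 (m + 1)
  have hs := s_pos m
  have h1 := D.hb1 m hm
  have h2 := D.hb2 m hm
  have h3 := sw_le D hm
  have h4 := Vf_c D hm
  have h5 := hB m hm
  have h6 := hA (m + 1) hm
  set y := D.y (m + 1) with hy
  set W := wn (sw m (D.N m) (D.Ex m)) y with hW
  have hW0 : 0 ≤ W := wn_nonneg _ _
  set V0 := Vf (D.X m) y with hV0
  set V1 := Vf (D.X (m + 1)) y with hV1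
  have hV00 : 0 ≤ V0 := Vf_nonneg _ _
  have hV10 : 0 ≤ V1 := Vf_nonneg _ _
  have h7 : Vf (fun j => D.X (m + 1) j - D.X m j) y ≤ V1 + V0 := Vf_sub_left_le _ _ _
  have h8 : ‖lin (D.X m) y‖ + wn (len (D.X m)) y ≤ 2 * V0 := by
    have := norm_lin_le_Vf (D.X m) y
    have := wn_le_Vf (D.X m) y
    linarith
  have hc0 : 0 ≤ Real.sqrt 2 ^ m * D.Z * W := by positivity
  have h9 : |∑ j, y j * ⟪D.X (m + 1) j - D.X m j, lin (D.X m) y - y j • D.X m j⟫| ≤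
      Real.sqrt 2 ^ m * D.Z * W * (2 * V0) := h1.trans (mul_le_mul_of_nonneg_left h8 hc0)
  have h10 : |Qf (fun j => D.X (m + 1) j - D.X m j) y y| ≤
      Real.sqrt 2 ^ m * D.Z * W * (V1 + V0) := h2.trans (mul_le_mul_of_nonneg_left h7 hc0)
  have h11 : |2 * ∑ j, y j * ⟪D.X (m + 1) j - D.X m j, lin (D.X m) y - y j • D.X m j⟫ +
      Qf (fun j => D.X (m + 1) j - D.X m j) y y| ≤ Real.sqrt 2 ^ m * D.Z * W * (5 * (V0 + V1)) := by
    refine (abs_add_le _ _).trans ?_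
    rw [abs_mul, abs_of_pos (show (0 : ℝ) < 2 by norm_num)]
    have : 0 ≤ Real.sqrt 2 ^ m * D.Z * W * V1 := by positivity
    linarith
  refine h11.trans ?_
  have h12 : Real.sqrt 2 ^ m * D.Z * W * (5 * (V0 + V1)) ≤
      Real.sqrt 2 ^ m * D.Z * (15 * (D.R / 4 ^ m + D.Δ (m + 1)) +
        80 * Real.sqrt 2 ^ m * (D.Z * D.Γ / 4 ^ m)) * (5 * (V0 + V1)) := by
    apply mul_le_mul_of_nonneg_right _ (by positivity)
    exact mul_le_mul_of_nonneg_left h3 (by positivity)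
  refine h12.trans ?_
  have h13 : Real.sqrt 2 ^ m * D.Z * (15 * (D.R / 4 ^ m + D.Δ (m + 1)) +
        80 * Real.sqrt 2 ^ m * (D.Z * D.Γ / 4 ^ m)) * (5 * (V0 + V1)) =
      (75 * D.Z * (Real.sqrt 2 ^ m * D.Δ (m + 1)) +
        400 * D.Z ^ 2 * D.Γ * (Real.sqrt 2 ^ m * Real.sqrt 2 ^ m / 4 ^ m)) * (V0 + V1) +
      75 * D.Z * D.R * (Real.sqrt 2 ^ m / 4 ^ m) * (V0 + V1) := by
    field_simp
    ring
  rw [h13, half_pow]
  have h14 : (75 * D.Z * (Real.sqrt 2 ^ m * D.Δ (m + 1)) +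
        400 * D.Z ^ 2 * D.Γ * (1 / 2) ^ m) * (V0 + V1) ≤
      (75 * D.Z * (Real.sqrt 2 ^ m * D.Δ (m + 1)) +
        400 * D.Z ^ 2 * D.Γ * (1 / 2) ^ m) * (2 * S) := by
    apply mul_le_mul_of_nonneg_left _ (by positivity)
    linarith
  have h15 : 75 * D.Z * D.R * (Real.sqrt 2 ^ m / 4 ^ m) * (V0 + V1) ≤
      75 * D.Z * D.R * (Real.sqrt 2 ^ m / 4 ^ m) * (200 * Real.sqrt 2 ^ m * D.Γ * D.Z) := by
    apply mul_le_mul_of_nonneg_left _ (by positivity)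
    linarith [h4.1, h4.2]
  have h16 : 75 * D.Z * D.R * (Real.sqrt 2 ^ m / 4 ^ m) * (200 * Real.sqrt 2 ^ m * D.Γ * D.Z) =
      15000 * D.R * D.Γ * D.Z ^ 2 * (1 / 2) ^ m := by
    rw [← half_pow]
    field_simp
    ring
  rw [h16] at h15
  linarith

theorem Qm_le (D : MData ι E) {S : ℝ}
    (hA : ∀ m ≤ D.L, Vf (D.X m) (D.y m) ≤ S) (hB : ∀ m < D.L, Vf (D.X m) (D.y (m + 1)) ≤ S) :
    ∀ m ≤ D.L, |Qf (D.X m) (D.y m) (D.y m)| ≤ ∑ n ∈ range m, inc D S n := by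
  intro m
  induction m with
  | zero =>
    intro _
    have h0 : Qf (D.X 0) (D.y 0) (D.y 0) = 0 := by
      have hX : D.X 0 = fun _ => 0 := funext D.X0
      rw [Qf_self, hX]
      simp [lin, wn, len]
    rw [h0]
    simp
  | succ m ih =>
    intro hm
    have h1 := ih (by omega)
    have h2 := first D hA hB (m := m) (by omega)
    have h3 := second D hA hB (m := m) (by omega)
    rw [sum_range_succ]
    have h4 : Qf (D.X (m + 1)) (D.y (m + 1)) (D.y (m + 1)) =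
        Qf (D.X m) (D.y m) (D.y m) +
        (Qf (D.X m) (D.y (m + 1)) (D.y (m + 1)) - Qf (D.X m) (D.y m) (D.y m)) +
        (Qf (D.X (m + 1)) (D.y (m + 1)) (D.y (m + 1)) -
          Qf (D.X m) (D.y (m + 1)) (D.y (m + 1))) := by ring
    rw [h4]
    refine (abs_add_three _ _ _).trans ?_
    unfold inc at h1 ⊢
    linarith

theorem Qm_le' (D : MData ι E) {S : ℝ} (hS : 0 ≤ S)
    (hA : ∀ m ≤ D.L, Vf (D.X m) (D.y m) ≤ S) (hB : ∀ m < D.L, Vf (D.X m) (D.y (m + 1)) ≤ S)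
    {m : ℕ} (hm : m ≤ D.L) :
    |Qf (D.X m) (D.y m) (D.y m)| ≤ 30000 * (D.Γ * D.Z ^ 2) * (S + D.R) := by
  refine (Qm_le D hA hB m hm).trans (le_trans ?_ (sum_inc D hS))
  exact sum_le_sum_of_subset_of_nonneg (range_subset_range.2 hm) (fun n _ _ => inc_nonneg D hS n)

theorem Qm_le'' (D : MData ι E) {S : ℝ} (hS : 0 ≤ S)
    (hA : ∀ m ≤ D.L, Vf (D.X m) (D.y m) ≤ S) (hB : ∀ m < D.L, Vf (D.X m) (D.y (m + 1)) ≤ S)
    {m : ℕ} (hm : m < D.L) :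
    |Qf (D.X m) (D.y (m + 1)) (D.y (m + 1))| ≤ 30004 * (D.Γ * D.Z ^ 2) * (S + D.R) := by
  have h1 := Qm_le' D hS hA hB hm.le
  have h2 := first D hA hB hm
  have h3 := sum_u' D hm
  have hZ := D.Z1
  have hΓ := D.Γ0
  have hR := R_nonneg D
  have h4 : 2 * S * D.Z * (Real.sqrt 2 ^ m * ‖D.y (m + 1) - D.y m‖) ≤ 2 * S * D.Z * (2 * D.Γ) :=
    mul_le_mul_of_nonneg_left h3 (by positivity)
  have h5 : S * D.Γ * D.Z ≤ S * D.Γ * D.Z ^ 2 :=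
    mul_le_mul_of_nonneg_left (Z_le_sq D) (by positivity)
  have h6 : 0 ≤ D.Γ * D.Z ^ 2 * D.R := by positivity
  have h7 : Qf (D.X m) (D.y (m + 1)) (D.y (m + 1)) = Qf (D.X m) (D.y m) (D.y m) +
      (Qf (D.X m) (D.y (m + 1)) (D.y (m + 1)) - Qf (D.X m) (D.y m) (D.y m)) := by ring
  rw [h7]
  refine (abs_add_le _ _).trans ?_
  linarith

/-- a crude quadratic inequality -/
theorem quad {S G R l q : ℝ} (hG : 0 ≤ G) (hR : 0 ≤ R) (hS : 0 ≤ S) (hl : 0 ≤ l)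
    (h1 : S ^ 2 = q + 2 * l ^ 2) (h2 : q ≤ 30004 * G * (S + R)) (h3 : l ≤ 22 * R + 40 * G) :
    S ≤ 40000 * (R + G) := by
  have h4 : l ^ 2 ≤ (40 * (R + G)) ^ 2 := by
    apply pow_le_pow_left₀ hl
    linarith
  by_contra hcon
  rw [not_le] at hcon
  have h5 : 0 ≤ R + G := by positivity
  have h6 : G * R ≤ (R + G) ^ 2 := by nlinarith
  have h7 : G * S ≤ (R + G) * S := by nlinarith
  have h8 : S ^ 2 ≤ 30004 * ((R + G) * S) + 33204 * (R + G) ^ 2 := by nlinarith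
  have h9 : 40000 * (R + G) * (R + G) ≤ S * (R + G) := mul_le_mul_of_nonneg_right hcon.le h5
  have h10 : 40000 * (R + G) * S ≤ S * S := mul_le_mul_of_nonneg_right hcon.le hS
  have h11 : 0 ≤ (R + G) * S := by positivity
  have h12 : (R + G) * S = 0 := by nlinarith
  have hSpos : 0 < S := by linarith
  have h13 : R + G = 0 := by
    rcases mul_eq_zero.1 h12 with h | h
    · exact h
    · exact absurd h hSpos.ne'
  rw [h13] at h8
  nlinarith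

theorem S_le (D : MData ι E) : ∃ S : ℝ, 0 ≤ S ∧ S ≤ 40000 * (D.R + D.Γ * D.Z ^ 2) ∧
    (∀ m ≤ D.L, Vf (D.X m) (D.y m) ≤ S) ∧ (∀ m < D.L, Vf (D.X m) (D.y (m + 1)) ≤ S) := by
  classical
  let A : Finset ℝ := (range (D.L + 1)).image (fun m => Vf (D.X m) (D.y m)) ∪
    (range D.L).image (fun m => Vf (D.X m) (D.y (m + 1)))
  have hne : A.Nonempty := ⟨Vf (D.X 0) (D.y 0), mem_union_left _
    (mem_image.2 ⟨0, mem_range.2 (by omega), rfl⟩)⟩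
  have hA : ∀ m ≤ D.L, Vf (D.X m) (D.y m) ≤ A.max' hne := by
    intro m hm
    have h0 : Vf (D.X m) (D.y m) ∈ A := mem_union_left _
      (mem_image_of_mem (fun m => Vf (D.X m) (D.y m)) (mem_range.2 (show m < D.L + 1 by omega)))
    exact le_max' A _ h0
  have hB : ∀ m < D.L, Vf (D.X m) (D.y (m + 1)) ≤ A.max' hne := by
    intro m hm
    have h0 : Vf (D.X m) (D.y (m + 1)) ∈ A := mem_union_right _
      (mem_image_of_mem (fun m => Vf (D.X m) (D.y (m + 1))) (mem_range.2 hm))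
    exact le_max' A _ h0
  have hS0 : 0 ≤ A.max' hne := (Vf_nonneg _ _).trans (hA 0 (by omega))
  refine ⟨A.max' hne, hS0, ?_, hA, hB⟩
  have hmem := A.max'_mem hne
  have hZ := D.Z1
  have hΓ := D.Γ0
  have hR := R_nonneg D
  have h5 : D.Γ * D.Z ≤ D.Γ * D.Z ^ 2 := mul_le_mul_of_nonneg_left (Z_le_sq D) hΓ
  have hG : 0 ≤ D.Γ * D.Z ^ 2 := by positivity
  rcases mem_union.1 hmem with h | h
  · obtain ⟨m, hm, hmS⟩ := mem_image.1 h
    have hm' : m ≤ D.L := by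
      have := mem_range.1 hm
      omega
    have hmS' : Vf (D.X m) (D.y m) = A.max' hne := hmS
    have h1 := Vf_sq' (D.X m) (D.y m)
    rw [hmS'] at h1
    have h2 := (abs_le.1 (Qm_le' D hS0 hA hB hm')).2
    have h3 := len_y D hm'
    apply quad hG hR hS0 (wn_nonneg _ _) h1 _ (by linarith)
    have h6 : 0 ≤ (D.Γ * D.Z ^ 2) * (A.max' hne + D.R) := by positivity
    linarith
  · obtain ⟨m, hm, hmS⟩ := mem_image.1 h
    have hm' := mem_range.1 hm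
    have hmS' : Vf (D.X m) (D.y (m + 1)) = A.max' hne := hmS
    have h1 := Vf_sq' (D.X m) (D.y (m + 1))
    rw [hmS'] at h1
    have h2 := (abs_le.1 (Qm_le'' D hS0 hA hB hm')).2
    have h3 := len_y' D hm'
    apply quad hG hR hS0 (wn_nonneg _ _) h1 _ (by linarith)
    linarith

end M90

theorem detM : ∃ C : ℝ, 1 ≤ C ∧ ∀ {ι : Type} [Fintype ι] [DecidableEq ι] {E : Type}
    [NormedAddCommGroup E] [InnerProductSpace ℝ E] (D : MData ι E),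
    |Qf (D.X D.L) (D.y D.L) (D.y D.L)| ≤ C * (D.Γ * D.Z ^ 2) * (D.R + D.Γ * D.Z ^ 2) := by
  refine ⟨30000 * 40001, by norm_num, ?_⟩
  intro ι _ _ E _ _ D
  obtain ⟨S, hS0, hS, hA, hB⟩ := M90.S_le D
  have h1 := M90.Qm_le' D hS0 hA hB (le_refl D.L)
  refine h1.trans ?_
  have hZ := D.Z1
  have hΓ := D.Γ0
  have hR := M90.R_nonneg D
  have hG : 0 ≤ D.Γ * D.Z ^ 2 := by positivity
  have h2 : S + D.R ≤ 40001 * (D.R + D.Γ * D.Z ^ 2) := by linarith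
  have h3 : 30000 * (D.Γ * D.Z ^ 2) * (S + D.R) ≤
      30000 * (D.Γ * D.Z ^ 2) * (40001 * (D.R + D.Γ * D.Z ^ 2)) :=
    mul_le_mul_of_nonneg_left h2 (by positivity)
  linarith

end IC65
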