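import Pool.Agent.IC65.DetB

/-!
# IC65 module DET-X: the cross term (uses DET-B)

`lin (X L) (y L) = ∑_{m<L} v_m` (telescoping, `X 0 = 0`), `v_m = lin (X m) u_m + lin δ (y (m+1))` with
`u_m = y (m+1) - y m`, `δ = X (m+1) - X m`.

1. `‖lin (X m) u_m‖ ≤ Vf (X m) u_m ≤ √2^m Z ‖u_m‖ + 2 wn (len (X m)) u_m` (`Vf_le_of_Qf`, `hQu`) and
   `wn (len (X m)) u_m ≤ 22 √2^m ‖u_m‖ + √2^m Z ‖u_m‖` (`len1`, `hxu` with `n = m`): `≤ C √2^m Z ‖u_m‖`.
2. `‖lin δ y‖ ≤ Vf δ y ≤ √2^m Z wn(sw)(y) + 2 wn (len δ) y` (`y = y (m+1)`, `hb2`), where `δ_i = 0` off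
   `N m ∪ Ex m` and `‖δ_i‖ ≤ ‖X m i‖ + ‖X (m+1) i‖`, so `wn (len δ) y ≤ 60 √2^m (wn (ind (N m)) y +
   wn (ind (Ex m)) y) + ξ_m(y) + ξ_(m+1)(y)`, and `wn (ind (N m)) y ≤ R/4^m + Δ (m+1)` (`ind_le`),
   `hi`, `hx1`, `hx2`.
   Total: `‖v_m‖ ≤ a_m + b_m`, `a_m = C (√2^m Z (‖u_m‖ + Δ (m+1)) + √2^m √2^m Z² Γ/4^m)`,
   `b_m = C √2^m Z R/4^m`; `∑ a_m ≤ C Γ Z²`, `∑ √2^m b_m ≤ C Z R`.
3. `⟨G x, v_m⟩ = ⟨G z_m, v_m⟩ + ∑_{m ≤ n < L} ⟨G (z_(n+1) - z_n), v_m⟩` (`z_L = x`); by `hx` the sum is at most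
   `‖v_m‖ Z ∑ √2^n ‖z_(n+1) - z_n‖ ≤ ‖v_m‖ Z Γ`; and `|⟨G z_m, v_m⟩| ≤ 3 (R + Γ Z) a_m + √2^m Z Γ b_m`
   (Cauchy-Schwarz with `hGz` when `a_m ≥ ...`; precisely: if `t ≤ A (a + b)` and `t ≤ B (a + b)` then
   `t ≤ A a + B b`).
   Sum over `m`: `≤ Z Γ (C Γ Z² + C Z R) + 3 (R + Γ Z) C Γ Z² + Z Γ C Z R ≤ C Γ Z² (R + Γ Z²)`
   (for the first term `Z Γ · C Γ Z² ≤ C (Γ Z²)²` as `Z ≥ 1`).
-/

open Finset
open scoped RealInnerProductSpace

noncomputable section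

namespace IC65

namespace DetXAux

theorem one_le_s : 1 ≤ Real.sqrt 2 := by
  rw [Real.one_le_sqrt]; norm_num

theorem s_sq : Real.sqrt 2 ^ 2 = 2 := Real.sq_sqrt (by norm_num)

theorem s_le : Real.sqrt 2 ≤ 3 / 2 := by
  rw [Real.sqrt_le_left (by norm_num)]; norm_num

theorem one_le_q (m : ℕ) : 1 ≤ Real.sqrt 2 ^ m := one_le_pow₀ one_le_s

theorem q_sq (m : ℕ) : (Real.sqrt 2 ^ m) ^ 2 = 2 ^ m := by
  rw [← pow_mul, mul_comm, pow_mul, s_sq]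

theorem q_div (m : ℕ) : (Real.sqrt 2 ^ m) ^ 2 / 4 ^ m = (1 / 2 : ℝ) ^ m := by
  rw [q_sq, ← div_pow]
  norm_num

theorem half_sum (L : ℕ) : ∑ m ∈ range L, (1 / 2 : ℝ) ^ m ≤ 2 := by
  have h : ∑ m ∈ range L, (1 / 2 : ℝ) ^ m = 2 - 2 * (1 / 2 : ℝ) ^ L := by
    induction L with
    | zero => norm_num
    | succ n ih => rw [sum_range_succ, ih, pow_succ]; ring
  rw [h]
  have : (0 : ℝ) ≤ (1 / 2 : ℝ) ^ L := by positivity
  linarith

variable {ι : Type} [Fintype ι] [DecidableEq ι] {E : Type} [NormedAddCommGroup E]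
  [InnerProductSpace ℝ E]

theorem R_nonneg (D : MData ι E) : 0 ≤ D.R := (wn_nonneg _ _).trans D.dR

theorem Z_nonneg (D : MData ι E) : 0 ≤ D.Z := le_trans zero_le_one D.Z1

/-- the first part of the bound for `‖v_m‖` -/
def aa (D : MData ι E) (m : ℕ) : ℝ :=
  47 * (Real.sqrt 2 ^ m * D.Z * ‖D.y (m + 1) - D.y m‖) +
    125 * (Real.sqrt 2 ^ m * D.Z * D.Δ (m + 1)) +
    194 * ((Real.sqrt 2 ^ m) ^ 2 * D.Z ^ 2 * D.Γ / 4 ^ m)

/-- the second part of the bound for `‖v_m‖` -/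
def bb (D : MData ι E) (m : ℕ) : ℝ := 125 * (Real.sqrt 2 ^ m * D.Z * D.R / 4 ^ m)

theorem aa_nonneg (D : MData ι E) (m : ℕ) : 0 ≤ aa D m := by
  have h1 := Z_nonneg D
  have h2 := D.Γ0
  have h3 := D.Δ0 (m + 1)
  unfold aa
  positivity

theorem bb_nonneg (D : MData ι E) (m : ℕ) : 0 ≤ bb D m := by
  have h1 := Z_nonneg D
  have h2 := R_nonneg D
  unfold bb
  positivity

theorem part1 (D : MData ι E) {m : ℕ} (hm : m < D.L) :
    ‖lin (D.X m) (D.y (m + 1) - D.y m)‖ ≤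
      47 * (Real.sqrt 2 ^ m * D.Z * ‖D.y (m + 1) - D.y m‖) := by
  have hZ := D.Z1
  have hq := one_le_q m
  have hu := norm_nonneg (D.y (m + 1) - D.y m)
  have h0 : 0 ≤ Real.sqrt 2 ^ m * D.Z * ‖D.y (m + 1) - D.y m‖ := by
    have := Z_nonneg D
    positivity
  have h1 := Vf_le_of_Qf h0 (D.hQu m hm)
  have h2 := norm_lin_le_Vf (D.X m) (D.y (m + 1) - D.y m)
  have h3 := len_le D m (D.y (m + 1) - D.y m)
  have h4 := D.hxu m hm m le_rfl
  have h5 : 22 * Real.sqrt 2 ^ m * ‖D.y (m + 1) - D.y m‖ ≤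
      22 * (Real.sqrt 2 ^ m * D.Z * ‖D.y (m + 1) - D.y m‖) := by
    have : Real.sqrt 2 ^ m * ‖D.y (m + 1) - D.y m‖ * 1 ≤
        Real.sqrt 2 ^ m * ‖D.y (m + 1) - D.y m‖ * D.Z :=
      mul_le_mul_of_nonneg_left hZ (by positivity)
    linarith
  linarith

theorem len_delta (D : MData ι E) {m : ℕ} (hm : m < D.L) :
    wn (len fun j => D.X (m + 1) j - D.X m j) (D.y (m + 1)) ≤
      55 * Real.sqrt 2 ^ m * (D.R / 4 ^ m + D.Δ (m + 1) + D.Z * D.Γ / 4 ^ m) +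
        2 * (D.Z * D.Γ / 4 ^ m) := by
  have hq := one_le_q m
  set y := D.y (m + 1) with hy
  have h1 : wn (len fun j => D.X (m + 1) j - D.X m j) y ≤
      wn (fun i => (55 * Real.sqrt 2 ^ m * ind (D.N m) i + 55 * Real.sqrt 2 ^ m * ind (D.Ex m) i) +
        (xe (D.Ex m) (D.X m) i + xe (D.Ex (m + 1)) (D.X (m + 1)) i)) y := by
    apply wn_mono
    intro i
    have hx1 : 0 ≤ xe (D.Ex m) (D.X m) i := by unfold xe; split_ifs <;> positivity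
    have hx2 : 0 ≤ xe (D.Ex (m + 1)) (D.X (m + 1)) i := by unfold xe; split_ifs <;> positivity
    have hi1 : 0 ≤ ind (D.N m) i := by unfold ind; split_ifs <;> norm_num
    have hi2 : 0 ≤ ind (D.Ex m) i := by unfold ind; split_ifs <;> norm_num
    have hX1 : ‖D.X m i‖ ≤ 22 * Real.sqrt 2 ^ m + xe (D.Ex m) (D.X m) i := by
      unfold xe
      split_ifs with h
      · have : 0 ≤ 22 * Real.sqrt 2 ^ m := by positivity
        linarith
      · have := D.len1 m i h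
        linarith
    have hX2 : ‖D.X (m + 1) i‖ ≤ 33 * Real.sqrt 2 ^ m + xe (D.Ex (m + 1)) (D.X (m + 1)) i := by
      unfold xe
      split_ifs with h
      · have : 0 ≤ 33 * Real.sqrt 2 ^ m := by positivity
        linarith
      · have h1 := D.len1 (m + 1) i h
        have h2 : Real.sqrt 2 ^ (m + 1) ≤ Real.sqrt 2 ^ m * (3 / 2) := by
          rw [pow_succ]
          exact mul_le_mul_of_nonneg_left s_le (by positivity)
        linarith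
    simp only [len, abs_norm]
    rw [abs_of_nonneg (by positivity)]
    by_cases hN : i ∈ D.N m
    · have h2 : ind (D.N m) i = 1 := by unfold ind; rw [if_pos hN]
      have h3 := norm_sub_le (D.X (m + 1) i) (D.X m i)
      rw [h2]
      have h4 : 0 ≤ 55 * Real.sqrt 2 ^ m * ind (D.Ex m) i := by positivity
      linarith
    · by_cases hE : i ∈ D.Ex m
      · have h2 : ind (D.Ex m) i = 1 := by unfold ind; rw [if_pos hE]
        have h3 := norm_sub_le (D.X (m + 1) i) (D.X m i)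
        rw [h2]
        have h4 : 0 ≤ 55 * Real.sqrt 2 ^ m * ind (D.N m) i := by positivity
        linarith
      · rw [D.step m i hN hE, sub_self, norm_zero]
        positivity
  have h2 := wn_add_left_le
    (fun i => 55 * Real.sqrt 2 ^ m * ind (D.N m) i + 55 * Real.sqrt 2 ^ m * ind (D.Ex m) i)
    (fun i => xe (D.Ex m) (D.X m) i + xe (D.Ex (m + 1)) (D.X (m + 1)) i) y
  have h3 := wn_add_left_le (fun i => 55 * Real.sqrt 2 ^ m * ind (D.N m) i)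
    (fun i => 55 * Real.sqrt 2 ^ m * ind (D.Ex m) i) y
  have h4 := wn_add_left_le (xe (D.Ex m) (D.X m)) (xe (D.Ex (m + 1)) (D.X (m + 1))) y
  rw [wn_smul_left, wn_smul_left, abs_of_nonneg (by positivity)] at h3
  have h5 := ind_le D hm
  have h6 := D.hi m hm
  have h7 := D.hx1 m hm
  have h8 := D.hx2 m hm
  rw [← hy] at h5 h6 h7 h8
  have h9 : 55 * Real.sqrt 2 ^ m * wn (ind (D.N m)) y ≤
      55 * Real.sqrt 2 ^ m * (D.R / 4 ^ m + D.Δ (m + 1)) :=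
    mul_le_mul_of_nonneg_left h5 (by positivity)
  have h10 : 55 * Real.sqrt 2 ^ m * wn (ind (D.Ex m)) y ≤
      55 * Real.sqrt 2 ^ m * (D.Z * D.Γ / 4 ^ m) :=
    mul_le_mul_of_nonneg_left h6 (by positivity)
  linarith

theorem part2 (D : MData ι E) {m : ℕ} (hm : m < D.L) :
    ‖lin (fun j => D.X (m + 1) j - D.X m j) (D.y (m + 1))‖ ≤
      125 * (Real.sqrt 2 ^ m * D.Z * D.Δ (m + 1)) +
      194 * ((Real.sqrt 2 ^ m) ^ 2 * D.Z ^ 2 * D.Γ / 4 ^ m) +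
      125 * (Real.sqrt 2 ^ m * D.Z * D.R / 4 ^ m) := by
  have hZ := D.Z1
  have hZ0 := Z_nonneg D
  have hq := one_le_q m
  have hΓ := D.Γ0
  have hR := R_nonneg D
  have hΔ := D.Δ0 (m + 1)
  have h0 : 0 ≤ Real.sqrt 2 ^ m * D.Z * wn (sw m (D.N m) (D.Ex m)) (D.y (m + 1)) := by
    have := wn_nonneg (sw m (D.N m) (D.Ex m)) (D.y (m + 1))
    positivity
  have h1 := Vf_le_of_Qf h0 (D.hb2 m hm)
  have h2 := norm_lin_le_Vf (fun j => D.X (m + 1) j - D.X m j) (D.y (m + 1))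
  have h3 := len_delta D hm
  have h4 := sw_le D hm
  have h5 : Real.sqrt 2 ^ m * D.Z * wn (sw m (D.N m) (D.Ex m)) (D.y (m + 1)) ≤
      Real.sqrt 2 ^ m * D.Z * (15 * (D.R / 4 ^ m + D.Δ (m + 1)) +
        80 * Real.sqrt 2 ^ m * (D.Z * D.Γ / 4 ^ m)) :=
    mul_le_mul_of_nonneg_left h4 (by positivity)
  set q := Real.sqrt 2 ^ m with hqd
  set r := D.R / 4 ^ m with hr
  set g := D.Γ / 4 ^ m with hg
  have hr0 : 0 ≤ r := by positivity
  have hg0 : 0 ≤ g := by positivity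
  have e1 : D.Z * D.Γ / 4 ^ m = D.Z * g := by rw [hg]; ring
  have e2 : q ^ 2 * D.Z ^ 2 * D.Γ / 4 ^ m = q ^ 2 * D.Z ^ 2 * g := by rw [hg]; ring
  have e3 : q * D.Z * D.R / 4 ^ m = q * D.Z * r := by rw [hr]; ring
  rw [e1] at h3 h5
  rw [e2, e3]
  -- crude comparisons
  have c1 : q * r ≤ q * D.Z * r := by
    have : q * r * 1 ≤ q * r * D.Z := mul_le_mul_of_nonneg_left hZ (by positivity)
    linarith
  have c2 : q * D.Δ (m + 1) ≤ q * D.Z * D.Δ (m + 1) := by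
    have : q * D.Δ (m + 1) * 1 ≤ q * D.Δ (m + 1) * D.Z :=
      mul_le_mul_of_nonneg_left hZ (by positivity)
    linarith
  have hqZ : 1 ≤ q * D.Z := by nlinarith
  have c3 : q * (D.Z * g) ≤ q ^ 2 * D.Z ^ 2 * g := by
    have : q * D.Z * g * 1 ≤ q * D.Z * g * (q * D.Z) :=
      mul_le_mul_of_nonneg_left hqZ (by positivity)
    nlinarith
  have c4 : D.Z * g ≤ q * (D.Z * g) := by
    have : 1 * (D.Z * g) ≤ q * (D.Z * g) := mul_le_mul_of_nonneg_right hq (by positivity)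
    linarith
  nlinarith

theorem v_bound (D : MData ι E) {m : ℕ} (hm : m < D.L) : ‖D.v m‖ ≤ aa D m + bb D m := by
  have h1 : D.v m = lin (D.X m) (D.y (m + 1) - D.y m) +
      lin (fun j => D.X (m + 1) j - D.X m j) (D.y (m + 1)) := by
    unfold MData.v
    rw [lin_sub, lin_sub_left]
    abel
  have h2 := norm_add_le (lin (D.X m) (D.y (m + 1) - D.y m))
    (lin (fun j => D.X (m + 1) j - D.X m j) (D.y (m + 1)))
  have h3 := part1 D hm
  have h4 := part2 D hm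
  rw [h1]
  unfold aa bb
  linarith

theorem sum_Δ' (D : MData ι E) :
    ∑ m ∈ range D.L, Real.sqrt 2 ^ m * D.Δ (m + 1) ≤ D.Γ := by
  have h1 := D.sumΔ
  rw [sum_range_succ'] at h1
  have h2 : ∑ m ∈ range D.L, Real.sqrt 2 ^ m * D.Δ (m + 1) ≤
      ∑ m ∈ range D.L, Real.sqrt 2 ^ (m + 1) * D.Δ (m + 1) := by
    apply sum_le_sum
    intro m _
    apply mul_le_mul_of_nonneg_right _ (D.Δ0 _)
    exact pow_le_pow_right₀ one_le_s (Nat.le_succ m)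
  have h3 : 0 ≤ Real.sqrt 2 ^ 0 * D.Δ 0 := mul_nonneg (by positivity) (D.Δ0 0)
  linarith

theorem sum_aa (D : MData ι E) : ∑ m ∈ range D.L, aa D m ≤ 607 * (D.Γ * D.Z ^ 2) := by
  have hZ := D.Z1
  have hZ0 := Z_nonneg D
  have hΓ := D.Γ0
  have h1 := sum_u D
  have h2 := sum_Δ' D
  have h3 := half_sum D.L
  have e : ∑ m ∈ range D.L, aa D m =
      47 * D.Z * ∑ m ∈ range D.L, Real.sqrt 2 ^ m * ‖D.y (m + 1) - D.y m‖ +
      125 * D.Z * ∑ m ∈ range D.L, Real.sqrt 2 ^ m * D.Δ (m + 1) +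
      194 * (D.Z ^ 2 * D.Γ) * ∑ m ∈ range D.L, (1 / 2 : ℝ) ^ m := by
    rw [mul_sum, mul_sum, mul_sum, ← sum_add_distrib, ← sum_add_distrib]
    apply sum_congr rfl
    intro m _
    rw [← q_div m]
    unfold aa
    ring
  rw [e]
  have a1 : 47 * D.Z * ∑ m ∈ range D.L, Real.sqrt 2 ^ m * ‖D.y (m + 1) - D.y m‖ ≤
      47 * D.Z * (2 * D.Γ) := mul_le_mul_of_nonneg_left h1 (by positivity)
  have a2 : 125 * D.Z * ∑ m ∈ range D.L, Real.sqrt 2 ^ m * D.Δ (m + 1) ≤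
      125 * D.Z * D.Γ := mul_le_mul_of_nonneg_left h2 (by positivity)
  have a3 : 194 * (D.Z ^ 2 * D.Γ) * ∑ m ∈ range D.L, (1 / 2 : ℝ) ^ m ≤
      194 * (D.Z ^ 2 * D.Γ) * 2 := mul_le_mul_of_nonneg_left h3 (by positivity)
  have a4 : D.Z * D.Γ ≤ D.Γ * D.Z ^ 2 := by
    have : D.Z * D.Γ * 1 ≤ D.Z * D.Γ * D.Z := mul_le_mul_of_nonneg_left hZ (by positivity)
    nlinarith
  nlinarith

theorem sum_bb (D : MData ι E) :
    ∑ m ∈ range D.L, Real.sqrt 2 ^ m * bb D m ≤ 250 * (D.Z * D.R) := by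
  have hZ0 := Z_nonneg D
  have hR := R_nonneg D
  have e : ∑ m ∈ range D.L, Real.sqrt 2 ^ m * bb D m =
      125 * (D.Z * D.R) * ∑ m ∈ range D.L, (1 / 2 : ℝ) ^ m := by
    rw [mul_sum]
    apply sum_congr rfl
    intro m _
    rw [← q_div m]
    unfold bb
    ring
  rw [e]
  have a3 : 125 * (D.Z * D.R) * ∑ m ∈ range D.L, (1 / 2 : ℝ) ^ m ≤
      125 * (D.Z * D.R) * 2 := mul_le_mul_of_nonneg_left (half_sum D.L) (by positivity)
  linarith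

theorem two_bounds {t A B v a b : ℝ} (ha : 0 ≤ a) (hb : 0 ≤ b) (hA : 0 ≤ A) (hB : 0 ≤ B)
    (hv : v ≤ a + b) (h1 : t ≤ A * v) (h2 : t ≤ B * v) : t ≤ A * a + B * b := by
  rcases le_total A B with h | h
  · have h3 : A * v ≤ A * (a + b) := mul_le_mul_of_nonneg_left hv hA
    have h4 : A * b ≤ B * b := mul_le_mul_of_nonneg_right h hb
    linarith
  · have h3 : B * v ≤ B * (a + b) := mul_le_mul_of_nonneg_left hv hB
    have h4 : B * a ≤ A * a := mul_le_mul_of_nonneg_right h ha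
    linarith

/-- telescoping in the points -/
theorem lin_tel (G : ι → E) (z : ℕ → EuclideanSpace ℝ ι) {m L : ℕ} (hm : m ≤ L) :
    lin G (z L) = lin G (z m) + ∑ n ∈ Ico m L, lin G (z (n + 1) - z n) := by
  have h : ∑ n ∈ Ico m L, lin G (z (n + 1) - z n) = lin G (z L) - lin G (z m) := by
    simp only [lin_sub]
    exact sum_Ico_sub (fun n => lin G (z n)) hm
  rw [h]
  abel

theorem term_bound (D : MData ι E) (G : ι → E)
    (z : ℕ → EuclideanSpace ℝ ι) (hzL : z D.L = D.y D.L) (hzΓ : ∀ m ≤ D.L, ‖z m‖ ≤ D.Γ)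
    (hzs : ∑ m ∈ range D.L, Real.sqrt 2 ^ m * ‖z (m + 1) - z m‖ ≤ D.Γ)
    (hG : ∀ m ≤ D.L, ‖lin G (z m)‖ ≤ 3 * (D.R + D.Γ * D.Z))
    (hx : ∀ n < D.L, ∀ m ≤ n, |⟪lin G (z (n + 1) - z n), D.v m⟫| ≤
      Real.sqrt 2 ^ n * D.Z * ‖z (n + 1) - z n‖ * ‖D.v m‖)
    (hy : ∀ m < D.L, |⟪lin G (z m), D.v m⟫| ≤ Real.sqrt 2 ^ m * D.Z * ‖z m‖ * ‖D.v m‖)
    {m : ℕ} (hm : m < D.L) :
    |⟪lin G (D.y D.L), D.v m⟫| ≤
      3 * (D.R + D.Γ * D.Z) * aa D m + D.Z * D.Γ * (Real.sqrt 2 ^ m * bb D m) +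
        D.Z * D.Γ * (aa D m + Real.sqrt 2 ^ m * bb D m) := by
  have hZ0 := Z_nonneg D
  have hΓ := D.Γ0
  have hR := R_nonneg D
  have ha := aa_nonneg D m
  have hb := bb_nonneg D m
  have hv := v_bound D hm
  have hv0 := norm_nonneg (D.v m)
  rw [← hzL, lin_tel G z hm.le, inner_add_left, sum_inner]
  have h1 : |⟪lin G (z m), D.v m⟫| ≤ 3 * (D.R + D.Γ * D.Z) * aa D m +
      (D.Z * D.Γ * Real.sqrt 2 ^ m) * bb D m := by
    apply two_bounds ha hb (by positivity) (by positivity) hv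
    · refine (abs_real_inner_le_norm _ _).trans ?_
      exact mul_le_mul_of_nonneg_right (hG m hm.le) hv0
    · refine (hy m hm).trans ?_
      apply mul_le_mul_of_nonneg_right _ hv0
      calc Real.sqrt 2 ^ m * D.Z * ‖z m‖ ≤ Real.sqrt 2 ^ m * D.Z * D.Γ :=
            mul_le_mul_of_nonneg_left (hzΓ m hm.le) (by positivity)
        _ = _ := by ring
  have h2 : |∑ n ∈ Ico m D.L, ⟪lin G (z (n + 1) - z n), D.v m⟫| ≤ D.Z * D.Γ * ‖D.v m‖ := by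
    calc |∑ n ∈ Ico m D.L, ⟪lin G (z (n + 1) - z n), D.v m⟫|
        ≤ ∑ n ∈ Ico m D.L, |⟪lin G (z (n + 1) - z n), D.v m⟫| := abs_sum_le_sum_abs _ _
      _ ≤ ∑ n ∈ Ico m D.L, (Real.sqrt 2 ^ n * ‖z (n + 1) - z n‖) * (D.Z * ‖D.v m‖) := by
          apply sum_le_sum
          intro n hn
          rw [mem_Ico] at hn
          refine (hx n hn.2 m hn.1).trans (le_of_eq ?_)
          ring
      _ = (∑ n ∈ Ico m D.L, Real.sqrt 2 ^ n * ‖z (n + 1) - z n‖) * (D.Z * ‖D.v m‖) := by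
          rw [sum_mul]
      _ ≤ D.Γ * (D.Z * ‖D.v m‖) := by
          apply mul_le_mul_of_nonneg_right _ (by positivity)
          refine le_trans (sum_le_sum_of_subset_of_nonneg ?_ ?_) hzs
          · intro n hn
            rw [mem_Ico] at hn
            exact mem_range.2 hn.2
          · intro n _ _
            positivity
      _ = _ := by ring
  have h3 : D.Z * D.Γ * ‖D.v m‖ ≤ D.Z * D.Γ * (aa D m + Real.sqrt 2 ^ m * bb D m) := by
    apply mul_le_mul_of_nonneg_left _ (by positivity)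
    have h4 : 1 * bb D m ≤ Real.sqrt 2 ^ m * bb D m :=
      mul_le_mul_of_nonneg_right (one_le_q m) hb
    linarith
  have h4 := abs_add_le (⟪lin G (z m), D.v m⟫ : ℝ)
    (∑ n ∈ Ico m D.L, ⟪lin G (z (n + 1) - z n), D.v m⟫)
  linarith

theorem tel (D : MData ι E) : lin (D.X D.L) (D.y D.L) = ∑ m ∈ range D.L, D.v m := by
  have h := sum_range_sub (fun m => lin (D.X m) (D.y m)) D.L
  have h0 : lin (D.X 0) (D.y 0) = 0 := by
    unfold lin
    apply sum_eq_zero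
    intro i _
    rw [D.X0 i, smul_zero]
  simp only [h0, sub_zero] at h
  rw [← h]
  rfl

end DetXAux

open DetXAux

theorem detX : ∃ C : ℝ, 1 ≤ C ∧ ∀ {ι : Type} [Fintype ι] [DecidableEq ι] {E : Type}
    [NormedAddCommGroup E] [InnerProductSpace ℝ E] (D : MData ι E) (G : ι → E)
    (z : ℕ → EuclideanSpace ℝ ι) (_ : z D.L = D.y D.L) (_ : ∀ m ≤ D.L, ‖z m‖ ≤ D.Γ)
    (_ : ∑ m ∈ range D.L, Real.sqrt 2 ^ m * ‖z (m + 1) - z m‖ ≤ D.Γ)
    (_ : ∀ m ≤ D.L, ‖lin G (z m)‖ ≤ 3 * (D.R + D.Γ * D.Z))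
    (_ : ∀ n < D.L, ∀ m ≤ n, |⟪lin G (z (n + 1) - z n), D.v m⟫| ≤
      Real.sqrt 2 ^ n * D.Z * ‖z (n + 1) - z n‖ * ‖D.v m‖)
    (_ : ∀ m < D.L, |⟪lin G (z m), D.v m⟫| ≤ Real.sqrt 2 ^ m * D.Z * ‖z m‖ * ‖D.v m‖),
    |⟪lin G (D.y D.L), lin (D.X D.L) (D.y D.L)⟫| ≤
      C * (D.Γ * D.Z ^ 2) * (D.R + D.Γ * D.Z ^ 2) := by
  refine ⟨3000, by norm_num, ?_⟩
  intro ι _ _ E _ _ D G z hzL hzΓ hzs hG hx hy
  have hZ := D.Z1
  have hZ0 := Z_nonneg D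
  have hΓ := D.Γ0
  have hR := R_nonneg D
  have h1 := sum_aa D
  have h2 := sum_bb D
  rw [tel D, inner_sum]
  have h3 : |∑ m ∈ range D.L, ⟪lin G (D.y D.L), D.v m⟫| ≤
      3 * (D.R + D.Γ * D.Z) * ∑ m ∈ range D.L, aa D m +
        D.Z * D.Γ * ∑ m ∈ range D.L, Real.sqrt 2 ^ m * bb D m +
        D.Z * D.Γ * (∑ m ∈ range D.L, aa D m + ∑ m ∈ range D.L, Real.sqrt 2 ^ m * bb D m) := by
    refine (abs_sum_le_sum_abs _ _).trans ?_
    refine (sum_le_sum fun m hm => term_bound D G z hzL hzΓ hzs hG hx hy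
      (mem_range.1 hm)).trans (le_of_eq ?_)
    rw [sum_add_distrib, sum_add_distrib, ← mul_sum, ← mul_sum, ← mul_sum, sum_add_distrib]
  refine h3.trans ?_
  set P := D.Γ * D.Z ^ 2 with hP
  have hP0 : 0 ≤ P := by positivity
  have hΓZ : D.Γ * D.Z ≤ P := by
    have : D.Γ * D.Z * 1 ≤ D.Γ * D.Z * D.Z := mul_le_mul_of_nonneg_left hZ (by positivity)
    rw [hP]
    nlinarith
  have hΓZ0 : 0 ≤ D.Γ * D.Z := by positivity
  have a1 : 3 * (D.R + D.Γ * D.Z) * ∑ m ∈ range D.L, aa D m ≤ 3 * (D.R + P) * (607 * P) := by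
    apply mul_le_mul _ h1 (sum_nonneg fun m _ => aa_nonneg D m) (by positivity)
    linarith
  have a2 : D.Z * D.Γ * ∑ m ∈ range D.L, Real.sqrt 2 ^ m * bb D m ≤ 250 * (P * D.R) := by
    refine (mul_le_mul_of_nonneg_left h2 (by positivity)).trans (le_of_eq ?_)
    rw [hP]
    ring
  have a3 : D.Z * D.Γ * ∑ m ∈ range D.L, aa D m ≤ P * (607 * P) := by
    apply mul_le_mul _ h1 (sum_nonneg fun m _ => aa_nonneg D m) hP0
    linarith
  have a4 : 0 ≤ P * D.R := by positivity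
  have a5 : 0 ≤ P * P := by positivity
  rw [mul_add (D.Z * D.Γ)]
  nlinarith

end IC65
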