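import Pool.Agent.IC65.DetG
import Pool.Agent.IC65.DetM
import Pool.Agent.IC65.DetX

/-!
# IC65 module DET-F: the final deterministic inequality

`x = y L`, `A_i = X L i + G_i`.  `Qf A x x = Qf G x x + Qf (X L) x x + 2 (⟨lin G x, lin (X L) x⟩ - ∑ x_i² ⟨G_i, X_L i⟩)`.
`detG` (for `z`, `z L = x`), `detM`, `detX`, and
`|∑ x_i² ⟨G_i, X_L i⟩| ≤ ∑ x_i² ζ_i ‖X_L i‖ ≤ wn ζ x · wn (len (X L)) x ≤ 3 Γ Z R` (`lenL`, `wn d x ≤ R`; and
`wn ζ x ≤ wn ζ (y 0) + ∑ wn ζ (u_m) ≤ Z Γ + Z ∑ √2^m ‖u_m‖ ≤ 3 Γ Z`).  So with `W = Γ Z²`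
`| ‖lin A x‖² - wn (len A) x² | ≤ C W (R + W) ≤ C' W (wn (len A) x + W)` (`R ≤ 2 wn (len A) x + Γ`), and
`|a² - b²| ≤ C' W (b + W)`, `a, b ≥ 0` imply `|a - b| ≤ C'' W` (`|a - b| (a + b) = |a² - b²|`; if `b ≥ W` it is
`≤ 2 C' W b ≤ 2 C' W (a + b)`; if `b < W` then `a² ≤ W² + 2 C' W²`).
-/

open Finset
open scoped RealInnerProductSpace

noncomputable section

namespace IC65

namespace DetFA

theorem final_real {a b W C : ℝ} (ha : 0 ≤ a) (hb : 0 ≤ b) (hW : 0 ≤ W) (hC : 0 ≤ C)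
    (h : |a ^ 2 - b ^ 2| ≤ C * W * (b + W)) : |a - b| ≤ (1 + 2 * C) * W := by
  have h1 : |a - b| * (a + b) = |a ^ 2 - b ^ 2| := by
    have h0 : a ^ 2 - b ^ 2 = (a - b) * (a + b) := by ring
    rw [h0, abs_mul, abs_of_nonneg (add_nonneg ha hb)]
  have h2 : |a - b| ≤ a + b := by
    rw [abs_le]
    constructor <;> linarith
  by_contra hlt
  rw [not_le] at hlt
  have h3 : W ≤ a + b := by
    have : W ≤ (1 + 2 * C) * W := by nlinarith [mul_nonneg hC hW]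
    linarith
  have h4 : |a - b| * (a + b) ≤ 2 * C * W * (a + b) := by
    rw [h1]
    refine h.trans ?_
    have h5 : b + W ≤ 2 * (a + b) := by linarith
    have h6 : 0 ≤ C * W := mul_nonneg hC hW
    nlinarith [mul_le_mul_of_nonneg_left h5 h6]
  rcases (add_nonneg ha hb).lt_or_eq with h0 | h0
  · have h5 := le_of_mul_le_mul_right h4 h0
    nlinarith
  · rw [← h0] at h2
    have h7 := abs_nonneg (a - b)
    have h8 : 0 ≤ (1 + 2 * C) * W := by positivity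
    linarith

variable {ι : Type} [Fintype ι] {E : Type} [NormedAddCommGroup E] [InnerProductSpace ℝ E]

theorem Qf_add (X G : ι → E) (x : EuclideanSpace ℝ ι) :
    Qf (fun i => X i + G i) x x = Qf G x x + Qf X x x +
      2 * (⟪lin G x, lin X x⟫ - ∑ i, x i * x i * ⟪G i, X i⟫) := by
  have h1 := Qf_step G (fun i => X i + G i) x
  have h2 : (fun j => X j + G j - G j) = X := by
    funext j
    abel
  have h3 : ∑ j, x j * ⟪X j, lin G x - x j • G j⟫ =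
      ⟪lin G x, lin X x⟫ - ∑ i, x i * x i * ⟪G i, X i⟫ := by
    have h4 : ⟪lin G x, lin X x⟫ = ∑ j, x j * ⟪X j, lin G x⟫ := by
      rw [show lin X x = ∑ j, x j • X j from rfl, inner_sum]
      apply sum_congr rfl
      intro j _
      rw [real_inner_smul_right, real_inner_comm]
    rw [h4, ← sum_sub_distrib]
    apply sum_congr rfl
    intro j _
    rw [inner_sub_right, real_inner_smul_right, real_inner_comm (X j) (G j)]
    ring
  simp only [add_sub_cancel_right] at h1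
  rw [h3] at h1
  linarith

theorem diag_le (X G : ι → E) (ζ : ι → ℝ) (h : ∀ i, |⟪G i, X i⟫| ≤ ζ i * ‖X i‖)
    (x : EuclideanSpace ℝ ι) :
    |∑ i, x i * x i * ⟪G i, X i⟫| ≤ wn ζ x * wn (len X) x := by
  calc |∑ i, x i * x i * ⟪G i, X i⟫| ≤ ∑ i, |x i * x i * ⟪G i, X i⟫| := abs_sum_le_sum_abs _ _
    _ ≤ ∑ i, |ζ i * x i| * |len X i * x i| := by
        apply sum_le_sum
        intro i _
        rw [abs_mul, abs_mul, abs_mul, abs_mul]
        have h1 : ζ i * ‖X i‖ ≤ |ζ i| * |len X i| := by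
          rw [← abs_mul]
          exact le_abs_self _
        have h2 := (h i).trans h1
        calc |x i| * |x i| * |⟪G i, X i⟫| ≤ |x i| * |x i| * (|ζ i| * |len X i|) := by
              gcongr
          _ = _ := by ring
    _ ≤ Real.sqrt (∑ i, |ζ i * x i| ^ 2) * Real.sqrt (∑ i, |len X i * x i| ^ 2) :=
        Real.sum_mul_le_sqrt_mul_sqrt _ _ _
    _ = wn ζ x * wn (len X) x := by simp only [sq_abs, wn]

end DetFA

open DetFA in
theorem detF : ∃ C : ℝ, 1 ≤ C ∧ ∀ {ι : Type} [Fintype ι] [DecidableEq ι] {E : Type}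
    [NormedAddCommGroup E] [InnerProductSpace ℝ E] (D : MData ι E) (A G : ι → E)
    (z : ℕ → EuclideanSpace ℝ ι) (ζ : ι → ℝ) (_ : ∀ i, A i = D.X D.L i + G i)
    (_ : ∀ i, ‖G i‖ ≤ 2 * D.d i) (_ : D.R ≤ 2 * wn (len A) (D.y D.L) + D.Γ)
    (_ : z D.L = D.y D.L) (_ : ∀ m ≤ D.L, ‖z m‖ ≤ D.Γ) (_ : ∀ m ≤ D.L, wn D.d (z m) ≤ D.R)
    (_ : ∑ m ∈ range D.L, Real.sqrt 2 ^ m * ‖z (m + 1) - z m‖ ≤ D.Γ)
    (_ : |Qf G (z 0) (z 0)| ≤ D.Z * ‖z 0‖ * Vf G (z 0))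
    (_ : ∀ m < D.L, |Qf G (z (m + 1) - z m) (z (m + 1) + z m)| ≤
      Real.sqrt 2 ^ m * D.Z * ‖z (m + 1) - z m‖ * Vf G (z (m + 1) + z m))
    (_ : ∀ n < D.L, ∀ m ≤ n, |⟪lin G (z (n + 1) - z n), D.v m⟫| ≤
      Real.sqrt 2 ^ n * D.Z * ‖z (n + 1) - z n‖ * ‖D.v m‖)
    (_ : ∀ m < D.L, |⟪lin G (z m), D.v m⟫| ≤ Real.sqrt 2 ^ m * D.Z * ‖z m‖ * ‖D.v m‖)
    (_ : ∀ i, |⟪G i, D.X D.L i⟫| ≤ ζ i * ‖D.X D.L i‖)
    (_ : wn ζ (D.y 0) ≤ D.Z * ‖D.y 0‖)
    (_ : ∀ m < D.L, wn ζ (D.y (m + 1) - D.y m) ≤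
      Real.sqrt 2 ^ m * D.Z * ‖D.y (m + 1) - D.y m‖),
    |‖lin A (D.y D.L)‖ - wn (len A) (D.y D.L)| ≤ C * (D.Γ * D.Z ^ 2) := by
  obtain ⟨CM, hCM, HM⟩ := detM
  obtain ⟨CX, hCX, HX⟩ := detX
  refine ⟨1 + 2 * (2 * (15 + CM + 2 * CX)), by linarith, ?_⟩
  intro ι _ _ E _ _ D A G z ζ hA hG hR hzL hzΓ hzR hzs hQ0 hQ hC1 hC2 hζ hζ0 hζs
  have hΓ := D.Γ0
  have hZ := D.Z1
  have hW : 0 ≤ D.Γ * D.Z ^ 2 := by positivity
  have hΓZ : D.Γ * D.Z ≤ D.Γ * D.Z ^ 2 := by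
    apply mul_le_mul_of_nonneg_left _ hΓ
    nlinarith
  have hΓW : D.Γ ≤ D.Γ * D.Z ^ 2 := by nlinarith
  have hR0 : 0 ≤ D.R := (wn_nonneg _ _).trans D.dR
  obtain ⟨g1, g2⟩ := detG G D.d hG hΓ hZ D.L z (hzΓ 0 (Nat.zero_le _)) hzs hzR hQ0 hQ
  have hM := HM D
  have hX := HX D G z hzL hzΓ hzs (fun m hm => (norm_lin_le_Vf _ _).trans (g1 m hm)) hC1 hC2
  rw [hzL] at g2
  -- the diagonal term
  have hζy : ∀ m ≤ D.L, wn ζ (D.y m) ≤ D.Z * D.Γ +
      ∑ j ∈ range m, D.Z * (Real.sqrt 2 ^ j * ‖D.y (j + 1) - D.y j‖) := by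
    intro m
    induction m with
    | zero =>
      intro _
      simp only [range_zero, sum_empty, add_zero]
      refine hζ0.trans ?_
      exact mul_le_mul_of_nonneg_left (D.yΓ 0 (Nat.zero_le _)) (by linarith)
    | succ m ih =>
      intro hm
      have h1 := ih (by omega)
      have h2 := hζs m (by omega)
      have h3 := wn_add_le ζ (D.y (m + 1) - D.y m) (D.y m)
      rw [sub_add_cancel] at h3
      rw [sum_range_succ]
      have h4 : Real.sqrt 2 ^ m * D.Z * ‖D.y (m + 1) - D.y m‖ =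
        D.Z * (Real.sqrt 2 ^ m * ‖D.y (m + 1) - D.y m‖) := by ring
      linarith
  have hζx : wn ζ (D.y D.L) ≤ 3 * (D.Γ * D.Z) := by
    refine (hζy D.L le_rfl).trans ?_
    rw [← mul_sum]
    have h1 := sum_u D
    have h2 : D.Z * ∑ i ∈ range D.L, Real.sqrt 2 ^ i * ‖D.y (i + 1) - D.y i‖ ≤
        D.Z * (2 * D.Γ) := mul_le_mul_of_nonneg_left h1 (by linarith)
    linarith
  have hlen : wn (len (D.X D.L)) (D.y D.L) ≤ D.R := by
    refine le_trans (wn_mono ?_ _) D.dR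
    intro i
    rw [abs_of_nonneg (D.d0 i)]
    simpa [len] using D.lenL i
  have hdiag := diag_le (D.X D.L) G ζ hζ (D.y D.L)
  have hdiag2 : wn ζ (D.y D.L) * wn (len (D.X D.L)) (D.y D.L) ≤ 3 * (D.Γ * D.Z) * D.R :=
    mul_le_mul hζx hlen (wn_nonneg _ _) (by positivity)
  have hAe : A = fun i => D.X D.L i + G i := funext hA
  have hQ := Qf_add (D.X D.L) G (D.y D.L)
  rw [← hAe] at hQ
  have hself := Qf_self A (D.y D.L)
  set a := ‖lin A (D.y D.L)‖ with ha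
  set b := wn (len A) (D.y D.L) with hb
  set W := D.Γ * D.Z ^ 2 with hWdef
  have hb0 : 0 ≤ b := wn_nonneg _ _
  have hmain : |a ^ 2 - b ^ 2| ≤ (15 + CM + 2 * CX) * W * (D.R + W) := by
    rw [← hself, hQ]
    have e1 : |Qf G (D.y D.L) (D.y D.L)| ≤ 9 * W * (D.R + W) := by
      refine g2.trans ?_
      have : 0 ≤ D.Γ * D.Z := by positivity
      gcongr
    have e2 : |∑ i, D.y D.L i * D.y D.L i * ⟪G i, D.X D.L i⟫| ≤ 3 * W * (D.R + W) := by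
      refine (hdiag.trans hdiag2).trans ?_
      have : 0 ≤ D.Γ * D.Z := by positivity
      calc 3 * (D.Γ * D.Z) * D.R ≤ 3 * W * D.R := by gcongr
        _ ≤ 3 * W * (D.R + W) := by
          apply mul_le_mul_of_nonneg_left _ (by positivity)
          linarith
    have e3 := abs_le.1 e1
    have e4 := abs_le.1 e2
    have e5 := abs_le.1 hM
    have e6 := abs_le.1 hX
    rw [abs_le]
    constructor <;> nlinarith
  have hmain2 : |a ^ 2 - b ^ 2| ≤ 2 * (15 + CM + 2 * CX) * W * (b + W) := by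
    refine hmain.trans ?_
    have h1 : D.R + W ≤ 2 * (b + W) := by linarith
    have h2 : 0 ≤ (15 + CM + 2 * CX) * W := by positivity
    nlinarith [mul_le_mul_of_nonneg_left h1 h2]
  exact final_real (norm_nonneg _) hb0 hW (by positivity) hmain2

end IC65
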