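import Pool.Agent.IC65.Basic

/-!
# IC65 module DET-G: chaining with given lengths

Let `S` be the maximum of `Vf G (y m)`, `m ≤ L`.  By `Qf_polar` and `Vf_add_le`
`|Qf G (y m) (y m)| ≤ Z ‖y 0‖ S + ∑_{j<m} √2^j Z ‖y (j+1) - y j‖ · 2 S ≤ 3 Γ Z S`;
`wn (len G) (y m) ≤ 2 R`; `Vf² = Qf + 2 wn²` (`Vf_sq'`) gives `S² ≤ 3 Γ Z S + 8 R²`, `S ≤ 3 (R + Γ Z)`.
-/

open Finset
open scoped RealInnerProductSpace

noncomputable section

namespace IC65

theorem detG {ι : Type} [Fintype ι] {E : Type} [NormedAddCommGroup E] [InnerProductSpace ℝ E]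
    (G : ι → E) (d : ι → ℝ) (hG : ∀ i, ‖G i‖ ≤ 2 * d i) {Γ Z R : ℝ} (hΓ : 0 ≤ Γ) (hZ : 1 ≤ Z)
    (L : ℕ) (y : ℕ → EuclideanSpace ℝ ι) (h0 : ‖y 0‖ ≤ Γ)
    (hsum : ∑ m ∈ range L, Real.sqrt 2 ^ m * ‖y (m + 1) - y m‖ ≤ Γ)
    (hR : ∀ m ≤ L, wn d (y m) ≤ R)
    (hQ0 : |Qf G (y 0) (y 0)| ≤ Z * ‖y 0‖ * Vf G (y 0))
    (hQ : ∀ m < L, |Qf G (y (m + 1) - y m) (y (m + 1) + y m)| ≤
      Real.sqrt 2 ^ m * Z * ‖y (m + 1) - y m‖ * Vf G (y (m + 1) + y m)) :
    (∀ m ≤ L, Vf G (y m) ≤ 3 * (R + Γ * Z)) ∧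
      |Qf G (y L) (y L)| ≤ 9 * (Γ * Z) * (R + Γ * Z) := by
  classical
  have hd : ∀ i, 0 ≤ d i := fun i => by have := norm_nonneg (G i); linarith [hG i]
  have hR0 : 0 ≤ R := (wn_nonneg d (y 0)).trans (hR 0 (Nat.zero_le _))
  have hs2 : (0 : ℝ) ≤ Real.sqrt 2 := Real.sqrt_nonneg _
  obtain ⟨S, hS⟩ : ∃ S, S = (range (L + 1)).sup' ⟨0, by simp⟩ (fun m => Vf G (y m)) := ⟨_, rfl⟩
  have hSm : ∀ m ≤ L, Vf G (y m) ≤ S := by
    intro m hm
    rw [hS]
    exact le_sup' (fun m => Vf G (y m)) (mem_range.2 (Nat.lt_succ_of_le hm))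
  have hS0 : 0 ≤ S := (Vf_nonneg G (y 0)).trans (hSm 0 (Nat.zero_le _))
  have key : ∀ m ≤ L, |Qf G (y m) (y m)| ≤
      Z * Γ * S + ∑ j ∈ range m, Real.sqrt 2 ^ j * ‖y (j + 1) - y j‖ * (2 * Z * S) := by
    intro m
    induction m with
    | zero =>
      intro _
      simp only [range_zero, sum_empty, add_zero]
      refine hQ0.trans ?_
      have := hSm 0 (Nat.zero_le _)
      have h1 := Vf_nonneg G (y 0)
      gcongr
    | succ m ih =>
      intro hm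
      have h1 := ih (by omega)
      have h2 := hQ m (by omega)
      rw [← Qf_polar] at h2
      rw [sum_range_succ]
      have h3 : Vf G (y (m + 1) + y m) ≤ 2 * S := by
        have := Vf_add_le G (y (m + 1)) (y m)
        have := hSm (m + 1) hm
        have := hSm m (by omega)
        linarith
      have h4 : Real.sqrt 2 ^ m * Z * ‖y (m + 1) - y m‖ * Vf G (y (m + 1) + y m) ≤
          Real.sqrt 2 ^ m * ‖y (m + 1) - y m‖ * (2 * Z * S) := by
        have h5 : 0 ≤ Real.sqrt 2 ^ m * Z * ‖y (m + 1) - y m‖ := by positivity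
        calc _ ≤ Real.sqrt 2 ^ m * Z * ‖y (m + 1) - y m‖ * (2 * S) :=
              mul_le_mul_of_nonneg_left h3 h5
          _ = _ := by ring
      have h6 : |Qf G (y (m + 1)) (y (m + 1))| ≤
          |Qf G (y (m + 1)) (y (m + 1)) - Qf G (y m) (y m)| + |Qf G (y m) (y m)| := by
        have := abs_add_le (Qf G (y (m + 1)) (y (m + 1)) - Qf G (y m) (y m)) (Qf G (y m) (y m))
        simpa using this
      linarith
  have key2 : ∀ m ≤ L, |Qf G (y m) (y m)| ≤ 3 * Γ * Z * S := by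
    intro m hm
    refine (key m hm).trans ?_
    rw [← sum_mul]
    have h1 : ∑ j ∈ range m, Real.sqrt 2 ^ j * ‖y (j + 1) - y j‖ ≤ Γ := by
      refine le_trans ?_ hsum
      apply sum_le_sum_of_subset_of_nonneg
      · intro j hj
        rw [mem_range] at hj ⊢
        omega
      · intro j _ _
        positivity
    have h2 : (∑ j ∈ range m, Real.sqrt 2 ^ j * ‖y (j + 1) - y j‖) * (2 * Z * S) ≤
        Γ * (2 * Z * S) := mul_le_mul_of_nonneg_right h1 (by positivity)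
    nlinarith
  have hw : ∀ m ≤ L, wn (len G) (y m) ≤ 2 * R := by
    intro m hm
    refine (wn_le_mul (by norm_num) ?_ (y m)).trans
      (mul_le_mul_of_nonneg_left (hR m hm) (by norm_num))
    intro i
    simp only [len, abs_norm]
    rw [abs_of_nonneg (hd i)]
    exact hG i
  have hSbound : S ≤ 3 * (R + Γ * Z) := by
    obtain ⟨m, hm, hmS⟩ := exists_mem_eq_sup' (⟨0, by simp⟩ : (range (L + 1)).Nonempty)
      (fun m => Vf G (y m))
    rw [← hS] at hmS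
    have hm' : m ≤ L := Nat.lt_succ_iff.1 (mem_range.1 hm)
    have h1 := Vf_sq' G (y m)
    have h2 := (abs_le.1 (key2 m hm')).2
    have h3 := hw m hm'
    have h4 := wn_nonneg (len G) (y m)
    rw [← hmS] at h1
    have h5 : S ^ 2 ≤ 3 * Γ * Z * S + 8 * R ^ 2 := by nlinarith
    by_contra hlt
    rw [not_le] at hlt
    have h6 : 0 ≤ Γ * Z := by positivity
    nlinarith
  refine ⟨fun m hm => (hSm m hm).trans hSbound, (key2 L le_rfl).trans ?_⟩
  have h6 : 0 ≤ Γ * Z := by positivity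
  calc 3 * Γ * Z * S = 3 * (Γ * Z) * S := by ring
    _ ≤ 3 * (Γ * Z) * (3 * (R + Γ * Z)) := mul_le_mul_of_nonneg_left hSbound (by positivity)
    _ = _ := by ring

end IC65
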