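import Pool.Agent.IC65.FiltB

/-!
# IC65 module FILT: the filtration of one column (uses `first_st`, `step_st`)

`Ω` finite, `p > 0`, `∑ p = 1`, `Sg univ p V 1`, `k : Ω → ℕ` a label with `‖V ω‖ ≤ 2^(k ω)`.
By recursion (`first_st`, `step_st`, choice) there are states `s m : St p V k m` with `Nx (s m) (s (m+1))`.
`f m = (s m).at'`, `M m ω = mean (f m ω) p V`, `N`, `Ex` as in the state (`Ex` decides if an atom is both).

* `M_zero`: the mean of `V` over `univ` is `0` (`mean_bound`).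
* `M_succ`: `fin_stable`.  Note `univ.filter fun ω' => f m ω' = f m ω` is `f m ω`.
* `M_le`: `Pr(atom) ≥ exp(-120 · 2^m)` (`lower`) and `mean_bound`: `‖M‖² ≤ 4 · 120 · 2^m ≤ (22 √2^m)²`.
  `M_le'`: open atoms have `2m ≤ k`, so `22 √2^m ≤ 22 · 2^k`; on a final atom `k` is constant and `‖V‖ ≤ 2^k`.
* `Ex_exp`: `exp(‖M m ω‖²/40) ≤ Pr(f m ω)^(-1/10)` (`mean_bound`) and `sumEx`.
* `sg`, `sg_succ`, `fin_sg`: Jensen lemma (prove it first): if `S` is a disjoint union of atoms (a set `S` with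
  `at' ω ⊆ S` for all `ω ∈ S`, `at'` a partition) and `Sg S p (V - m) s` then `Sg S p (M - m) s`, where
  `M ω = mean (at' ω) p V`; indeed for each atom `g` `p(g) exp⟨mean g - m, v⟩ ≤ ∑_{ω ∈ g} p ω exp⟨V ω - m, v⟩`.
  Open atoms: `good` and the lemma.  Final atoms: the difference is `0`.  Exceptional atoms `g` of level `m`: if
  `Pr g < exp(-120 · 2^m)` then nothing changes (`ex_stable`) and the difference is `0`; otherwise `exc_sg` with
  `H = 120 · 2^m`, `s = 80 √2^m` (`50 (H + 1) ≤ 6050 · 2^m ≤ s²`) and the lemma.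
* `L`: `m` so large that `2m > k ω` for all `ω` (no open atoms) and, for the previous level,
  `exp(-120 · 2^(m-1)) ≤ p ω` for all `ω` (no exceptional atoms by `ex_new`).  Then every atom is final:
  `fin_label`, `good`, and `‖mean‖ ≤ 2^k`.
-/

open Finset
open scoped RealInnerProductSpace

noncomputable section

namespace IC65

variable {Ω : Type} [Fintype Ω] {E : Type} [NormedAddCommGroup E] [InnerProductSpace ℝ E]

namespace F90

omit [Fintype Ω] in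
theorem Psum_pos {p : Ω → ℝ} (hp : ∀ ω, 0 < p ω) {A : Finset Ω} (hA : A.Nonempty) :
    0 < ∑ ω ∈ A, p ω := sum_pos (fun ω _ => hp ω) hA

omit [Fintype Ω] in
theorem jensen1 {p : Ω → ℝ} (hp : ∀ ω, 0 < p ω) (V : Ω → E) {A : Finset Ω}
    (hA : A.Nonempty) (c v : E) : Real.exp ⟪mean A p V - c, v⟫ ≤
      (∑ ω ∈ A, p ω)⁻¹ * ∑ ω ∈ A, p ω * Real.exp ⟪V ω - c, v⟫ := by
  have hP := Psum_pos hp hA
  have h1 : ∑ ω ∈ A, (∑ ω ∈ A, p ω)⁻¹ * p ω = 1 := by
    rw [← mul_sum, inv_mul_cancel₀ hP.ne']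
  have h2 : ⟪mean A p V - c, v⟫ = ∑ ω ∈ A, ((∑ ω ∈ A, p ω)⁻¹ * p ω) • ⟪V ω - c, v⟫ := by
    have h3 : ∀ ω ∈ A, ((∑ ω ∈ A, p ω)⁻¹ * p ω) • ⟪V ω - c, v⟫ =
        (∑ ω ∈ A, p ω)⁻¹ * (p ω * ⟪V ω, v⟫) - ((∑ ω ∈ A, p ω)⁻¹ * p ω) * ⟪c, v⟫ := by
      intro ω _
      rw [inner_sub_left, smul_eq_mul]
      ring
    rw [sum_congr rfl h3, sum_sub_distrib, ← sum_mul, h1, one_mul, ← mul_sum, inner_sub_left]
    congr 1
    unfold mean
    rw [real_inner_smul_left, sum_inner]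
    congr 1
    apply sum_congr rfl
    intro ω _
    rw [real_inner_smul_left]
  rw [h2]
  refine (convexOn_exp.map_sum_le (fun ω _ => ?_) h1 (fun ω _ => Set.mem_univ _)).trans ?_
  · have := hp ω
    positivity
  · rw [mul_sum]
    apply le_of_eq
    apply sum_congr rfl
    intro ω _
    rw [smul_eq_mul]
    ring

omit [Fintype Ω] in
/-- Jensen's inequality for the conditional means -/
theorem jensen {p : Ω → ℝ} (hp : ∀ ω, 0 < p ω) (V : Ω → E) (S : Finset Ω)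
    (A : Ω → Finset Ω) (hm : ∀ ω ∈ S, ω ∈ A ω) (hs : ∀ ω ∈ S, A ω ⊆ S)
    (he : ∀ ω ∈ S, ∀ ω' ∈ A ω, A ω' = A ω) (c : E) {s : ℝ}
    (h : Sg S p (fun ω => V ω - c) s) : Sg S p (fun ω => mean (A ω) p V - c) s := by
  intro v
  refine le_trans ?_ (h v)
  have h1 : ∑ ω ∈ S, p ω * Real.exp ⟪mean (A ω) p V - c, v⟫ ≤
      ∑ ω ∈ S, ∑ ω' ∈ A ω, p ω * ((∑ ω'' ∈ A ω, p ω'')⁻¹ *
        (p ω' * Real.exp ⟪V ω' - c, v⟫)) := by
    apply sum_le_sum
    intro ω hω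
    rw [← mul_sum, ← mul_sum]
    exact mul_le_mul_of_nonneg_left (jensen1 hp V ⟨ω, hm ω hω⟩ c v) (hp ω).le
  refine h1.trans (le_of_eq ?_)
  have hsymm : ∀ ω ω', ω ∈ S ∧ ω' ∈ A ω ↔ ω ∈ A ω' ∧ ω' ∈ S := by
    intro ω ω'
    constructor
    · rintro ⟨h2, h3⟩
      refine ⟨?_, hs ω h2 h3⟩
      rw [he ω h2 ω' h3]
      exact hm ω h2
    · rintro ⟨h2, h3⟩
      refine ⟨hs ω' h3 h2, ?_⟩
      rw [he ω' h3 ω h2]
      exact hm ω' h3
  rw [sum_comm' (t := fun ω => A ω) (s' := fun ω' => A ω') (t' := S) hsymm]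
  apply sum_congr rfl
  intro ω' hω'
  have h4 : ∀ ω ∈ A ω', p ω * ((∑ ω'' ∈ A ω, p ω'')⁻¹ * (p ω' * Real.exp ⟪V ω' - c, v⟫)) =
      p ω * ((∑ ω'' ∈ A ω', p ω'')⁻¹ * (p ω' * Real.exp ⟪V ω' - c, v⟫)) := by
    intro ω hω
    rw [he ω' hω' ω hω]
  rw [sum_congr rfl h4, ← sum_mul, ← mul_assoc, mul_inv_cancel₀ (Psum_pos hp ⟨ω', hm ω' hω'⟩).ne',
    one_mul]

omit [Fintype Ω] in
theorem mean_norm_le {p : Ω → ℝ} (hp : ∀ ω, 0 < p ω) (V : Ω → E) {A : Finset Ω}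
    (hA : A.Nonempty) {R : ℝ} (h : ∀ ω ∈ A, ‖V ω‖ ≤ R) : ‖mean A p V‖ ≤ R := by
  have hP := Psum_pos hp hA
  unfold mean
  rw [norm_smul, Real.norm_eq_abs, abs_of_pos (inv_pos.2 hP), inv_mul_le_iff₀ hP]
  refine (norm_sum_le _ _).trans ?_
  rw [sum_mul]
  apply sum_le_sum
  intro ω hω
  rw [norm_smul, Real.norm_eq_abs, abs_of_pos (hp ω)]
  exact mul_le_mul_of_nonneg_left (h ω hω) (hp ω).le

omit [Fintype Ω] in
theorem Sg_zero {p : Ω → ℝ} (hp : ∀ ω, 0 < p ω) {S : Finset Ω} {W : Ω → E}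
    (hW : ∀ ω ∈ S, W ω = 0) (s : ℝ) : Sg S p W s := by
  intro v
  rw [sum_mul]
  apply sum_le_sum
  intro ω hω
  rw [hW ω hω, inner_zero_left]
  apply mul_le_mul_of_nonneg_left _ (hp ω).le
  apply Real.exp_le_exp.2
  positivity

omit [Fintype Ω] in
theorem Sg_congr {p : Ω → ℝ} {S : Finset Ω} {W W' : Ω → E}
    (hW : ∀ ω ∈ S, W ω = W' ω) {s : ℝ} (h : Sg S p W s) : Sg S p W' s := by
  intro v
  refine le_trans (le_of_eq ?_) (h v)
  apply sum_congr rfl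
  intro ω hω
  rw [hW ω hω]

theorem ev_small (p : Ω → ℝ) (hp : ∀ ω, 0 < p ω) :
    ∃ L : ℕ, ∀ m, L ≤ m → ∀ ω, Real.exp (-120 * 2 ^ m) ≤ p ω := by
  have ht : Filter.Tendsto (fun m : ℕ => Real.exp (-120 * 2 ^ m)) Filter.atTop (nhds 0) := by
    apply Real.tendsto_exp_atBot.comp
    apply Filter.Tendsto.const_mul_atTop_of_neg (by norm_num)
    exact tendsto_pow_atTop_atTop_of_one_lt (by norm_num)
  have hev : ∀ᶠ m : ℕ in Filter.atTop, ∀ ω, Real.exp (-120 * 2 ^ m) ≤ p ω := by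
    rw [Filter.eventually_all]
    intro ω
    exact (ht.eventually (gt_mem_nhds (hp ω))).mono (fun m hm => hm.le)
  obtain ⟨L, hL⟩ := Filter.eventually_atTop.1 hev
  exact ⟨L, hL⟩

theorem sqrt2_sq_pow (m : ℕ) : (Real.sqrt 2 ^ m) ^ 2 = 2 ^ m := by
  rw [← pow_mul, mul_comm, pow_mul, Real.sq_sqrt (by norm_num)]

/-- the sequence of the states -/
theorem states (p : Ω → ℝ) (hp : ∀ ω, 0 < p ω) (h1 : ∑ ω, p ω = 1) (V : Ω → E)
    (hV : Sg univ p V 1) (k : Ω → ℕ) : ∃ s : (m : ℕ) → St p V k m,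
      (∀ ω, (s 0).at' ω = univ) ∧ ∀ m, Nx (s m) (s (m + 1)) := by
  obtain ⟨s0, hs0⟩ := first_st p hp h1 V hV k
  choose nx hnx using fun (m : ℕ) (s : St p V k m) => step_st p hp h1 V hV k s
  exact ⟨fun m => Nat.rec s0 (fun n s => nx n s) m, hs0, fun m => hnx m _⟩

end F90

open Classical in
/-- the filtration of one column -/
structure Filt (p : Ω → ℝ) (V : Ω → E) (k : Ω → ℕ) where
  /-- the atom -/
  f : ℕ → Ω → Finset Ω
  /-- the conditional mean -/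
  M : ℕ → Ω → E
  N : ℕ → Ω → Prop
  Ex : ℕ → Ω → Prop
  L : ℕ
  nest : ∀ m ω ω', f (m + 1) ω = f (m + 1) ω' → f m ω = f m ω'
  M_zero : ∀ ω, M 0 ω = 0
  M_congr : ∀ m ω ω', f m ω = f m ω' → M m ω = M m ω'
  N_congr : ∀ m ω ω', f m ω = f m ω' → (N m ω ↔ N m ω')
  Ex_congr : ∀ m ω ω', f m ω = f m ω' → (Ex m ω ↔ Ex m ω')
  M_succ : ∀ m ω, ¬ N m ω → ¬ Ex m ω → M (m + 1) ω = M m ω
  N_label : ∀ m ω, N m ω → 2 * m ≤ k ω
  M_le : ∀ m ω, ¬ Ex m ω → ‖M m ω‖ ≤ 22 * Real.sqrt 2 ^ m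
  M_le' : ∀ m ω, ¬ Ex m ω → ‖M m ω‖ ≤ 22 * 2 ^ k ω
  Ex_exp : ∀ m, ∑ ω, p ω * (if Ex m ω then Real.exp (‖M m ω‖ ^ 2 / 40) else 0) ≤
    Real.exp (-20 * 2 ^ m)
  sg : ∀ m, Sg univ p (M m) 1
  sg_succ : ∀ m ω, Sg (univ.filter fun ω' => f m ω' = f m ω) p (fun ω' => M (m + 1) ω' - M m ω')
    (if Ex m ω then 80 * Real.sqrt 2 ^ m else 15)
  fin_N : ∀ m, L ≤ m → ∀ ω, ¬ N m ω
  fin_Ex : ∀ m, L ≤ m → ∀ ω, ¬ Ex m ω
  fin_k : ∀ m, L ≤ m → ∀ ω ω', f m ω = f m ω' → k ω = k ω'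
  fin_sg : ∀ m, L ≤ m → ∀ ω, Sg (univ.filter fun ω' => f m ω' = f m ω) p
    (fun ω' => V ω' - M m ω') 15
  fin_le : ∀ m, L ≤ m → ∀ ω, ‖M m ω‖ ≤ 2 ^ k ω

theorem filt (p : Ω → ℝ) (hp : ∀ ω, 0 < p ω) (h1 : ∑ ω, p ω = 1) (V : Ω → E)
    (hV : Sg univ p V 1) (k : Ω → ℕ) (hk : ∀ ω, ‖V ω‖ ≤ 2 ^ k ω) : Nonempty (Filt p V k) := by
  classical
  obtain ⟨s, hs0, hs⟩ := F90.states p hp h1 V hV k
  have hne : ∀ m ω, ((s m).at' ω).Nonempty := fun m ω => ⟨ω, (s m).mem ω⟩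
  have hfil : ∀ m ω, (univ.filter fun ω' => (s m).at' ω' = (s m).at' ω) = (s m).at' ω := by
    intro m ω
    ext ω'
    rw [mem_filter]
    constructor
    · rintro ⟨_, h⟩
      rw [← h]
      exact (s m).mem ω'
    · intro h
      exact ⟨mem_univ _, (s m).eq_of_mem ω ω' h⟩
  have hcm : ∀ m ω ω', (s m).at' ω = (s m).at' ω' → ω' ∈ (s m).at' ω := by
    intro m ω ω' h
    rw [h]
    exact (s m).mem ω'
  have hmb : ∀ m ω, ‖mean ((s m).at' ω) p V‖ ^ 2 ≤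
      4 * Real.log (1 / ∑ ω' ∈ (s m).at' ω, p ω') :=
    fun m ω => mean_bound p hp h1 V hV _ (hne m ω)
  have hle22 : ∀ m ω, ¬ (s m).Ex ω → ‖mean ((s m).at' ω) p V‖ ≤ 22 * Real.sqrt 2 ^ m := by
    intro m ω hEx
    have hP := F90.Psum_pos hp (hne m ω)
    have hlow : Real.exp (-120 * 2 ^ m) ≤ ∑ ω' ∈ (s m).at' ω, p ω' := (s m).lower ω hEx
    have h3 : Real.log (1 / ∑ ω' ∈ (s m).at' ω, p ω') ≤ 120 * 2 ^ m := by
      rw [one_div, Real.log_inv]
      have := (Real.le_log_iff_exp_le hP).2 hlow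
      linarith
    have h4 := hmb m ω
    have h5 : ‖mean ((s m).at' ω) p V‖ ^ 2 ≤ (22 * Real.sqrt 2 ^ m) ^ 2 := by
      rw [mul_pow, F90.sqrt2_sq_pow]
      have : (0 : ℝ) < 2 ^ m := by positivity
      linarith
    exact le_of_sq_le_sq h5 (by positivity)
  have hfinle : ∀ m ω, ¬ (s m).N ω → ¬ (s m).Ex ω →
      ‖mean ((s m).at' ω) p V‖ ≤ 2 ^ k ω := by
    intro m ω hN hEx
    apply F90.mean_norm_le hp V (hne m ω)
    intro ω' hω'
    have := (s m).fin_label ω hN hEx ω' hω'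
    rw [← this]
    exact hk ω'
  obtain ⟨L1, hL1⟩ := F90.ev_small p hp
  set L := L1 + ∑ ω, k ω + 1 with hLdef
  have hLN : ∀ m, L ≤ m → ∀ ω, ¬ (s m).N ω := by
    intro m hm ω hN
    have h2 := (s m).N_label ω hN
    have h3 : k ω ≤ ∑ ω, k ω := single_le_sum (f := k) (fun _ _ => Nat.zero_le _) (mem_univ ω)
    omega
  have hLEx : ∀ m, L ≤ m → ∀ ω, ¬ (s m).Ex ω := by
    intro m hm ω hEx
    obtain ⟨n, rfl⟩ : ∃ n, m = n + 1 := ⟨m - 1, by omega⟩
    have h2 := (hs n).ex_new ω hEx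
    have h3 := hL1 n (by omega) ω
    have h4 : p ω ≤ Pr p ((s (n + 1)).at' ω) :=
      single_le_sum (f := p) (fun ω' _ => (hp ω').le) ((s (n + 1)).mem ω)
    linarith
  refine ⟨{
    f := fun m ω => (s m).at' ω
    M := fun m ω => mean ((s m).at' ω) p V
    N := fun m ω => (s m).N ω
    Ex := fun m ω => (s m).Ex ω
    L := L
    nest := ?_
    M_zero := ?_
    M_congr := ?_
    N_congr := ?_
    Ex_congr := ?_
    M_succ := ?_
    N_label := fun m ω h => (s m).N_label ω h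
    M_le := hle22
    M_le' := ?_
    Ex_exp := ?_
    sg := ?_
    sg_succ := ?_
    fin_N := hLN
    fin_Ex := hLEx
    fin_k := ?_
    fin_sg := ?_
    fin_le := fun m hm ω => hfinle m ω (hLN m hm ω) (hLEx m hm ω) }⟩
  · intro m ω ω' h
    have h2 : ω' ∈ (s m).at' ω := (hs m).sub ω (hcm (m + 1) ω ω' h)
    exact ((s m).eq_of_mem ω ω' h2).symm
  · intro ω
    have hu : (univ : Finset Ω).Nonempty := ⟨ω, mem_univ _⟩
    have h2 := mean_bound p hp h1 V hV univ hu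
    rw [h1, div_one, Real.log_one, mul_zero] at h2
    have h3 : ‖mean univ p V‖ = 0 := by
      have := norm_nonneg (mean univ p V)
      nlinarith
    show mean ((s 0).at' ω) p V = 0
    rw [hs0 ω]
    exact norm_eq_zero.1 h3
  · intro m ω ω' h
    show mean ((s m).at' ω) p V = mean ((s m).at' ω') p V
    have h' : (s m).at' ω = (s m).at' ω' := h
    rw [h']
  · intro m ω ω' h
    exact ((s m).N_congr ω ω' (hcm m ω ω' h)).symm
  · intro m ω ω' h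
    exact ((s m).Ex_congr ω ω' (hcm m ω ω' h)).symm
  · intro m ω hN hEx
    show mean ((s (m + 1)).at' ω) p V = mean ((s m).at' ω) p V
    rw [((hs m).fin_stable ω hN hEx).1]
  · intro m ω hEx
    show ‖mean ((s m).at' ω) p V‖ ≤ 22 * 2 ^ k ω
    by_cases hN : (s m).N ω
    · refine (hle22 m ω hEx).trans ?_
      apply mul_le_mul_of_nonneg_left _ (by norm_num)
      have h2 := (s m).N_label ω hN
      have h3 : (Real.sqrt 2 ^ m) ^ 2 ≤ (2 ^ k ω) ^ 2 := by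
        rw [F90.sqrt2_sq_pow, ← pow_mul]
        exact pow_le_pow_right₀ (by norm_num) (by omega)
      exact le_of_sq_le_sq h3 (by positivity)
    · refine (hfinle m ω hN hEx).trans ?_
      have : (0 : ℝ) < 2 ^ k ω := by positivity
      linarith
  · intro m
    refine le_trans ?_ (s m).sumEx
    apply sum_le_sum
    intro ω _
    apply mul_le_mul_of_nonneg_left _ (hp ω).le
    by_cases hEx : (s m).Ex ω
    · rw [if_pos hEx, if_pos hEx]
      have hP := F90.Psum_pos hp (hne m ω)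
      unfold Pr
      rw [Real.rpow_def_of_pos hP]
      apply Real.exp_le_exp.2
      have h2 := hmb m ω
      rw [one_div, Real.log_inv] at h2
      show ‖mean ((s m).at' ω) p V‖ ^ 2 / 40 ≤ _
      linarith
    · rw [if_neg hEx, if_neg hEx]
  · intro m
    have h2 : Sg univ p (fun ω => V ω - 0) 1 := by
      apply F90.Sg_congr _ hV
      intro ω _
      rw [sub_zero]
    have h3 := F90.jensen hp V univ (s m).at' (fun ω _ => (s m).mem ω)
      (fun ω _ => subset_univ _) (fun ω _ => (s m).eq_of_mem ω) 0 h2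
    apply F90.Sg_congr _ h3
    intro ω _
    rw [sub_zero]
  · intro m ω
    rw [hfil m ω]
    have hMc : ∀ ω' ∈ (s m).at' ω, mean ((s m).at' ω') p V = mean ((s m).at' ω) p V := by
      intro ω' hω'
      rw [(s m).eq_of_mem ω ω' hω']
    have hJ : ∀ σ : ℝ, Sg ((s m).at' ω) p (fun ω' => V ω' - mean ((s m).at' ω) p V) σ →
        Sg ((s m).at' ω) p (fun ω' => mean ((s (m + 1)).at' ω') p V -
          mean ((s m).at' ω') p V) σ := by
      intro σ hσ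
      have h3 := F90.jensen hp V ((s m).at' ω) (s (m + 1)).at' (fun ω' _ => (s (m + 1)).mem ω')
        (fun ω' hω' => by
          have h4 := (hs m).sub ω'
          rwa [(s m).eq_of_mem ω ω' hω'] at h4)
        (fun ω' _ => (s (m + 1)).eq_of_mem ω') (mean ((s m).at' ω) p V) hσ
      apply F90.Sg_congr _ h3
      intro ω' hω'
      rw [hMc ω' hω']
    by_cases hEx : (s m).Ex ω
    · rw [if_pos hEx]
      by_cases hPr : Pr p ((s m).at' ω) < Real.exp (-120 * 2 ^ m)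
      · apply F90.Sg_zero hp
        intro ω' hω'
        have h5 : (s m).Ex ω' := ((s m).Ex_congr ω ω' hω').2 hEx
        have h6 := (hs m).ex_stable ω' h5 (by rw [(s m).eq_of_mem ω ω' hω']; exact hPr)
        show mean ((s (m + 1)).at' ω') p V - mean ((s m).at' ω') p V = 0
        rw [h6, sub_self]
      · apply hJ
        apply exc_sg p hp h1 V hV ((s m).at' ω) (H := 120 * 2 ^ m) (by positivity)
        · rw [← neg_mul]
          exact not_lt.1 hPr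
        · rw [mul_pow, F90.sqrt2_sq_pow]
          have : (1 : ℝ) ≤ 2 ^ m := one_le_pow₀ (by norm_num)
          linarith
    · rw [if_neg hEx]
      exact hJ 15 ((s m).good ω hEx)
  · intro m hm ω ω' h
    exact ((s m).fin_label ω (hLN m hm ω) (hLEx m hm ω) ω' (hcm m ω ω' h)).symm
  · intro m hm ω
    rw [hfil m ω]
    apply F90.Sg_congr _ ((s m).good ω (hLEx m hm ω))
    intro ω' hω'
    rw [(s m).eq_of_mem ω ω' hω']

end IC65
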