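import Pool.Agent.IC65.FiltDefs
import Pool.Agent.IC65.Dec2

/-!
# IC65 module FILT-B: one step of the filtration

`first_st`: one atom `univ`; `N ω = True`, `Ex ω = False` (`mean univ p V = 0` by `mean_bound`: `‖mean‖² ≤ 4 log 1`).

`step_st`.  Let `s` be the state at level `m`, `θ = exp(-100 · 2^(m+1))` (so `exp(-120 · 2^m) = θ^(3/5)`).
* A final atom is not changed (it stays final).
* An exceptional atom with `Pr < exp(-120 · 2^m)` is not changed (it stays exceptional).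
* All the other atoms `g` (open, or exceptional with `Pr g ≥ exp(-120 · 2^m)`; the open ones satisfy this as well,
  `lower`) are processed: `g` is split according to the value of `min (k ω) (2(m+1))` (at most `2m+3` values), and
  each part `g₀` is decomposed by `dec2` with this `θ`; the good atoms have `Pr ≥ θ^(6/5) = exp(-120 · 2^(m+1))` and
  are `Sg 15` (`good_sg`); they are final if `min (k ω) (2(m+1)) < 2(m+1)` (then `k` is constant on them) and open
  otherwise (`k ≥ 2(m+1)` on them); the piece `e` (if nonempty) is exceptional, `Pr e < θ`.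
* `cnt`: the processed atoms are disjoint with `Pr ≥ θ^(3/5)`, so there are at most `θ^(-3/5)` of them and at most
  `(2m+3) θ^(-3/5)` new exceptional atoms (one for each part `g₀`); old ones: at most `exp(65 · 2^m) = θ^(-13/40)`.
  `(2m+3) θ^(-3/5) + θ^(-13/40) ≤ θ^(-13/20) = exp(65 · 2^(m+1))` since `(2m+3) θ^(1/20) + θ^(13/40) ≤ 1`
  (`θ^(1/20) = exp(-5 · 2^(m+1))`).
* `sumEx`: it is `∑_e Pr(e)^(9/10)` over the exceptional atoms `e`: new ones `≤ (2m+3) θ^(-3/5) θ^(9/10)`, old ones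
  `≤ θ^(-13/40) (θ^(3/5))^(9/10) = θ^(43/200)`; the sum is `≤ θ^(1/5) = exp(-20 · 2^(m+1))` since
  `(2m+3) θ^(1/10) + θ^(3/200) ≤ 1` (`θ^(3/200) = exp(-3 · 2^m) ≤ exp(-3)`).
  (It may be convenient to prove first: if all exceptional atoms in a set `𝓔` of atoms have `Pr ≤ c`, then
  `∑_{ω ∈ ⋃𝓔} p ω Pr(at' ω)^(-1/10) ≤ card 𝓔 · c^(9/10)`, by `sum_fiberwise`.)
* `ex_new`: `θ ≤ exp(-120 · 2^m)`.
-/

open Finset
open scoped RealInnerProductSpace

noncomputable section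

namespace IC65

variable {Ω : Type} [Fintype Ω] {E : Type} [NormedAddCommGroup E] [InnerProductSpace ℝ E]

theorem first_st (p : Ω → ℝ) (hp : ∀ ω, 0 < p ω) (h1 : ∑ ω, p ω = 1) (V : Ω → E)
    (hV : Sg univ p V 1) (k : Ω → ℕ) : ∃ s : St p V k 0, ∀ ω, s.at' ω = univ := by
  classical
  have hne : (univ : Finset Ω).Nonempty := by
    rw [univ_nonempty_iff]
    by_contra h
    rw [not_nonempty_iff] at h
    simp at h1
  have hm : mean univ p V = 0 := by
    have := mean_bound p hp h1 V hV univ hne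
    rw [h1] at this
    simp only [div_one, Real.log_one, mul_zero] at this
    have h2 := sq_nonneg ‖mean univ p V‖
    have h3 : ‖mean univ p V‖ ^ 2 = 0 := le_antisymm this h2
    simpa using h3
  refine ⟨{ at' := fun _ => univ, N := fun _ => True, Ex := fun _ => False,
            mem := fun ω => mem_univ ω, eq_of_mem := fun _ _ _ => rfl,
            N_congr := fun _ _ _ => Iff.rfl, Ex_congr := fun _ _ _ => Iff.rfl,
            N_label := fun _ _ => by simp, fin_label := fun _ h => absurd trivial h,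
            good := ?_, lower := ?_, cnt := ?_, sumEx := ?_ }, fun _ => rfl⟩
  · intro _ _ v
    have h2 := hV v
    simp only [hm, sub_zero]
    refine h2.trans ?_
    rw [h1]
    have h3 : (0 : ℝ) ≤ ‖v‖ ^ 2 := by positivity
    have h4 : Real.exp (1 ^ 2 * ‖v‖ ^ 2) ≤ Real.exp (15 ^ 2 * ‖v‖ ^ 2) := by
      apply Real.exp_le_exp.2
      nlinarith
    linarith
  · intro _ _
    unfold Pr
    rw [h1]
    apply Real.exp_le_one_iff.2
    norm_num
  · simp
    positivity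
  · simp
    positivity

namespace FBX

omit [Fintype Ω] in
theorem sum_atoms_le {p : Ω → ℝ} (hp : ∀ ω, 0 < p ω) [DecidableEq Ω] {a : Ω → Finset Ω}
    (ha : ∀ ω, ω ∈ a ω) (F : Finset Ω) {c : ℝ} (hc0 : 0 ≤ c)
    (hc : ∀ ω ∈ F, Pr p (a ω) ≤ c) {n : ℝ} (hn : ((F.image a).card : ℝ) ≤ n) :
    ∑ ω ∈ F, p ω * Pr p (a ω) ^ (-(1 / 10) : ℝ) ≤ n * c ^ (9 / 10 : ℝ) := by
  have hpos : ∀ ω, 0 < Pr p (a ω) := by
    intro ω
    exact sum_pos (fun ω _ => hp ω) ⟨ω, ha ω⟩
  rw [← sum_fiberwise_of_maps_to (t := F.image a) (g := a) (fun ω hω => mem_image_of_mem a hω)]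
  have h1 : ∀ g ∈ F.image a, ∑ ω ∈ F with a ω = g, p ω * Pr p (a ω) ^ (-(1 / 10) : ℝ) ≤
      c ^ (9 / 10 : ℝ) := by
    intro g hg
    obtain ⟨ω₀, hω₀, rfl⟩ := mem_image.1 hg
    have h2 : ∑ ω ∈ F with a ω = a ω₀, p ω * Pr p (a ω) ^ (-(1 / 10) : ℝ) =
        (∑ ω ∈ F with a ω = a ω₀, p ω) * Pr p (a ω₀) ^ (-(1 / 10) : ℝ) := by
      rw [sum_mul]
      apply sum_congr rfl
      intro ω hω
      rw [(mem_filter.1 hω).2]
    rw [h2]
    have h3 : ∑ ω ∈ F with a ω = a ω₀, p ω ≤ Pr p (a ω₀) := by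
      apply sum_le_sum_of_subset_of_nonneg
      · intro ω hω
        rw [← (mem_filter.1 hω).2]
        exact ha ω
      · intro ω _ _
        exact (hp ω).le
    have h4 : Pr p (a ω₀) * Pr p (a ω₀) ^ (-(1 / 10) : ℝ) = Pr p (a ω₀) ^ (9 / 10 : ℝ) := by
      nth_rewrite 1 [← Real.rpow_one (Pr p (a ω₀))]
      rw [← Real.rpow_add (hpos ω₀)]
      norm_num
    have h5 : (0 : ℝ) ≤ Pr p (a ω₀) ^ (-(1 / 10) : ℝ) := Real.rpow_nonneg (hpos ω₀).le _
    calc _ ≤ Pr p (a ω₀) * Pr p (a ω₀) ^ (-(1 / 10) : ℝ) := mul_le_mul_of_nonneg_right h3 h5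
      _ = Pr p (a ω₀) ^ (9 / 10 : ℝ) := h4
      _ ≤ c ^ (9 / 10 : ℝ) := Real.rpow_le_rpow (hpos ω₀).le (hc ω₀ hω₀) (by norm_num)
  have h6 := sum_le_sum h1
  rw [sum_const, nsmul_eq_mul] at h6
  refine h6.trans ?_
  exact mul_le_mul_of_nonneg_right hn (Real.rpow_nonneg hc0 _)

/-- the number of atoms of probability at least `q` -/
theorem card_atoms_le {p : Ω → ℝ} (hp : ∀ ω, 0 < p ω) (h1 : ∑ ω, p ω = 1) [DecidableEq Ω]
    {a : Ω → Finset Ω} (ha' : ∀ ω, ∀ ω' ∈ a ω, a ω' = a ω)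
    (F : Finset Ω) {q : ℝ} (hq : 0 < q) (hF : ∀ ω ∈ F, q ≤ Pr p (a ω)) :
    ((F.image a).card : ℝ) ≤ q⁻¹ := by
  have h2 : ∑ g ∈ F.image a, q ≤ ∑ g ∈ F.image a, Pr p g := by
    apply sum_le_sum
    intro g hg
    obtain ⟨ω₀, hω₀, rfl⟩ := mem_image.1 hg
    exact hF ω₀ hω₀
  have h3 : ∑ g ∈ F.image a, Pr p g ≤ 1 := by
    rw [← h1]
    unfold Pr
    rw [← sum_biUnion]
    · apply sum_le_sum_of_subset_of_nonneg (subset_univ _)
      intro ω _ _
      exact (hp ω).le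
    · intro g hg g' hg' hne
      obtain ⟨ω, hω, rfl⟩ := mem_image.1 hg
      obtain ⟨ω', hω', rfl⟩ := mem_image.1 hg'
      rw [Function.onFun, disjoint_left]
      intro x hx hx'
      apply hne
      rw [← ha' _ _ hx, ← ha' _ _ hx']
  rw [sum_const, nsmul_eq_mul] at h2
  rw [← one_div, le_div_iff₀ hq]
  exact h2.trans h3

theorem num1 (m : ℕ) : (2 * m + 3 : ℝ) ≤ 3 * 2 ^ m := by
  have h : (m : ℝ) + 1 ≤ 2 ^ m := by
    exact_mod_cast Nat.lt_two_pow_self
  have h2 : (1 : ℝ) ≤ 2 ^ m := one_le_pow₀ (by norm_num)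
  linarith

theorem num2 {x y c : ℝ} (hx : 1 ≤ x) (hy : y ≤ 3 * x) (hc : 0 < c) {a b : ℝ}
    (ha : a ≤ c * Real.exp (-3 * x)) (hb : b ≤ y * (c * Real.exp (-10 * x))) :
    a + b ≤ c := by
  have h1 : Real.exp (-3 * x) ≤ 1 / 4 := by
    rw [neg_mul, Real.exp_neg, ← one_div]
    apply one_div_le_one_div_of_le (by norm_num)
    have := Real.add_one_le_exp (3 * x)
    linarith
  have h2 : x * Real.exp (-10 * x) ≤ 1 / 10 := by
    rw [neg_mul, Real.exp_neg, ← one_div, mul_one_div, div_le_div_iff₀ (Real.exp_pos _) (by norm_num)]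
    have := Real.add_one_le_exp (10 * x)
    linarith
  have h3 : y * Real.exp (-10 * x) ≤ 3 / 10 := by
    calc y * Real.exp (-10 * x) ≤ 3 * x * Real.exp (-10 * x) :=
          mul_le_mul_of_nonneg_right hy (Real.exp_pos _).le
      _ ≤ 3 / 10 := by linarith
  have h4 : a ≤ c * (1 / 4) := ha.trans (mul_le_mul_of_nonneg_left h1 hc.le)
  have h5 : b ≤ c * (3 / 10) := by
    refine hb.trans ?_
    calc y * (c * Real.exp (-10 * x)) = c * (y * Real.exp (-10 * x)) := by ring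
      _ ≤ c * (3 / 10) := mul_le_mul_of_nonneg_left h3 hc.le
  linarith

end FBX

theorem step_st (p : Ω → ℝ) (hp : ∀ ω, 0 < p ω) (h1 : ∑ ω, p ω = 1) (V : Ω → E)
    (hV : Sg univ p V 1) (k : Ω → ℕ) {m : ℕ} (s : St p V k m) :
    ∃ s' : St p V k (m + 1), Nx s s' := by
  classical
  have hx1 : (1 : ℝ) ≤ 2 ^ m := one_le_pow₀ (by norm_num)
  set x : ℝ := 2 ^ m with hx
  have hx2 : (2 : ℝ) ^ (m + 1) = 2 * x := by rw [pow_succ, hx]; ring
  have hθ : 0 < Real.exp (-200 * x) := Real.exp_pos _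
  choose A e he1 he2 he3 he4 he5 using fun S => dec2 p hp h1 V hV hθ S
  -- membership in the parts
  have hmemA : ∀ S : Finset Ω, ∀ ω ∈ S, ω ∈ A S ω := by
    intro S ω hω
    by_cases h : ω ∈ e S
    · rw [he3 S ω h]; exact h
    · exact (he4 S ω hω h).1
  have hsubA : ∀ S : Finset Ω, ∀ ω ∈ S, A S ω ⊆ S := by
    intro S ω hω
    by_cases h : ω ∈ e S
    · rw [he3 S ω h]; exact he1 S
    · exact (he4 S ω hω h).2.1.trans sdiff_subset
  have heA : ∀ S : Finset Ω, ∀ ω ∈ S, ∀ ω' ∈ A S ω, (ω' ∈ e S ↔ ω ∈ e S) := by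
    intro S ω hω ω' hω'
    by_cases h : ω ∈ e S
    · rw [he3 S ω h] at hω'
      simp [h, hω']
    · have := (he4 S ω hω h).2.1 hω'
      rw [mem_sdiff] at this
      simp [h, this.2]
  set P : Ω → Prop := fun ω => Real.exp (-120 * x) ≤ Pr p (s.at' ω) ∧ (s.N ω ∨ s.Ex ω) with hP
  set pt : Ω → Finset Ω := fun ω =>
    (s.at' ω).filter fun ω' => min (k ω') (2 * (m + 1)) = min (k ω) (2 * (m + 1)) with hpt
  set B : Ω → Finset Ω := fun ω => if P ω then A (pt ω) ω else s.at' ω with hB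
  have hmpt : ∀ ω, ω ∈ pt ω := by
    intro ω
    exact mem_filter.2 ⟨s.mem ω, rfl⟩
  have hBP : ∀ ω, P ω → B ω = A (pt ω) ω := fun ω h => if_pos h
  have hBN : ∀ ω, ¬ P ω → B ω = s.at' ω := fun ω h => if_neg h
  have hBmem : ∀ ω, ω ∈ B ω := by
    intro ω
    by_cases h : P ω
    · rw [hBP ω h]; exact hmemA _ _ (hmpt ω)
    · rw [hBN ω h]; exact s.mem ω
  have hptsub : ∀ ω, pt ω ⊆ s.at' ω := fun ω => filter_subset _ _
  have hBsub : ∀ ω, B ω ⊆ s.at' ω := by
    intro ω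
    by_cases h : P ω
    · rw [hBP ω h]; exact (hsubA _ _ (hmpt ω)).trans (hptsub ω)
    · rw [hBN ω h]
  have hPc : ∀ ω, ∀ ω' ∈ s.at' ω, (P ω' ↔ P ω) := by
    intro ω ω' h
    simp only [hP]
    rw [s.eq_of_mem ω ω' h, s.N_congr ω ω' h, s.Ex_congr ω ω' h]
  have hptc : ∀ ω, ∀ ω' ∈ pt ω, pt ω' = pt ω := by
    intro ω ω' h
    have h2 := (mem_filter.1 h).1
    have h3 := (mem_filter.1 h).2
    simp only [hpt]
    rw [s.eq_of_mem ω ω' h2, h3]
  have hBpt : ∀ ω, P ω → B ω ⊆ pt ω := by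
    intro ω h
    rw [hBP ω h]
    exact hsubA _ _ (hmpt ω)
  have hBc : ∀ ω, ∀ ω' ∈ B ω, B ω' = B ω := by
    intro ω ω' h
    have h2 := hPc ω ω' (hBsub ω h)
    by_cases h3 : P ω
    · have h4 := hptc ω ω' (hBpt ω h3 h)
      rw [hBP ω h3] at h ⊢
      rw [hBP ω' (h2.2 h3), h4]
      exact he5 _ _ (hmpt ω) _ h
    · rw [hBN ω h3] at h ⊢
      rw [hBN ω' (fun h5 => h3 (h2.1 h5))]
      exact s.eq_of_mem _ _ h
  have hec : ∀ ω, P ω → ∀ ω' ∈ B ω, (ω' ∈ e (pt ω') ↔ ω ∈ e (pt ω)) := by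
    intro ω h ω' h2
    rw [hptc ω ω' (hBpt ω h h2)]
    rw [hBP ω h] at h2
    exact heA _ _ (hmpt ω) _ h2
  have hk2 : ∀ ω, ∀ ω' ∈ pt ω, (2 * (m + 1) ≤ k ω' ↔ 2 * (m + 1) ≤ k ω) := by
    intro ω ω' h
    have := (mem_filter.1 h).2
    omega
  have hk3 : ∀ ω, ∀ ω' ∈ pt ω, ¬ 2 * (m + 1) ≤ k ω → k ω' = k ω := by
    intro ω ω' h
    have := (mem_filter.1 h).2
    omega
  set N' : Ω → Prop := fun ω => P ω ∧ ω ∉ e (pt ω) ∧ 2 * (m + 1) ≤ k ω with hN'
  set X' : Ω → Prop := fun ω => (P ω ∧ ω ∈ e (pt ω)) ∨ (¬ P ω ∧ s.Ex ω) with hX'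
  -- a non-processed exceptional atom is small
  have hold : ∀ ω, ¬ P ω → s.Ex ω → Pr p (s.at' ω) < Real.exp (-120 * x) := by
    intro ω h h2
    by_contra h3
    rw [not_lt] at h3
    exact h ⟨h3, Or.inr h2⟩
  -- a small atom is exceptional and not processed
  have hsm : ∀ ω, Pr p (s.at' ω) < Real.exp (-120 * x) → ¬ P ω := by
    intro ω h h2
    exact absurd h2.1 (not_le.2 h)
  have hNC : ∀ ω, ¬ P ω → ¬ X' ω → ¬ s.Ex ω := fun ω h h2 h3 => h2 (Or.inr ⟨h, h3⟩)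
  have hnew : ∀ ω, P ω → ω ∈ e (pt ω) → Pr p (B ω) < Real.exp (-200 * x) := by
    intro ω h h2
    rw [hBP ω h, he3 _ _ h2]
    exact he2 _
  have hsmall : ∀ ω, X' ω → Pr p (B ω) < Real.exp (-120 * x) := by
    intro ω h
    rcases h with ⟨h, h2⟩ | ⟨h, h2⟩
    · refine (hnew ω h h2).trans_le ?_
      apply Real.exp_le_exp.2
      linarith
    · rw [hBN ω h]
      exact hold ω h h2
  have hpow : (Real.exp (-200 * x)) ^ (6 / 5 : ℝ) = Real.exp (-120 * 2 ^ (m + 1)) := by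
    rw [← Real.exp_mul, hx2]
    ring_nf
  -- counting
  have hcardnew : (((univ.filter fun ω => P ω ∧ ω ∈ e (pt ω)).image B).card : ℝ) ≤
      (2 * m + 3) * Real.exp (120 * x) := by
    have h2 : (univ.filter fun ω => P ω ∧ ω ∈ e (pt ω)).image B ⊆
        (((univ.filter P).image s.at') ×ˢ (range (2 * m + 3))).image
          (fun gj => e (gj.1.filter fun ω' => min (k ω') (2 * (m + 1)) = gj.2)) := by
      intro g hg
      obtain ⟨ω, hω, rfl⟩ := mem_image.1 hg
      obtain ⟨_, hω1, hω2⟩ := mem_filter.1 hω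
      rw [mem_image]
      refine ⟨(s.at' ω, min (k ω) (2 * (m + 1))), ?_, ?_⟩
      · rw [mem_product]
        refine ⟨mem_image_of_mem _ (mem_filter.2 ⟨mem_univ _, hω1⟩), ?_⟩
        rw [mem_range]
        dsimp only
        omega
      · rw [hBP ω hω1, he3 _ _ hω2]
    have h3 := card_le_card h2
    have h4 := h3.trans card_image_le
    rw [card_product, card_range] at h4
    have h5 : (((univ.filter P).image s.at').card : ℝ) ≤ (Real.exp (-120 * x))⁻¹ :=
      FBX.card_atoms_le hp h1 s.eq_of_mem _ (Real.exp_pos _)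
        (fun ω hω => (mem_filter.1 hω).2.1)
    rw [← Real.exp_neg] at h5
    have h6 : (((univ.filter fun ω => P ω ∧ ω ∈ e (pt ω)).image B).card : ℝ) ≤
        (((univ.filter P).image s.at').card : ℝ) * (2 * m + 3) := by
      exact_mod_cast h4
    refine h6.trans ?_
    rw [mul_comm]
    apply mul_le_mul_of_nonneg_left _ (by positivity)
    refine h5.trans (le_of_eq ?_)
    congr 1
    ring
  have hcardold : (((univ.filter fun ω => ¬ P ω ∧ s.Ex ω).image B).card : ℝ) ≤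
      Real.exp (65 * x) := by
    refine le_trans ?_ s.cnt
    norm_cast
    apply card_le_card
    intro g hg
    obtain ⟨ω, hω, rfl⟩ := mem_image.1 hg
    obtain ⟨_, hω1, hω2⟩ := mem_filter.1 hω
    rw [hBN ω hω1]
    exact mem_image_of_mem _ (mem_filter.2 ⟨mem_univ _, hω2⟩)
  have hm3 : (0 : ℝ) ≤ 2 * m + 3 := by positivity
  refine ⟨{ at' := B, N := N', Ex := X', mem := hBmem, eq_of_mem := hBc,
            N_congr := ?_, Ex_congr := ?_, N_label := fun _ h => h.2.2, fin_label := ?_,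
            good := ?_, lower := ?_, cnt := ?_, sumEx := ?_ }, ?_⟩
  · intro ω ω' h
    simp only [hN']
    have h2 := hPc ω ω' (hBsub ω h)
    by_cases h3 : P ω
    · have h4 := hec ω h3 ω' h
      have h5 := hk2 ω ω' (hBpt ω h3 h)
      rw [h2, h4, h5]
    · have h4 : ¬ P ω' := fun h5 => h3 (h2.1 h5)
      simp [h3, h4]
  · intro ω ω' h
    simp only [hX']
    have h2 := hPc ω ω' (hBsub ω h)
    by_cases h3 : P ω
    · have h4 := hec ω h3 ω' h
      have h5 : P ω' := h2.2 h3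
      simp [h3, h5, h4]
    · have h4 : ¬ P ω' := fun h5 => h3 (h2.1 h5)
      have h5 := s.Ex_congr ω ω' (hBsub ω h)
      simp [h3, h4, h5]
  · intro ω h2 h3 ω' h
    by_cases h4 : P ω
    · have h5 : ω ∉ e (pt ω) := fun h6 => h3 (Or.inl ⟨h4, h6⟩)
      have h6 : ¬ 2 * (m + 1) ≤ k ω := fun h7 => h2 ⟨h4, h5, h7⟩
      exact hk3 ω ω' (hBpt ω h4 h) h6
    · have h5 := hNC ω h4 h3
      have h6 : ¬ s.N ω := fun h7 => h4 ⟨s.lower ω h5, Or.inl h7⟩
      rw [hBN ω h4] at h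
      exact s.fin_label ω h6 h5 ω' h
  · intro ω h3
    by_cases h4 : P ω
    · have h5 : ω ∉ e (pt ω) := fun h6 => h3 (Or.inl ⟨h4, h6⟩)
      rw [hBP ω h4]
      exact good_sg _ p (fun ω' _ => hp ω') V (he4 _ _ (hmpt ω) h5).2.2.1
    · rw [hBN ω h4]
      exact s.good ω (hNC ω h4 h3)
  · intro ω h3
    by_cases h4 : P ω
    · have h5 : ω ∉ e (pt ω) := fun h6 => h3 (Or.inl ⟨h4, h6⟩)
      rw [hBP ω h4, ← hpow]
      exact (he4 _ _ (hmpt ω) h5).2.2.2
    · rw [hBN ω h4]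
      refine le_trans ?_ (s.lower ω (hNC ω h4 h3))
      apply Real.exp_le_exp.2
      rw [hx2]
      linarith
  · have h2 : (univ.filter fun ω => X' ω).image B =
        (univ.filter fun ω => ¬ P ω ∧ s.Ex ω).image B ∪
          (univ.filter fun ω => P ω ∧ ω ∈ e (pt ω)).image B := by
      rw [← image_union, ← filter_or]
      congr 1
      ext ω
      simp only [hX', mem_filter]
      tauto
    suffices h9 : (((univ.filter fun ω => X' ω).image B).card : ℝ) ≤
        Real.exp (65 * 2 ^ (m + 1)) by convert h9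
    rw [h2]
    have h3 : ((((univ.filter fun ω => ¬ P ω ∧ s.Ex ω).image B ∪
          (univ.filter fun ω => P ω ∧ ω ∈ e (pt ω)).image B).card : ℕ) : ℝ) ≤
        (((univ.filter fun ω => ¬ P ω ∧ s.Ex ω).image B).card : ℝ) +
          (((univ.filter fun ω => P ω ∧ ω ∈ e (pt ω)).image B).card : ℝ) := by
      exact_mod_cast card_union_le _ _
    refine h3.trans ?_
    refine FBX.num2 hx1 (FBX.num1 m) (Real.exp_pos _) (hcardold.trans ?_)
      (hcardnew.trans ?_)
    · rw [← Real.exp_add, hx2]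
      apply Real.exp_le_exp.2
      linarith
    · apply mul_le_mul_of_nonneg_left _ hm3
      rw [← Real.exp_add, hx2]
      apply Real.exp_le_exp.2
      linarith
  · have h2 : ∑ ω, p ω * (if X' ω then Pr p (B ω) ^ (-(1 / 10) : ℝ) else 0) =
        ∑ ω ∈ univ.filter (fun ω => ¬ P ω ∧ s.Ex ω), p ω * Pr p (B ω) ^ (-(1 / 10) : ℝ) +
          ∑ ω ∈ univ.filter (fun ω => P ω ∧ ω ∈ e (pt ω)),
            p ω * Pr p (B ω) ^ (-(1 / 10) : ℝ) := by
      rw [sum_filter, sum_filter, ← sum_add_distrib]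
      apply sum_congr rfl
      intro ω _
      simp only [hX']
      by_cases h3 : P ω
      · by_cases h4 : ω ∈ e (pt ω)
        · simp [h3, h4]
        · simp [h3, h4]
      · by_cases h4 : s.Ex ω
        · simp [h3, h4]
        · simp [h3, h4]
    suffices h9 : ∑ ω, p ω * (if X' ω then Pr p (B ω) ^ (-(1 / 10) : ℝ) else 0) ≤
        Real.exp (-20 * 2 ^ (m + 1)) by convert h9
    rw [h2]
    have h3 := FBX.sum_atoms_le hp hBmem (univ.filter fun ω => ¬ P ω ∧ s.Ex ω)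
      (Real.exp_pos (-120 * x)).le (fun ω hω => (hsmall ω (Or.inr (mem_filter.1 hω).2)).le)
      hcardold
    have h4 := FBX.sum_atoms_le hp hBmem (univ.filter fun ω => P ω ∧ ω ∈ e (pt ω))
      (Real.exp_pos (-200 * x)).le
      (fun ω hω => (hnew ω (mem_filter.1 hω).2.1 (mem_filter.1 hω).2.2).le)
      hcardnew
    rw [← Real.exp_mul] at h3 h4
    refine FBX.num2 hx1 (FBX.num1 m) (Real.exp_pos _) (h3.trans ?_) (h4.trans ?_)
    · rw [← Real.exp_add, ← Real.exp_add, hx2]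
      apply Real.exp_le_exp.2
      linarith
    · rw [mul_assoc]
      apply mul_le_mul_of_nonneg_left _ hm3
      rw [← Real.exp_add, ← Real.exp_add, hx2]
      apply Real.exp_le_exp.2
      linarith
  · refine ⟨hBsub, ?_, ?_, ?_⟩
    · intro ω h2 h3
      have h4 : ¬ P ω := fun h5 => h5.2.elim h2 h3
      refine ⟨hBN ω h4, fun h5 => h4 h5.1, ?_⟩
      rintro (h5 | h5)
      · exact h4 h5.1
      · exact h3 h5.2
    · intro ω _ h3
      exact hBN ω (hsm ω h3)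
    · intro ω h3
      exact hsmall ω h3

end IC65
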