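import Pool.Agent.IC65.Defs

/-!
# IC65: the state of the construction of the filtration at one level

`at' ω` is the atom which contains `ω`; `N ω`: the atom is open, `Ex ω`: the atom is exceptional, otherwise it
is final.  `Pr p S` = probability of `S`.  Put `θ_m = exp(-100 · 2^m)`; note `θ_m^(6/5) = exp(-120 · 2^m)`.
-/

open Finset
open scoped RealInnerProductSpace

noncomputable section

namespace IC65

def Pr {Ω : Type} (p : Ω → ℝ) (S : Finset Ω) : ℝ := ∑ ω ∈ S, p ω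

open Classical in
/-- the state at level `m` -/
structure St {Ω : Type} [Fintype Ω] {E : Type} [NormedAddCommGroup E] [InnerProductSpace ℝ E]
    (p : Ω → ℝ) (V : Ω → E) (k : Ω → ℕ) (m : ℕ) where
  at' : Ω → Finset Ω
  N : Ω → Prop
  Ex : Ω → Prop
  mem : ∀ ω, ω ∈ at' ω
  eq_of_mem : ∀ ω, ∀ ω' ∈ at' ω, at' ω' = at' ω
  N_congr : ∀ ω, ∀ ω' ∈ at' ω, (N ω' ↔ N ω)
  Ex_congr : ∀ ω, ∀ ω' ∈ at' ω, (Ex ω' ↔ Ex ω)
  N_label : ∀ ω, N ω → 2 * m ≤ k ω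
  fin_label : ∀ ω, ¬ N ω → ¬ Ex ω → ∀ ω' ∈ at' ω, k ω' = k ω
  /-- open and final atoms -/
  good : ∀ ω, ¬ Ex ω → Sg (at' ω) p (fun ω' => V ω' - mean (at' ω) p V) 15
  lower : ∀ ω, ¬ Ex ω → Real.exp (-120 * 2 ^ m) ≤ Pr p (at' ω)
  /-- the number of the exceptional atoms -/
  cnt : (((univ.filter fun ω => Ex ω).image at').card : ℝ) ≤ Real.exp (65 * 2 ^ m)
  sumEx : ∑ ω, p ω * (if Ex ω then Pr p (at' ω) ^ (-(1 / 10) : ℝ) else 0) ≤
    Real.exp (-20 * 2 ^ m)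

/-- the relation between two successive states -/
structure Nx {Ω : Type} [Fintype Ω] {E : Type} [NormedAddCommGroup E] [InnerProductSpace ℝ E]
    {p : Ω → ℝ} {V : Ω → E} {k : Ω → ℕ} {m : ℕ} (s : St p V k m) (s' : St p V k (m + 1)) :
    Prop where
  sub : ∀ ω, s'.at' ω ⊆ s.at' ω
  fin_stable : ∀ ω, ¬ s.N ω → ¬ s.Ex ω → s'.at' ω = s.at' ω ∧ ¬ s'.N ω ∧ ¬ s'.Ex ω
  ex_stable : ∀ ω, s.Ex ω → Pr p (s.at' ω) < Real.exp (-120 * 2 ^ m) → s'.at' ω = s.at' ω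
  ex_new : ∀ ω, s'.Ex ω → Pr p (s'.at' ω) < Real.exp (-120 * 2 ^ m)

end IC65
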