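import Pool.Agent.IC65.AsmDefs

/-!
# IC65: representatives of the cells
-/

open Finset
open scoped RealInnerProductSpace

noncomputable section

namespace IC65

variable {ι : Type} [Fintype ι] {T : Finset (EuclideanSpace ℝ ι)} {Γ : ℝ}

open Classical in
/-- a point of the cell with the label `v` at level `m` -/
def Cells.rep (K : Cells T Γ) (m v : ℕ) : EuclideanSpace ℝ ι :=
  if h : ∃ y ∈ T, K.c m y = v then h.choose else 0

/-- the representative of the cell of `x` -/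
def Cells.pi (K : Cells T Γ) (m : ℕ) (x : EuclideanSpace ℝ ι) : EuclideanSpace ℝ ι :=
  K.rep m (K.c m x)

theorem Cells.rep_mem (K : Cells T Γ) {m v : ℕ} (h : ∃ y ∈ T, K.c m y = v) :
    K.rep m v ∈ T ∧ K.c m (K.rep m v) = v := by
  unfold Cells.rep
  rw [dif_pos h]
  exact h.choose_spec

theorem Cells.pi_mem (K : Cells T Γ) (m : ℕ) {x : EuclideanSpace ℝ ι} (hx : x ∈ T) :
    K.pi m x ∈ T := (K.rep_mem ⟨x, hx, rfl⟩).1

theorem Cells.c_pi (K : Cells T Γ) (m : ℕ) {x : EuclideanSpace ℝ ι} (hx : x ∈ T) :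
    K.c m (K.pi m x) = K.c m x := (K.rep_mem ⟨x, hx, rfl⟩).2

theorem Cells.nest' (K : Cells T Γ) {m n : ℕ} (hmn : m ≤ n) {x y : EuclideanSpace ℝ ι}
    (hx : x ∈ T) (hy : y ∈ T) (h : K.c n x = K.c n y) : K.c m x = K.c m y := by
  induction n, hmn using Nat.le_induction with
  | base => exact h
  | succ n _ ih => exact ih (K.nest n x hx y hy h)

theorem Cells.c_pi' (K : Cells T Γ) {m n : ℕ} (hmn : m ≤ n) {x : EuclideanSpace ℝ ι}
    (hx : x ∈ T) : K.c m (K.pi n x) = K.c m x :=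
  K.nest' hmn (K.pi_mem n hx) hx (K.c_pi n hx)

theorem Cells.pi_pi (K : Cells T Γ) {m n : ℕ} (hmn : m ≤ n) {x : EuclideanSpace ℝ ι}
    (hx : x ∈ T) : K.pi m (K.pi n x) = K.pi m x := by
  change K.rep m (K.c m (K.pi n x)) = K.rep m (K.c m x)
  rw [K.c_pi' hmn hx]

theorem Cells.pi_eq (K : Cells T Γ) {m : ℕ} (hm : K.L ≤ m) {x : EuclideanSpace ℝ ι}
    (hx : x ∈ T) : K.pi m x = x :=
  K.sep m hm _ (K.pi_mem m hx) x hx (K.c_pi m hx)

open Classical in
/-- the points of level `n+1` -/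
def Cells.Tn (K : Cells T Γ) (n : ℕ) : Finset (EuclideanSpace ℝ ι) := T.image (K.pi (n + 1))

theorem Cells.Tn_card (K : Cells T Γ) (n : ℕ) : (K.Tn n).card ≤ 2 ^ 2 ^ (n + 1) := by
  classical
  have h : K.Tn n = (T.image (K.c (n + 1))).image (K.rep (n + 1)) := by
    unfold Cells.Tn
    rw [image_image]
    rfl
  rw [h]
  exact card_image_le.trans (K.card (n + 1))

theorem Cells.pi_mem_Tn (K : Cells T Γ) (n : ℕ) {x : EuclideanSpace ℝ ι} (hx : x ∈ T) :
    K.pi (n + 1) x ∈ K.Tn n := by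
  classical
  exact mem_image_of_mem _ hx

theorem Cells.Tn_sub (K : Cells T Γ) (n : ℕ) {a : EuclideanSpace ℝ ι} (ha : a ∈ K.Tn n) :
    a ∈ T := by
  classical
  obtain ⟨x, hx, rfl⟩ := mem_image.1 ha
  exact K.pi_mem _ hx

open Classical in
/-- the point of the cell where the weighted norm is minimal -/
def Cells.zr (K : Cells T Γ) (d : ι → ℝ) (m v : ℕ) : EuclideanSpace ℝ ι :=
  if h : (T.filter fun y => K.c m y = v).Nonempty then
    (exists_min_image _ (fun y => wn d y) h).choose else 0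

/-- the minimal point of the cell of `x` -/
def Cells.zp (K : Cells T Γ) (d : ι → ℝ) (m : ℕ) (x : EuclideanSpace ℝ ι) :
    EuclideanSpace ℝ ι := K.zr d m (K.c m x)

theorem Cells.zp_spec (K : Cells T Γ) (d : ι → ℝ) (m : ℕ) {x : EuclideanSpace ℝ ι}
    (hx : x ∈ T) : K.zp d m x ∈ T ∧ K.c m (K.zp d m x) = K.c m x ∧
      wn d (K.zp d m x) ≤ wn d x := by
  classical
  have h : (T.filter fun y => K.c m y = K.c m x).Nonempty := ⟨x, by simp [hx]⟩
  unfold Cells.zp Cells.zr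
  rw [dif_pos h]
  have h2 := (exists_min_image _ (fun y => wn d y) h).choose_spec
  have h3 := mem_filter.1 h2.1
  exact ⟨h3.1, h3.2, h2.2 x (by simp [hx])⟩

theorem Cells.zp_pi (K : Cells T Γ) (d : ι → ℝ) {m n : ℕ} (hmn : m ≤ n)
    {x : EuclideanSpace ℝ ι} (hx : x ∈ T) : K.zp d m (K.pi n x) = K.zp d m x := by
  change K.zr d m (K.c m (K.pi n x)) = K.zr d m (K.c m x)
  rw [K.c_pi' hmn hx]

theorem Cells.zp_eq (K : Cells T Γ) (d : ι → ℝ) {m : ℕ} (hm : K.L ≤ m)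
    {x : EuclideanSpace ℝ ι} (hx : x ∈ T) : K.zp d m x = x :=
  K.sep m hm _ (K.zp_spec d m hx).1 x hx (K.zp_spec d m hx).2.1

theorem Cells.zp_step (K : Cells T Γ) (d : ι → ℝ) (m : ℕ) {x : EuclideanSpace ℝ ι}
    (hx : x ∈ T) : ‖K.zp d (m + 1) x - K.zp d m x‖ ≤ 2 * K.Δ m x := by
  have h1 := K.zp_spec d m hx
  have h2 := K.zp_spec d (m + 1) hx
  have h3 := K.diam m x hx _ h1.1 h1.2.1.symm
  have h4 := K.diam m x hx _ h2.1 (K.nest m _ h2.1 x hx h2.2.1).symm
  have h5 : K.zp d (m + 1) x - K.zp d m x = (x - K.zp d m x) - (x - K.zp d (m + 1) x) := by abel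
  rw [h5]
  exact (norm_sub_le _ _).trans (by linarith)

end IC65
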