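import Pool.Agent.IC65.AsmQ
import Pool.Agent.IC65.AsmB
import Pool.Agent.IC65.AsmX
import Pool.Agent.IC65.AsmG
import Pool.Agent.IC65.DetF
import Pool.Agent.IC65.FinA

/-!
# IC65 module FIN: finite valued columns, finite `T` (assembly; helper65)
-/

open Finset
open scoped RealInnerProductSpace

noncomputable section

namespace IC65

/-- the label of a column -/
theorem exists_label (x : ℝ) : ∃ k : ℕ, x ≤ 2 ^ k ∧ (2 : ℝ) ^ k ≤ 2 * |x| + 1 := by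
  classical
  have h : ∃ k : ℕ, x ≤ 2 ^ k := by
    obtain ⟨k, hk⟩ := pow_unbounded_of_one_lt x (one_lt_two)
    exact ⟨k, hk.le⟩
  refine ⟨Nat.find h, Nat.find_spec h, ?_⟩
  rcases Nat.eq_zero_or_pos (Nat.find h) with h0 | h0
  · rw [h0]
    have := abs_nonneg x
    norm_num
  · have h1 := Nat.find_min h (Nat.sub_lt h0 one_pos)
    rw [not_le] at h1
    have h2 : (2 : ℝ) ^ Nat.find h = 2 * 2 ^ (Nat.find h - 1) := by
      rw [← pow_succ']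
      congr 1
      omega
    rw [h2]
    have := le_abs_self x
    linarith

theorem dk_le {ι : Type} [Fintype ι] {Ω : ι → Type} {E : Type} [NormedAddCommGroup E]
    (k : ∀ i, Ω i → ℕ) (A : ∀ i, Ω i → E)
    (hk : ∀ i a, (2 : ℝ) ^ k i a ≤ 2 * ‖A i a‖ + 1) (ω : ∀ i, Ω i) (x : EuclideanSpace ℝ ι) :
    wn (dk k ω) x ≤ 2 * wn (fun i => ‖A i (ω i)‖) x + ‖x‖ := by
  have h1 : wn (dk k ω) x ≤ wn (fun i => 2 * ‖A i (ω i)‖ + 1) x := by
    apply wn_mono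
    intro i
    unfold dk
    rw [abs_of_nonneg (by positivity), abs_of_nonneg (by positivity)]
    exact hk i (ω i)
  have h2 := wn_add_left_le (fun i => 2 * ‖A i (ω i)‖) (fun _ => (1 : ℝ)) x
  rw [wn_one, wn_smul_left] at h2
  rw [abs_of_nonneg (by norm_num : (0 : ℝ) ≤ 2)] at h2
  exact h1.trans h2

/-- the sum of finitely many random factors -/
theorem Ep_sum_sq {ι : Type} [Fintype ι] [DecidableEq ι] {Ω : ι → Type} [∀ i, Fintype (Ω i)]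
    {p : ∀ i, Ω i → ℝ} (hp : ∀ i a, 0 ≤ p i a) (N : ℕ) (Z : Fin N → (∀ i, Ω i) → ℝ)
    (C : Fin N → ℝ) (hC : ∀ j, Ep p (fun ω => Z j ω ^ 2) ≤ C j) :
    Ep p (fun ω => (∑ j, Z j ω) ^ 2) ≤ N * ∑ j, C j := by
  have h1 : ∀ ω, (∑ j, Z j ω) ^ 2 ≤ N * ∑ j, Z j ω ^ 2 := by
    intro ω
    have := sq_sum_le_card_mul_sum_sq (s := (univ : Finset (Fin N))) (f := fun j => Z j ω)
    simpa using this
  refine (Ep_mono hp h1).trans ?_
  rw [Ep_const_mul, Ep_sum]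
  exact mul_le_mul_of_nonneg_left (sum_le_sum fun j _ => hC j) (Nat.cast_nonneg _)

section

variable {ι : Type} [Fintype ι] [DecidableEq ι] {Ω : ι → Type} [∀ i, Fintype (Ω i)]
  {E : Type} [NormedAddCommGroup E] [InnerProductSpace ℝ E]
  {p : ∀ i, Ω i → ℝ} {A : ∀ i, Ω i → E} {k : ∀ i, Ω i → ℕ}
  {T : Finset (EuclideanSpace ℝ ι)} {Γ : ℝ}

theorem Filt.nest' {Ω : Type} [Fintype Ω] {p : Ω → ℝ} {V : Ω → E} {k : Ω → ℕ} (F : Filt p V k)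
    {m n : ℕ} (hmn : m ≤ n) {ω ω' : Ω} (h : F.f n ω = F.f n ω') : F.f m ω = F.f m ω' := by
  induction n, hmn using Nat.le_induction with
  | base => exact h
  | succ n _ ih => exact ih (F.nest n ω ω' h)

theorem Xc_congr (F : ∀ i, Filt (p i) (A i) (k i)) {m L : ℕ} (hm : m ≤ L) {ω ω' : ∀ i, Ω i}
    (h : same F L ω ω') : Xc F m ω = Xc F m ω' := by
  funext i
  exact (F i).M_congr m _ _ ((F i).nest' hm (h i))

theorem dk_congr (F : ∀ i, Filt (p i) (A i) (k i)) {L : ℕ} (hL : ∀ i, (F i).L ≤ L)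
    {ω ω' : ∀ i, Ω i} (h : same F L ω ω') : dk k ω = dk k ω' := by
  funext i
  unfold dk
  rw [(F i).fin_k L (hL i) _ _ (h i)]

/-- the vectors of the chain of the conditional means -/
def vv (F : ∀ i, Filt (p i) (A i) (k i)) (K : Cells T Γ) (ω : ∀ i, Ω i) (m : ℕ)
    (x : EuclideanSpace ℝ ι) : E :=
  lin (Xc F (m + 1) ω) (K.pi (m + 1) x) - lin (Xc F m ω) (K.pi m x)

theorem vv_pi (F : ∀ i, Filt (p i) (A i) (k i)) (K : Cells T Γ) (ω : ∀ i, Ω i) {m n : ℕ}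
    (hmn : m + 1 ≤ n) {x : EuclideanSpace ℝ ι} (hx : x ∈ T) :
    vv F K ω m (K.pi n x) = vv F K ω m x := by
  unfold vv
  rw [K.pi_pi hmn hx, K.pi_pi (by omega) hx]

/-- the random factor -/
structure ZZ (F : ∀ i, Filt (p i) (A i) (k i)) (K : Cells T Γ) (L : ℕ)
    (Z : (∀ i, Ω i) → ℝ) : Prop where
  one : ∀ ω, 1 ≤ Z ω
  Q1 : ∀ n ≤ L, ∀ x ∈ T, ∀ ω, |Qf (Xc F n ω) (K.pi (n + 1) x - K.pi n x)
    (K.pi (n + 1) x + K.pi n x)| ≤ Real.sqrt 2 ^ n * Z ω * ‖K.pi (n + 1) x - K.pi n x‖ *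
      Vf (Xc F n ω) (K.pi (n + 1) x + K.pi n x)
  Q2 : ∀ n ≤ L, ∀ x ∈ T, ∀ ω, |Qf (Xc F n ω) (K.pi n x) (K.pi n x)| ≤
    Real.sqrt 2 ^ n * Z ω * ‖K.pi n x‖ * Vf (Xc F n ω) (K.pi n x)
  Q3 : ∀ n ≤ L, ∀ x ∈ T, ∀ ω, |Qf (Xc F n ω) (K.pi (n + 1) x) (K.pi (n + 1) x)| ≤
    Real.sqrt 2 ^ n * Z ω * ‖K.pi (n + 1) x‖ * Vf (Xc F n ω) (K.pi (n + 1) x)
  Q4 : ∀ n ≤ L, ∀ x ∈ T, ∀ ω, |Qf (Xc F n ω) (K.pi (n + 1) x - K.pi n x)
    (K.pi (n + 1) x - K.pi n x)| ≤ Real.sqrt 2 ^ n * Z ω * ‖K.pi (n + 1) x - K.pi n x‖ *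
      Vf (Xc F n ω) (K.pi (n + 1) x - K.pi n x)
  B : ∀ n ≤ L, ∀ x ∈ T, ∀ ω,
        |∑ j, K.pi (n + 1) x j * ⟪Xc F (n + 1) ω j - Xc F n ω j,
            lin (Xc F n ω) (K.pi (n + 1) x) - K.pi (n + 1) x j • Xc F n ω j⟫| ≤
          Real.sqrt 2 ^ n * Z ω * wn (sw n (Ns F n ω) (Es F n ω)) (K.pi (n + 1) x) *
            (‖lin (Xc F n ω) (K.pi (n + 1) x)‖ + wn (len (Xc F n ω)) (K.pi (n + 1) x)) ∧
        |Qf (fun j => Xc F (n + 1) ω j - Xc F n ω j) (K.pi (n + 1) x) (K.pi (n + 1) x)| ≤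
          Real.sqrt 2 ^ n * Z ω * wn (sw n (Ns F n ω) (Es F n ω)) (K.pi (n + 1) x) *
            Vf (fun j => Xc F (n + 1) ω j - Xc F n ω j) (K.pi (n + 1) x)
  X : ∀ n ≤ L, ∀ m ≤ n, ∀ x ∈ T, ∀ ω,
        wn (xe (Es F m ω) (Xc F m ω)) (K.pi (n + 1) x - K.pi n x) ≤
          Real.sqrt 2 ^ n * Z ω * ‖K.pi (n + 1) x - K.pi n x‖
  R : ∀ n ≤ L, ∀ x ∈ T, ∀ ω,
        wn (ind (Es F n ω)) (K.pi (n + 1) x) ≤ Z ω * Γ / 4 ^ n ∧
        wn (xe (Es F n ω) (Xc F n ω)) (K.pi (n + 1) x) ≤ Z ω * Γ / 4 ^ n ∧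
        wn (xe (Es F (n + 1) ω) (Xc F (n + 1) ω)) (K.pi (n + 1) x) ≤ Z ω * Γ / 4 ^ n
  G1 : ∀ n ≤ L, ∀ x ∈ T, ∀ ω, |Qf (Gc F L ω) (K.zp (dk k ω) (n + 1) x - K.zp (dk k ω) n x)
      (K.zp (dk k ω) (n + 1) x + K.zp (dk k ω) n x)| ≤
    Real.sqrt 2 ^ n * Z ω * ‖K.zp (dk k ω) (n + 1) x - K.zp (dk k ω) n x‖ *
      Vf (Gc F L ω) (K.zp (dk k ω) (n + 1) x + K.zp (dk k ω) n x)
  G2 : ∀ n ≤ L, ∀ x ∈ T, ∀ ω, |Qf (Gc F L ω) (K.zp (dk k ω) n x) (K.zp (dk k ω) n x)| ≤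
    Real.sqrt 2 ^ n * Z ω * ‖K.zp (dk k ω) n x‖ * Vf (Gc F L ω) (K.zp (dk k ω) n x)
  C1 : ∀ n ≤ L, ∀ m ≤ n, ∀ x ∈ T, ∀ ω, m + 1 ≤ L →
    |⟪lin (Gc F L ω) (K.zp (dk k ω) (n + 1) x - K.zp (dk k ω) n x), vv F K ω m x⟫| ≤
    Real.sqrt 2 ^ n * Z ω * ‖K.zp (dk k ω) (n + 1) x - K.zp (dk k ω) n x‖ * ‖vv F K ω m x‖
  C2 : ∀ n ≤ L, ∀ x ∈ T, ∀ ω, n + 1 ≤ L →
    |⟪lin (Gc F L ω) (K.zp (dk k ω) n x), vv F K ω n x⟫| ≤
    Real.sqrt 2 ^ n * Z ω * ‖K.zp (dk k ω) n x‖ * ‖vv F K ω n x‖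
  Z1 : ∀ n ≤ L, ∀ x ∈ T, ∀ ω, wn (zet F L ω) (K.pi (n + 1) x - K.pi n x) ≤
    Real.sqrt 2 ^ n * Z ω * ‖K.pi (n + 1) x - K.pi n x‖
  Z2 : ∀ n ≤ L, ∀ x ∈ T, ∀ ω, wn (zet F L ω) (K.pi n x) ≤ Real.sqrt 2 ^ n * Z ω * ‖K.pi n x‖

theorem Cells.Γ_nonneg (K : Cells T Γ) {x : EuclideanSpace ℝ ι} (hx : x ∈ T) : 0 ≤ Γ :=
  (norm_nonneg x).trans (K.bd x hx)

/-- the data of the chain of `x` -/
def mdata (F : ∀ i, Filt (p i) (A i) (k i)) (K : Cells T Γ) (L : ℕ) (Z : (∀ i, Ω i) → ℝ)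
    (hZ : ZZ F K L Z) (hK : K.L ≤ L) (hL : ∀ i, (F i).L ≤ L) (ω : ∀ i, Ω i)
    (x : EuclideanSpace ℝ ι) (hx : x ∈ T) : MData ι E where
  X := fun m => Xc F m ω
  d := dk k ω
  N := fun m => Ns F m ω
  Ex := fun m => Es F m ω
  Γ := 2 * Γ
  Z := Z ω
  R := wn (dk k ω) x
  L := L
  y := fun m => K.pi m x
  Δ := fun m => K.Δ m x
  Γ0 := by have := K.Γ_nonneg hx; linarith
  Z1 := hZ.one ω
  d0 := fun i => by unfold dk; positivity
  X0 := fun i => (F i).M_zero _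
  step := by
    intro m i h1 h2
    exact (F i).M_succ m _ (by simpa [Ns] using h1) (by simpa [Es] using h2)
  len1 := by
    intro m i h
    exact (F i).M_le m _ (by simpa [Es] using h)
  len2 := by
    intro m i h
    exact (F i).M_le' m _ (by simpa [Es] using h)
  lenL := fun i => (F i).fin_le L (hL i) _
  Nd := by
    intro m i hi
    have h1 : (F i).N m (ω i) := by simpa [Ns] using hi
    have h2 := (F i).N_label m _ h1
    have h3 : (4 : ℝ) ^ m = 2 ^ (2 * m) := by rw [pow_mul]; norm_num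
    rw [h3]
    exact pow_le_pow_right₀ (by norm_num) h2
  Δ0 := fun m => K.Δ_nonneg m x
  sumΔ := by
    have := K.sum x hx (L + 1)
    have := K.Γ_nonneg hx
    linarith
  dist := by
    intro m hm
    simp only [K.pi_eq hK hx]
    exact K.diam m x hx _ (K.pi_mem m hx) (K.c_pi m hx).symm
  yΓ := by
    intro m _
    have := K.bd _ (K.pi_mem m hx)
    have := K.Γ_nonneg hx
    linarith
  dR := by simp only [K.pi_eq hK hx]; exact le_rfl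
  hQ := fun m hm => hZ.Q1 m hm.le x hx ω
  hQs := fun m hm => hZ.Q2 m hm x hx ω
  hQs' := fun m hm => hZ.Q3 m hm.le x hx ω
  hQu := fun m hm => hZ.Q4 m hm.le x hx ω
  hb1 := fun m hm => (hZ.B m hm.le x hx ω).1
  hb2 := fun m hm => (hZ.B m hm.le x hx ω).2
  hi := by
    intro m hm
    refine (hZ.R m hm.le x hx ω).1.trans ?_
    have h1 := K.Γ_nonneg hx
    have h2 := hZ.one ω
    gcongr
    linarith
  hx1 := by
    intro m hm
    refine (hZ.R m hm.le x hx ω).2.1.trans ?_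
    have h1 := K.Γ_nonneg hx
    have h2 := hZ.one ω
    gcongr
    linarith
  hx2 := by
    intro m hm
    refine (hZ.R m hm.le x hx ω).2.2.trans ?_
    have h1 := K.Γ_nonneg hx
    have h2 := hZ.one ω
    gcongr
    linarith
  hxu := fun n hn m hm => hZ.X n hn.le m hm x hx ω

theorem ZZ.fin {C : ℝ} (hdet : ∀ {ι : Type} [Fintype ι] [DecidableEq ι] {E : Type}
    [NormedAddCommGroup E] [InnerProductSpace ℝ E] (D : MData ι E) (A G : ι → E)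
    (z : ℕ → EuclideanSpace ℝ ι) (ζ : ι → ℝ) (_ : ∀ i, A i = D.X D.L i + G i)
    (_ : ∀ i, ‖G i‖ ≤ 2 * D.d i) (_ : D.R ≤ 2 * wn (len A) (D.y D.L) + D.Γ)
    (_ : z D.L = D.y D.L) (_ : ∀ m ≤ D.L, ‖z m‖ ≤ D.Γ) (_ : ∀ m ≤ D.L, wn D.d (z m) ≤ D.R)
    (_ : ∑ m ∈ range D.L, Real.sqrt 2 ^ m * ‖z (m + 1) - z m‖ ≤ D.Γ)
    (_ : |Qf G (z 0) (z 0)| ≤ D.Z * ‖z 0‖ * Vf G (z 0))
    (_ : ∀ m < D.L, |Qf G (z (m + 1) - z m) (z (m + 1) + z m)| ≤
      Real.sqrt 2 ^ m * D.Z * ‖z (m + 1) - z m‖ * Vf G (z (m + 1) + z m))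
    (_ : ∀ n < D.L, ∀ m ≤ n, |⟪lin G (z (n + 1) - z n), D.v m⟫| ≤
      Real.sqrt 2 ^ n * D.Z * ‖z (n + 1) - z n‖ * ‖D.v m‖)
    (_ : ∀ m < D.L, |⟪lin G (z m), D.v m⟫| ≤ Real.sqrt 2 ^ m * D.Z * ‖z m‖ * ‖D.v m‖)
    (_ : ∀ i, |⟪G i, D.X D.L i⟫| ≤ ζ i * ‖D.X D.L i‖)
    (_ : wn ζ (D.y 0) ≤ D.Z * ‖D.y 0‖)
    (_ : ∀ m < D.L, wn ζ (D.y (m + 1) - D.y m) ≤
      Real.sqrt 2 ^ m * D.Z * ‖D.y (m + 1) - D.y m‖),
    |‖lin A (D.y D.L)‖ - wn (len A) (D.y D.L)| ≤ C * (D.Γ * D.Z ^ 2))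
    (hk : ∀ i a, ‖A i a‖ ≤ 2 ^ k i a) (hk' : ∀ i a, (2 : ℝ) ^ k i a ≤ 2 * ‖A i a‖ + 1)
    {F : ∀ i, Filt (p i) (A i) (k i)} {K : Cells T Γ} {L : ℕ} {Z : (∀ i, Ω i) → ℝ}
    (hZ : ZZ F K L Z) (hK : K.L ≤ L) (hL : ∀ i, (F i).L ≤ L) (ω : ∀ i, Ω i)
    {x : EuclideanSpace ℝ ι} (hx : x ∈ T) :
    |‖lin (fun i => A i (ω i)) x‖ - wn (len fun i => A i (ω i)) x| ≤
      C * (2 * Γ * Z ω ^ 2) := by
  have hΓ := K.Γ_nonneg hx
  have key := hdet (mdata F K L Z hZ hK hL ω x hx) (fun i => A i (ω i)) (Gc F L ω)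
    (fun m => K.zp (dk k ω) m x) (zet F L ω)
  have hpi : K.pi L x = x := K.pi_eq hK hx
  have hzp : K.zp (dk k ω) L x = x := K.zp_eq (dk k ω) hK hx
  simp only [mdata, MData.v, hpi, hzp] at key
  refine key ?_ ?_ ?_ trivial ?_ ?_ ?_ ?_ ?_ ?_ ?_ ?_ ?_ ?_
  · intro i
    simp [Gc, Xc]
  · intro i
    have h1 := hk i (ω i)
    have h2 := (F i).fin_le L (hL i) (ω i)
    unfold Gc dk
    exact (norm_sub_le _ _).trans (by linarith)
  · have h1 := dk_le k A hk' ω x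
    have h2 := K.bd x hx
    have h3 : wn (fun i => ‖A i (ω i)‖) x = wn (len fun i => A i (ω i)) x := rfl
    rw [h3] at h1
    linarith
  · intro m _
    have := K.bd _ (K.zp_spec (dk k ω) m hx).1
    linarith
  · intro m _
    exact (K.zp_spec (dk k ω) m hx).2.2
  · have h1 : ∀ m ∈ range L, Real.sqrt 2 ^ m *
        ‖K.zp (dk k ω) (m + 1) x - K.zp (dk k ω) m x‖ ≤ 2 * (Real.sqrt 2 ^ m * K.Δ m x) := by
      intro m _
      have := K.zp_step (dk k ω) m hx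
      calc _ ≤ Real.sqrt 2 ^ m * (2 * K.Δ m x) := by gcongr
        _ = _ := by ring
    refine (sum_le_sum h1).trans ?_
    rw [← mul_sum]
    have := K.sum x hx L
    linarith
  · have := hZ.G2 0 (Nat.zero_le _) x hx ω
    simpa using this
  · intro m hm
    exact hZ.G1 m hm.le x hx ω
  · intro n hn m hm
    exact hZ.C1 n hn.le m hm x hx ω (by omega)
  · intro m hm
    exact hZ.C2 m hm.le x hx ω hm
  · intro i
    unfold zet
    by_cases h0 : ‖(F i).M L (ω i)‖ = 0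
    · have h1 : (F i).M L (ω i) = 0 := norm_eq_zero.1 h0
      simp [Xc, h1]
    · unfold Xc
      rw [div_mul_cancel₀ _ h0]
  · have := hZ.Z2 0 (Nat.zero_le _) x hx ω
    simpa using this
  · intro m hm
    exact hZ.Z1 m hm.le x hx ω

theorem card1 (K : Cells T Γ) {β : Type} [DecidableEq β] (f : EuclideanSpace ℝ ι → β)
    (n : ℕ) {j : ℕ} (hj : 1 ≤ j) : ((K.Tn n).image f).card ≤ 2 ^ 2 ^ (n + j) :=
  card_image_le.trans ((K.Tn_card n).trans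
    (Nat.pow_le_pow_right (by norm_num) (Nat.pow_le_pow_right (by norm_num) (by omega))))

theorem card2 (K : Cells T Γ) (n : ℕ) {j : ℕ} (hj : 1 ≤ j) :
    (K.Tn n).card ≤ 2 ^ 2 ^ (n + j) :=
  (K.Tn_card n).trans
    (Nat.pow_le_pow_right (by norm_num) (Nat.pow_le_pow_right (by norm_num) (by omega)))

theorem card3 (K : Cells T Γ) (n : ℕ) :
    (range (n + 1) ×ˢ K.Tn n).card ≤ 2 ^ 2 ^ (n + 6) := by
  rw [card_product, card_range]
  have h1 : n + 1 ≤ 2 ^ 2 ^ (n + 1) := by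
    have h2 : n + 1 < 2 ^ (n + 1) := Nat.lt_two_pow_self
    have h3 : 2 ^ (n + 1) < 2 ^ 2 ^ (n + 1) := Nat.lt_two_pow_self
    omega
  calc (n + 1) * (K.Tn n).card ≤ 2 ^ 2 ^ (n + 1) * 2 ^ 2 ^ (n + 1) :=
        Nat.mul_le_mul h1 (K.Tn_card n)
    _ = 2 ^ 2 ^ (n + 2) := by
        rw [← pow_add]
        congr 1
        rw [pow_succ 2 (n + 1)]
        ring
    _ ≤ _ := Nat.pow_le_pow_right (by norm_num) (Nat.pow_le_pow_right (by norm_num) (by omega))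

theorem mono4 {a z z' b c t : ℝ} (ha : 0 ≤ a) (hb : 0 ≤ b) (hc : 0 ≤ c) (h : z ≤ z')
    (ht : t ≤ a * z * b * c) : t ≤ a * z' * b * c :=
  ht.trans (mul_le_mul_of_nonneg_right (mul_le_mul_of_nonneg_right
    (mul_le_mul_of_nonneg_left h ha) hb) hc)

theorem mono3 {a z z' b t : ℝ} (ha : 0 ≤ a) (hb : 0 ≤ b) (h : z ≤ z')
    (ht : t ≤ a * z * b) : t ≤ a * z' * b :=
  ht.trans (mul_le_mul_of_nonneg_right (mul_le_mul_of_nonneg_left h ha) hb)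

theorem monoR {z z' b t : ℝ} {n : ℕ} (hb : 0 ≤ b) (h : z ≤ z')
    (ht : t ≤ z * b / 4 ^ n) : t ≤ z' * b / 4 ^ n :=
  ht.trans (by gcongr)

end

theorem exists_ZZ : ∃ C : ℝ, 1 ≤ C ∧ ∀ {ι : Type} [Fintype ι] [DecidableEq ι] {Ω : ι → Type}
    [∀ i, Fintype (Ω i)] {E : Type} [NormedAddCommGroup E] [InnerProductSpace ℝ E]
    {p : ∀ i, Ω i → ℝ} {A : ∀ i, Ω i → E} {k : ∀ i, Ω i → ℕ} (_ : Wt p)
    (F : ∀ i, Filt (p i) (A i) (k i)) {T : Finset (EuclideanSpace ℝ ι)} {Γ : ℝ}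
    (K : Cells T Γ) (L : ℕ) (_ : ∀ i, (F i).L ≤ L),
    ∃ Z : (∀ i, Ω i) → ℝ, ZZ F K L Z ∧ Ep p (fun ω => Z ω ^ 2) ≤ C := by
  obtain ⟨CQ, hCQ, HQ⟩ := asmQ
  obtain ⟨CB, hCB, HB⟩ := asmB
  obtain ⟨CX, hCX, HX⟩ := asmX
  obtain ⟨CR, hCR, HR⟩ := asmR
  obtain ⟨CG, hCG, HG⟩ := asmG
  obtain ⟨CC, hCC, HC⟩ := asmC
  obtain ⟨CZ, hCZ, HZ⟩ := asmZ
  set M := CQ + CB + CX + CR + CG + CC + CZ with hM
  refine ⟨13 * ∑ _j : Fin 13, M, ?_, ?_⟩
  · simp only [sum_const, card_univ, Fintype.card_fin, nsmul_eq_mul]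
    norm_num
    linarith
  intro ι _ _ Ω _ E _ _ p A k hW F T Γ K L hL
  classical
  have hp : ∀ i a, 0 ≤ p i a := fun i a => (hW.pos i a).le
  obtain ⟨Z0, a0, b0, c0⟩ := HQ hW F L
    (fun n => (K.Tn n).image fun a => (a - K.pi n a, a + K.pi n a))
    (fun n _ => card1 K _ n (by norm_num))
  obtain ⟨Z1, a1, b1, c1⟩ := HQ hW F L
    (fun n => (K.Tn n).image fun a => (K.pi n a, K.pi n a))
    (fun n _ => card1 K _ n (by norm_num))
  obtain ⟨Z2, a2, b2, c2⟩ := HQ hW F L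
    (fun n => (K.Tn n).image fun a => (a, a))
    (fun n _ => card1 K _ n (by norm_num))
  obtain ⟨Z3, a3, b3, c3⟩ := HQ hW F L
    (fun n => (K.Tn n).image fun a => (a - K.pi n a, a - K.pi n a))
    (fun n _ => card1 K _ n (by norm_num))
  obtain ⟨Z4, a4, b4, c4⟩ := HB hW F L (fun n => K.Tn n) (fun n _ => card2 K n (by norm_num))
  obtain ⟨Z5, a5, b5, c5⟩ := HX hW F L (fun n => (K.Tn n).image fun a => a - K.pi n a)
    (fun n _ => card1 K _ n (by norm_num))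
  obtain ⟨Z6, a6, b6, c6⟩ := HR hW F L (fun n => K.Tn n) (fun n _ => card2 K n le_rfl)
    (Γ := Γ) (fun n _ y hy => K.bd y (K.Tn_sub n hy))
  obtain ⟨Z7, a7, b7, c7⟩ := HG hW F L hL (fun n => K.Tn n)
    (fun n _ => card2 K n (by norm_num))
    (fun n a ω => K.zp (dk k ω) (n + 1) a - K.zp (dk k ω) n a)
    (fun n a ω => K.zp (dk k ω) (n + 1) a + K.zp (dk k ω) n a)
    (fun n a ω ω' h => by rw [dk_congr F hL h]) (fun n a ω ω' h => by rw [dk_congr F hL h])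
  obtain ⟨Z8, a8, b8, c8⟩ := HG hW F L hL (fun n => K.Tn n)
    (fun n _ => card2 K n (by norm_num))
    (fun n a ω => K.zp (dk k ω) n a) (fun n a ω => K.zp (dk k ω) n a)
    (fun n a ω ω' h => by rw [dk_congr F hL h]) (fun n a ω ω' h => by rw [dk_congr F hL h])
  have hv : ∀ (m : ℕ) (a : EuclideanSpace ℝ ι) (ω ω' : ∀ i, Ω i), same F L ω ω' → m + 1 ≤ L →
      vv F K ω m a = vv F K ω' m a := by
    intro m a ω ω' h hm
    unfold vv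
    rw [Xc_congr F hm h, Xc_congr F (by omega : m ≤ L) h]
  obtain ⟨Z9, a9, b9, c9⟩ := HC hW F L hL (fun n => range (n + 1) ×ˢ K.Tn n)
    (fun n _ => card3 K n)
    (fun n a ω => K.zp (dk k ω) (n + 1) a.2 - K.zp (dk k ω) n a.2)
    (fun n a ω => if a.1 + 1 ≤ L then vv F K ω a.1 a.2 else 0)
    (fun n a ω ω' h => by rw [dk_congr F hL h])
    (fun n a ω ω' h => by
      by_cases hm : a.1 + 1 ≤ L
      · simp only [hm, if_true]
        exact hv _ _ _ _ h hm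
      · simp only [hm, if_false])
  obtain ⟨Z10, a10, b10, c10⟩ := HC hW F L hL (fun n => K.Tn n)
    (fun n _ => card2 K n (by norm_num))
    (fun n a ω => K.zp (dk k ω) n a)
    (fun n a ω => if n + 1 ≤ L then vv F K ω n a else 0)
    (fun n a ω ω' h => by rw [dk_congr F hL h])
    (fun n a ω ω' h => by
      by_cases hm : n + 1 ≤ L
      · simp only [hm, if_true]
        exact hv _ _ _ _ h hm
      · simp only [hm, if_false])
  obtain ⟨Z11, a11, b11, c11⟩ := HZ hW F L hL (fun n => (K.Tn n).image fun a => a - K.pi n a)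
    (fun n _ => card1 K _ n (by norm_num))
  obtain ⟨Z12, a12, b12, c12⟩ := HZ hW F L hL (fun n => (K.Tn n).image fun a => K.pi n a)
    (fun n _ => card1 K _ n (by norm_num))
  set Zs : Fin 13 → (∀ i, Ω i) → ℝ := ![Z0, Z1, Z2, Z3, Z4, Z5, Z6, Z7, Z8, Z9, Z10, Z11, Z12]
    with hZs
  have hone : ∀ j ω, 1 ≤ Zs j ω := by
    intro j ω
    fin_cases j
    exacts [a0 ω, a1 ω, a2 ω, a3 ω, a4 ω, a5 ω, a6 ω, a7 ω, a8 ω, a9 ω, a10 ω, a11 ω, a12 ω]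
  have hle : ∀ j ω, Zs j ω ≤ ∑ j, Zs j ω := fun j ω =>
    single_le_sum (f := fun j => Zs j ω) (fun j _ => zero_le_one.trans (hone j ω)) (mem_univ j)
  have hE : ∀ j, Ep p (fun ω => Zs j ω ^ 2) ≤ M := by
    intro j
    fin_cases j
    · exact c0.trans (by linarith)
    · exact c1.trans (by linarith)
    · exact c2.trans (by linarith)
    · exact c3.trans (by linarith)
    · exact c4.trans (by linarith)
    · exact c5.trans (by linarith)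
    · exact c6.trans (by linarith)
    · exact c7.trans (by linarith)
    · exact c8.trans (by linarith)
    · exact c9.trans (by linarith)
    · exact c10.trans (by linarith)
    · exact c11.trans (by linarith)
    · exact c12.trans (by linarith)
  have hs : ∀ n : ℕ, 0 ≤ Real.sqrt 2 ^ n := fun n => by positivity
  refine ⟨fun ω => ∑ j, Zs j ω, ?_, ?_⟩
  · refine ⟨?_, ?_, ?_, ?_, ?_, ?_, ?_, ?_, ?_, ?_, ?_, ?_, ?_, ?_⟩
    · intro ω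
      exact (hone 0 ω).trans (hle 0 ω)
    · intro n hn x hx ω
      have h := b0 n hn _ (mem_image_of_mem _ (K.pi_mem_Tn n hx)) ω
      rw [K.pi_pi (Nat.le_succ n) hx] at h
      exact mono4 (hs n) (norm_nonneg _) (Vf_nonneg _ _) (hle 0 ω) h
    · intro n hn x hx ω
      have h := b1 n hn _ (mem_image_of_mem _ (K.pi_mem_Tn n hx)) ω
      rw [K.pi_pi (Nat.le_succ n) hx] at h
      exact mono4 (hs n) (norm_nonneg _) (Vf_nonneg _ _) (hle 1 ω) h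
    · intro n hn x hx ω
      have h := b2 n hn _ (mem_image_of_mem _ (K.pi_mem_Tn n hx)) ω
      exact mono4 (hs n) (norm_nonneg _) (Vf_nonneg _ _) (hle 2 ω) h
    · intro n hn x hx ω
      have h := b3 n hn _ (mem_image_of_mem _ (K.pi_mem_Tn n hx)) ω
      rw [K.pi_pi (Nat.le_succ n) hx] at h
      exact mono4 (hs n) (norm_nonneg _) (Vf_nonneg _ _) (hle 3 ω) h
    · intro n hn x hx ω
      have h := b4 n hn _ (K.pi_mem_Tn n hx) ω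
      have hw := wn_nonneg (sw n (Ns F n ω) (Es F n ω)) (K.pi (n + 1) x)
      have hw2 := wn_nonneg (len (Xc F n ω)) (K.pi (n + 1) x)
      exact ⟨mono4 (hs n) hw (by positivity) (hle 4 ω) h.1,
        mono4 (hs n) hw (Vf_nonneg _ _) (hle 4 ω) h.2⟩
    · intro n hn m hm x hx ω
      have h := b5 n hn m hm _ (mem_image_of_mem _ (K.pi_mem_Tn n hx)) ω
      rw [K.pi_pi (Nat.le_succ n) hx] at h
      exact mono3 (hs n) (norm_nonneg _) (hle 5 ω) h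
    · intro n hn x hx ω
      have h := b6 n hn _ (K.pi_mem_Tn n hx) ω
      have hΓ := K.Γ_nonneg hx
      exact ⟨monoR hΓ (hle 6 ω) h.1, monoR hΓ (hle 6 ω) h.2.1, monoR hΓ (hle 6 ω) h.2.2⟩
    · intro n hn x hx ω
      have h := b7 n hn _ (K.pi_mem_Tn n hx) ω
      rw [K.zp_pi _ (Nat.le_succ n) hx, K.zp_pi _ le_rfl hx] at h
      exact mono4 (hs n) (norm_nonneg _) (Vf_nonneg _ _) (hle 7 ω) h
    · intro n hn x hx ω
      have h := b8 n hn _ (K.pi_mem_Tn n hx) ω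
      rw [K.zp_pi _ (Nat.le_succ n) hx] at h
      exact mono4 (hs n) (norm_nonneg _) (Vf_nonneg _ _) (hle 8 ω) h
    · intro n hn m hm x hx ω hmL
      have h := b9 n hn (m, K.pi (n + 1) x)
        (mem_product.2 ⟨mem_range.2 (by omega), K.pi_mem_Tn n hx⟩) ω
      simp only [hmL, if_true] at h
      rw [K.zp_pi _ (Nat.le_succ n) hx, K.zp_pi _ le_rfl hx,
        vv_pi F K ω (by omega : m + 1 ≤ n + 1) hx] at h
      exact mono4 (hs n) (norm_nonneg _) (norm_nonneg _) (hle 9 ω) h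
    · intro n hn x hx ω hmL
      have h := b10 n hn _ (K.pi_mem_Tn n hx) ω
      simp only [hmL, if_true] at h
      rw [K.zp_pi _ (Nat.le_succ n) hx, vv_pi F K ω le_rfl hx] at h
      exact mono4 (hs n) (norm_nonneg _) (norm_nonneg _) (hle 10 ω) h
    · intro n hn x hx ω
      have h := b11 n hn _ (mem_image_of_mem _ (K.pi_mem_Tn n hx)) ω
      rw [K.pi_pi (Nat.le_succ n) hx] at h
      exact mono3 (hs n) (norm_nonneg _) (hle 11 ω) h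
    · intro n hn x hx ω
      have h := b12 n hn _ (mem_image_of_mem _ (K.pi_mem_Tn n hx)) ω
      rw [K.pi_pi (Nat.le_succ n) hx] at h
      exact mono3 (hs n) (norm_nonneg _) (hle 12 ω) h
  · have := Ep_sum_sq hp 13 Zs (fun _ => M) hE
    simpa using this

theorem fin_main : ∃ C : ℝ, 1 ≤ C ∧ ∀ {ι : Type} [Fintype ι] [DecidableEq ι] {Ω : ι → Type}
    [∀ i, Fintype (Ω i)] {E : Type} [NormedAddCommGroup E] [InnerProductSpace ℝ E]
    {p : ∀ i, Ω i → ℝ} (_ : Wt p) (A : ∀ i, Ω i → E) (_ : ∀ i, Sg univ (p i) (A i) 1)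
    (T : Finset (EuclideanSpace ℝ ι)) (hT : T.Nonempty) {Γ : ℝ} (_ : Cells T Γ),
    Ep p (fun ω => T.sup' hT fun x =>
      |‖lin (fun i => A i (ω i)) x‖ - wn (len fun i => A i (ω i)) x|) ≤ C * Γ := by
  obtain ⟨C1, hC1, H1⟩ := exists_ZZ
  obtain ⟨C2, hC2, H2⟩ := detF
  refine ⟨C2 * 2 * C1, by nlinarith, ?_⟩
  intro ι _ _ Ω _ E _ _ p hW A hA T hT Γ K
  classical
  have hp : ∀ i a, 0 ≤ p i a := fun i a => (hW.pos i a).le
  have hlab : ∀ i a, ∃ k : ℕ, ‖A i a‖ ≤ 2 ^ k ∧ (2 : ℝ) ^ k ≤ 2 * ‖A i a‖ + 1 := by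
    intro i a
    obtain ⟨k, h1, h2⟩ := exists_label ‖A i a‖
    rw [abs_of_nonneg (norm_nonneg _)] at h2
    exact ⟨k, h1, h2⟩
  choose k hk hk' using hlab
  have hF : ∀ i, Nonempty (Filt (p i) (A i) (k i)) := fun i =>
    filt (p i) (hW.pos i) (hW.one i) (A i) (hA i) (k i) (hk i)
  let F : ∀ i, Filt (p i) (A i) (k i) := fun i => (hF i).some
  let L : ℕ := K.L + ∑ i, (F i).L
  have hKL : K.L ≤ L := Nat.le_add_right _ _
  have hL : ∀ i, (F i).L ≤ L := fun i =>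
    (single_le_sum (f := fun i => (F i).L) (fun _ _ => Nat.zero_le _) (mem_univ i)).trans
      (Nat.le_add_left _ _)
  obtain ⟨Z, hZ, hE⟩ := H1 hW F K L hL
  have hbound : ∀ ω, (T.sup' hT fun x =>
      |‖lin (fun i => A i (ω i)) x‖ - wn (len fun i => A i (ω i)) x|) ≤
      C2 * 2 * Γ * Z ω ^ 2 := by
    intro ω
    apply sup'_le
    intro x hx
    have := ZZ.fin (C := C2) H2 hk hk' hZ hKL hL ω hx
    calc _ ≤ _ := this
      _ = _ := by ring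
  refine (Ep_mono hp hbound).trans ?_
  rw [Ep_const_mul]
  obtain ⟨x, hx⟩ := hT
  have hΓ := K.Γ_nonneg hx
  calc C2 * 2 * Γ * Ep p (fun ω => Z ω ^ 2) ≤ C2 * 2 * Γ * C1 :=
        mul_le_mul_of_nonneg_left hE (by positivity)
    _ = _ := by ring

end IC65
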