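import Pool.Agent.IC65.GDefs

/-!
# IC65 module G-BASIC: elementary properties of `gam` and `gF`

All functions are finite maxima of linear functionals of `g`, hence integrable (`IsGaussian`).
`⟨g,x⟩` has the law `gaussianReal 0 ‖x‖²` and `E|⟨g,x⟩| = √(2/π) ‖x‖ ≥ ‖x‖/2`.
* `gF_nonneg`: `≥ E⟨g,x⟩ = 0`;  `gF_mono`;  `gF_le_gam`.
* `norm_le_gam`: `‖x‖ ≤ 2 E|⟨g,x⟩| ≤ 2 gam T`.
* `dist_le_gF`: `E max(⟨g,x⟩,⟨g,y⟩) = E |⟨g,x-y⟩|/2 ≥ ‖x - y‖/4`.
* `gam_sub_le`: for `x₀ ∈ T` the set `T - x₀` contains `0`, so `max |⟨g,x-x₀⟩| ≤ max ⟨g,x-x₀⟩ + max ⟨g,x₀-x⟩` and by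
  the symmetry of `g` `gam (T - x₀) ≤ 2 gF T`.
-/

open MeasureTheory ProbabilityTheory Finset
open scoped RealInnerProductSpace

noncomputable section

namespace IC65

variable {n : ℕ}

namespace GBasic

theorem half_le_integral_abs : (1 / 2 : ℝ) ≤ ∫ y, |y| ∂gaussianReal 0 1 := by
  rw [integral_gaussianReal_eq_integral_smul (by norm_num)]
  have h1 : ∀ y : ℝ, gaussianPDFReal 0 1 y • |y| =
      (fun z : ℝ => (Real.sqrt (2 * Real.pi))⁻¹ * (z ^ (1 : ℝ) * Real.exp (-(1 / 2) * z ^ (2 : ℝ)))) |y| := by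
    intro y
    simp only [gaussianPDFReal, smul_eq_mul, NNReal.coe_one, mul_one, sub_zero, Real.rpow_one,
      Real.rpow_two, sq_abs]
    rw [mul_comm (|y|), ← mul_assoc]
    congr 3
    ring
  simp_rw [h1]
  rw [integral_comp_abs (f := fun z : ℝ => (Real.sqrt (2 * Real.pi))⁻¹ *
    (z ^ (1 : ℝ) * Real.exp (-(1 / 2) * z ^ (2 : ℝ)))), integral_const_mul,
    integral_rpow_mul_exp_neg_mul_rpow (by norm_num) (by norm_num) (by norm_num)]
  have h2 : ((1 : ℝ) + 1) / 2 = 1 := by norm_num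
  rw [h2, Real.Gamma_one]
  have h3 : ((1 / 2 : ℝ) ^ (-(1 + 1 : ℝ) / 2)) = 2 := by
    have : (-(1 + 1 : ℝ) / 2) = -1 := by norm_num
    rw [this, Real.rpow_neg_one]; norm_num
  rw [h3]
  have h4 : Real.sqrt (2 * Real.pi) ≤ 4 := by
    rw [Real.sqrt_le_left (by norm_num)]
    have := Real.pi_le_four
    linarith
  have h5 : 0 < Real.sqrt (2 * Real.pi) := Real.sqrt_pos.mpr (by positivity)
  have h6 : (4 : ℝ)⁻¹ ≤ (Real.sqrt (2 * Real.pi))⁻¹ := inv_anti₀ h5 h4
  linarith

theorem map_inner (x : EuclideanSpace ℝ (Fin n)) :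
    (stdGaussian (EuclideanSpace ℝ (Fin n))).map (fun g => ⟪g, x⟫) =
      gaussianReal 0 (⟨‖x‖ ^ 2, sq_nonneg _⟩) := by
  have h1 := IsGaussian.map_eq_gaussianReal (μ := stdGaussian (EuclideanSpace ℝ (Fin n)))
    (innerSL ℝ x)
  have h2 : (⇑(innerSL ℝ x) : EuclideanSpace ℝ (Fin n) → ℝ) = fun g => ⟪g, x⟫ := by
    funext g
    simp [real_inner_comm]
  rw [integral_strongDual_stdGaussian, variance_dual_stdGaussian, h2] at h1
  rw [h1]
  congr 1
  ext
  simp only [innerSL_apply_norm]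
  exact Real.coe_toNNReal _ (sq_nonneg _)

theorem integrable_inner (x : EuclideanSpace ℝ (Fin n)) :
    Integrable (fun g => ⟪g, x⟫) (stdGaussian (EuclideanSpace ℝ (Fin n))) := by
  have h := IsGaussian.integrable_dual (stdGaussian (EuclideanSpace ℝ (Fin n))) (innerSL ℝ x)
  refine h.congr (Filter.Eventually.of_forall fun g => ?_)
  simp [real_inner_comm]

theorem integral_inner (x : EuclideanSpace ℝ (Fin n)) :
    ∫ g, ⟪g, x⟫ ∂stdGaussian (EuclideanSpace ℝ (Fin n)) = 0 := by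
  have h := integral_strongDual_stdGaussian (E := EuclideanSpace ℝ (Fin n)) (innerSL ℝ x)
  rw [← h]
  congr 1
  funext g
  simp [real_inner_comm]

theorem half_norm_le (x : EuclideanSpace ℝ (Fin n)) :
    ‖x‖ / 2 ≤ ∫ g, |⟪g, x⟫| ∂stdGaussian (EuclideanSpace ℝ (Fin n)) := by
  have h1 : ∫ g, |⟪g, x⟫| ∂stdGaussian (EuclideanSpace ℝ (Fin n)) =
      ∫ y, |y| ∂gaussianReal 0 (⟨‖x‖ ^ 2, sq_nonneg _⟩) := by
    rw [← map_inner x, integral_map (by fun_prop) (by fun_prop)]
  have h2 : gaussianReal 0 (⟨‖x‖ ^ 2, sq_nonneg _⟩) = (gaussianReal 0 1).map (‖x‖ * ·) := by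
    rw [gaussianReal_map_const_mul]
    simp only [mul_zero, mul_one]
    rfl
  rw [h1, h2, integral_map (by fun_prop) (by fun_prop)]
  simp only [abs_mul, abs_norm]
  rw [integral_const_mul]
  have := mul_le_mul_of_nonneg_left half_le_integral_abs (norm_nonneg x)
  linarith

theorem abs_sup'_le (T : Finset (EuclideanSpace ℝ (Fin n))) (h : T.Nonempty)
    (f : EuclideanSpace ℝ (Fin n) → ℝ) : |T.sup' h f| ≤ ∑ x ∈ T, |f x| := by
  obtain ⟨x, hx, hxe⟩ := Finset.exists_mem_eq_sup' h f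
  rw [hxe]
  exact Finset.single_le_sum (f := fun x => |f x|) (fun _ _ => abs_nonneg _) hx

theorem integrable_sum_abs (T : Finset (EuclideanSpace ℝ (Fin n))) :
    Integrable (fun g => ∑ x ∈ T, |⟪g, x⟫|) (stdGaussian (EuclideanSpace ℝ (Fin n))) :=
  integrable_finsetSum _ (fun x _ => (integrable_inner x).abs)

theorem integral_neg_comp (f : EuclideanSpace ℝ (Fin n) → ℝ) :
    ∫ g, f (-g) ∂stdGaussian (EuclideanSpace ℝ (Fin n)) =
      ∫ g, f g ∂stdGaussian (EuclideanSpace ℝ (Fin n)) := by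
  have h := stdGaussian_map (LinearIsometryEquiv.neg ℝ (E := EuclideanSpace ℝ (Fin n)))
  have h2 : (⇑(LinearIsometryEquiv.neg ℝ (E := EuclideanSpace ℝ (Fin n)))) = fun g => -g := by
    funext g; simp
  rw [h2] at h
  conv_rhs => rw [← h]
  have h3 : MeasurableEmbedding (fun g : EuclideanSpace ℝ (Fin n) => -g) :=
    (MeasurableEquiv.neg (EuclideanSpace ℝ (Fin n))).measurableEmbedding
  rw [h3.integral_map]

end GBasic

open GBasic

theorem integrable_sup' {T : Finset (EuclideanSpace ℝ (Fin n))} (h : T.Nonempty) :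
    Integrable (fun g => T.sup' h (fun x => ⟪g, x⟫)) (stdGaussian (EuclideanSpace ℝ (Fin n))) := by
  have hc : Continuous (fun g : EuclideanSpace ℝ (Fin n) => T.sup' h (fun t => ⟪g, t⟫)) := by
    apply Continuous.finset_sup'_apply
    intro i _
    fun_prop
  refine (integrable_sum_abs T).mono' hc.aestronglyMeasurable
    (Filter.Eventually.of_forall fun g => ?_)
  rw [Real.norm_eq_abs]
  exact abs_sup'_le T h _

theorem integrable_sup'_abs {T : Finset (EuclideanSpace ℝ (Fin n))} (h : T.Nonempty) :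
    Integrable (fun g => T.sup' h (fun x => |⟪g, x⟫|))
      (stdGaussian (EuclideanSpace ℝ (Fin n))) := by
  have hc : Continuous (fun g : EuclideanSpace ℝ (Fin n) => T.sup' h (fun t => |⟪g, t⟫|)) := by
    apply Continuous.finset_sup'_apply
    intro i _
    fun_prop
  refine (integrable_sum_abs T).mono' hc.aestronglyMeasurable
    (Filter.Eventually.of_forall fun g => ?_)
  rw [Real.norm_eq_abs]
  refine (abs_sup'_le T h _).trans (le_of_eq ?_)
  simp

theorem gF_nonneg (T : Finset (EuclideanSpace ℝ (Fin n))) : 0 ≤ gF T := by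
  unfold gF
  split_ifs with h
  · obtain ⟨x, hx⟩ := h
    rw [← integral_inner x]
    exact integral_mono (integrable_inner x) (integrable_sup' ⟨x, hx⟩)
      (fun g => Finset.le_sup' (fun x => ⟪g, x⟫) hx)
  · exact le_rfl

theorem gF_mono {S T : Finset (EuclideanSpace ℝ (Fin n))} (h : S ⊆ T) : gF S ≤ gF T := by
  by_cases hS : S.Nonempty
  · have hT : T.Nonempty := hS.mono h
    unfold gF
    rw [dif_pos hS, dif_pos hT]
    exact integral_mono (integrable_sup' hS) (integrable_sup' hT)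
      (fun g => Finset.sup'_mono _ h hS)
  · have : gF S = 0 := by unfold gF; rw [dif_neg hS]
    rw [this]
    exact gF_nonneg T

theorem gF_le_gam (T : Finset (EuclideanSpace ℝ (Fin n))) : gF T ≤ gam T := by
  unfold gF gam
  split_ifs with h
  · exact integral_mono (integrable_sup' h) (integrable_sup'_abs h)
      (fun g => Finset.sup'_le _ _ fun x hx =>
        (le_abs_self _).trans (Finset.le_sup' (fun x => |⟪g, x⟫|) hx))
  · exact le_rfl

theorem norm_le_gam {T : Finset (EuclideanSpace ℝ (Fin n))} {x : EuclideanSpace ℝ (Fin n)}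
    (hx : x ∈ T) : ‖x‖ ≤ 2 * gam T := by
  have h : T.Nonempty := ⟨x, hx⟩
  have h1 : ∫ g, |⟪g, x⟫| ∂stdGaussian (EuclideanSpace ℝ (Fin n)) ≤ gam T := by
    unfold gam
    rw [dif_pos h]
    exact integral_mono (integrable_inner x).abs (integrable_sup'_abs h)
      (fun g => Finset.le_sup' (fun x => |⟪g, x⟫|) hx)
  have h2 := half_norm_le x
  linarith

theorem dist_le_gF {T : Finset (EuclideanSpace ℝ (Fin n))} {x y : EuclideanSpace ℝ (Fin n)}
    (hx : x ∈ T) (hy : y ∈ T) : ‖x - y‖ ≤ 4 * gF T := by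
  have h : T.Nonempty := ⟨x, hx⟩
  have i1 : Integrable (fun g => (⟪g, x⟫ + ⟪g, y⟫) / 2)
      (stdGaussian (EuclideanSpace ℝ (Fin n))) :=
    ((integrable_inner x).add (integrable_inner y)).div_const 2
  have i2 : Integrable (fun g => |⟪g, x - y⟫| / 2) (stdGaussian (EuclideanSpace ℝ (Fin n))) :=
    (integrable_inner (x - y)).abs.div_const 2
  have h1 : ∫ g, ((⟪g, x⟫ + ⟪g, y⟫) / 2 + |⟪g, x - y⟫| / 2)
      ∂stdGaussian (EuclideanSpace ℝ (Fin n)) ≤ gF T := by
    unfold gF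
    rw [dif_pos h]
    refine integral_mono (i1.add i2) (integrable_sup' h) (fun g => ?_)
    have e1 := Finset.le_sup' (fun x => ⟪g, x⟫) hx
    have e2 := Finset.le_sup' (fun x => ⟪g, x⟫) hy
    have e3 : ⟪g, x - y⟫ = ⟪g, x⟫ - ⟪g, y⟫ := inner_sub_right _ _ _
    show (⟪g, x⟫ + ⟪g, y⟫) / 2 + |⟪g, x - y⟫| / 2 ≤ T.sup' h (fun x => ⟪g, x⟫)
    rw [e3]
    rcases abs_cases (⟪g, x⟫ - ⟪g, y⟫) with ⟨h5, _⟩ | ⟨h5, _⟩ <;> rw [h5] <;> linarith
  rw [integral_add i1 i2, integral_div, integral_div,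
    integral_add (integrable_inner x) (integrable_inner y), integral_inner, integral_inner] at h1
  have h2 := half_norm_le (x - y)
  linarith

theorem gam_sub_le {T : Finset (EuclideanSpace ℝ (Fin n))} {x₀ : EuclideanSpace ℝ (Fin n)}
    (hx : x₀ ∈ T) : gam (T.image fun x => x - x₀) ≤ 2 * gF T := by
  have h : T.Nonempty := ⟨x₀, hx⟩
  have h' : (T.image fun x => x - x₀).Nonempty := h.image _
  have hs := integrable_sup' h
  have hn : Integrable (fun g => T.sup' h (fun x => ⟪-g, x⟫))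
      (stdGaussian (EuclideanSpace ℝ (Fin n))) := by
    have hc : Continuous (fun g : EuclideanSpace ℝ (Fin n) => T.sup' h (fun t => ⟪-g, t⟫)) := by
      apply Continuous.finset_sup'_apply
      intro i _
      fun_prop
    refine (integrable_sum_abs T).mono' hc.aestronglyMeasurable
      (Filter.Eventually.of_forall fun g => ?_)
    rw [Real.norm_eq_abs]
    refine (abs_sup'_le T h _).trans (le_of_eq ?_)
    simp [inner_neg_left]
  have h1 : gam (T.image fun x => x - x₀) ≤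
      ∫ g, (T.sup' h (fun x => ⟪g, x⟫) + T.sup' h (fun x => ⟪-g, x⟫))
      ∂stdGaussian (EuclideanSpace ℝ (Fin n)) := by
    unfold gam
    rw [dif_pos h']
    refine integral_mono (integrable_sup'_abs h') (hs.add hn) (fun g => ?_)
    apply Finset.sup'_le
    intro z hz
    rw [Finset.mem_image] at hz
    obtain ⟨x, hxT, rfl⟩ := hz
    have e1 := Finset.le_sup' (fun x => ⟪g, x⟫) hxT
    have e2 := Finset.le_sup' (fun x => ⟪g, x⟫) hx
    have e3 := Finset.le_sup' (fun x => ⟪-g, x⟫) hxT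
    have e4 := Finset.le_sup' (fun x => ⟪-g, x⟫) hx
    simp only [inner_neg_left] at e1 e2 e3 e4
    show |⟪g, x - x₀⟫| ≤ T.sup' h (fun x => ⟪g, x⟫) + T.sup' h (fun x => ⟪-g, x⟫)
    simp only [inner_neg_left, inner_sub_right]
    rw [abs_le]
    constructor <;> linarith
  rw [integral_add hs hn, integral_neg_comp (fun g => T.sup' h (fun x => ⟪g, x⟫))] at h1
  have h2 : gF T = ∫ g, T.sup' h (fun x => ⟪g, x⟫) ∂stdGaussian (EuclideanSpace ℝ (Fin n)) := by
    unfold gF; rw [dif_pos h]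
  rw [h2]
  linarith

end IC65
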