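import Pool.Agent.IC65.GConcA

/-!
# IC65 module G-CONC: Gaussian concentration of a maximum of linear functionals

`conc_step`, `N → ∞`: `N sin(π/(2N)) → π/2`, `N (1 - cos(π/(2N))) → 0`; dominated convergence for the last integral
(dominated by `exp(l · 2 · |f|)`, since `N (1 - cos(π/(2N))) ≤ π²/(8N) ≤ 2`), its limit is `1`.  So for `l ≥ 0`
`E E exp(l (f(Y) - f(X))) ≤ exp(l² σ² π²/8)`, and `π²/8 ≤ 2`.  By Fubini (exchange `X` and `Y`) the same is true for
`l ≤ 0`.  Jensen in the inner variable: `exp(l (f(y) - E f)) ≤ ∫ exp(l (f(y) - f(x))) dμ(x)` for all real `l`.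
-/

open MeasureTheory ProbabilityTheory Finset
open scoped RealInnerProductSpace

noncomputable section

namespace IC65

variable {n : ℕ}

namespace GConcAux

theorem double_eq (S : Finset (EuclideanSpace ℝ (Fin n))) (hS : S.Nonempty) (l : ℝ) :
    ∫ x, ∫ y, Real.exp (l * (S.sup' hS (fun t => ⟪y, t⟫) - S.sup' hS (fun t => ⟪x, t⟫)))
        ∂stdGaussian (EuclideanSpace ℝ (Fin n)) ∂stdGaussian (EuclideanSpace ℝ (Fin n)) =
      (∫ g, Real.exp (l * S.sup' hS (fun t => ⟪g, t⟫)) ∂stdGaussian (EuclideanSpace ℝ (Fin n))) *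
      (∫ g, Real.exp ((-l) * S.sup' hS (fun t => ⟪g, t⟫))
        ∂stdGaussian (EuclideanSpace ℝ (Fin n))) := by
  have e : ∀ x y : EuclideanSpace ℝ (Fin n),
      Real.exp (l * (S.sup' hS (fun t => ⟪y, t⟫) - S.sup' hS (fun t => ⟪x, t⟫))) =
      Real.exp (l * S.sup' hS (fun t => ⟪y, t⟫)) *
        Real.exp ((-l) * S.sup' hS (fun t => ⟪x, t⟫)) := by
    intro x y
    rw [← Real.exp_add]
    congr 1
    ring
  simp_rw [e]
  simp_rw [integral_mul_const, integral_const_mul]

theorem cos_bound {N : ℕ} (hN : 0 < N) :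
    0 ≤ (N : ℝ) * (1 - Real.cos (Real.pi / (2 * N))) ∧
      (N : ℝ) * (1 - Real.cos (Real.pi / (2 * N))) ≤ 2 / N := by
  have hN' : (0 : ℝ) < N := by exact_mod_cast hN
  constructor
  · apply mul_nonneg hN'.le
    linarith [Real.cos_le_one (Real.pi / (2 * N))]
  · have h1 := Real.one_sub_sq_div_two_le_cos (x := Real.pi / (2 * N))
    have hp : Real.pi ^ 2 ≤ 16 := by
      have := Real.pi_le_four
      have h0 := Real.pi_pos
      nlinarith
    rw [le_div_iff₀ hN']
    have h2 : (Real.pi / (2 * N)) ^ 2 / 2 = Real.pi ^ 2 / (8 * (N : ℝ) ^ 2) := by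
      field_simp
      ring
    have h3 : 1 - Real.cos (Real.pi / (2 * N)) ≤ Real.pi ^ 2 / (8 * (N : ℝ) ^ 2) := by
      rw [← h2]; linarith
    have h4 : (N : ℝ) * (N : ℝ) * (1 - Real.cos (Real.pi / (2 * N))) ≤
        (N : ℝ) * (N : ℝ) * (Real.pi ^ 2 / (8 * (N : ℝ) ^ 2)) :=
      mul_le_mul_of_nonneg_left h3 (by positivity)
    have h5 : (N : ℝ) * (N : ℝ) * (Real.pi ^ 2 / (8 * (N : ℝ) ^ 2)) = Real.pi ^ 2 / 8 := by
      field_simp
    nlinarith

theorem sin_bound {N : ℕ} (hN : 0 < N) :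
    (N : ℝ) ^ 2 * Real.sin (Real.pi / (2 * N)) ^ 2 ≤ 4 := by
  have hN' : (0 : ℝ) < N := by exact_mod_cast hN
  have hx : 0 ≤ Real.pi / (2 * N) := by positivity
  have hxp : Real.pi / (2 * N) ≤ Real.pi := by
    have h1 : (1 : ℝ) ≤ N := by exact_mod_cast hN
    rw [div_le_iff₀ (by positivity)]
    nlinarith [Real.pi_pos]
  have h1 : Real.sin (Real.pi / (2 * N)) ≤ Real.pi / (2 * N) := Real.sin_le hx
  have h0 : 0 ≤ Real.sin (Real.pi / (2 * N)) := Real.sin_nonneg_of_nonneg_of_le_pi hx hxp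
  have h2 : (N : ℝ) * Real.sin (Real.pi / (2 * N)) ≤ 2 := by
    have : (N : ℝ) * Real.sin (Real.pi / (2 * N)) ≤ N * (Real.pi / (2 * N)) :=
      mul_le_mul_of_nonneg_left h1 hN'.le
    have h3 : (N : ℝ) * (Real.pi / (2 * N)) = Real.pi / 2 := by
      field_simp
    have := Real.pi_le_four
    linarith
  have h3 : 0 ≤ (N : ℝ) * Real.sin (Real.pi / (2 * N)) := mul_nonneg hN'.le h0
  have : (N : ℝ) ^ 2 * Real.sin (Real.pi / (2 * N)) ^ 2 =
      ((N : ℝ) * Real.sin (Real.pi / (2 * N))) ^ 2 := by ring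
  rw [this]
  nlinarith

theorem prod_le (S : Finset (EuclideanSpace ℝ (Fin n))) (hS : S.Nonempty) {σ : ℝ}
    (hσ : ∀ t ∈ S, ‖t‖ ≤ σ) {l : ℝ} (hl : 0 ≤ l) :
    (∫ g, Real.exp (l * S.sup' hS (fun t => ⟪g, t⟫)) ∂stdGaussian (EuclideanSpace ℝ (Fin n))) *
      (∫ g, Real.exp ((-l) * S.sup' hS (fun t => ⟪g, t⟫))
        ∂stdGaussian (EuclideanSpace ℝ (Fin n))) ≤ Real.exp (2 * l ^ 2 * σ ^ 2) := by
  set f : EuclideanSpace ℝ (Fin n) → ℝ := fun g => S.sup' hS (fun t => ⟪g, t⟫) with hf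
  set A : ℝ := (∫ g, Real.exp (l * f g) ∂stdGaussian (EuclideanSpace ℝ (Fin n))) *
      (∫ g, Real.exp ((-l) * f g) ∂stdGaussian (EuclideanSpace ℝ (Fin n))) with hA
  have hfm : AEStronglyMeasurable f (stdGaussian (EuclideanSpace ℝ (Fin n))) :=
    (integrable_sup' hS).aestronglyMeasurable
  -- the bound for each N
  have key : ∀ N : ℕ, 0 < N → A ≤ Real.exp (2 * l ^ 2 * σ ^ 2) *
      ∫ g, Real.exp (l * (2 / N) * |f g|) ∂stdGaussian (EuclideanSpace ℝ (Fin n)) := by
    intro N hN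
    have h := conc_step S hS hσ hl hN
    rw [double_eq] at h
    have hb := cos_bound hN
    have hs := sin_bound hN
    refine le_trans h ?_
    apply mul_le_mul
    · apply Real.exp_le_exp.2
      have h1 : l ^ 2 * (N : ℝ) ^ 2 * Real.sin (Real.pi / (2 * N)) ^ 2 * σ ^ 2 / 2 =
          (l ^ 2 * σ ^ 2 / 2) * ((N : ℝ) ^ 2 * Real.sin (Real.pi / (2 * N)) ^ 2) := by ring
      rw [h1]
      have h2 : (l ^ 2 * σ ^ 2 / 2) * ((N : ℝ) ^ 2 * Real.sin (Real.pi / (2 * N)) ^ 2) ≤
          (l ^ 2 * σ ^ 2 / 2) * 4 := mul_le_mul_of_nonneg_left hs (by positivity)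
      linarith
    · apply integral_mono (integrable_exp_abs_sup S hS _) (integrable_exp_abs_sup S hS _)
      intro g
      apply Real.exp_le_exp.2
      apply mul_le_mul_of_nonneg_right _ (abs_nonneg _)
      rw [mul_assoc]
      exact mul_le_mul_of_nonneg_left hb.2 hl
    · exact integral_nonneg (fun g => (Real.exp_pos _).le)
    · exact (Real.exp_pos _).le
  have lim : Filter.Tendsto (fun N : ℕ => Real.exp (2 * l ^ 2 * σ ^ 2) *
      ∫ g, Real.exp (l * (2 / N) * |f g|) ∂stdGaussian (EuclideanSpace ℝ (Fin n)))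
      Filter.atTop (nhds (Real.exp (2 * l ^ 2 * σ ^ 2) * 1)) := by
    apply Filter.Tendsto.const_mul
    have h1 : (1 : ℝ) = ∫ _g, (1 : ℝ) ∂stdGaussian (EuclideanSpace ℝ (Fin n)) := by
      simp
    rw [h1]
    apply tendsto_integral_filter_of_dominated_convergence
      (fun g => Real.exp (2 * l * |f g|))
    · refine Filter.Eventually.of_forall (fun N => ?_)
      exact (integrable_exp_abs_sup S hS (l * (2 / N))).aestronglyMeasurable
    · refine Filter.eventually_atTop.2 ⟨1, fun N hN => ?_⟩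
      refine Filter.Eventually.of_forall (fun g => ?_)
      rw [Real.norm_of_nonneg (Real.exp_pos _).le]
      apply Real.exp_le_exp.2
      apply mul_le_mul_of_nonneg_right _ (abs_nonneg _)
      have hN' : (1 : ℝ) ≤ N := by exact_mod_cast hN
      have : (2 : ℝ) / N ≤ 2 := by
        rw [div_le_iff₀ (by linarith)]
        linarith
      nlinarith
    · exact integrable_exp_abs_sup S hS (2 * l)
    · refine Filter.Eventually.of_forall (fun g => ?_)
      have h2 : Filter.Tendsto (fun N : ℕ => l * (2 / (N : ℝ)) * |f g|) Filter.atTop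
          (nhds (l * 0 * |f g|)) := by
        apply Filter.Tendsto.mul_const
        apply Filter.Tendsto.const_mul
        exact tendsto_const_div_atTop_nhds_zero_nat 2
      have h3 := (Real.continuous_exp.tendsto _).comp h2
      have h4 : Real.exp (l * 0 * |f g|) = 1 := by simp
      rw [h4] at h3
      exact h3
  rw [mul_one] at lim
  refine ge_of_tendsto lim (Filter.eventually_atTop.2 ⟨1, fun N hN => key N hN⟩)

theorem prod_le' (S : Finset (EuclideanSpace ℝ (Fin n))) (hS : S.Nonempty) {σ : ℝ}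
    (hσ : ∀ t ∈ S, ‖t‖ ≤ σ) (l : ℝ) :
    (∫ g, Real.exp (l * S.sup' hS (fun t => ⟪g, t⟫)) ∂stdGaussian (EuclideanSpace ℝ (Fin n))) *
      (∫ g, Real.exp ((-l) * S.sup' hS (fun t => ⟪g, t⟫))
        ∂stdGaussian (EuclideanSpace ℝ (Fin n))) ≤ Real.exp (2 * l ^ 2 * σ ^ 2) := by
  rcases le_total 0 l with hl | hl
  · exact prod_le S hS hσ hl
  · have h := prod_le S hS hσ (l := -l) (by linarith)
    rw [neg_neg, mul_comm] at h
    simpa using h

end GConcAux

theorem conc (S : Finset (EuclideanSpace ℝ (Fin n))) (hS : S.Nonempty) {σ : ℝ}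
    (hσ : ∀ t ∈ S, ‖t‖ ≤ σ) (l : ℝ) :
    ∫ g, Real.exp (l * (S.sup' hS (fun t => ⟪g, t⟫) - gF S))
      ∂stdGaussian (EuclideanSpace ℝ (Fin n)) ≤ Real.exp (2 * l ^ 2 * σ ^ 2) := by
  set f : EuclideanSpace ℝ (Fin n) → ℝ := fun g => S.sup' hS (fun t => ⟪g, t⟫) with hf
  have hgF : gF S = ∫ g, f g ∂stdGaussian (EuclideanSpace ℝ (Fin n)) := by
    unfold gF
    rw [dif_pos hS]
  have e : ∀ g : EuclideanSpace ℝ (Fin n), Real.exp (l * (f g - gF S)) =
      Real.exp (l * f g) * Real.exp ((-l) * gF S) := by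
    intro g
    rw [← Real.exp_add]
    congr 1
    ring
  have hJ : Real.exp ((-l) * gF S) ≤
      ∫ g, Real.exp ((-l) * f g) ∂stdGaussian (EuclideanSpace ℝ (Fin n)) := by
    have h := ConvexOn.map_integral_le (μ := stdGaussian (EuclideanSpace ℝ (Fin n)))
      (g := Real.exp) (s := Set.univ) (f := fun g => (-l) * f g) convexOn_exp
      Real.continuous_exp.continuousOn isClosed_univ
      (Filter.Eventually.of_forall (fun _ => Set.mem_univ _))
      ((integrable_sup' hS).const_mul (-l)) (integrable_exp_sup S hS (-l))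
    rw [integral_const_mul] at h
    rw [hgF]
    exact h
  have e2 : (fun g : EuclideanSpace ℝ (Fin n) =>
      Real.exp (l * (S.sup' hS (fun t => ⟪g, t⟫) - gF S))) =
      fun g => Real.exp (l * f g) * Real.exp ((-l) * gF S) := by
    funext g
    exact e g
  rw [e2, integral_mul_const]
  refine le_trans ?_ (GConcAux.prod_le' S hS hσ l)
  apply mul_le_mul_of_nonneg_left hJ
  exact integral_nonneg (fun g => (Real.exp_pos _).le)

end IC65
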