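import Pool.Agent.IC65.GDefs

/-!
# IC65 module G-ROT: rotations of a pair of independent Gaussians; a measurable maximiser

`rot`: `μ.prod μ` is invariant under the rotation (compare the characteristic functions, or `IsGaussian` and
covariances; or: `stdGaussian (E × E)`-type facts with `WithLp 2`).
`exists_max`: fix an enumeration of `S` and take the first maximiser (finitely many measurable conditions
`⟨g,t⟩ ≥ ⟨g,s⟩`), a measurable function with finitely many values.
-/

open MeasureTheory ProbabilityTheory Finset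
open scoped RealInnerProductSpace

noncomputable section

namespace IC65

variable {n : ℕ}

theorem rot (θ : ℝ) :
    ((stdGaussian (EuclideanSpace ℝ (Fin n))).prod (stdGaussian (EuclideanSpace ℝ (Fin n)))).map
      (fun p => (Real.cos θ • p.1 + Real.sin θ • p.2, -Real.sin θ • p.1 + Real.cos θ • p.2)) =
    (stdGaussian (EuclideanSpace ℝ (Fin n))).prod (stdGaussian (EuclideanSpace ℝ (Fin n))) := by
  have h := IsGaussian.map_rotation_eq_self (μ := stdGaussian (EuclideanSpace ℝ (Fin n)))
    (by simp) θ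
  have e : (fun p : EuclideanSpace ℝ (Fin n) × EuclideanSpace ℝ (Fin n) =>
      (Real.cos θ • p.1 + Real.sin θ • p.2, -Real.sin θ • p.1 + Real.cos θ • p.2)) =
      ⇑(ContinuousLinearMap.rotation (E := EuclideanSpace ℝ (Fin n)) θ) := by
    funext p
    rw [ContinuousLinearMap.rotation_apply]
  rw [e]
  exact h

private theorem exists_max_list : ∀ (L : List (EuclideanSpace ℝ (Fin n))), L ≠ [] →
    ∃ t : EuclideanSpace ℝ (Fin n) → EuclideanSpace ℝ (Fin n), Measurable t ∧
      (∀ g, t g ∈ L) ∧ ∀ g, ∀ s ∈ L, ⟪g, s⟫ ≤ ⟪g, t g⟫ := by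
  intro L
  induction L with
  | nil => intro h; exact absurd rfl h
  | cons a L ih =>
    intro _
    by_cases hL : L = []
    · subst hL
      refine ⟨fun _ => a, measurable_const, fun g => by simp, fun g s hs => ?_⟩
      simp only [List.mem_cons, List.not_mem_nil, or_false] at hs
      rw [hs]
    · obtain ⟨t, ht, h1, h2⟩ := ih hL
      have hm : MeasurableSet {g : EuclideanSpace ℝ (Fin n) | ⟪g, t g⟫ ≤ ⟪g, a⟫} := by
        apply measurableSet_le
        · exact Measurable.inner measurable_id ht
        · exact Measurable.inner measurable_id measurable_const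
      classical
      refine ⟨Set.piecewise {g | ⟪g, t g⟫ ≤ ⟪g, a⟫} (fun _ => a) t,
        Measurable.piecewise hm measurable_const ht, fun g => ?_, fun g s hs => ?_⟩
      · by_cases hg : ⟪g, t g⟫ ≤ ⟪g, a⟫
        · have : g ∈ {g : EuclideanSpace ℝ (Fin n) | ⟪g, t g⟫ ≤ ⟪g, a⟫} := hg
          rw [Set.piecewise_eq_of_mem _ _ _ this]
          simp
        · have : g ∉ {g : EuclideanSpace ℝ (Fin n) | ⟪g, t g⟫ ≤ ⟪g, a⟫} := hg
          rw [Set.piecewise_eq_of_notMem _ _ _ this]
          exact List.mem_cons_of_mem _ (h1 g)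
      · by_cases hg : ⟪g, t g⟫ ≤ ⟪g, a⟫
        · have : g ∈ {g : EuclideanSpace ℝ (Fin n) | ⟪g, t g⟫ ≤ ⟪g, a⟫} := hg
          rw [Set.piecewise_eq_of_mem _ _ _ this]
          rcases List.mem_cons.1 hs with rfl | hs
          · exact le_refl _
          · exact le_trans (h2 g s hs) hg
        · have : g ∉ {g : EuclideanSpace ℝ (Fin n) | ⟪g, t g⟫ ≤ ⟪g, a⟫} := hg
          rw [Set.piecewise_eq_of_notMem _ _ _ this]
          rcases List.mem_cons.1 hs with rfl | hs
          · exact le_of_lt (not_le.1 hg)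
          · exact h2 g s hs

theorem exists_max (S : Finset (EuclideanSpace ℝ (Fin n))) (hS : S.Nonempty) :
    ∃ t : EuclideanSpace ℝ (Fin n) → EuclideanSpace ℝ (Fin n), Measurable t ∧
      (∀ g, t g ∈ S) ∧ ∀ g, ⟪g, t g⟫ = S.sup' hS (fun s => ⟪g, s⟫) := by
  have hne : S.toList ≠ [] := by
    intro h
    rw [Finset.toList_eq_nil] at h
    exact hS.ne_empty h
  obtain ⟨t, ht, h1, h2⟩ := exists_max_list S.toList hne
  refine ⟨t, ht, fun g => Finset.mem_toList.1 (h1 g), fun g => ?_⟩
  apply le_antisymm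
  · exact Finset.le_sup' (fun s => ⟪g, s⟫) (Finset.mem_toList.1 (h1 g))
  · exact Finset.sup'_le hS _ (fun s hs => h2 g s (Finset.mem_toList.2 hs))

end IC65
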