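import Pool.Agent.IC65.GExp
import Pool.Agent.IC65.GRot

/-!
# IC65 module G-CONC-A: the discrete rotation (Maurey-Pisier)

`f(g) = max_{t ∈ S} ⟨g,t⟩`, `‖t‖ ≤ σ`.  Let `X, Y` be independent standard Gaussians, `h = π/(2N)`,
`U_k = cos(kh) X + sin(kh) Y`, `V_k = -sin(kh) X + cos(kh) Y` (`(U_k,V_k)` has the law of `(X,Y)`, `rot`).
`U_(k-1) = cos h U_k - sin h V_k`, so with `t = t(U_k)` the maximiser of `exists_max`
`f(U_k) - f(U_(k-1)) ≤ ⟨U_k - U_(k-1), t(U_k)⟩ = (1 - cos h) f(U_k) + sin h ⟨V_k, t(U_k)⟩`.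
Sum over `k = 1..N` (`U_0 = X`, `U_N = Y`) and Jensen (convexity of `exp`): for `l ≥ 0`
`exp(l (f(Y) - f(X))) ≤ (1/N) ∑_k exp(l N ((1 - cos h) f(U_k) + sin h ⟨V_k,t(U_k)⟩))`.  Take expectations; by `rot` all the
terms have the same expectation, `E exp(l N ((1 - cos h) f(X) + sin h ⟨Y,t(X)⟩))`; integrate `Y` first
(`integral_exp_inner`, `‖t(X)‖ ≤ σ`): `≤ exp(l² N² sin² h σ²/2) E exp(l N (1 - cos h) |f(X)|)`.
-/

open MeasureTheory ProbabilityTheory Finset
open scoped RealInnerProductSpace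

noncomputable section

namespace IC65

variable {n : ℕ}

namespace GConcA

/-- the maximum of the linear functionals -/
private def ff (S : Finset (EuclideanSpace ℝ (Fin n))) (hS : S.Nonempty)
    (g : EuclideanSpace ℝ (Fin n)) : ℝ := S.sup' hS (fun t => ⟪g, t⟫)

/-- the rotation -/
private def Rt (θ : ℝ) (p : EuclideanSpace ℝ (Fin n) × EuclideanSpace ℝ (Fin n)) :
    EuclideanSpace ℝ (Fin n) × EuclideanSpace ℝ (Fin n) :=
  (Real.cos θ • p.1 + Real.sin θ • p.2, -Real.sin θ • p.1 + Real.cos θ • p.2)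

private theorem measurable_ff (S : Finset (EuclideanSpace ℝ (Fin n))) (hS : S.Nonempty) :
    Measurable (ff S hS) := by
  have : ff S hS = fun g => S.sup' hS (fun t => ⟪g, t⟫) := rfl
  rw [this]
  have h : Continuous (fun g : EuclideanSpace ℝ (Fin n) => S.sup' hS (fun t => ⟪g, t⟫)) := by
    apply Continuous.finset_sup'_apply
    intro i _
    fun_prop
  exact h.measurable

private theorem measurable_Rt (θ : ℝ) :
    Measurable (Rt (n := n) θ) := by
  unfold Rt
  fun_prop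

private theorem back (h a : ℝ) (p : EuclideanSpace ℝ (Fin n) × EuclideanSpace ℝ (Fin n)) :
    (Rt a p).1 = Real.cos h • (Rt (a + h) p).1 - Real.sin h • (Rt (a + h) p).2 := by
  unfold Rt
  have h1 := Real.sin_sq_add_cos_sq h
  ext i
  simp only [Real.cos_add, Real.sin_add, PiLp.add_apply, PiLp.sub_apply, PiLp.smul_apply,
    smul_eq_mul]
  linear_combination (-(Real.cos a * p.1 i + Real.sin a * p.2 i)) * h1

private theorem step (S : Finset (EuclideanSpace ℝ (Fin n))) (hS : S.Nonempty)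
    (t : EuclideanSpace ℝ (Fin n) → EuclideanSpace ℝ (Fin n)) (htS : ∀ g, t g ∈ S)
    (ht : ∀ g, ⟪g, t g⟫ = ff S hS g) (h a : ℝ)
    (p : EuclideanSpace ℝ (Fin n) × EuclideanSpace ℝ (Fin n)) :
    ff S hS (Rt (a + h) p).1 - ff S hS (Rt a p).1 ≤
      (1 - Real.cos h) * ff S hS (Rt (a + h) p).1 +
        Real.sin h * ⟪(Rt (a + h) p).2, t (Rt (a + h) p).1⟫ := by
  have h1 : ⟪(Rt a p).1, t (Rt (a + h) p).1⟫ ≤ ff S hS (Rt a p).1 :=
    Finset.le_sup' (fun s => ⟪(Rt a p).1, s⟫) (htS _)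
  rw [back h a p, inner_sub_left, inner_smul_left, inner_smul_left] at h1
  simp only [conj_trivial] at h1
  rw [ht] at h1
  rw [← back h a p] at h1
  linarith

private def G (S : Finset (EuclideanSpace ℝ (Fin n))) (hS : S.Nonempty)
    (t : EuclideanSpace ℝ (Fin n) → EuclideanSpace ℝ (Fin n)) (A B : ℝ)
    (p : EuclideanSpace ℝ (Fin n) × EuclideanSpace ℝ (Fin n)) : ℝ :=
  Real.exp (A * ff S hS p.1 + B * ⟪p.2, t p.1⟫)

private theorem measurable_G (S : Finset (EuclideanSpace ℝ (Fin n))) (hS : S.Nonempty)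
    (t : EuclideanSpace ℝ (Fin n) → EuclideanSpace ℝ (Fin n)) (htm : Measurable t) (A B : ℝ) :
    Measurable (G S hS t A B) := by
  unfold G
  have h1 : Measurable (fun p : EuclideanSpace ℝ (Fin n) × EuclideanSpace ℝ (Fin n) =>
      ff S hS p.1) := (measurable_ff S hS).comp measurable_fst
  have h2 : Measurable (fun p : EuclideanSpace ℝ (Fin n) × EuclideanSpace ℝ (Fin n) =>
      ⟪p.2, t p.1⟫) := measurable_snd.inner (htm.comp measurable_fst)
  exact ((h1.const_mul A).add (h2.const_mul B)).exp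

private theorem pointwise (S : Finset (EuclideanSpace ℝ (Fin n))) (hS : S.Nonempty)
    (t : EuclideanSpace ℝ (Fin n) → EuclideanSpace ℝ (Fin n)) (htS : ∀ g, t g ∈ S)
    (ht : ∀ g, ⟪g, t g⟫ = ff S hS g) {l : ℝ} (hl : 0 ≤ l) {N : ℕ} (hN : 0 < N)
    (p : EuclideanSpace ℝ (Fin n) × EuclideanSpace ℝ (Fin n)) :
    Real.exp (l * (ff S hS p.2 - ff S hS p.1)) ≤
      (N : ℝ)⁻¹ * ∑ k ∈ Finset.range N,
        G S hS t (l * N * (1 - Real.cos (Real.pi / (2 * N)))) (l * N * Real.sin (Real.pi / (2 * N)))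
          (Rt (((k : ℝ) + 1) * (Real.pi / (2 * N))) p) := by
  have hN' : (0 : ℝ) < N := by exact_mod_cast hN
  set h : ℝ := Real.pi / (2 * N) with hh
  have hNh : (N : ℝ) * h = Real.pi / 2 := by
    rw [hh]; field_simp
  -- telescoping
  have tel : ff S hS p.2 - ff S hS p.1 = ∑ k ∈ Finset.range N,
      (ff S hS (Rt (((k + 1 : ℕ) : ℝ) * h) p).1 - ff S hS (Rt ((k : ℝ) * h) p).1) := by
    rw [Finset.sum_range_sub (fun k : ℕ => ff S hS (Rt ((k : ℝ) * h) p).1)]
    rw [hNh]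
    unfold Rt
    simp
  have le : l * (ff S hS p.2 - ff S hS p.1) ≤ ∑ k ∈ Finset.range N, (N : ℝ)⁻¹ *
      ((l * N * (1 - Real.cos h)) * ff S hS (Rt (((k : ℝ) + 1) * h) p).1 +
        (l * N * Real.sin h) * ⟪(Rt (((k : ℝ) + 1) * h) p).2, t (Rt (((k : ℝ) + 1) * h) p).1⟫) := by
    rw [tel, Finset.mul_sum]
    apply Finset.sum_le_sum
    intro k _
    have h1 := step S hS t htS ht h ((k : ℝ) * h) p
    have h2 : (k : ℝ) * h + h = ((k : ℝ) + 1) * h := by ring
    rw [h2] at h1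
    have h3 : (((k + 1 : ℕ) : ℝ) * h) = ((k : ℝ) + 1) * h := by push_cast; ring
    rw [h3]
    have h4 := mul_le_mul_of_nonneg_left h1 hl
    refine h4.trans (le_of_eq ?_)
    field_simp
  refine (Real.exp_le_exp.mpr le).trans ?_
  have jen := convexOn_exp.map_sum_le (t := Finset.range N) (w := fun _ => (N : ℝ)⁻¹)
    (p := fun k : ℕ => (l * N * (1 - Real.cos h)) * ff S hS (Rt (((k : ℝ) + 1) * h) p).1 +
        (l * N * Real.sin h) * ⟪(Rt (((k : ℝ) + 1) * h) p).2, t (Rt (((k : ℝ) + 1) * h) p).1⟫)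
    (fun _ _ => by positivity) (by simp [hN'.ne']) (fun _ _ => Set.mem_univ _)
  simp only [smul_eq_mul] at jen
  refine jen.trans (le_of_eq ?_)
  rw [Finset.mul_sum]
  rfl

private theorem integrable_G (S : Finset (EuclideanSpace ℝ (Fin n))) (hS : S.Nonempty)
    (t : EuclideanSpace ℝ (Fin n) → EuclideanSpace ℝ (Fin n)) (htm : Measurable t)
    (htS : ∀ g, t g ∈ S) (A B : ℝ) :
    Integrable (G S hS t A B) ((stdGaussian (EuclideanSpace ℝ (Fin n))).prod
      (stdGaussian (EuclideanSpace ℝ (Fin n)))) := by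
  have hdom : Integrable (fun p : EuclideanSpace ℝ (Fin n) × EuclideanSpace ℝ (Fin n) =>
      ∑ s ∈ S, Real.exp (|A| * |S.sup' hS (fun t => ⟪p.1, t⟫)|) * Real.exp ⟪p.2, B • s⟫)
      ((stdGaussian (EuclideanSpace ℝ (Fin n))).prod
      (stdGaussian (EuclideanSpace ℝ (Fin n)))) := by
    apply integrable_finsetSum
    intro s _
    exact (integrable_exp_abs_sup S hS |A|).mul_prod (integrable_exp_inner (B • s))
  refine hdom.mono' (measurable_G S hS t htm A B).aestronglyMeasurable ?_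
  refine Filter.Eventually.of_forall fun p => ?_
  unfold G
  rw [Real.norm_eq_abs, abs_of_pos (Real.exp_pos _), Real.exp_add]
  have h1 : Real.exp (A * ff S hS p.1) ≤ Real.exp (|A| * |S.sup' hS (fun t => ⟪p.1, t⟫)|) := by
    apply Real.exp_le_exp.mpr
    calc A * ff S hS p.1 ≤ |A * ff S hS p.1| := le_abs_self _
      _ = _ := by rw [abs_mul]; rfl
  have h2 : Real.exp (B * ⟪p.2, t p.1⟫) = Real.exp ⟪p.2, B • t p.1⟫ := by
    rw [inner_smul_right]
  rw [h2]
  calc _ ≤ Real.exp (|A| * |S.sup' hS (fun t => ⟪p.1, t⟫)|) * Real.exp ⟪p.2, B • t p.1⟫ :=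
        mul_le_mul_of_nonneg_right h1 (Real.exp_pos _).le
    _ ≤ _ := Finset.single_le_sum
        (f := fun s => Real.exp (|A| * |S.sup' hS (fun t => ⟪p.1, t⟫)|) * Real.exp ⟪p.2, B • s⟫)
        (fun s _ => by positivity) (htS p.1)

private theorem integral_G (S : Finset (EuclideanSpace ℝ (Fin n))) (hS : S.Nonempty)
    (t : EuclideanSpace ℝ (Fin n) → EuclideanSpace ℝ (Fin n)) (htm : Measurable t)
    (htS : ∀ g, t g ∈ S) {σ : ℝ} (hσ : ∀ t ∈ S, ‖t‖ ≤ σ) {A B : ℝ} (hA : 0 ≤ A) :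
    ∫ p, G S hS t A B p ∂((stdGaussian (EuclideanSpace ℝ (Fin n))).prod
      (stdGaussian (EuclideanSpace ℝ (Fin n)))) ≤
    Real.exp (B ^ 2 * σ ^ 2 / 2) *
        ∫ g, Real.exp (A * |S.sup' hS (fun t => ⟪g, t⟫)|)
          ∂stdGaussian (EuclideanSpace ℝ (Fin n)) := by
  rw [integral_prod _ (integrable_G S hS t htm htS A B), ← integral_const_mul]
  apply integral_mono (integrable_G S hS t htm htS A B).integral_prod_left
    ((integrable_exp_abs_sup S hS A).const_mul _)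
  intro x
  have h1 : ∫ y, G S hS t A B (x, y) ∂stdGaussian (EuclideanSpace ℝ (Fin n)) =
      Real.exp (A * ff S hS x) * Real.exp (‖B • t x‖ ^ 2 / 2) := by
    rw [← integral_exp_inner, ← integral_const_mul]
    apply integral_congr_ae
    refine Filter.Eventually.of_forall fun y => ?_
    show Real.exp (A * ff S hS x + B * ⟪y, t x⟫) = Real.exp (A * ff S hS x) * Real.exp ⟪y, B • t x⟫
    rw [Real.exp_add, inner_smul_right]
  show ∫ y, G S hS t A B (x, y) ∂stdGaussian (EuclideanSpace ℝ (Fin n)) ≤ _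
  rw [h1, mul_comm]
  apply mul_le_mul _ _ (Real.exp_pos _).le (Real.exp_pos _).le
  · apply Real.exp_le_exp.mpr
    have h2 : ‖t x‖ ≤ σ := hσ _ (htS x)
    rw [norm_smul, mul_pow, Real.norm_eq_abs, sq_abs]
    have h3 : ‖t x‖ ^ 2 ≤ σ ^ 2 := pow_le_pow_left₀ (norm_nonneg _) h2 2
    have h4 := mul_le_mul_of_nonneg_left h3 (sq_nonneg B)
    linarith
  · apply Real.exp_le_exp.mpr
    exact mul_le_mul_of_nonneg_left (le_abs_self _) hA

end GConcA

open GConcA in
theorem conc_step (S : Finset (EuclideanSpace ℝ (Fin n))) (hS : S.Nonempty) {σ : ℝ}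
    (hσ : ∀ t ∈ S, ‖t‖ ≤ σ) {l : ℝ} (hl : 0 ≤ l) {N : ℕ} (hN : 0 < N) :
    ∫ x, ∫ y, Real.exp (l * (S.sup' hS (fun t => ⟪y, t⟫) - S.sup' hS (fun t => ⟪x, t⟫)))
        ∂stdGaussian (EuclideanSpace ℝ (Fin n)) ∂stdGaussian (EuclideanSpace ℝ (Fin n)) ≤
      Real.exp (l ^ 2 * N ^ 2 * Real.sin (Real.pi / (2 * N)) ^ 2 * σ ^ 2 / 2) *
        ∫ g, Real.exp (l * N * (1 - Real.cos (Real.pi / (2 * N))) * |S.sup' hS (fun t => ⟪g, t⟫)|)
          ∂stdGaussian (EuclideanSpace ℝ (Fin n)) := by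
  obtain ⟨t, htm, htS, ht⟩ := exists_max S hS
  have hN' : (0 : ℝ) < N := by exact_mod_cast hN
  set h : ℝ := Real.pi / (2 * N) with hh
  set A : ℝ := l * N * (1 - Real.cos h) with hA
  set B : ℝ := l * N * Real.sin h with hB
  have hA0 : 0 ≤ A := by
    rw [hA]
    have := Real.cos_le_one h
    have h2 : 0 ≤ 1 - Real.cos h := by linarith
    positivity
  have hF : Measurable (fun p : EuclideanSpace ℝ (Fin n) × EuclideanSpace ℝ (Fin n) =>
      Real.exp (l * (ff S hS p.2 - ff S hS p.1))) := by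
    have h1 : Measurable (fun p : EuclideanSpace ℝ (Fin n) × EuclideanSpace ℝ (Fin n) =>
        ff S hS p.1) := (measurable_ff S hS).comp measurable_fst
    have h2 : Measurable (fun p : EuclideanSpace ℝ (Fin n) × EuclideanSpace ℝ (Fin n) =>
        ff S hS p.2) := (measurable_ff S hS).comp measurable_snd
    exact ((h2.sub h1).const_mul l).exp
  have hint : ∀ θ : ℝ, Integrable (fun p => G S hS t A B (Rt θ p))
      ((stdGaussian (EuclideanSpace ℝ (Fin n))).prod
      (stdGaussian (EuclideanSpace ℝ (Fin n)))) := by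
    intro θ
    have h1 := integrable_G S hS t htm htS A B
    rw [← rot θ] at h1
    exact h1.comp_measurable (measurable_Rt θ)
  have heq : ∀ θ : ℝ, ∫ p, G S hS t A B (Rt θ p) ∂((stdGaussian (EuclideanSpace ℝ (Fin n))).prod
      (stdGaussian (EuclideanSpace ℝ (Fin n)))) = ∫ p, G S hS t A B p
        ∂((stdGaussian (EuclideanSpace ℝ (Fin n))).prod
      (stdGaussian (EuclideanSpace ℝ (Fin n)))) := by
    intro θ
    have h1 := integral_map (μ := (stdGaussian (EuclideanSpace ℝ (Fin n))).prod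
      (stdGaussian (EuclideanSpace ℝ (Fin n)))) (measurable_Rt θ).aemeasurable
      (measurable_G S hS t htm A B).aestronglyMeasurable
    have h2 : ((stdGaussian (EuclideanSpace ℝ (Fin n))).prod
      (stdGaussian (EuclideanSpace ℝ (Fin n)))).map (Rt θ) =
        (stdGaussian (EuclideanSpace ℝ (Fin n))).prod
      (stdGaussian (EuclideanSpace ℝ (Fin n))) := rot θ
    rw [h2] at h1
    exact h1.symm
  have hsum : Integrable (fun p => (N : ℝ)⁻¹ * ∑ k ∈ Finset.range N,
      G S hS t A B (Rt (((k : ℝ) + 1) * h) p))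
      ((stdGaussian (EuclideanSpace ℝ (Fin n))).prod
      (stdGaussian (EuclideanSpace ℝ (Fin n)))) :=
    (integrable_finsetSum _ (fun k _ => hint _)).const_mul _
  have hpw := fun p => pointwise S hS t htS ht hl hN p
  have hFi : Integrable (fun p : EuclideanSpace ℝ (Fin n) × EuclideanSpace ℝ (Fin n) =>
      Real.exp (l * (ff S hS p.2 - ff S hS p.1)))
      ((stdGaussian (EuclideanSpace ℝ (Fin n))).prod
      (stdGaussian (EuclideanSpace ℝ (Fin n)))) := by
    refine hsum.mono' hF.aestronglyMeasurable (Filter.Eventually.of_forall fun p => ?_)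
    rw [Real.norm_eq_abs, abs_of_pos (Real.exp_pos _)]
    exact hpw p
  have e1 : ∫ x, ∫ y, Real.exp (l * (S.sup' hS (fun t => ⟪y, t⟫) - S.sup' hS (fun t => ⟪x, t⟫)))
        ∂stdGaussian (EuclideanSpace ℝ (Fin n)) ∂stdGaussian (EuclideanSpace ℝ (Fin n)) =
      ∫ p, Real.exp (l * (ff S hS p.2 - ff S hS p.1))
        ∂((stdGaussian (EuclideanSpace ℝ (Fin n))).prod
        (stdGaussian (EuclideanSpace ℝ (Fin n)))) := by
    rw [integral_prod _ hFi]
    rfl
  rw [e1]
  calc _ ≤ ∫ p, (N : ℝ)⁻¹ * ∑ k ∈ Finset.range N,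
      G S hS t A B (Rt (((k : ℝ) + 1) * h) p)
        ∂((stdGaussian (EuclideanSpace ℝ (Fin n))).prod
        (stdGaussian (EuclideanSpace ℝ (Fin n)))) := integral_mono hFi hsum hpw
    _ = ∫ p, G S hS t A B p
        ∂((stdGaussian (EuclideanSpace ℝ (Fin n))).prod
      (stdGaussian (EuclideanSpace ℝ (Fin n)))) := by
        rw [integral_const_mul, integral_finsetSum _ (fun k _ => hint _)]
        simp only [heq, Finset.sum_const, Finset.card_range, nsmul_eq_mul]
        field_simp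
    _ ≤ _ := by
        refine (integral_G S hS t htm htS hσ hA0).trans (le_of_eq ?_)
        rw [hB]
        congr 2
        ring

end IC65
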