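import Mathlib

/-!
# IC65: the Gaussian functionals of a finite set

`gam T = E max_{x ∈ T} |⟨g,x⟩|`, `gF T = E max_{x ∈ T} ⟨g,x⟩` (`0` if `T = ∅`), `g` standard Gaussian.
-/

open MeasureTheory ProbabilityTheory Finset
open scoped RealInnerProductSpace

noncomputable section

namespace IC65

variable {n : ℕ}

/-- the Gaussian complexity of a finite set -/
def gam (T : Finset (EuclideanSpace ℝ (Fin n))) : ℝ :=
  if h : T.Nonempty then
    ∫ g, T.sup' h (fun x => |⟪g, x⟫|) ∂stdGaussian (EuclideanSpace ℝ (Fin n)) else 0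

/-- the Gaussian mean width of a finite set -/
def gF (T : Finset (EuclideanSpace ℝ (Fin n))) : ℝ :=
  if h : T.Nonempty then
    ∫ g, T.sup' h (fun x => ⟪g, x⟫) ∂stdGaussian (EuclideanSpace ℝ (Fin n)) else 0

end IC65
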