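import Pool.Agent.IC65.GConc

/-!
# IC65 module G-DEV: the maximum of the deviations

`Y_l = max_{t ∈ S_l} ⟨g,t⟩ - gF (S_l)`.  For `λ > 0`, by Jensen and `conc`
`E max_l |Y_l| ≤ (1/λ) log E exp(λ max_l |Y_l|) ≤ (1/λ) log ∑_l E(exp(λ Y_l) + exp(-λ Y_l)) ≤ (1/λ)(log(2N) + 2 λ² σ²)`
with `N = card α ≤ 2^(2^m)`; `λ = √2^m/σ`, `log(2N) ≤ 2 · 2^m`: `≤ (2 + 2) σ √2^m`.
(Instead of Jensen for `log`: `λ z ≤ exp(λ z - K) + K - 1` for every real `K`.)
-/

open MeasureTheory ProbabilityTheory Finset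
open scoped RealInnerProductSpace

noncomputable section

namespace IC65

variable {n : ℕ}

namespace GDevAux

/-- the bound for one `λ` -/
theorem max_dev_aux {α : Type} [Fintype α] [Nonempty α]
    (S : α → Finset (EuclideanSpace ℝ (Fin n))) (hS : ∀ l, (S l).Nonempty) {σ : ℝ}
    (hσ : ∀ l, ∀ t ∈ S l, ‖t‖ ≤ σ) (lam : ℝ) :
    lam * ∫ g, (univ : Finset α).sup' univ_nonempty
        (fun l => |(S l).sup' (hS l) (fun t => ⟪g, t⟫) - gF (S l)|)
      ∂stdGaussian (EuclideanSpace ℝ (Fin n)) ≤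
      Real.log (2 * Fintype.card α) + 2 * lam ^ 2 * σ ^ 2 := by
  set μ := stdGaussian (EuclideanSpace ℝ (Fin n)) with hμ
  set Y : α → EuclideanSpace ℝ (Fin n) → ℝ := fun l g =>
    (S l).sup' (hS l) (fun t => ⟪g, t⟫) - gF (S l) with hY
  set M : EuclideanSpace ℝ (Fin n) → ℝ := fun g =>
    (univ : Finset α).sup' univ_nonempty (fun l => |Y l g|) with hM
  have hYc : ∀ l, Continuous (Y l) := by
    intro l
    have h : Continuous (fun g : EuclideanSpace ℝ (Fin n) => (S l).sup' (hS l) (fun t => ⟪g, t⟫)) := by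
      apply Continuous.finset_sup'_apply
      intro i _
      fun_prop
    exact h.sub continuous_const
  have hMc : Continuous M := by
    have h : Continuous (fun g => (univ : Finset α).sup' univ_nonempty (fun l => |Y l g|)) := by
      apply Continuous.finset_sup'_apply
      intro l _
      exact (hYc l).abs
    exact h
  have hYi : ∀ l, Integrable (Y l) μ := fun l => (integrable_sup' (hS l)).sub (integrable_const _)
  have hM0 : ∀ g, 0 ≤ M g := by
    intro g
    obtain ⟨l⟩ := (inferInstance : Nonempty α)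
    exact (abs_nonneg _).trans (Finset.le_sup' (fun l => |Y l g|) (mem_univ l))
  have hMle : ∀ g, M g ≤ ∑ l, |Y l g| := by
    intro g
    apply Finset.sup'_le
    intro l _
    exact Finset.single_le_sum (f := fun l => |Y l g|) (fun _ _ => abs_nonneg _) (mem_univ l)
  have hMi : Integrable M μ := by
    refine (integrable_finsetSum univ (fun l _ => (hYi l).abs)).mono' hMc.aestronglyMeasurable
      (Filter.Eventually.of_forall fun g => ?_)
    rw [Real.norm_of_nonneg (hM0 g)]
    exact hMle g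
  -- exponential moments
  have hexp : ∀ (c : ℝ) (l : α), (fun g => Real.exp (c * Y l g)) =
      fun g => Real.exp (c * (S l).sup' (hS l) (fun t => ⟪g, t⟫)) * Real.exp (-(c * gF (S l))) := by
    intro c l
    funext g
    rw [← Real.exp_add]
    congr 1
    simp only [hY]
    ring
  have hei : ∀ (c : ℝ) (l : α), Integrable (fun g => Real.exp (c * Y l g)) μ := by
    intro c l
    rw [hexp]
    exact (integrable_exp_sup (S l) (hS l) c).mul_const _
  have hec : ∀ (c : ℝ) (l : α), ∫ g, Real.exp (c * Y l g) ∂μ ≤ Real.exp (2 * c ^ 2 * σ ^ 2) :=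
    fun c l => conc (S l) (hS l) (hσ l) c
  set N : ℝ := (Fintype.card α : ℝ) with hN
  have hNpos : 0 < N := by
    have := Fintype.card_pos (α := α)
    rw [hN]
    exact_mod_cast this
  set K : ℝ := Real.log (2 * N) + 2 * lam ^ 2 * σ ^ 2 with hK
  have hpt : ∀ g, lam * M g ≤ Real.exp (-K) *
      (∑ l, (Real.exp (lam * Y l g) + Real.exp ((-lam) * Y l g))) + (K - 1) := by
    intro g
    obtain ⟨l, _, hl⟩ := Finset.exists_mem_eq_sup' (univ_nonempty (α := α)) (fun l => |Y l g|)
    have h1 : Real.exp (lam * M g) ≤ ∑ l, (Real.exp (lam * Y l g) + Real.exp ((-lam) * Y l g)) := by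
      have h2 : Real.exp (lam * |Y l g|) ≤ Real.exp (lam * Y l g) + Real.exp ((-lam) * Y l g) := by
        rcases abs_cases (Y l g) with ⟨h5, _⟩ | ⟨h5, _⟩
        · rw [h5]
          linarith [Real.exp_pos ((-lam) * Y l g)]
        · rw [h5]
          have h6 : lam * -Y l g = (-lam) * Y l g := by ring
          rw [h6]
          linarith [Real.exp_pos (lam * Y l g)]
      have h3 : M g = |Y l g| := hl
      rw [h3]
      refine h2.trans ?_
      exact Finset.single_le_sum (f := fun l => Real.exp (lam * Y l g) + Real.exp ((-lam) * Y l g))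
        (fun _ _ => by positivity) (mem_univ l)
    have h4 := Real.add_one_le_exp (lam * M g - K)
    have h5 : Real.exp (lam * M g - K) = Real.exp (-K) * Real.exp (lam * M g) := by
      rw [← Real.exp_add]
      congr 1
      ring
    have h6 := mul_le_mul_of_nonneg_left h1 (Real.exp_pos (-K)).le
    linarith
  have hsi : Integrable (fun g => ∑ l, (Real.exp (lam * Y l g) + Real.exp ((-lam) * Y l g))) μ :=
    integrable_finsetSum univ (fun l _ => (hei lam l).add (hei (-lam) l))
  have hint := integral_mono (μ := μ) (hMi.const_mul lam)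
    ((hsi.const_mul (Real.exp (-K))).add (integrable_const (K - 1))) hpt
  have hr : ∫ g, (Real.exp (-K) *
      (∑ l, (Real.exp (lam * Y l g) + Real.exp ((-lam) * Y l g))) + (K - 1)) ∂μ =
      Real.exp (-K) * (∑ l, ((∫ g, Real.exp (lam * Y l g) ∂μ) + ∫ g, Real.exp ((-lam) * Y l g) ∂μ))
        + (K - 1) := by
    rw [integral_add (hsi.const_mul (Real.exp (-K))) (integrable_const _), integral_const_mul]
    have hfs : ∫ g, (∑ l, (Real.exp (lam * Y l g) + Real.exp ((-lam) * Y l g))) ∂μ =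
        ∑ l, ((∫ g, Real.exp (lam * Y l g) ∂μ) + ∫ g, Real.exp ((-lam) * Y l g) ∂μ) := by
      refine (integral_finsetSum (μ := μ) (univ : Finset α)
        (f := fun l g => Real.exp (lam * Y l g) + Real.exp ((-lam) * Y l g))
        (fun l _ => (hei lam l).add (hei (-lam) l))).trans ?_
      refine Finset.sum_congr rfl fun l _ => ?_
      exact integral_add (hei lam l) (hei (-lam) l)
    rw [hfs]
    congr 1
    simp
  rw [integral_const_mul] at hint
  refine hint.trans ?_
  refine (le_of_eq hr).trans ?_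
  have hs : ∑ l : α, ((∫ g, Real.exp (lam * Y l g) ∂μ) + ∫ g, Real.exp ((-lam) * Y l g) ∂μ) ≤
      2 * N * Real.exp (2 * lam ^ 2 * σ ^ 2) := by
    have h1 : ∀ l ∈ (univ : Finset α), ((∫ g, Real.exp (lam * Y l g) ∂μ) +
        ∫ g, Real.exp ((-lam) * Y l g) ∂μ) ≤ 2 * Real.exp (2 * lam ^ 2 * σ ^ 2) := by
      intro l _
      have h2 := hec lam l
      have h3 := hec (-lam) l
      have h4 : (-lam) ^ 2 = lam ^ 2 := by ring
      rw [h4] at h3
      linarith
    refine (Finset.sum_le_card_nsmul _ _ _ h1).trans (le_of_eq ?_)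
    rw [nsmul_eq_mul, Finset.card_univ]
    ring
  have hs2 := mul_le_mul_of_nonneg_left hs (Real.exp_pos (-K)).le
  have hKe : Real.exp (-K) * (2 * N * Real.exp (2 * lam ^ 2 * σ ^ 2)) = 1 := by
    have h1 : 2 * N = Real.exp (Real.log (2 * N)) := (Real.exp_log (by positivity)).symm
    rw [h1, ← Real.exp_add, ← Real.exp_add, ← hK]
    simp
  linarith

end GDevAux

theorem max_dev {α : Type} [Fintype α] [Nonempty α] (m : ℕ) (hα : Fintype.card α ≤ 2 ^ 2 ^ m)
    (S : α → Finset (EuclideanSpace ℝ (Fin n))) (hS : ∀ l, (S l).Nonempty) {σ : ℝ}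
    (hσ0 : 0 < σ) (hσ : ∀ l, ∀ t ∈ S l, ‖t‖ ≤ σ) :
    ∫ g, (univ : Finset α).sup' univ_nonempty
        (fun l => |(S l).sup' (hS l) (fun t => ⟪g, t⟫) - gF (S l)|)
      ∂stdGaussian (EuclideanSpace ℝ (Fin n)) ≤ 10 * σ * Real.sqrt 2 ^ m := by
  have hq : 0 < Real.sqrt 2 ^ m := pow_pos (Real.sqrt_pos.2 (by norm_num)) m
  have hq2 : (Real.sqrt 2 ^ m) ^ 2 = 2 ^ m := by
    rw [← pow_mul, mul_comm m 2, pow_mul, Real.sq_sqrt (by norm_num)]
  have h := GDevAux.max_dev_aux S hS hσ (Real.sqrt 2 ^ m / σ)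
  set I := ∫ g, (univ : Finset α).sup' univ_nonempty
        (fun l => |(S l).sup' (hS l) (fun t => ⟪g, t⟫) - gF (S l)|)
      ∂stdGaussian (EuclideanSpace ℝ (Fin n)) with hI
  have hcard : (0 : ℝ) < Fintype.card α := by
    have := Fintype.card_pos (α := α)
    exact_mod_cast this
  have hlog2 : Real.log 2 ≤ 1 := by
    have := Real.log_le_sub_one_of_pos (show (0 : ℝ) < 2 by norm_num)
    linarith
  have hlog20 : 0 ≤ Real.log 2 := Real.log_nonneg (by norm_num)
  have h2m : (1 : ℝ) ≤ 2 ^ m := one_le_pow₀ (by norm_num)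
  have hlog : Real.log (2 * Fintype.card α) ≤ 2 * 2 ^ m := by
    rw [Real.log_mul (by norm_num) hcard.ne']
    have h1 : Real.log (Fintype.card α : ℝ) ≤ 2 ^ m * Real.log 2 := by
      have h2 : (Fintype.card α : ℝ) ≤ (2 : ℝ) ^ 2 ^ m := by exact_mod_cast hα
      have h3 := Real.log_le_log hcard h2
      rw [Real.log_pow] at h3
      push_cast at h3
      exact h3
    have h4 : 2 ^ m * Real.log 2 ≤ 2 ^ m * 1 := mul_le_mul_of_nonneg_left hlog2 (by positivity)
    linarith
  have hsq : 2 * (Real.sqrt 2 ^ m / σ) ^ 2 * σ ^ 2 = 2 * 2 ^ m := by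
    rw [div_pow, hq2]
    field_simp
  rw [hsq] at h
  have h5 : Real.sqrt 2 ^ m / σ * I ≤ 4 * 2 ^ m := by linarith
  rw [div_mul_eq_mul_div, div_le_iff₀ hσ0, ← hq2] at h5
  have h6 : Real.sqrt 2 ^ m * I ≤ Real.sqrt 2 ^ m * (4 * σ * Real.sqrt 2 ^ m) := by
    refine h5.trans (le_of_eq ?_)
    ring
  have h7 := le_of_mul_le_mul_left h6 hq
  have h8 : 0 ≤ σ * Real.sqrt 2 ^ m := by positivity
  linarith

end IC65
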