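import Mathlib

/-!
# IC65 module G-SHIFT: the Gaussian measure of a translate of a symmetric set

`μ = stdGaussian (EuclideanSpace ℝ (Fin n))`.
`shift_withDensity`: the image of `μ` under `x ↦ x + y` has the density `exp(⟨x,y⟩ - ‖y‖²/2)`: compare
characteristic functions (`Measure.ext_of_charFun`; the density is a product over the coordinates, reduce to
`Measure.pi` of `gaussianReal 0 1` (`map_pi_eq_stdGaussian`) and in dimension one to
`∫ exp((i t + y) x) dγ = exp((i t + y)²/2)`, `complexMGF`/`mgf` of `gaussianReal`); or reduce directly to the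
densities of one-dimensional Gaussians.
`shift_symm`: if `S` is measurable and `S = -S` then
`μ(y + S) = ∫_S exp(-⟨x,y⟩ - ‖y‖²/2) dμ = exp(-‖y‖²/2) ∫_S cosh⟨x,y⟩ dμ ≥ exp(-‖y‖²/2) μ(S)`
(`μ` is invariant under `x ↦ -x`: `stdGaussian_map`).
-/

open MeasureTheory ProbabilityTheory
open scoped RealInnerProductSpace

noncomputable section

namespace IC65

namespace GShiftAux

variable {n : ℕ}

/-- the density -/
def dens (y : EuclideanSpace ℝ (Fin n)) (x : EuclideanSpace ℝ (Fin n)) : ℝ :=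
  Real.exp (⟪x, y⟫ - ‖y‖ ^ 2 / 2)

theorem dens_meas (y : EuclideanSpace ℝ (Fin n)) : Measurable (dens y) := by
  unfold dens
  fun_prop

theorem dens_nonneg (y x : EuclideanSpace ℝ (Fin n)) : 0 ≤ dens y x := (Real.exp_pos _).le

theorem integral_exp_prod (z : Fin n → ℂ) :
    ∫ x : EuclideanSpace ℝ (Fin n), Complex.exp (∑ i, z i * (x i : ℂ))
      ∂stdGaussian (EuclideanSpace ℝ (Fin n)) = Complex.exp (∑ i, (z i) ^ 2 / 2) := by
  rw [← map_pi_eq_stdGaussian, integral_map (by fun_prop) (by fun_prop)]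
  have h1 : ∀ x : Fin n → ℝ, Complex.exp (∑ i, z i * ((WithLp.toLp 2 x : EuclideanSpace ℝ (Fin n)) i : ℂ)) =
      ∏ i, Complex.exp (z i * (x i : ℂ)) := by
    intro x
    rw [Complex.exp_sum]
  simp_rw [h1]
  rw [integral_fintype_prod_eq_prod (f := fun i (x : ℝ) => Complex.exp (z i * (x : ℂ))), Complex.exp_sum]
  refine Finset.prod_congr rfl fun i _ => ?_
  have h2 := complexMGF_id_gaussianReal (μ := 0) (v := 1) (z i)
  unfold complexMGF at h2
  simp only [id] at h2
  rw [h2]
  congr 1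
  push_cast
  ring

theorem integrable_exp_inner (y : EuclideanSpace ℝ (Fin n)) :
    Integrable (fun x => Real.exp ⟪x, y⟫) (stdGaussian (EuclideanSpace ℝ (Fin n))) := by
  rw [← map_pi_eq_stdGaussian, integrable_map_measure (by fun_prop) (by fun_prop)]
  have h1 : ((fun x : EuclideanSpace ℝ (Fin n) => Real.exp ⟪x, y⟫) ∘ (WithLp.toLp 2)) =
      fun x : Fin n → ℝ => ∏ i, Real.exp (y i * x i) := by
    funext x
    simp only [Function.comp]
    rw [← Real.exp_sum, PiLp.inner_apply]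
    congr 1
  rw [h1]
  exact Integrable.fintype_prod (f := fun i (x : ℝ) => Real.exp (y i * x))
    (fun i => integrable_exp_mul_gaussianReal (y i))

theorem dens_integrable (y : EuclideanSpace ℝ (Fin n)) :
    Integrable (dens y) (stdGaussian (EuclideanSpace ℝ (Fin n))) := by
  have h := (integrable_exp_inner y).mul_const (Real.exp (-(‖y‖ ^ 2 / 2)))
  refine h.congr (Filter.Eventually.of_forall fun x => ?_)
  simp only [dens]
  rw [← Real.exp_add]
  congr 1

theorem shift_withDensity (y : EuclideanSpace ℝ (Fin n)) :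
    (stdGaussian (EuclideanSpace ℝ (Fin n))).map (fun x => x + y) =
      (stdGaussian (EuclideanSpace ℝ (Fin n))).withDensity (fun x => ENNReal.ofReal (dens y x)) := by
  have : IsFiniteMeasure ((stdGaussian (EuclideanSpace ℝ (Fin n))).withDensity
      (fun x => ENNReal.ofReal (dens y x))) := by
    refine isFiniteMeasure_withDensity_ofReal ?_
    exact (dens_integrable y).2
  have : IsFiniteMeasure ((stdGaussian (EuclideanSpace ℝ (Fin n))).map (fun x => x + y)) :=
    Measure.isFiniteMeasure_map _ _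
  apply Measure.ext_of_charFun (E := EuclideanSpace ℝ (Fin n))
  ext t
  rw [charFun_map_add_const, charFun_stdGaussian, charFun_apply,
    integral_withDensity_eq_integral_toReal_smul (by
      exact (dens_meas y).ennreal_ofReal) (Filter.Eventually.of_forall fun x => ENNReal.ofReal_lt_top)]
  have h1 : ∀ x : EuclideanSpace ℝ (Fin n),
      (ENNReal.ofReal (dens y x)).toReal • Complex.exp ((⟪x, t⟫ : ℝ) * Complex.I) =
      Complex.exp (-((‖y‖ : ℝ) : ℂ) ^ 2 / 2) *
        Complex.exp (∑ i, ((y i : ℂ) + (t i : ℂ) * Complex.I) * (x i : ℂ)) := by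
    intro x
    rw [ENNReal.toReal_ofReal (dens_nonneg y x), Complex.real_smul]
    unfold dens
    rw [Complex.ofReal_exp, ← Complex.exp_add, ← Complex.exp_add]
    congr 1
    have e1 : ((⟪x, y⟫ : ℝ) : ℂ) = ∑ i, (y i : ℂ) * (x i : ℂ) := by
      rw [PiLp.inner_apply]
      push_cast
      refine Finset.sum_congr rfl fun i _ => ?_
      simp
    have e2 : ((⟪x, t⟫ : ℝ) : ℂ) = ∑ i, (t i : ℂ) * (x i : ℂ) := by
      rw [PiLp.inner_apply]
      push_cast
      refine Finset.sum_congr rfl fun i _ => ?_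
      simp
    push_cast
    rw [e1, e2]
    have e3 : ∑ i, ((y i : ℂ) + (t i : ℂ) * Complex.I) * (x i : ℂ) =
        (∑ i, (y i : ℂ) * (x i : ℂ)) + (∑ i, (t i : ℂ) * (x i : ℂ)) * Complex.I := by
      rw [Finset.sum_mul, ← Finset.sum_add_distrib]
      refine Finset.sum_congr rfl fun i _ => ?_
      ring
    rw [e3]
    ring
  simp_rw [h1]
  rw [integral_const_mul, integral_exp_prod, ← Complex.exp_add, ← Complex.exp_add]
  congr 1
  have e4 : ((⟪y, t⟫ : ℝ) : ℂ) = ∑ i, (t i : ℂ) * (y i : ℂ) := by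
    rw [PiLp.inner_apply]
    push_cast
    refine Finset.sum_congr rfl fun i _ => ?_
    simp
  have e5 : ((‖y‖ : ℝ) : ℂ) ^ 2 = ∑ i, (y i : ℂ) ^ 2 := by
    rw [← Complex.ofReal_pow, EuclideanSpace.real_norm_sq_eq]
    push_cast
    rfl
  have e6 : ((‖t‖ : ℝ) : ℂ) ^ 2 = ∑ i, (t i : ℂ) ^ 2 := by
    rw [← Complex.ofReal_pow, EuclideanSpace.real_norm_sq_eq]
    push_cast
    rfl
  have e7 : ∑ i, ((y i : ℂ) + (t i : ℂ) * Complex.I) ^ 2 / 2 =
      (∑ i, (y i : ℂ) ^ 2) / 2 + (∑ i, (t i : ℂ) * (y i : ℂ)) * Complex.I - (∑ i, (t i : ℂ) ^ 2) / 2 := by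
    rw [Finset.sum_div, Finset.sum_div, Finset.sum_mul, ← Finset.sum_add_distrib, ← Finset.sum_sub_distrib]
    refine Finset.sum_congr rfl fun i _ => ?_
    have := Complex.I_sq
    linear_combination ((t i : ℂ) ^ 2 / 2) * this
  rw [e4, e5, e6, e7]
  ring

theorem lintegral_neg {S : Set (EuclideanSpace ℝ (Fin n))} (hS : MeasurableSet S)
    (hsym : ∀ x ∈ S, -x ∈ S) (y : EuclideanSpace ℝ (Fin n)) :
    ∫⁻ x in S, ENNReal.ofReal (dens (-y) x) ∂stdGaussian (EuclideanSpace ℝ (Fin n)) =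
      ∫⁻ x in S, ENNReal.ofReal (dens y x) ∂stdGaussian (EuclideanSpace ℝ (Fin n)) := by
  have hmap : (stdGaussian (EuclideanSpace ℝ (Fin n))).map (fun x => -x) =
      stdGaussian (EuclideanSpace ℝ (Fin n)) :=
    stdGaussian_map (E := EuclideanSpace ℝ (Fin n)) (LinearIsometryEquiv.neg ℝ)
  have hmp : MeasurePreserving (fun x : EuclideanSpace ℝ (Fin n) => -x)
      (stdGaussian (EuclideanSpace ℝ (Fin n))) (stdGaussian (EuclideanSpace ℝ (Fin n))) :=
    ⟨measurable_neg, hmap⟩
  have hpre : (fun x : EuclideanSpace ℝ (Fin n) => -x) ⁻¹' S = S := by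
    ext x
    constructor
    · intro h
      have := hsym _ h
      simpa using this
    · intro h
      exact hsym x h
  have h := hmp.setLIntegral_comp_preimage hS (f := fun x => ENNReal.ofReal (dens y x))
    ((dens_meas y).ennreal_ofReal)
  rw [hpre] at h
  rw [← h]
  refine lintegral_congr fun x => ?_
  unfold dens
  simp [inner_neg_left, inner_neg_right]

end GShiftAux

open GShiftAux

theorem shift_symm {n : ℕ} (y : EuclideanSpace ℝ (Fin n)) {S : Set (EuclideanSpace ℝ (Fin n))}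
    (hS : MeasurableSet S) (hsym : ∀ x ∈ S, -x ∈ S) :
    ENNReal.ofReal (Real.exp (-‖y‖ ^ 2 / 2)) * stdGaussian (EuclideanSpace ℝ (Fin n)) S ≤
      stdGaussian (EuclideanSpace ℝ (Fin n)) ((fun x => y + x) '' S) := by
  have h1 : stdGaussian (EuclideanSpace ℝ (Fin n)) ((fun x => y + x) '' S) =
      ∫⁻ x in S, ENNReal.ofReal (dens (-y) x) ∂stdGaussian (EuclideanSpace ℝ (Fin n)) := by
    rw [← withDensity_apply _ hS, ← shift_withDensity (-y), Measure.map_apply (by fun_prop) hS]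
    congr 1
    ext x
    simp only [Set.mem_image, Set.mem_preimage]
    constructor
    · rintro ⟨z, hz, rfl⟩
      simpa using hz
    · intro h
      exact ⟨x + -y, h, by abel⟩
  have h2 : stdGaussian (EuclideanSpace ℝ (Fin n)) ((fun x => y + x) '' S) =
      ∫⁻ x in S, ENNReal.ofReal (dens y x) ∂stdGaussian (EuclideanSpace ℝ (Fin n)) := by
    rw [h1, lintegral_neg hS hsym]
  have h3 : 2 * stdGaussian (EuclideanSpace ℝ (Fin n)) ((fun x => y + x) '' S) =
      ∫⁻ x in S, (ENNReal.ofReal (dens (-y) x) + ENNReal.ofReal (dens y x))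
        ∂stdGaussian (EuclideanSpace ℝ (Fin n)) := by
    rw [lintegral_add_left ((dens_meas (-y)).ennreal_ofReal), ← h1, ← h2]
    ring
  have h4 : 2 * (ENNReal.ofReal (Real.exp (-‖y‖ ^ 2 / 2)) * stdGaussian (EuclideanSpace ℝ (Fin n)) S) ≤
      2 * stdGaussian (EuclideanSpace ℝ (Fin n)) ((fun x => y + x) '' S) := by
    rw [h3, ← mul_assoc, ← setLIntegral_const]
    refine lintegral_mono fun x => ?_
    rw [← ENNReal.ofReal_add (dens_nonneg (-y) x) (dens_nonneg y x)]
    have e : (2 : ENNReal) * ENNReal.ofReal (Real.exp (-‖y‖ ^ 2 / 2)) =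
        ENNReal.ofReal (2 * Real.exp (-‖y‖ ^ 2 / 2)) := by
      rw [ENNReal.ofReal_mul (by norm_num)]
      simp
    rw [e]
    apply ENNReal.ofReal_le_ofReal
    unfold dens
    have k1 : ⟪x, -y⟫ - ‖-y‖ ^ 2 / 2 = -⟪x, y⟫ + (-‖y‖ ^ 2 / 2) := by
      rw [inner_neg_right, norm_neg]
      ring
    have k2 : ⟪x, y⟫ - ‖y‖ ^ 2 / 2 = ⟪x, y⟫ + (-‖y‖ ^ 2 / 2) := by ring
    rw [k1, k2, Real.exp_add, Real.exp_add, ← add_mul]
    have k3 : (2 : ℝ) ≤ Real.exp (-⟪x, y⟫) + Real.exp ⟪x, y⟫ := by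
      have a1 := Real.one_le_cosh ⟪x, y⟫
      rw [Real.cosh_eq] at a1
      linarith
    exact mul_le_mul_of_nonneg_right k3 (Real.exp_pos _).le
  exact (ENNReal.mul_le_mul_iff_right (by norm_num) (by norm_num)).1 h4

end IC65
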