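import Pool.Agent.IC65.GBasic
import Pool.Agent.IC65.GShift

/-!
# IC65 module G-DUAL: the dual Sudakov inequality

Let `W = gam T`, `K(r) = {x | ∀ t ∈ T, |⟨x,t⟩| ≤ r}` (measurable, symmetric).
By Markov `μ(K(2W)) ≥ 1/2` if `W > 0`; if `W = 0` then `t = 0` for all `t ∈ T` (`norm_le_gam`) and `card U ≤ 1` since the
hypothesis `hsep` is impossible for two points.  Let `λ = 4W/r`, `y_s = λ(s - z)`: the sets `y_s + K(2W)`, `s ∈ U`, are
pairwise disjoint (if `x` is in two of them then `λ(s - s') ∈ K(4W)`, `s - s' ∈ K(r)`), their measures are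
`≥ exp(-λ²R²/2)/2` (`shift_symm`), so `card U ≤ 2 exp(8 W² R²/r²)`.
-/

open MeasureTheory ProbabilityTheory Finset
open scoped RealInnerProductSpace

noncomputable section

namespace IC65

variable {n : ℕ}

/-- the polar body of `T` -/
private def polar (T : Finset (EuclideanSpace ℝ (Fin n))) (ρ : ℝ) :
    Set (EuclideanSpace ℝ (Fin n)) := {x | ∀ t ∈ T, |⟪x, t⟫| ≤ ρ}

private theorem polar_meas (T : Finset (EuclideanSpace ℝ (Fin n))) (ρ : ℝ) :
    MeasurableSet (polar T ρ) := by
  have h1 : polar T ρ = ⋂ t ∈ T, {x | |⟪x, t⟫| ≤ ρ} := by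
    ext x
    simp [polar]
  rw [h1]
  refine Finset.measurableSet_biInter _ fun t _ => ?_
  exact (isClosed_le (by fun_prop) continuous_const).measurableSet

private theorem polar_half {T : Finset (EuclideanSpace ℝ (Fin n))} (hT : T.Nonempty)
    (hW : 0 < gam T) :
    ENNReal.ofReal (1 / 2) ≤ stdGaussian (EuclideanSpace ℝ (Fin n)) (polar T (2 * gam T)) := by
  set μ := stdGaussian (EuclideanSpace ℝ (Fin n)) with hμ
  set f : EuclideanSpace ℝ (Fin n) → ℝ := fun g => T.sup' hT (fun x => |⟪g, x⟫|) with hf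
  have hfi : Integrable f μ := integrable_sup'_abs hT
  have hf0 : ∀ g, 0 ≤ f g := by
    intro g
    obtain ⟨t, ht⟩ := hT
    exact (abs_nonneg _).trans (Finset.le_sup' (fun x => |⟪g, x⟫|) ht)
  have hint : ∫ g, f g ∂μ = gam T := by
    rw [gam, dif_pos hT]
  have h1 := mul_meas_ge_le_integral_of_nonneg (μ := μ) (f := f)
    (Filter.Eventually.of_forall hf0) hfi (2 * gam T)
  rw [hint] at h1
  have h2 : μ.real {x | 2 * gam T ≤ f x} ≤ 1 / 2 := by
    have h3 : 2 * gam T * μ.real {x | 2 * gam T ≤ f x} ≤ 2 * gam T * (1 / 2) := by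
      linarith
    exact le_of_mul_le_mul_left h3 (by positivity)
  have h3 : (polar T (2 * gam T))ᶜ ⊆ {x | 2 * gam T ≤ f x} := by
    intro x hx
    simp only [polar, Set.mem_compl_iff, Set.mem_ofPred_eq, not_forall, not_le] at hx
    obtain ⟨t, ht, h4⟩ := hx
    exact h4.le.trans (Finset.le_sup' (fun y => |⟪x, y⟫|) ht)
  have h4 : μ.real (polar T (2 * gam T))ᶜ ≤ 1 / 2 :=
    (measureReal_mono h3).trans h2
  have h5 : μ.real (polar T (2 * gam T))ᶜ = 1 - μ.real (polar T (2 * gam T)) :=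
    probReal_compl_eq_one_sub (polar_meas T _)
  have h6 : 1 / 2 ≤ μ.real (polar T (2 * gam T)) := by linarith
  rw [measureReal_def] at h6
  exact ENNReal.ofReal_le_of_le_toReal h6

theorem dual_sudakov (T U : Finset (EuclideanSpace ℝ (Fin n))) (hT : T.Nonempty)
    (z : EuclideanSpace ℝ (Fin n)) {R r : ℝ} (hR : 0 ≤ R) (hr : 0 < r)
    (hU : ∀ s ∈ U, ‖s - z‖ ≤ R)
    (hsep : ∀ s ∈ U, ∀ s' ∈ U, s ≠ s' → ∃ t ∈ T, r < |⟪s - s', t⟫|) :
    (U.card : ℝ) ≤ 2 * Real.exp (8 * gam T ^ 2 * R ^ 2 / r ^ 2) := by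
  classical
  have hg : 0 ≤ gam T := by
    obtain ⟨x, hx⟩ := hT
    have h1 := norm_le_gam hx
    have h2 := norm_nonneg x
    linarith
  rcases hg.eq_or_lt with hW | hW
  · -- degenerate case
    have h1 : U.card ≤ 1 := by
      rw [Finset.card_le_one]
      intro s hs s' hs'
      by_contra hne
      obtain ⟨t, ht, h2⟩ := hsep s hs s' hs' hne
      have h3 : ‖t‖ ≤ 0 := by
        have h4 := norm_le_gam ht
        rw [← hW, mul_zero] at h4
        exact h4
      have h4 : t = 0 := norm_le_zero_iff.1 h3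
      rw [h4, inner_zero_right, abs_zero] at h2
      linarith
    rw [← hW]
    have h2 : (U.card : ℝ) ≤ 1 := by exact_mod_cast h1
    have h3 : 8 * (0 : ℝ) ^ 2 * R ^ 2 / r ^ 2 = 0 := by ring
    rw [h3, Real.exp_zero]
    linarith
  · set μ := stdGaussian (EuclideanSpace ℝ (Fin n)) with hμ
    set K := polar T (2 * gam T) with hK
    set l : ℝ := 4 * gam T / r with hl
    have hl0 : 0 < l := by positivity
    have hKsym : ∀ x ∈ K, -x ∈ K := by
      intro x hx t ht
      rw [inner_neg_left, abs_neg]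
      exact hx t ht
    set F : EuclideanSpace ℝ (Fin n) → Set (EuclideanSpace ℝ (Fin n)) :=
      fun s => (fun x => l • (s - z) + x) '' K with hF
    have hdisj : (U : Set (EuclideanSpace ℝ (Fin n))).PairwiseDisjoint F := by
      intro s hs s' hs' hne
      rw [Function.onFun, Set.disjoint_left]
      rintro x ⟨k, hk, rfl⟩ ⟨k', hk', hkk⟩
      obtain ⟨t, ht, h2⟩ := hsep s hs s' hs' hne
      have h3 : l • (s - s') = k' - k := by
        have h4 : l • (s' - z) + k' = l • (s - z) + k := hkk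
        have h5 : l • (s - s') = l • (s - z) - l • (s' - z) := by
          rw [← smul_sub, sub_sub_sub_cancel_right]
        rw [h5]
        have h6 : k' = l • (s - z) + k - l • (s' - z) := by
          rw [← h4]
          abel
        rw [h6]
        abel
      have h4 : |⟪l • (s - s'), t⟫| ≤ 4 * gam T := by
        rw [h3, inner_sub_left]
        have h5 := hk t ht
        have h6 := hk' t ht
        have h7 := abs_sub (⟪k', t⟫) (⟪k, t⟫)
        linarith
      rw [real_inner_smul_left, abs_mul, abs_of_pos hl0] at h4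
      have h5 : l * r = 4 * gam T := by
        rw [hl]
        field_simp
      have h6 : l * r < l * |⟪s - s', t⟫| := mul_lt_mul_of_pos_left h2 hl0
      linarith
    have hmeas : ∀ s ∈ U, MeasurableSet (F s) := fun s _ =>
      (measurableEmbedding_addLeft (l • (s - z))).measurableSet_image.2 (polar_meas T _)
    set c : ℝ := Real.exp (-(8 * gam T ^ 2 * R ^ 2 / r ^ 2)) with hc
    have hlow : ∀ s ∈ U, ENNReal.ofReal (c * (1 / 2)) ≤ μ (F s) := by
      intro s hs
      have h1 := shift_symm (l • (s - z)) (polar_meas T (2 * gam T)) hKsym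
      refine le_trans ?_ h1
      rw [ENNReal.ofReal_mul (Real.exp_pos _).le]
      refine mul_le_mul' (ENNReal.ofReal_le_ofReal ?_) (polar_half hT hW)
      refine Real.exp_le_exp.2 ?_
      rw [norm_smul, Real.norm_of_nonneg hl0.le]
      have h2 := hU s hs
      have h3 : ‖s - z‖ ^ 2 ≤ R ^ 2 := pow_le_pow_left₀ (norm_nonneg _) h2 2
      have h4 : l ^ 2 * ‖s - z‖ ^ 2 ≤ l ^ 2 * R ^ 2 :=
        mul_le_mul_of_nonneg_left h3 (sq_nonneg _)
      have h5 : 8 * gam T ^ 2 * R ^ 2 / r ^ 2 = l ^ 2 * R ^ 2 / 2 := by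
        rw [hl]
        field_simp
        ring
      rw [h5, mul_pow]
      linarith
    have hsum : ∑ s ∈ U, μ (F s) ≤ 1 := by
      rw [← measure_biUnion_finset hdisj hmeas]
      exact prob_le_one
    have h1 : ENNReal.ofReal (U.card * (c * (1 / 2))) ≤ ENNReal.ofReal 1 := by
      rw [ENNReal.ofReal_one]
      refine le_trans ?_ hsum
      calc ENNReal.ofReal (U.card * (c * (1 / 2)))
          = ∑ s ∈ U, ENNReal.ofReal (c * (1 / 2)) := by
            rw [Finset.sum_const, nsmul_eq_mul, ENNReal.ofReal_mul (Nat.cast_nonneg _),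
              ENNReal.ofReal_natCast]
        _ ≤ ∑ s ∈ U, μ (F s) := Finset.sum_le_sum hlow
    have h2 : (U.card : ℝ) * (c * (1 / 2)) ≤ 1 := (ENNReal.ofReal_le_ofReal_iff zero_le_one).1 h1
    have h3 : c * Real.exp (8 * gam T ^ 2 * R ^ 2 / r ^ 2) = 1 := by
      rw [hc, ← Real.exp_add, neg_add_cancel, Real.exp_zero]
    have h4 : 0 < Real.exp (8 * gam T ^ 2 * R ^ 2 / r ^ 2) := Real.exp_pos _
    calc (U.card : ℝ) = (U.card : ℝ) * (c * (1 / 2)) *
          (2 * Real.exp (8 * gam T ^ 2 * R ^ 2 / r ^ 2)) := by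
          have : (U.card : ℝ) * (c * (1 / 2)) * (2 * Real.exp (8 * gam T ^ 2 * R ^ 2 / r ^ 2)) =
            U.card * (c * Real.exp (8 * gam T ^ 2 * R ^ 2 / r ^ 2)) := by ring
          rw [this, h3, mul_one]
      _ ≤ 1 * (2 * Real.exp (8 * gam T ^ 2 * R ^ 2 / r ^ 2)) :=
          mul_le_mul_of_nonneg_right h2 (by positivity)
      _ = 2 * Real.exp (8 * gam T ^ 2 * R ^ 2 / r ^ 2) := one_mul _

end IC65
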