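import Pool.Agent.IC65.GBasic

/-!
# IC65 module G-EXP: exponential moments

`⟨g,x⟩` has the law `gaussianReal 0 ‖x‖²` (`mgf_gaussianReal`).  `|max_t ⟨g,t⟩| ≤ max_t |⟨g,t⟩|`, so
`exp(l |max|) ≤ ∑_t (exp(l ⟨g,t⟩) + exp(-l ⟨g,t⟩))`.
-/

open MeasureTheory ProbabilityTheory Finset
open scoped RealInnerProductSpace

noncomputable section

namespace IC65

variable {n : ℕ}

theorem integrable_exp_inner (x : EuclideanSpace ℝ (Fin n)) :
    Integrable (fun g => Real.exp ⟪g, x⟫) (stdGaussian (EuclideanSpace ℝ (Fin n))) := by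
  have h := integrable_exp_mul_gaussianReal (μ := 0) (v := ⟨‖x‖ ^ 2, sq_nonneg _⟩) 1
  rw [← GBasic.map_inner x] at h
  have h2 := h.comp_measurable (f := fun g : EuclideanSpace ℝ (Fin n) => ⟪g, x⟫) (by fun_prop)
  simpa [Function.comp_def] using h2

theorem integral_exp_inner (x : EuclideanSpace ℝ (Fin n)) :
    ∫ g, Real.exp ⟪g, x⟫ ∂stdGaussian (EuclideanSpace ℝ (Fin n)) = Real.exp (‖x‖ ^ 2 / 2) := by
  have h : ∫ g, Real.exp (1 * ⟪g, x⟫) ∂stdGaussian (EuclideanSpace ℝ (Fin n)) =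
      Real.exp (0 * 1 + ‖x‖ ^ 2 * 1 ^ 2 / 2) := mgf_gaussianReal (GBasic.map_inner x) 1
  simpa using h

namespace GExp

theorem abs_mul_sup_le (S : Finset (EuclideanSpace ℝ (Fin n))) (hS : S.Nonempty) (l : ℝ)
    (g : EuclideanSpace ℝ (Fin n)) :
    Real.exp (|l| * |S.sup' hS (fun t => ⟪g, t⟫)|) ≤
      ∑ t ∈ S, (Real.exp ⟪g, l • t⟫ + Real.exp ⟪g, (-l) • t⟫) := by
  obtain ⟨x, hx, hxe⟩ := Finset.exists_mem_eq_sup' hS (fun t => ⟪g, t⟫)
  rw [hxe]
  refine le_trans ?_ (Finset.single_le_sum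
    (f := fun t => Real.exp ⟪g, l • t⟫ + Real.exp ⟪g, (-l) • t⟫) (fun _ _ => by positivity) hx)
  simp only [inner_smul_right]
  rw [← abs_mul]
  rcases abs_cases (l * ⟪g, x⟫) with ⟨h5, _⟩ | ⟨h5, _⟩
  · rw [h5]
    linarith [Real.exp_pos (-l * ⟪g, x⟫)]
  · rw [h5, neg_mul]
    linarith [Real.exp_pos (l * ⟪g, x⟫)]

theorem integrable_bound (S : Finset (EuclideanSpace ℝ (Fin n))) (l : ℝ) :
    Integrable (fun g => ∑ t ∈ S, (Real.exp ⟪g, l • t⟫ + Real.exp ⟪g, (-l) • t⟫))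
      (stdGaussian (EuclideanSpace ℝ (Fin n))) :=
  integrable_finsetSum _ (fun t _ => (integrable_exp_inner (l • t)).add
    (integrable_exp_inner ((-l) • t)))

theorem continuous_sup (S : Finset (EuclideanSpace ℝ (Fin n))) (hS : S.Nonempty) :
    Continuous (fun g : EuclideanSpace ℝ (Fin n) => S.sup' hS (fun t => ⟪g, t⟫)) := by
  apply Continuous.finset_sup'_apply
  intro i _
  fun_prop

end GExp

theorem integrable_exp_sup (S : Finset (EuclideanSpace ℝ (Fin n))) (hS : S.Nonempty) (l : ℝ) :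
    Integrable (fun g => Real.exp (l * S.sup' hS (fun t => ⟪g, t⟫)))
      (stdGaussian (EuclideanSpace ℝ (Fin n))) := by
  refine (GExp.integrable_bound S l).mono'
    (Real.continuous_exp.comp ((GExp.continuous_sup S hS).const_mul l)).aestronglyMeasurable
    (Filter.Eventually.of_forall fun g => ?_)
  rw [Real.norm_eq_abs, abs_of_pos (Real.exp_pos _)]
  refine le_trans (Real.exp_le_exp.mpr ?_) (GExp.abs_mul_sup_le S hS l g)
  rw [← abs_mul]
  exact le_abs_self _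

theorem integrable_exp_abs_sup (S : Finset (EuclideanSpace ℝ (Fin n))) (hS : S.Nonempty) (l : ℝ) :
    Integrable (fun g => Real.exp (l * |S.sup' hS (fun t => ⟪g, t⟫)|))
      (stdGaussian (EuclideanSpace ℝ (Fin n))) := by
  refine (GExp.integrable_bound S l).mono'
    (Real.continuous_exp.comp ((GExp.continuous_sup S hS).abs.const_mul l)).aestronglyMeasurable
    (Filter.Eventually.of_forall fun g => ?_)
  rw [Real.norm_eq_abs, abs_of_pos (Real.exp_pos _)]
  refine le_trans (Real.exp_le_exp.mpr ?_) (GExp.abs_mul_sup_le S hS l g)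
  exact mul_le_mul_of_nonneg_right (le_abs_self _) (abs_nonneg _)

end IC65
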