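import Pool.Agent.IC65.GSud
import Pool.Agent.IC65.GDev

/-!
# IC65 module G-GROW: the growth condition

`t_l ∈ T`, `l < N = 2^(2^m)`, `a`-separated, `H_l` nonempty, `‖s - t_l‖ ≤ a/r` for `s ∈ H_l`, `H_l ⊆ B`, `b ≤ gF (H_l)`.
With `Y_l = max_{s ∈ H_l} ⟨g, s - t_l⟩` (`E Y_l = gF (H_l) = gF (H_l - t_l)`):
`max_{s ∈ B} ⟨g,s⟩ ≥ max_l (⟨g,t_l⟩ + Y_l) ≥ max_l ⟨g,t_l⟩ + b - max_l |Y_l - E Y_l|`, so
`gF B ≥ gF {t_l} + b - 10 (a/r) √2^m` (`max_dev` for `H_l - t_l`), and `gF {t_l} ≥ a √(log N)/√C = c₁ a √2^m`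
(`sudakov_gF`, `log N = 2^m log 2`; `√2^m = √(2^m)`).  Take `r ≥ 8` so large that `10/r ≤ c₁/2`, `c = c₁/2`.
-/

open MeasureTheory ProbabilityTheory Finset
open scoped RealInnerProductSpace

noncomputable section

namespace IC65

namespace GGrowAux

variable {n : ℕ}

theorem integrable_inner (x : EuclideanSpace ℝ (Fin n)) :
    Integrable (fun g => ⟪g, x⟫) (stdGaussian (EuclideanSpace ℝ (Fin n))) := by
  have h := IsGaussian.integrable_dual (stdGaussian (EuclideanSpace ℝ (Fin n))) (innerSL ℝ x)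
  refine h.congr (Filter.Eventually.of_forall (fun g => ?_))
  simp [real_inner_comm]

theorem integral_inner_zero (x : EuclideanSpace ℝ (Fin n)) :
    ∫ g, ⟪g, x⟫ ∂stdGaussian (EuclideanSpace ℝ (Fin n)) = 0 := by
  have h := integral_strongDual_stdGaussian (E := EuclideanSpace ℝ (Fin n)) (innerSL ℝ x)
  rw [← h]
  refine integral_congr_ae (Filter.Eventually.of_forall (fun g => ?_))
  simp [real_inner_comm]

theorem sup_image (T : Finset (EuclideanSpace ℝ (Fin n))) (hT : T.Nonempty)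
    (x₀ : EuclideanSpace ℝ (Fin n)) (hT' : (T.image fun x => x - x₀).Nonempty)
    (g : EuclideanSpace ℝ (Fin n)) :
    (T.image fun x => x - x₀).sup' hT' (fun t => ⟪g, t⟫) =
      T.sup' hT (fun t => ⟪g, t⟫) - ⟪g, x₀⟫ := by
  apply le_antisymm
  · refine Finset.sup'_le _ _ (fun s hs => ?_)
    obtain ⟨s', hs', rfl⟩ := Finset.mem_image.1 hs
    rw [inner_sub_right]
    have := Finset.le_sup' (fun t => ⟪g, t⟫) hs'
    linarith
  · rw [sub_le_iff_le_add]
    refine Finset.sup'_le _ _ (fun s hs => ?_)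
    have := Finset.le_sup' (fun t => ⟪g, t⟫) (Finset.mem_image_of_mem (fun x => x - x₀) hs)
    simp only [inner_sub_right] at this
    linarith

theorem gF_eq (T : Finset (EuclideanSpace ℝ (Fin n))) (hT : T.Nonempty) :
    gF T = ∫ g, T.sup' hT (fun x => ⟪g, x⟫) ∂stdGaussian (EuclideanSpace ℝ (Fin n)) := by
  unfold gF
  rw [dif_pos hT]

theorem gF_image (T : Finset (EuclideanSpace ℝ (Fin n))) (hT : T.Nonempty)
    (x₀ : EuclideanSpace ℝ (Fin n)) : gF (T.image fun x => x - x₀) = gF T := by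
  have hT' : (T.image fun x => x - x₀).Nonempty := hT.image _
  rw [gF_eq _ hT', gF_eq _ hT]
  simp_rw [sup_image T hT x₀ hT']
  rw [integral_sub (integrable_sup' hT) (integrable_inner x₀), integral_inner_zero, sub_zero]

theorem integrable_sup'_fam {α : Type} [Fintype α] [Nonempty α]
    (φ : α → EuclideanSpace ℝ (Fin n) → ℝ)
    (h : ∀ l, Integrable (φ l) (stdGaussian (EuclideanSpace ℝ (Fin n)))) :
    Integrable (fun g => (univ : Finset α).sup' univ_nonempty (fun l => φ l g))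
      (stdGaussian (EuclideanSpace ℝ (Fin n))) := by
  have e : (fun g => (univ : Finset α).sup' univ_nonempty (fun l => φ l g)) =
      (univ : Finset α).sup' univ_nonempty φ := by
    funext g
    rw [Finset.sup'_apply]
  rw [e]
  refine Finset.sup'_induction (p := fun f => Integrable f
    (stdGaussian (EuclideanSpace ℝ (Fin n)))) _ _ (fun f hf g hg => hf.sup hg) (fun l _ => h l)

theorem sqrt_two_pow_sq (m : ℕ) : (Real.sqrt 2 ^ m) ^ 2 = 2 ^ m := by
  rw [← pow_mul, mul_comm, pow_mul, Real.sq_sqrt (by norm_num)]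

theorem main {C r : ℝ} (hC : 1 ≤ C)
    (hsud : ∀ {n : ℕ} (T : Finset (EuclideanSpace ℝ (Fin n)))
    (_ : T.Nonempty) {a : ℝ} (_ : 0 < a) (_ : ∀ s ∈ T, ∀ t ∈ T, s ≠ t → a ≤ ‖s - t‖),
    a ^ 2 * Real.log T.card ≤ C * gF T ^ 2) (hr : 0 < r) (m : ℕ) (a : ℝ) (ha : 0 < a)
    (t : Fin (2 ^ 2 ^ m) → EuclideanSpace ℝ (Fin n))
    (H : Fin (2 ^ 2 ^ m) → Finset (EuclideanSpace ℝ (Fin n)))
    (ht : ∀ l l', l ≠ l' → a ≤ dist (t l) (t l'))
    (hH : ∀ l, (H l).Nonempty ∧ ∀ s ∈ H l, dist s (t l) ≤ a / r)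
    (b : ℝ) (hb : ∀ l, b ≤ gF (H l)) (B : Finset (EuclideanSpace ℝ (Fin n)))
    (hB : ∀ l, H l ⊆ B) :
    b + Real.sqrt (Real.log 2 / C) * a * Real.sqrt 2 ^ m - 10 * (a / r) * Real.sqrt 2 ^ m ≤
      gF B := by
  classical
  have : Nonempty (Fin (2 ^ 2 ^ m)) := ⟨⟨0, by positivity⟩⟩
  have hBne : B.Nonempty := by
    obtain ⟨s, hs⟩ := (hH (Classical.arbitrary _)).1
    exact ⟨s, hB _ hs⟩
  set S : Fin (2 ^ 2 ^ m) → Finset (EuclideanSpace ℝ (Fin n)) :=
    fun l => (H l).image (fun x => x - t l) with hS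
  have hSne : ∀ l, (S l).Nonempty := fun l => (hH l).1.image _
  have hSn : ∀ l, ∀ x ∈ S l, ‖x‖ ≤ a / r := by
    intro l x hx
    obtain ⟨s, hs, rfl⟩ := Finset.mem_image.1 hx
    rw [← dist_eq_norm]
    exact (hH l).2 s hs
  have hdev := max_dev m (by simp) S hSne (σ := a / r) (by positivity) hSn
  set D : EuclideanSpace ℝ (Fin n) → ℝ := fun g =>
    (univ : Finset (Fin (2 ^ 2 ^ m))).sup' univ_nonempty
      (fun l => |(S l).sup' (hSne l) (fun t => ⟪g, t⟫) - gF (S l)|) with hD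
  have hDint : Integrable D (stdGaussian (EuclideanSpace ℝ (Fin n))) := by
    apply integrable_sup'_fam (fun l g => |(S l).sup' (hSne l) (fun t => ⟪g, t⟫) - gF (S l)|)
    intro l
    exact ((integrable_sup' (hSne l)).sub (integrable_const _)).abs
  -- the set of the centres
  set T : Finset (EuclideanSpace ℝ (Fin n)) := univ.image t with hT
  have hTne : T.Nonempty := univ_nonempty.image _
  have hinj : Function.Injective t := by
    intro l l' hll
    by_contra hne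
    have := ht l l' hne
    rw [hll, dist_self] at this
    linarith
  have hcard : T.card = 2 ^ 2 ^ m := by
    rw [hT, Finset.card_image_of_injective _ hinj, Finset.card_univ, Fintype.card_fin]
  have hTsep : ∀ s ∈ T, ∀ s' ∈ T, s ≠ s' → a ≤ ‖s - s'‖ := by
    intro s hs s' hs' hne
    obtain ⟨l, _, rfl⟩ := Finset.mem_image.1 hs
    obtain ⟨l', _, rfl⟩ := Finset.mem_image.1 hs'
    rw [← dist_eq_norm]
    exact ht l l' (fun h => hne (by rw [h]))
  have hs1 := hsud T hTne ha hTsep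
  have hgT : Real.sqrt (Real.log 2 / C) * a * Real.sqrt 2 ^ m ≤ gF T := by
    have h0 := gF_nonneg T
    refine le_of_sq_le_sq ?_ h0
    have hlog : Real.log (T.card : ℝ) = 2 ^ m * Real.log 2 := by
      rw [hcard]
      push_cast
      rw [Real.log_pow]
      push_cast
      ring
    rw [hlog] at hs1
    have hl2 : 0 ≤ Real.log 2 := Real.log_nonneg (by norm_num)
    have e : (Real.sqrt (Real.log 2 / C) * a * Real.sqrt 2 ^ m) ^ 2 =
        (a ^ 2 * (2 ^ m * Real.log 2)) / C := by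
      rw [mul_pow, mul_pow, Real.sq_sqrt (by positivity), sqrt_two_pow_sq]
      ring
    rw [e, div_le_iff₀ (by linarith)]
    linarith
  -- pointwise
  have hpt : ∀ g : EuclideanSpace ℝ (Fin n),
      T.sup' hTne (fun x => ⟪g, x⟫) + (b - D g) ≤ B.sup' hBne (fun x => ⟪g, x⟫) := by
    intro g
    rw [← le_sub_iff_add_le]
    refine Finset.sup'_le _ _ (fun x hx => ?_)
    obtain ⟨l, _, rfl⟩ := Finset.mem_image.1 hx
    have h1 : (H l).sup' (hH l).1 (fun x => ⟪g, x⟫) ≤ B.sup' hBne (fun x => ⟪g, x⟫) :=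
      Finset.sup'_mono _ (hB l) _
    have h2 := sup_image (H l) (hH l).1 (t l) (hSne l) g
    have h3 : |(S l).sup' (hSne l) (fun t => ⟪g, t⟫) - gF (S l)| ≤ D g :=
      Finset.le_sup' (fun l => |(S l).sup' (hSne l) (fun t => ⟪g, t⟫) - gF (S l)|)
        (Finset.mem_univ l)
    have h4 : gF (S l) = gF (H l) := gF_image (H l) (hH l).1 (t l)
    have h5 := (abs_le.1 h3).1
    have h6 := hb l
    have h7 : (S l).sup' (hSne l) (fun t => ⟪g, t⟫) =
        (H l).sup' (hH l).1 (fun t => ⟪g, t⟫) - ⟪g, t l⟫ := h2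
    rw [h4, h7] at h5
    linarith
  have hint := integral_mono (μ := stdGaussian (EuclideanSpace ℝ (Fin n)))
    (f := fun g => T.sup' hTne (fun x => ⟪g, x⟫) + (b - D g))
    (g := fun g => B.sup' hBne (fun x => ⟪g, x⟫))
    ((integrable_sup' hTne).add ((integrable_const b).sub hDint)) (integrable_sup' hBne) hpt
  have e1 : ∫ g, (T.sup' hTne (fun x => ⟪g, x⟫) + (b - D g))
      ∂stdGaussian (EuclideanSpace ℝ (Fin n)) =
      gF T + (b - ∫ g, D g ∂stdGaussian (EuclideanSpace ℝ (Fin n))) := by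
    have h1 : ∫ g, (b - D g) ∂stdGaussian (EuclideanSpace ℝ (Fin n)) =
        b - ∫ g, D g ∂stdGaussian (EuclideanSpace ℝ (Fin n)) := by
      rw [integral_sub (integrable_const b) hDint, integral_const]
      simp
    rw [← h1, gF_eq T hTne]
    exact integral_add (integrable_sup' hTne) ((integrable_const b).sub hDint)
  rw [e1, ← gF_eq B hBne] at hint
  have hdev' : ∫ g, D g ∂stdGaussian (EuclideanSpace ℝ (Fin n)) ≤
      10 * (a / r) * Real.sqrt 2 ^ m := hdev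
  linarith

end GGrowAux

theorem growth : ∃ r c : ℝ, 8 ≤ r ∧ 0 < c ∧ ∀ {n : ℕ} (m : ℕ) (a : ℝ) (_ : 0 < a)
    (t : Fin (2 ^ 2 ^ m) → EuclideanSpace ℝ (Fin n))
    (H : Fin (2 ^ 2 ^ m) → Finset (EuclideanSpace ℝ (Fin n)))
    (_ : ∀ l l', l ≠ l' → a ≤ dist (t l) (t l'))
    (_ : ∀ l, (H l).Nonempty ∧ ∀ s ∈ H l, dist s (t l) ≤ a / r)
    (b : ℝ) (_ : ∀ l, b ≤ gF (H l)) (B : Finset (EuclideanSpace ℝ (Fin n)))
    (_ : ∀ l, H l ⊆ B), b + c * a * Real.sqrt 2 ^ m ≤ gF B := by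
  obtain ⟨C, hC, hsud⟩ := sudakov_gF
  set c₁ : ℝ := Real.sqrt (Real.log 2 / C) with hc₁
  have hl2 : 0 < Real.log 2 := Real.log_pos (by norm_num)
  have hc₁p : 0 < c₁ := Real.sqrt_pos.2 (div_pos hl2 (by linarith))
  refine ⟨max 8 (20 / c₁), c₁ / 2, le_max_left _ _, by positivity, ?_⟩
  intro n m a ha t H ht hH b hb B hB
  have hr : 0 < max 8 (20 / c₁) := lt_of_lt_of_le (by norm_num) (le_max_left _ _)
  have h := GGrowAux.main hC hsud hr m a ha t H ht hH b hb B hB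
  have hs : 0 < Real.sqrt 2 ^ m := by positivity
  have h1 : 10 * (a / max 8 (20 / c₁)) ≤ c₁ / 2 * a := by
    have h2 : 20 / c₁ ≤ max 8 (20 / c₁) := le_max_right _ _
    have h3 : 20 ≤ max 8 (20 / c₁) * c₁ := by
      rw [div_le_iff₀ hc₁p] at h2
      exact h2
    rw [← mul_div_assoc, div_le_iff₀ hr]
    nlinarith
  have h4 : 10 * (a / max 8 (20 / c₁)) * Real.sqrt 2 ^ m ≤ c₁ / 2 * a * Real.sqrt 2 ^ m :=
    mul_le_mul_of_nonneg_right h1 hs.le
  have h5 : c₁ * a * Real.sqrt 2 ^ m = c₁ / 2 * a * Real.sqrt 2 ^ m +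
      c₁ / 2 * a * Real.sqrt 2 ^ m := by ring
  linarith

end IC65
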