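import Pool.Agent.IC65.GDual

/-!
# IC65 module G-SUD: Sudakov's minoration (uses `dual_sudakov`)

`sudakov`: let `T` be `a`-separated, `W = gam T`.  For `s ≠ t` in `T`: `‖s - t‖² = ⟨s-t,s⟩ - ⟨s-t,t⟩`, so
`|⟨s-t,t'⟩| ≥ ‖s - t‖²/2 > ‖s - t‖²/4` for some `t' ∈ {s,t}`.  Let `T = T₀ ⊇ T₁ ⊇ …`, `T_(j+1)` a maximal
`2^(j+1) a`-separated subset of `T_j`; every point of `T_j` is within `2^(j+1) a` of `T_(j+1)`, so by
`dual_sudakov` (`U` = the points of `T_j` within `2^(j+1) a` of a point `z` of `T_(j+1)`, `R = 2^(j+1) a`,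
`r = (2^j a)²/4`) `card T_j ≤ card T_(j+1) · 2 exp(512 W²/(4^j a²))`.  `T_J` is a single point as soon as
`2^J a > diam T`, `diam T ≤ 4 W` (`norm_le_gam`), so `log card T ≤ J log 2 + 700 W²/a²` and `J ≤ log₂(4W/a) + 2`.
If `card T ≥ 2` then `a ≤ 4W`, so everything is `≤ C W²/a²`.  (Induction on `J`: for every `a`-separated `T' ⊆ T`
with `diam < 2^J a` one has `log card T' ≤ …`.)
`sudakov_gF`: translate by a point of `T` (`gam_sub_le`).
-/

open MeasureTheory ProbabilityTheory Finset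
open scoped RealInnerProductSpace

noncomputable section

namespace IC65

variable {n : ℕ}

/-- a maximal `b`-separated subset -/
private theorem exists_net (T : Finset (EuclideanSpace ℝ (Fin n))) {b : ℝ} (hb : 0 < b) :
    ∃ S ⊆ T, (∀ s ∈ S, ∀ t ∈ S, s ≠ t → b ≤ ‖s - t‖) ∧ ∀ x ∈ T, ∃ z ∈ S, ‖x - z‖ < b := by
  classical
  induction T using Finset.induction_on with
  | empty => exact ⟨∅, Finset.Subset.refl _, by simp, by simp⟩
  | insert a T _ ih =>
    obtain ⟨S, hST, hsep, hnet⟩ := ih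
    by_cases h : ∃ z ∈ S, ‖a - z‖ < b
    · refine ⟨S, hST.trans (Finset.subset_insert _ _), hsep, ?_⟩
      intro x hx
      rcases Finset.mem_insert.1 hx with rfl | hx
      · exact h
      · exact hnet x hx
    · push Not at h
      refine ⟨insert a S, Finset.insert_subset_insert _ hST, ?_, ?_⟩
      · intro s hs t ht hst
        rcases Finset.mem_insert.1 hs with h1 | h1
        · rcases Finset.mem_insert.1 ht with h2 | h2
          · exact absurd (h1.trans h2.symm) hst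
          · rw [h1]
            exact h t h2
        · rcases Finset.mem_insert.1 ht with h2 | h2
          · rw [norm_sub_rev, h2]
            exact h s h1
          · exact hsep s h1 t h2 hst
      · intro x hx
        rcases Finset.mem_insert.1 hx with rfl | hx
        · exact ⟨x, Finset.mem_insert_self _ _, by rw [sub_self, norm_zero]; exact hb⟩
        · obtain ⟨z, hz, h2⟩ := hnet x hx
          exact ⟨z, Finset.mem_insert_of_mem hz, h2⟩

private theorem gam_nonneg' {T : Finset (EuclideanSpace ℝ (Fin n))} (hT : T.Nonempty) :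
    0 ≤ gam T := by
  obtain ⟨x, hx⟩ := hT
  have h1 := norm_le_gam hx
  have h2 := norm_nonneg x
  linarith

/-- one level of the chaining -/
private theorem one_level {T T' S : Finset (EuclideanSpace ℝ (Fin n))} (hTT : T' ⊆ T)
    (hT' : T'.Nonempty) {a : ℝ} (ha : 0 < a)
    (hsep : ∀ s ∈ T', ∀ t ∈ T', s ≠ t → a ≤ ‖s - t‖)
    (hnet : ∀ x ∈ T', ∃ z ∈ S, ‖x - z‖ < 2 * a) :
    (T'.card : ℝ) ≤ S.card * (2 * Real.exp (512 * gam T ^ 2 / a ^ 2)) := by
  classical
  have hT : T.Nonempty := hT'.mono hTT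
  set U : EuclideanSpace ℝ (Fin n) → Finset (EuclideanSpace ℝ (Fin n)) :=
    fun z => T'.filter fun s => ‖s - z‖ ≤ 2 * a with hU
  have h1 : ∀ z, ((U z).card : ℝ) ≤ 2 * Real.exp (512 * gam T ^ 2 / a ^ 2) := by
    intro z
    have h2 := dual_sudakov T (U z) hT z (R := 2 * a) (r := a ^ 2 / 4) (by positivity)
      (by positivity) (fun s hs => (Finset.mem_filter.1 hs).2) (by
        intro s hs s' hs' hne
        have hs1 := (Finset.mem_filter.1 hs).1
        have hs1' := (Finset.mem_filter.1 hs').1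
        have hd := hsep s hs1 s' hs1' hne
        have h3 : ⟪s - s', s⟫ - ⟪s - s', s'⟫ = ‖s - s'‖ ^ 2 := by
          rw [← inner_sub_right, real_inner_self_eq_norm_sq]
        have h4 : a ^ 2 ≤ ‖s - s'‖ ^ 2 := by
          exact pow_le_pow_left₀ ha.le hd 2
        have h5 : 0 < a ^ 2 := by positivity
        by_cases h6 : a ^ 2 / 4 < |⟪s - s', s⟫|
        · exact ⟨s, hTT hs1, h6⟩
        · refine ⟨s', hTT hs1', ?_⟩
          push Not at h6
          have h7 := le_abs_self (⟪s - s', s⟫)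
          have h8 := neg_abs_le (⟪s - s', s'⟫)
          linarith)
    have h9 : 8 * gam T ^ 2 * (2 * a) ^ 2 / (a ^ 2 / 4) ^ 2 = 512 * gam T ^ 2 / a ^ 2 := by
      field_simp
      ring
    rw [h9] at h2
    exact h2
  have h2 : T' ⊆ S.biUnion U := by
    intro x hx
    obtain ⟨z, hz, h3⟩ := hnet x hx
    exact Finset.mem_biUnion.2 ⟨z, hz, Finset.mem_filter.2 ⟨hx, h3.le⟩⟩
  calc (T'.card : ℝ) ≤ ((S.biUnion U).card : ℝ) := by exact_mod_cast Finset.card_le_card h2
    _ ≤ ∑ z ∈ S, ((U z).card : ℝ) := by exact_mod_cast Finset.card_biUnion_le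
    _ ≤ ∑ z ∈ S, 2 * Real.exp (512 * gam T ^ 2 / a ^ 2) := Finset.sum_le_sum fun z _ => h1 z
    _ = S.card * (2 * Real.exp (512 * gam T ^ 2 / a ^ 2)) := by
        rw [Finset.sum_const, nsmul_eq_mul]

private theorem levels (T : Finset (EuclideanSpace ℝ (Fin n))) (J : ℕ) :
    ∀ (T' : Finset (EuclideanSpace ℝ (Fin n))), T' ⊆ T → T'.Nonempty → ∀ {a : ℝ}, 0 < a →
      (∀ s ∈ T', ∀ t ∈ T', s ≠ t → a ≤ ‖s - t‖) →
      (∀ s ∈ T', ∀ t ∈ T', ‖s - t‖ < 2 ^ J * a) →
      Real.log T'.card ≤ J * Real.log 2 + (1 - (1 / 4) ^ J) * (2048 / 3 * gam T ^ 2 / a ^ 2) := by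
  induction J with
  | zero =>
    intro T' _ hne a ha hsep hd
    have h1 : T'.card ≤ 1 := by
      rw [Finset.card_le_one]
      intro s hs t ht
      by_contra hst
      have h2 := hsep s hs t ht hst
      have h3 := hd s hs t ht
      rw [pow_zero, one_mul] at h3
      linarith
    have h2 : T'.card = 1 := le_antisymm h1 hne.card_pos
    rw [h2]
    simp
  | succ J ih =>
    intro T' hTT hne a ha hsep hd
    obtain ⟨S, hST, hS, hnet⟩ := exists_net T' (b := 2 * a) (by positivity)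
    have hSne : S.Nonempty := by
      obtain ⟨x, hx⟩ := hne
      obtain ⟨z, hz, _⟩ := hnet x hx
      exact ⟨z, hz⟩
    have h1 := ih S (hST.trans hTT) hSne (a := 2 * a) (by positivity) hS (by
      intro s hs t ht
      have h2 := hd s (hST hs) t (hST ht)
      have h3 : (2 : ℝ) ^ (J + 1) * a = 2 ^ J * (2 * a) := by ring
      rwa [h3] at h2)
    have h2 := one_level hTT hne ha hsep hnet
    have hS0 : (0 : ℝ) < S.card := by exact_mod_cast hSne.card_pos
    have hT0 : (0 : ℝ) < T'.card := by exact_mod_cast hne.card_pos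
    have h3 : Real.log T'.card ≤ Real.log S.card + (Real.log 2 + 512 * gam T ^ 2 / a ^ 2) := by
      have h4 := Real.log_le_log hT0 h2
      rw [Real.log_mul hS0.ne' (by positivity), Real.log_mul (by norm_num)
        (Real.exp_pos _).ne', Real.log_exp] at h4
      exact h4
    have h5 : (2048 / 3 * gam T ^ 2 / (2 * a) ^ 2) = (2048 / 3 * gam T ^ 2 / a ^ 2) / 4 := by
      field_simp
      ring
    rw [h5] at h1
    have h6 : 512 * gam T ^ 2 / a ^ 2 = 3 / 4 * (2048 / 3 * gam T ^ 2 / a ^ 2) := by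
      ring
    rw [h6] at h3
    push_cast
    have h7 : (1 - (1 / 4 : ℝ) ^ (J + 1)) = 3 / 4 + (1 - (1 / 4 : ℝ) ^ J) / 4 := by
      rw [pow_succ]
      ring
    rw [h7]
    nlinarith [h1, h3]

theorem sudakov : ∃ C : ℝ, 1 ≤ C ∧ ∀ {n : ℕ} (T : Finset (EuclideanSpace ℝ (Fin n)))
    (_ : T.Nonempty) {a : ℝ} (_ : 0 < a) (_ : ∀ s ∈ T, ∀ t ∈ T, s ≠ t → a ≤ ‖s - t‖),
    a ^ 2 * Real.log T.card ≤ C * gam T ^ 2 := by
  refine ⟨720, by norm_num, ?_⟩
  intro n T hT a ha hsep
  have hg := gam_nonneg' hT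
  rcases Nat.lt_or_ge 1 T.card with hc | hc
  · obtain ⟨s, hs, t, ht, hst⟩ := Finset.one_lt_card.1 hc
    have hdiam : ∀ s ∈ T, ∀ t ∈ T, ‖s - t‖ ≤ 4 * gam T := by
      intro s hs t ht
      have h1 := norm_sub_le s t
      have h2 := norm_le_gam hs
      have h3 := norm_le_gam ht
      linarith
    have ha4 : a ≤ 4 * gam T := (hsep s hs t ht hst).trans (hdiam s hs t ht)
    set x : ℝ := 4 * gam T / a with hx
    have hx1 : 1 ≤ x := by
      rw [hx, le_div_iff₀ ha, one_mul]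
      exact ha4
    set J : ℕ := ⌊x⌋₊ + 1 with hJ
    have hJx : x < J := by
      rw [hJ]
      push_cast
      exact Nat.lt_floor_add_one x
    have hJ2 : (J : ℝ) ≤ x + 1 := by
      rw [hJ]
      push_cast
      have := Nat.floor_le (zero_le_one.trans hx1)
      linarith
    have hpow : x < 2 ^ J := by
      refine hJx.trans ?_
      exact_mod_cast Nat.lt_two_pow_self
    have h1 := levels T J T (Finset.Subset.refl _) hT ha hsep (by
      intro s hs t ht
      refine (hdiam s hs t ht).trans_lt ?_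
      have h2 : 4 * gam T = x * a := by
        rw [hx]
        field_simp
      rw [h2]
      exact mul_lt_mul_of_pos_right hpow ha)
    have hlog : Real.log 2 ≤ 1 := by
      have := Real.log_two_lt_d9
      linarith
    have hlog0 : 0 ≤ Real.log 2 := Real.log_nonneg (by norm_num)
    have hq : 0 ≤ 2048 / 3 * gam T ^ 2 / a ^ 2 := by positivity
    have hp : (0 : ℝ) ≤ (1 / 4) ^ J := by positivity
    have h2 : Real.log T.card ≤ 2 * x ^ 2 + 2048 / 3 * gam T ^ 2 / a ^ 2 := by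
      have h3 : (J : ℝ) * Real.log 2 ≤ 2 * x ^ 2 := by
        have h4 : (J : ℝ) * Real.log 2 ≤ J * 1 :=
          mul_le_mul_of_nonneg_left hlog (Nat.cast_nonneg _)
        nlinarith
      have h5 : (1 - (1 / 4 : ℝ) ^ J) * (2048 / 3 * gam T ^ 2 / a ^ 2) ≤
          1 * (2048 / 3 * gam T ^ 2 / a ^ 2) :=
        mul_le_mul_of_nonneg_right (by linarith) hq
      linarith
    have h3 : 2 * x ^ 2 + 2048 / 3 * gam T ^ 2 / a ^ 2 =
        (32 + 2048 / 3) * gam T ^ 2 / a ^ 2 := by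
      rw [hx]
      field_simp
      ring
    rw [h3] at h2
    have h4 : a ^ 2 * Real.log T.card ≤ a ^ 2 * ((32 + 2048 / 3) * gam T ^ 2 / a ^ 2) :=
      mul_le_mul_of_nonneg_left h2 (by positivity)
    have h5 : a ^ 2 * ((32 + 2048 / 3) * gam T ^ 2 / a ^ 2) = (32 + 2048 / 3) * gam T ^ 2 := by
      field_simp
    rw [h5] at h4
    nlinarith [sq_nonneg (gam T)]
  · have h1 : T.card = 1 := le_antisymm hc hT.card_pos
    rw [h1, Nat.cast_one, Real.log_one, mul_zero]
    positivity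

theorem sudakov_gF : ∃ C : ℝ, 1 ≤ C ∧ ∀ {n : ℕ} (T : Finset (EuclideanSpace ℝ (Fin n)))
    (_ : T.Nonempty) {a : ℝ} (_ : 0 < a) (_ : ∀ s ∈ T, ∀ t ∈ T, s ≠ t → a ≤ ‖s - t‖),
    a ^ 2 * Real.log T.card ≤ C * gF T ^ 2 := by
  classical
  obtain ⟨C, hC, h⟩ := sudakov
  refine ⟨4 * C, by linarith, ?_⟩
  intro n T hT a ha hsep
  obtain ⟨x₀, hx₀⟩ := hT
  have hne : (T.image fun x => x - x₀).Nonempty := ⟨x₀ - x₀, Finset.mem_image_of_mem _ hx₀⟩
  have h1 := h (T.image fun x => x - x₀) hne ha (by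
    intro s hs t ht hst
    obtain ⟨s', hs', rfl⟩ := Finset.mem_image.1 hs
    obtain ⟨t', ht', rfl⟩ := Finset.mem_image.1 ht
    rw [sub_sub_sub_cancel_right]
    exact hsep s' hs' t' ht' fun e => hst (by rw [e]))
  have h2 : (T.image fun x => x - x₀).card = T.card :=
    Finset.card_image_of_injective _ (sub_left_injective)
  rw [h2] at h1
  have h3 := gam_sub_le hx₀
  have h4 := gam_nonneg' hne
  have h5 : gam (T.image fun x => x - x₀) ^ 2 ≤ (2 * gF T) ^ 2 := pow_le_pow_left₀ h4 h3 2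
  have h6 : C * gam (T.image fun x => x - x₀) ^ 2 ≤ C * (2 * gF T) ^ 2 :=
    mul_le_mul_of_nonneg_left h5 (by linarith)
  calc a ^ 2 * Real.log T.card ≤ C * gam (T.image fun x => x - x₀) ^ 2 := h1
    _ ≤ C * (2 * gF T) ^ 2 := h6
    _ = 4 * C * gF T ^ 2 := by ring

end IC65
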