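import Pool.Agent.IC65.Defs

/-!
# IC65 module PSI-B: from the moment generating function to `E exp(Z²/(8σ²)) ≤ 2`

`exp(Z²/(8σ²)) = ∫ exp(g Z/(2σ)) dγ(g)` for the standard Gaussian `γ = gaussianReal 0 1`
(`mgf_gaussianReal`), so the sum is `≤ P ∫ exp(g²/4) dγ = √2 P` (a Gaussian integral).
-/

open Finset

noncomputable section

namespace IC65

namespace PsiBA

open Real MeasureTheory

/-- the Gaussian integral with a linear term, `∫ exp(t x - x²/2) = √(2π) exp(t²/2)` -/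
theorem int_lin (t : ℝ) : ∫ x : ℝ, exp (t * x) * exp (-(1 / 2) * x ^ 2) =
    sqrt (2 * π) * exp (t ^ 2 / 2) := by
  have h1 : ∀ x : ℝ, exp (t * x) * exp (-(1 / 2) * x ^ 2) =
      exp (t ^ 2 / 2) * exp (-(1 / 2) * (x - t) ^ 2) := by
    intro x
    rw [← exp_add, ← exp_add]
    congr 1
    ring
  simp only [h1]
  rw [integral_const_mul, integral_sub_right_eq_self (fun x : ℝ => exp (-(1 / 2) * x ^ 2)) t,
    integral_gaussian, mul_comm]
  congr 2
  ring

theorem integrable_lin (t : ℝ) :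
    Integrable fun x : ℝ => exp (t * x) * exp (-(1 / 2) * x ^ 2) := by
  have h1 : ∀ x : ℝ, exp (t * x) * exp (-(1 / 2) * x ^ 2) =
      exp (t ^ 2 / 2) * exp (-(1 / 2) * (x - t) ^ 2) := by
    intro x
    rw [← exp_add, ← exp_add]
    congr 1
    ring
  simp only [h1]
  exact ((integrable_exp_neg_mul_sq (b := 1 / 2) (by norm_num)).comp_sub_right t).const_mul _

theorem int_quarter : ∫ x : ℝ, exp (x ^ 2 / 4) * exp (-(1 / 2) * x ^ 2) = sqrt (4 * π) := by
  have h1 : ∀ x : ℝ, exp (x ^ 2 / 4) * exp (-(1 / 2) * x ^ 2) = exp (-(1 / 4) * x ^ 2) := by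
    intro x
    rw [← exp_add]
    congr 1
    ring
  simp only [h1]
  rw [integral_gaussian]
  congr 1
  ring

theorem integrable_quarter :
    Integrable fun x : ℝ => exp (x ^ 2 / 4) * exp (-(1 / 2) * x ^ 2) := by
  have h1 : ∀ x : ℝ, exp (x ^ 2 / 4) * exp (-(1 / 2) * x ^ 2) = exp (-(1 / 4) * x ^ 2) := by
    intro x
    rw [← exp_add]
    congr 1
    ring
  simp only [h1]
  exact integrable_exp_neg_mul_sq (by norm_num)

end PsiBA

variable {Ω : Type}

open PsiBA in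
theorem mgf_sq (S : Finset Ω) (p Z : Ω → ℝ) (hp : ∀ ω ∈ S, 0 ≤ p ω) {σ : ℝ} (hσ : 0 < σ)
    (h : ∀ l : ℝ, ∑ ω ∈ S, p ω * Real.exp (l * Z ω) ≤
      (∑ ω ∈ S, p ω) * Real.exp (l ^ 2 * σ ^ 2)) :
    ∑ ω ∈ S, p ω * Real.exp (Z ω ^ 2 / (8 * σ ^ 2)) ≤ 2 * ∑ ω ∈ S, p ω := by
  have hP : 0 ≤ ∑ ω ∈ S, p ω := sum_nonneg hp
  have hpi : 0 < Real.sqrt (2 * Real.pi) := Real.sqrt_pos.2 (by positivity)
  -- the left side times `√(2π)` is an integral
  have h1 : Real.sqrt (2 * Real.pi) * ∑ ω ∈ S, p ω * Real.exp (Z ω ^ 2 / (8 * σ ^ 2)) =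
      ∫ x : ℝ, (∑ ω ∈ S, p ω * Real.exp (x / (2 * σ) * Z ω)) *
        Real.exp (-(1 / 2) * x ^ 2) := by
    simp only [sum_mul]
    rw [MeasureTheory.integral_finsetSum]
    · rw [mul_sum]
      apply sum_congr rfl
      intro ω _
      have h2 := int_lin (Z ω / (2 * σ))
      have h3 : (Z ω / (2 * σ)) ^ 2 / 2 = Z ω ^ 2 / (8 * σ ^ 2) := by
        field_simp
        ring
      rw [h3] at h2
      have h4 : ∀ x : ℝ, p ω * Real.exp (x / (2 * σ) * Z ω) * Real.exp (-(1 / 2) * x ^ 2) =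
          p ω * (Real.exp (Z ω / (2 * σ) * x) * Real.exp (-(1 / 2) * x ^ 2)) := by
        intro x
        rw [show x / (2 * σ) * Z ω = Z ω / (2 * σ) * x by ring]
        ring
      simp only [h4]
      rw [MeasureTheory.integral_const_mul, h2]
      ring
    · intro ω _
      have h4 : ∀ x : ℝ, p ω * Real.exp (x / (2 * σ) * Z ω) * Real.exp (-(1 / 2) * x ^ 2) =
          p ω * (Real.exp (Z ω / (2 * σ) * x) * Real.exp (-(1 / 2) * x ^ 2)) := by
        intro x
        rw [show x / (2 * σ) * Z ω = Z ω / (2 * σ) * x by ring]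
        ring
      simp only [h4]
      exact (integrable_lin _).const_mul _
  have h2 : ∫ x : ℝ, (∑ ω ∈ S, p ω * Real.exp (x / (2 * σ) * Z ω)) *
        Real.exp (-(1 / 2) * x ^ 2) ≤
      ∫ x : ℝ, (∑ ω ∈ S, p ω) * (Real.exp (x ^ 2 / 4) * Real.exp (-(1 / 2) * x ^ 2)) := by
    apply MeasureTheory.integral_mono_of_nonneg
    · filter_upwards with x
      simp only [Pi.zero_apply]
      exact mul_nonneg (sum_nonneg fun ω hω => mul_nonneg (hp ω hω) (Real.exp_pos _).le)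
        (Real.exp_pos _).le
    · exact integrable_quarter.const_mul _
    · filter_upwards with x
      have h3 := h (x / (2 * σ))
      have h4 : (x / (2 * σ)) ^ 2 * σ ^ 2 = x ^ 2 / 4 := by
        field_simp
        ring
      rw [h4] at h3
      calc _ ≤ (∑ ω ∈ S, p ω) * Real.exp (x ^ 2 / 4) * Real.exp (-(1 / 2) * x ^ 2) :=
            mul_le_mul_of_nonneg_right h3 (Real.exp_pos _).le
        _ = _ := by ring
  rw [MeasureTheory.integral_const_mul, int_quarter, ← h1] at h2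
  have h5 : Real.sqrt (4 * Real.pi) ≤ Real.sqrt (2 * Real.pi) * 2 := by
    apply Real.sqrt_le_iff.2
    refine ⟨by positivity, ?_⟩
    rw [mul_pow, Real.sq_sqrt (by positivity)]
    have := Real.pi_pos
    linarith
  have h6 : Real.sqrt (2 * Real.pi) * ∑ ω ∈ S, p ω * Real.exp (Z ω ^ 2 / (8 * σ ^ 2)) ≤
      Real.sqrt (2 * Real.pi) * (2 * ∑ ω ∈ S, p ω) := by
    refine h2.trans ?_
    have := mul_le_mul_of_nonneg_left h5 hP
    linarith
  exact le_of_mul_le_mul_left h6 hpi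

end IC65
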