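import Pool.Agent.IC65.HWDefs
import Pool.Agent.IC65.PsiB

/-!
# IC65 module HW-A: linear forms on the product space

The moment generating function of `Z = ∑ ⟨X_i, v_i⟩` is
`∏_i ∑_a p_i(a) exp(l ⟨X_i a, v_i⟩) ≤ ∏_i P_i exp(l² s_i² ‖v_i‖²)` (`Ep_prod`, `Sg` at `l • v_i`), then
`mgf_sq` on the product space (weights `∏ p_i(ω_i)`) with `σ² = ∑ s_i² ‖v_i‖²` (if all `v_i = 0` the
exponent is `0/0 = 0`).
-/

open Finset
open scoped RealInnerProductSpace

noncomputable section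

namespace IC65

variable {ι : Type} [Fintype ι] [DecidableEq ι] {Ω : ι → Type} [∀ i, Fintype (Ω i)]
  {E : Type} [NormedAddCommGroup E] [InnerProductSpace ℝ E]

theorem lin_sq (p : ∀ i, Ω i → ℝ) (hp : ∀ i a, 0 ≤ p i a) (X : ∀ i, Ω i → E) (s : ι → ℝ)
    (hs : ∀ i, 0 < s i) (hX : ∀ i, Sg univ (p i) (X i) (s i)) (v : ι → E) :
    Ep p (fun ω => Real.exp ((∑ i, ⟪X i (ω i), v i⟫) ^ 2 / (8 * ∑ i, s i ^ 2 * ‖v i‖ ^ 2))) ≤
      2 * ∏ i, ∑ a, p i a := by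
  have _ := hs
  have hP0 : 0 ≤ ∏ i, ∑ a, p i a := prod_nonneg fun i _ => sum_nonneg fun a _ => hp i a
  have hσ0 : 0 ≤ ∑ i, s i ^ 2 * ‖v i‖ ^ 2 := sum_nonneg fun i _ => by positivity
  have htot : ∑ ω : ∀ i, Ω i, ∏ i, p i (ω i) = ∏ i, ∑ a, p i a := by
    rw [← Ep_one p]
    simp [Ep]
  rcases hσ0.eq_or_lt with hσ | hσ
  · rw [← hσ]
    simp only [mul_zero, div_zero, Real.exp_zero]
    rw [Ep_one]
    linarith
  · set σ := Real.sqrt (∑ i, s i ^ 2 * ‖v i‖ ^ 2) with hσd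
    have hσ1 : 0 < σ := Real.sqrt_pos.2 hσ
    have hσ2 : σ ^ 2 = ∑ i, s i ^ 2 * ‖v i‖ ^ 2 := Real.sq_sqrt hσ0
    have hmgf : ∀ l : ℝ, ∑ ω ∈ (univ : Finset (∀ i, Ω i)), (∏ i, p i (ω i)) *
        Real.exp (l * ∑ i, ⟪X i (ω i), v i⟫) ≤
        (∑ ω ∈ (univ : Finset (∀ i, Ω i)), ∏ i, p i (ω i)) * Real.exp (l ^ 2 * σ ^ 2) := by
      intro l
      have h1 : ∑ ω ∈ (univ : Finset (∀ i, Ω i)), (∏ i, p i (ω i)) *
          Real.exp (l * ∑ i, ⟪X i (ω i), v i⟫) =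
          ∏ i, ∑ a, p i a * Real.exp ⟪X i a, l • v i⟫ := by
        rw [← Ep_prod p (fun i a => Real.exp ⟪X i a, l • v i⟫)]
        unfold Ep
        apply sum_congr rfl
        intro ω _
        congr 1
        change Real.exp (l * ∑ i, ⟪X i (ω i), v i⟫) = ∏ i, Real.exp ⟪X i (ω i), l • v i⟫
        rw [← Real.exp_sum, mul_sum]
        congr 1
        apply sum_congr rfl
        intro i _
        rw [inner_smul_right]
      have h2 : Real.exp (l ^ 2 * σ ^ 2) = ∏ i, Real.exp (s i ^ 2 * ‖l • v i‖ ^ 2) := by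
        rw [← Real.exp_sum, hσ2, mul_sum]
        congr 1
        apply sum_congr rfl
        intro i _
        rw [norm_smul, mul_pow, Real.norm_eq_abs, sq_abs]
        ring
      rw [h1, h2, htot, ← prod_mul_distrib]
      apply prod_le_prod
      · intro i _
        exact sum_nonneg fun a _ => mul_nonneg (hp i a) (Real.exp_pos _).le
      · intro i _
        exact hX i (l • v i)
    have h3 := mgf_sq (univ : Finset (∀ i, Ω i)) (fun ω => ∏ i, p i (ω i))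
      (fun ω => ∑ i, ⟪X i (ω i), v i⟫) (fun ω _ => prod_nonneg fun i _ => hp i _) hσ1 hmgf
    rw [htot, hσ2] at h3
    exact h3

end IC65
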