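import Pool.Agent.IC65.Basic

/-!
# IC65 module HW-S: averages over the subsets

Expand the inner products; for `i ≠ j` the number of subsets `I` with `i ∈ I`, `j ∉ I` is `2^(n-2)`, and the number
of `I` with `j ∉ I` is `2^(n-1)`, the number of `I` with `j, l ∉ I` (`j ≠ l`) is `2^(n-2)`.
-/

open Finset
open scoped RealInnerProductSpace

noncomputable section

namespace IC65

variable {ι : Type} [Fintype ι] [DecidableEq ι]
  {E : Type} [NormedAddCommGroup E] [InnerProductSpace ℝ E]

private theorem hws_mem (I : Finset ι) (P : ι → Prop) [DecidablePred P] :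
    (∏ k ∈ I, if P k then (1 : ℝ) else 0) = if ∀ k ∈ I, P k then 1 else 0 := by
  by_cases h : ∀ k ∈ I, P k
  · rw [if_pos h]
    exact prod_eq_one fun k hk => if_pos (h k hk)
  · rw [if_neg h]
    push Not at h
    obtain ⟨k, hk, hk'⟩ := h
    exact prod_eq_zero hk (if_neg hk')

private theorem hws_prod (f g : ι → ℝ) :
    ∑ I : Finset ι, (∏ k ∈ I, f k) * ∏ k ∈ Iᶜ, g k = ∏ k, (f k + g k) := by
  rw [Finset.prod_add, Finset.powerset_univ]
  exact Finset.sum_congr rfl fun I _ => by rw [Finset.compl_eq_univ_sdiff]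

private theorem hws_half (c : ℝ) (i j : ι) :
    (∏ k : ι, (2 * (if k = i then c else 1) * (if k = j then (1 / 2 : ℝ) else 1))) =
      2 ^ Fintype.card ι * c * (1 / 2) := by
  rw [prod_mul_distrib, prod_mul_distrib, prod_const, Finset.card_univ, prod_ite_eq' univ i,
    prod_ite_eq' univ j]
  simp

private theorem hws_count1 (i j : ι) :
    ∑ I : Finset ι, (if i ∈ I then (1 : ℝ) else 0) * (if j ∈ Iᶜ then 1 else 0) =
      if i = j then 0 else 2 ^ Fintype.card ι / 4 := by
  have h1 : ∀ I : Finset ι, (if i ∈ I then (1 : ℝ) else 0) * (if j ∈ Iᶜ then 1 else 0) =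
      (∏ k ∈ I, if k ≠ j then (1 : ℝ) else 0) * ∏ k ∈ Iᶜ, if k ≠ i then (1 : ℝ) else 0 := by
    intro I
    rw [hws_mem, hws_mem, mul_comm]
    congr 1
    · refine if_congr ?_ rfl rfl
      rw [mem_compl]
      constructor
      · rintro h k hk rfl
        exact h hk
      · intro h hj
        exact h j hj rfl
    · refine if_congr ?_ rfl rfl
      constructor
      · rintro h k hk rfl
        exact (mem_compl.1 hk) h
      · intro h
        by_contra hi
        exact h i (mem_compl.2 hi) rfl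
  rw [sum_congr rfl fun I _ => h1 I, hws_prod]
  by_cases hij : i = j
  · subst hij
    rw [if_pos rfl]
    exact prod_eq_zero (mem_univ i) (by simp)
  · rw [if_neg hij]
    have h2 : ∀ k : ι, ((if k ≠ j then (1 : ℝ) else 0) + if k ≠ i then (1 : ℝ) else 0) =
        2 * (if k = i then (1 / 2 : ℝ) else 1) * (if k = j then (1 / 2 : ℝ) else 1) := by
      intro k
      by_cases hki : k = i
      · subst hki
        simp [hij]
      · by_cases hkj : k = j
        · subst hkj
          simp [hki]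
        · simp only [hki, hkj, ne_eq, not_false_eq_true, if_true, if_false]
          norm_num
    rw [prod_congr rfl fun k _ => h2 k, hws_half]
    ring

private theorem hws_count2 (j l : ι) :
    ∑ I : Finset ι, (if j ∈ Iᶜ then (1 : ℝ) else 0) * (if l ∈ Iᶜ then 1 else 0) =
      2 ^ Fintype.card ι / 4 * if j = l then 2 else 1 := by
  have h1 : ∀ I : Finset ι, (if j ∈ Iᶜ then (1 : ℝ) else 0) * (if l ∈ Iᶜ then 1 else 0) =
      (∏ k ∈ I, if k ≠ j ∧ k ≠ l then (1 : ℝ) else 0) * ∏ k ∈ Iᶜ, (1 : ℝ) := by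
    intro I
    rw [hws_mem, prod_const_one, mul_one]
    by_cases hj : j ∈ I
    · rw [if_neg (by simpa using hj), zero_mul, if_neg]
      intro h
      exact (h j hj).1 rfl
    · by_cases hl : l ∈ I
      · rw [if_neg (by simpa using hl : ¬ l ∈ Iᶜ), mul_zero, if_neg]
        intro h
        exact (h l hl).2 rfl
      · rw [if_pos (mem_compl.2 hj), if_pos (mem_compl.2 hl), if_pos, one_mul]
        intro k hk
        exact ⟨fun h => hj (h ▸ hk), fun h => hl (h ▸ hk)⟩
  rw [sum_congr rfl fun I _ => h1 I, hws_prod]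
  by_cases hjl : j = l
  · subst hjl
    have h2 : ∀ k : ι, ((if k ≠ j ∧ k ≠ j then (1 : ℝ) else 0) + 1) =
        2 * (if k = j then (1 : ℝ) else 1) * (if k = j then (1 / 2 : ℝ) else 1) := by
      intro k
      by_cases hkj : k = j
      · simp [hkj]
      · simp only [hkj, ne_eq, not_false_eq_true, and_self, if_true, if_false]
        norm_num
    rw [prod_congr rfl fun k _ => h2 k, hws_half, if_pos rfl]
    ring
  · have h2 : ∀ k : ι, ((if k ≠ j ∧ k ≠ l then (1 : ℝ) else 0) + 1) =
        2 * (if k = j then (1 / 2 : ℝ) else 1) * (if k = l then (1 / 2 : ℝ) else 1) := by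
      intro k
      by_cases hkj : k = j
      · subst hkj
        simp [hjl]
      · by_cases hkl : k = l
        · subst hkl
          simp [hkj]
        · simp only [hkj, hkl, ne_eq, not_false_eq_true, and_self, if_true, if_false]
          norm_num
    rw [prod_congr rfl fun k _ => h2 k, hws_half, if_neg hjl]
    ring

private theorem hws_lin (X : ι → E) (u : EuclideanSpace ℝ ι) (I : Finset ι) :
    ∑ i ∈ I, u i • X i = ∑ i, (if i ∈ I then (1 : ℝ) else 0) • (u i • X i) := by
  simp only [ite_smul, one_smul, zero_smul]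
  rw [sum_ite_mem, univ_inter]

private theorem hws_inner (X : ι → E) (u w : EuclideanSpace ℝ ι) (I J : Finset ι) :
    ⟪∑ i ∈ I, u i • X i, ∑ j ∈ J, w j • X j⟫ = ∑ i, ∑ j, u i * w j * ⟪X i, X j⟫ *
      ((if i ∈ I then (1 : ℝ) else 0) * (if j ∈ J then 1 else 0)) := by
  rw [hws_lin X u I, hws_lin X w J, sum_inner]
  refine sum_congr rfl fun i _ => ?_
  rw [inner_sum]
  refine sum_congr rfl fun j _ => ?_
  rw [real_inner_smul_left, real_inner_smul_left, real_inner_smul_right, real_inner_smul_right]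
  ring

theorem avg_Z (X : ι → E) (u w : EuclideanSpace ℝ ι) :
    ∑ I : Finset ι, ⟪∑ i ∈ I, u i • X i, ∑ j ∈ Iᶜ, w j • X j⟫ =
      2 ^ Fintype.card ι / 4 * Qf X u w := by
  rw [sum_congr rfl fun I _ => hws_inner X u w I Iᶜ, sum_comm, Qf_eq_sum, mul_sum]
  refine sum_congr rfl fun i _ => ?_
  rw [sum_comm, mul_sum]
  refine sum_congr rfl fun j _ => ?_
  rw [← mul_sum, hws_count1]
  by_cases hij : i = j
  · simp [hij]
  · rw [if_neg hij, if_neg hij]
    ring

theorem avg_b (X : ι → E) (w : EuclideanSpace ℝ ι) :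
    ∑ I : Finset ι, ‖∑ j ∈ Iᶜ, w j • X j‖ ^ 2 = 2 ^ Fintype.card ι / 4 * Vf X w ^ 2 := by
  have h1 : ∀ I : Finset ι, ‖∑ j ∈ Iᶜ, w j • X j‖ ^ 2 = ∑ i, ∑ j, w i * w j * ⟪X i, X j⟫ *
      ((if i ∈ Iᶜ then (1 : ℝ) else 0) * (if j ∈ Iᶜ then 1 else 0)) := by
    intro I
    rw [← real_inner_self_eq_norm_sq, hws_inner X w w Iᶜ Iᶜ]
  have h2 : Vf X w ^ 2 = ∑ i, ∑ j, w i * w j * ⟪X i, X j⟫ * if i = j then 2 else 1 := by
    have h3 : ‖lin X w‖ ^ 2 = ∑ i, ∑ j, w i * w j * ⟪X i, X j⟫ := by
      rw [← real_inner_self_eq_norm_sq, lin, hws_inner X w w univ univ]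
      simp
    have h4 : wn (len X) w ^ 2 = ∑ i, ∑ j, if i = j then w i * w j * ⟪X i, X j⟫ else 0 := by
      rw [wn_sq]
      refine sum_congr rfl fun i _ => ?_
      rw [sum_ite_eq, if_pos (mem_univ i), real_inner_self_eq_norm_sq, len]
      ring
    rw [Vf_sq, h3, h4, ← sum_add_distrib]
    refine sum_congr rfl fun i _ => ?_
    rw [← sum_add_distrib]
    refine sum_congr rfl fun j _ => ?_
    by_cases hij : i = j
    · rw [if_pos hij, if_pos hij]
      ring
    · rw [if_neg hij, if_neg hij]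
      ring
  rw [sum_congr rfl fun I _ => h1 I, sum_comm, h2, mul_sum]
  refine sum_congr rfl fun i _ => ?_
  rw [sum_comm, mul_sum]
  refine sum_congr rfl fun j _ => ?_
  rw [← mul_sum, hws_count2]
  ring

end IC65
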