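import Pool.Agent.IC65.HWI
import Pool.Agent.IC65.HWS

/-!
# IC65 module HW-B: self-normalised Hanson-Wright inequality (uses `hw_I`, `avg_Z`, `avg_b`)

For `I ⊆ ι` let `Z_I = ⟨∑_{i ∈ I} u_i X_i, ∑_{j ∉ I} w_j X_j⟩`, `b_I = ‖∑_{j ∉ I} w_j X_j‖` and
`Y_I = |Z_I|/(wn s u · b_I)`.  Average over all `I` (uniformly, `E_I`):
`Qf X u w = 4 E_I Z_I` and `E_I b_I² = Vf²/4`, so by Cauchy-Schwarz
`|Qf| ≤ 4 wn s u E_I[Y_I b_I] ≤ 4 wn s u (E_I Y_I²)^{1/2} Vf/2`, that is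
`Qf²/(32 (wn s u)² Vf²) ≤ E_I Y_I²/8`; Jensen: `exp` of it `≤ E_I exp(Y_I²/8)`; sum over `ω`.
(If `wn s u = 0` then `u = 0` and the exponent is `0`; if `b_I = 0` then `Z_I = 0`.)
-/

open Finset
open scoped RealInnerProductSpace

noncomputable section

namespace IC65

variable {ι : Type} [Fintype ι] [DecidableEq ι] {Ω : ι → Type} [∀ i, Fintype (Ω i)]
  {E : Type} [NormedAddCommGroup E] [InnerProductSpace ℝ E]

namespace HWBAux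

/-- Cauchy-Schwarz over the subsets. -/
theorem Qf_sq_le (X : ι → E) (u w : EuclideanSpace ℝ ι) :
    Qf X u w ^ 2 * 2 ^ Fintype.card ι ≤ 4 * Vf X w ^ 2 *
      ∑ I : Finset ι, (⟪∑ i ∈ I, u i • X i, ∑ j ∈ Iᶜ, w j • X j⟫ /
        ‖∑ j ∈ Iᶜ, w j • X j‖) ^ 2 := by
  set N : ℝ := 2 ^ Fintype.card ι with hN
  have hN0 : 0 < N := by positivity
  have h1 := sum_mul_sq_le_sq_mul_sq (univ : Finset (Finset ι))
    (fun I => ⟪∑ i ∈ I, u i • X i, ∑ j ∈ Iᶜ, w j • X j⟫ / ‖∑ j ∈ Iᶜ, w j • X j‖)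
    (fun I => ‖∑ j ∈ Iᶜ, w j • X j‖)
  have h2 : ∀ I : Finset ι, ⟪∑ i ∈ I, u i • X i, ∑ j ∈ Iᶜ, w j • X j⟫ /
      ‖∑ j ∈ Iᶜ, w j • X j‖ * ‖∑ j ∈ Iᶜ, w j • X j‖ =
      ⟪∑ i ∈ I, u i • X i, ∑ j ∈ Iᶜ, w j • X j⟫ := by
    intro I
    rcases eq_or_ne (∑ j ∈ Iᶜ, w j • X j) 0 with h0 | h0
    · rw [h0]
      simp
    · exact div_mul_cancel₀ _ (norm_ne_zero_iff.2 h0)
  simp only [h2] at h1
  rw [avg_Z, avg_b, ← hN] at h1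
  set T := ∑ I : Finset ι, (⟪∑ i ∈ I, u i • X i, ∑ j ∈ Iᶜ, w j • X j⟫ /
        ‖∑ j ∈ Iᶜ, w j • X j‖) ^ 2 with hT
  have h3 : N / 16 * (Qf X u w ^ 2 * N) ≤ N / 16 * (4 * Vf X w ^ 2 * T) := by
    calc N / 16 * (Qf X u w ^ 2 * N) = (N / 4 * Qf X u w) ^ 2 := by ring
      _ ≤ T * (N / 4 * Vf X w ^ 2) := h1
      _ = _ := by ring
  exact le_of_mul_le_mul_left h3 (by positivity)

theorem exp_le_avg (X : ι → E) (s : ι → ℝ) (u w : EuclideanSpace ℝ ι) :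
    Real.exp (Qf X u w ^ 2 / (32 * wn s u ^ 2 * Vf X w ^ 2)) ≤
      ((2 : ℝ) ^ Fintype.card ι)⁻¹ * ∑ I : Finset ι,
        Real.exp (⟪∑ i ∈ I, u i • X i, ∑ j ∈ Iᶜ, w j • X j⟫ ^ 2 /
          (8 * wn s u ^ 2 * ‖∑ j ∈ Iᶜ, w j • X j‖ ^ 2)) := by
  set N : ℝ := 2 ^ Fintype.card ι with hN
  have hN0 : 0 < N := by positivity
  have hcard : ∑ _I ∈ (univ : Finset (Finset ι)), N⁻¹ = 1 := by
    rw [sum_const, card_univ, Fintype.card_finset, nsmul_eq_mul]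
    push_cast
    rw [← hN]
    exact mul_inv_cancel₀ hN0.ne'
  set y : Finset ι → ℝ := fun I => ⟪∑ i ∈ I, u i • X i, ∑ j ∈ Iᶜ, w j • X j⟫ ^ 2 /
          (8 * wn s u ^ 2 * ‖∑ j ∈ Iᶜ, w j • X j‖ ^ 2) with hy
  have hy0 : ∀ I, 0 ≤ y I := fun I => by simp only [hy]; positivity
  have hJ := convexOn_exp.map_sum_le (t := (univ : Finset (Finset ι))) (w := fun _ => N⁻¹)
    (p := y) (fun _ _ => by positivity) hcard (fun _ _ => Set.mem_univ _)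
  simp only [smul_eq_mul] at hJ
  rw [← mul_sum, ← mul_sum] at hJ
  refine le_trans (Real.exp_le_exp.2 ?_) hJ
  rcases eq_or_ne (wn s u ^ 2 * Vf X w ^ 2) 0 with h0 | h0
  · rw [show 32 * wn s u ^ 2 * Vf X w ^ 2 = 0 by rw [mul_assoc, h0, mul_zero], div_zero]
    exact mul_nonneg (by positivity) (sum_nonneg fun I _ => hy0 I)
  · have h1 : wn s u ^ 2 ≠ 0 := fun h => h0 (by rw [h, zero_mul])
    have h2 : Vf X w ^ 2 ≠ 0 := fun h => h0 (by rw [h, mul_zero])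
    have h3 : 0 < wn s u ^ 2 := lt_of_le_of_ne (sq_nonneg _) (Ne.symm h1)
    have h4 : 0 < Vf X w ^ 2 := lt_of_le_of_ne (sq_nonneg _) (Ne.symm h2)
    have h5 := Qf_sq_le X u w
    rw [← hN] at h5
    have h6 : ∀ I : Finset ι, y I = (8 * wn s u ^ 2)⁻¹ *
        (⟪∑ i ∈ I, u i • X i, ∑ j ∈ Iᶜ, w j • X j⟫ / ‖∑ j ∈ Iᶜ, w j • X j‖) ^ 2 := by
      intro I
      simp only [hy]
      rw [div_pow, ← div_div, div_eq_inv_mul, div_eq_inv_mul, div_eq_inv_mul]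
      ring
    simp only [h6]
    rw [← mul_sum]
    set T := ∑ I : Finset ι, (⟪∑ i ∈ I, u i • X i, ∑ j ∈ Iᶜ, w j • X j⟫ /
        ‖∑ j ∈ Iᶜ, w j • X j‖) ^ 2 with hT
    rw [div_le_iff₀ (by positivity)]
    have h7 : N⁻¹ * ((8 * wn s u ^ 2)⁻¹ * T) * (32 * wn s u ^ 2 * Vf X w ^ 2) =
        N⁻¹ * (4 * Vf X w ^ 2 * T) := by
      have h8 : (8 * wn s u ^ 2)⁻¹ * (8 * wn s u ^ 2) = 1 := inv_mul_cancel₀ (by positivity)
      calc N⁻¹ * ((8 * wn s u ^ 2)⁻¹ * T) * (32 * wn s u ^ 2 * Vf X w ^ 2)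
          = N⁻¹ * (4 * Vf X w ^ 2 * T) * ((8 * wn s u ^ 2)⁻¹ * (8 * wn s u ^ 2)) := by ring
        _ = _ := by rw [h8, mul_one]
    rw [h7, ← div_eq_inv_mul, le_div_iff₀ hN0]
    exact h5

end HWBAux

open HWBAux

theorem hw (p : ∀ i, Ω i → ℝ) (hp : ∀ i a, 0 ≤ p i a) (X : ∀ i, Ω i → E) (s : ι → ℝ)
    (hs : ∀ i, 0 < s i) (hX : ∀ i, Sg univ (p i) (X i) (s i)) (u w : EuclideanSpace ℝ ι) :
    Ep p (fun ω => Real.exp (Qf (fun i => X i (ω i)) u w ^ 2 /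
        (32 * wn s u ^ 2 * Vf (fun i => X i (ω i)) w ^ 2))) ≤
      2 * ∏ i, ∑ a, p i a := by
  have hN0 : (0 : ℝ) < 2 ^ Fintype.card ι := by positivity
  refine (Ep_mono hp fun ω => exp_le_avg (fun i => X i (ω i)) s u w).trans ?_
  rw [Ep_const_mul, Ep_sum, ← div_eq_inv_mul, div_le_iff₀ hN0]
  calc ∑ I : Finset ι, Ep p (fun ω =>
          Real.exp (⟪∑ i ∈ I, u i • X i (ω i), ∑ j ∈ Iᶜ, w j • X j (ω j)⟫ ^ 2 /
            (8 * wn s u ^ 2 * ‖∑ j ∈ Iᶜ, w j • X j (ω j)‖ ^ 2)))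
      ≤ ∑ _I : Finset ι, 2 * ∏ i, ∑ a, p i a :=
        sum_le_sum fun I _ => hw_I p hp X s hs hX u w I
    _ = 2 * (∏ i, ∑ a, p i a) * 2 ^ Fintype.card ι := by
        rw [sum_const, card_univ, Fintype.card_finset, nsmul_eq_mul]
        push_cast
        ring

end IC65
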