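import Pool.Agent.IC65.Basic

/-! # IC65: expectation on a product of finite weighted spaces -/

open Finset

noncomputable section

namespace IC65

variable {ι : Type} [Fintype ι] [DecidableEq ι] {Ω : ι → Type} [∀ i, Fintype (Ω i)]

/-- expectation on the product space, `Ep p F = ∑_ω ∏_i p_i(ω_i) F(ω)` -/
def Ep (p : ∀ i, Ω i → ℝ) (F : (∀ i, Ω i) → ℝ) : ℝ := ∑ ω : ∀ i, Ω i, (∏ i, p i (ω i)) * F ω

theorem Ep_mono {p : ∀ i, Ω i → ℝ} (hp : ∀ i a, 0 ≤ p i a) {F G : (∀ i, Ω i) → ℝ}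
    (h : ∀ ω, F ω ≤ G ω) : Ep p F ≤ Ep p G :=
  sum_le_sum fun ω _ => mul_le_mul_of_nonneg_left (h ω) (prod_nonneg fun i _ => hp i _)

theorem Ep_add (p : ∀ i, Ω i → ℝ) (F G : (∀ i, Ω i) → ℝ) :
    Ep p (fun ω => F ω + G ω) = Ep p F + Ep p G := by
  simp [Ep, mul_add, sum_add_distrib]

theorem Ep_const_mul (p : ∀ i, Ω i → ℝ) (c : ℝ) (F : (∀ i, Ω i) → ℝ) :
    Ep p (fun ω => c * F ω) = c * Ep p F := by
  simp only [Ep, mul_sum]
  exact sum_congr rfl fun ω _ => by ring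

theorem Ep_sum {α : Type*} (s : Finset α) (p : ∀ i, Ω i → ℝ) (F : α → (∀ i, Ω i) → ℝ) :
    Ep p (fun ω => ∑ a ∈ s, F a ω) = ∑ a ∈ s, Ep p (F a) := by
  simp only [Ep, mul_sum]
  exact sum_comm

/-- product functions -/
theorem Ep_prod (p : ∀ i, Ω i → ℝ) (g : ∀ i, Ω i → ℝ) :
    Ep p (fun ω => ∏ i, g i (ω i)) = ∏ i, ∑ a, p i a * g i a := by
  rw [prod_univ_sum]
  simp only [Ep, ← prod_mul_distrib]
  exact sum_congr (by ext; simp) fun _ _ => rfl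

theorem Ep_one (p : ∀ i, Ω i → ℝ) : Ep p (fun _ => 1) = ∏ i, ∑ a, p i a := by
  have := Ep_prod p (fun _ _ => 1)
  simpa using this

end IC65
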