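import Pool.Agent.IC65.HWA

/-!
# IC65 module HW-I: one decoupled term

For fixed `(ω_j)_{j ∉ I}` the vector `v = ∑_{j ∉ I} w_j X_j` is fixed.  For fixed `v` the expectation over
`(ω_i)_{i ∈ I}` of `exp(⟨∑_{i ∈ I} u_i X_i, v⟩²/(8 (wn s u)² ‖v‖²))` is `≤ 2 ∏_{i ∈ I} P_i` by `lin_sq` (for the index
type `{i // i ∈ I}`, `v_i = u_i v`, `∑_{i ∈ I} s_i² u_i² ‖v‖² ≤ (wn s u)² ‖v‖²`); split the sum over `ω` with
`Equiv.piEquivPiSubtypeProd`.  If `wn s u = 0` then `u = 0`, if `v = 0` the numerator vanishes; then `exp = 1`.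
Another way: for `ω'` fixed, replace `X_j`, `j ∉ I`, ...; any proof is fine.
-/

open Finset
open scoped RealInnerProductSpace

noncomputable section

namespace IC65

variable {ι : Type} [Fintype ι] [DecidableEq ι] {Ω : ι → Type} [∀ i, Fintype (Ω i)]
  {E : Type} [NormedAddCommGroup E] [InnerProductSpace ℝ E]

namespace HWIAux

/-- the expectation over the coordinates in `I`, for a fixed vector `v` -/
theorem fixed (p : ∀ i, Ω i → ℝ) (hp : ∀ i a, 0 ≤ p i a) (X : ∀ i, Ω i → E) (s : ι → ℝ)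
    (hs : ∀ i, 0 < s i) (hX : ∀ i, Sg univ (p i) (X i) (s i)) (u : EuclideanSpace ℝ ι)
    (I : Finset ι) (v : E) :
    Ep (fun i : {i // i ∈ I} => p i) (fun ω => Real.exp
        (⟪∑ i : {i // i ∈ I}, u i • X i (ω i), v⟫ ^ 2 / (8 * wn s u ^ 2 * ‖v‖ ^ 2))) ≤
      2 * ∏ i : {i // i ∈ I}, ∑ a, p i a := by
  refine le_trans ?_ (lin_sq (fun i : {i // i ∈ I} => p i) (fun i a => hp i a)
    (fun i : {i // i ∈ I} => X i) (fun i => s i) (fun i => hs i) (fun i => hX i)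
    (fun i => u i • v))
  refine Ep_mono (p := fun i : {i // i ∈ I} => p i) (fun i a => hp i a) ?_
  intro ω
  apply Real.exp_le_exp.2
  have hnum : ⟪∑ i : {i // i ∈ I}, u i • X i (ω i), v⟫ =
      ∑ i : {i // i ∈ I}, ⟪X i (ω i), u i • v⟫ := by
    rw [sum_inner]
    apply sum_congr rfl
    intro i _
    rw [real_inner_smul_left, real_inner_smul_right]
  rw [hnum]
  set D := ∑ i : {i // i ∈ I}, s i ^ 2 * ‖u i • v‖ ^ 2 with hD
  have hD0 : 0 ≤ D := sum_nonneg fun i _ => by positivity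
  rcases hD0.eq_or_lt with h0 | h0
  · -- all the vectors vanish
    have h1 : ∀ i : {i // i ∈ I}, u i • v = 0 := by
      intro i
      have h2 := (sum_eq_zero_iff_of_nonneg (fun i _ => by positivity)).1 h0.symm i (mem_univ i)
      have h3 : 0 < s i ^ 2 := pow_pos (hs i) 2
      have h4 : ‖u i • v‖ ^ 2 = 0 := by
        rcases mul_eq_zero.1 h2 with h | h
        · exact absurd h h3.ne'
        · exact h
      exact norm_eq_zero.1 (pow_eq_zero_iff (two_ne_zero) |>.1 h4)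
    have h5 : ∑ i : {i // i ∈ I}, ⟪X i (ω i), u i • v⟫ = 0 := by
      apply sum_eq_zero
      intro i _
      rw [h1 i, inner_zero_right]
    rw [h5]
    simp
  · have h1 : 8 * D ≤ 8 * wn s u ^ 2 * ‖v‖ ^ 2 := by
      have h2 : D ≤ wn s u ^ 2 * ‖v‖ ^ 2 := by
        have h3 : D = (∑ i ∈ I, (s i * u i) ^ 2) * ‖v‖ ^ 2 := by
          rw [hD, ← sum_coe_sort I (fun i => (s i * u i) ^ 2), sum_mul]
          apply sum_congr rfl
          intro i _
          rw [norm_smul, mul_pow, Real.norm_eq_abs, sq_abs]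
          ring
        rw [h3, wn_sq]
        apply mul_le_mul_of_nonneg_right _ (sq_nonneg _)
        exact sum_le_sum_of_subset_of_nonneg (subset_univ I) fun i _ _ => sq_nonneg _
      linarith
    apply div_le_div_of_nonneg_left (sq_nonneg _) (by positivity) h1

end HWIAux

theorem hw_I (p : ∀ i, Ω i → ℝ) (hp : ∀ i a, 0 ≤ p i a) (X : ∀ i, Ω i → E) (s : ι → ℝ)
    (hs : ∀ i, 0 < s i) (hX : ∀ i, Sg univ (p i) (X i) (s i)) (u w : EuclideanSpace ℝ ι)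
    (I : Finset ι) :
    Ep p (fun ω => Real.exp (⟪∑ i ∈ I, u i • X i (ω i), ∑ j ∈ Iᶜ, w j • X j (ω j)⟫ ^ 2 /
        (8 * wn s u ^ 2 * ‖∑ j ∈ Iᶜ, w j • X j (ω j)‖ ^ 2))) ≤
      2 * ∏ i, ∑ a, p i a := by
  set e := Equiv.piEquivPiSubtypeProd (fun i => i ∈ I) Ω with he
  have hI : ∀ ω : ∀ i, Ω i, ∑ i ∈ I, u i • X i (ω i) =
      ∑ i : {i // i ∈ I}, u i • X i ((e ω).1 i) := by
    intro ω
    exact (sum_coe_sort I (fun i => u i • X i (ω i))).symm
  have hIc : ∀ ω : ∀ i, Ω i, ∑ j ∈ Iᶜ, w j • X j (ω j) =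
      ∑ j : {j // j ∉ I}, w j • X j ((e ω).2 j) := by
    intro ω
    exact sum_subtype Iᶜ (fun j => mem_compl) (fun j => w j • X j (ω j))
  have hprod : ∀ ω : ∀ i, Ω i, ∏ i, p i (ω i) =
      (∏ i : {i // i ∈ I}, p i ((e ω).1 i)) * ∏ j : {j // j ∉ I}, p j ((e ω).2 j) := by
    intro ω
    rw [← prod_mul_prod_compl I fun i => p i (ω i), ← prod_coe_sort I fun i => p i (ω i),
      prod_subtype Iᶜ (fun j => mem_compl) fun i => p i (ω i)]
    rfl
  have hP : ∏ i, ∑ a, p i a = (∏ i : {i // i ∈ I}, ∑ a, p i a) *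
      ∏ j : {j // j ∉ I}, ∑ a, p j a := by
    rw [← prod_mul_prod_compl I fun i => ∑ a, p i a, ← prod_coe_sort I fun i => ∑ a, p i a,
      prod_subtype Iᶜ (fun j => mem_compl) fun i => ∑ a, p i a]
  set F : (∀ i : {i // i ∈ I}, Ω i) → (∀ j : {j // j ∉ I}, Ω j) → ℝ := fun a b =>
    Real.exp (⟪∑ i : {i // i ∈ I}, u i • X i (a i), ∑ j : {j // j ∉ I}, w j • X j (b j)⟫ ^ 2 /
      (8 * wn s u ^ 2 * ‖∑ j : {j // j ∉ I}, w j • X j (b j)‖ ^ 2)) with hF
  have h1 : Ep p (fun ω => Real.exp (⟪∑ i ∈ I, u i • X i (ω i), ∑ j ∈ Iᶜ, w j • X j (ω j)⟫ ^ 2 /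
        (8 * wn s u ^ 2 * ‖∑ j ∈ Iᶜ, w j • X j (ω j)‖ ^ 2))) =
      ∑ b : (∀ j : {j // j ∉ I}, Ω j), (∏ j : {j // j ∉ I}, p j (b j)) *
        Ep (fun i : {i // i ∈ I} => p i) (fun a => F a b) := by
    have h2 : Ep p (fun ω => Real.exp
        (⟪∑ i ∈ I, u i • X i (ω i), ∑ j ∈ Iᶜ, w j • X j (ω j)⟫ ^ 2 /
          (8 * wn s u ^ 2 * ‖∑ j ∈ Iᶜ, w j • X j (ω j)‖ ^ 2))) =
        ∑ ω : ∀ i, Ω i, ((∏ i : {i // i ∈ I}, p i ((e ω).1 i)) *
          ∏ j : {j // j ∉ I}, p j ((e ω).2 j)) * F (e ω).1 (e ω).2 := by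
      apply sum_congr rfl
      intro ω _
      rw [hprod ω]
      simp only [hF]
      rw [← hI ω, ← hIc ω]
    rw [h2]
    rw [Fintype.sum_equiv e _ (fun ab : (∀ i : {i // i ∈ I}, Ω i) × (∀ j : {j // j ∉ I}, Ω j) =>
      ((∏ i : {i // i ∈ I}, p i (ab.1 i)) * ∏ j : {j // j ∉ I}, p j (ab.2 j)) *
        F ab.1 ab.2) (fun ω => rfl)]
    rw [Fintype.sum_prod_type_right]
    apply sum_congr rfl
    intro b _
    unfold Ep
    rw [mul_sum]
    apply sum_congr rfl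
    intro a _
    ring
  rw [h1, hP]
  calc _ ≤ ∑ b : (∀ j : {j // j ∉ I}, Ω j), (∏ j : {j // j ∉ I}, p j (b j)) *
        (2 * ∏ i : {i // i ∈ I}, ∑ a, p i a) := by
        apply sum_le_sum
        intro b _
        apply mul_le_mul_of_nonneg_left _ (prod_nonneg fun j _ => hp _ _)
        exact HWIAux.fixed p hp X s hs hX u I _
    _ = (2 * ∏ i : {i // i ∈ I}, ∑ a, p i a) *
        ∑ b : (∀ j : {j // j ∉ I}, Ω j), (∏ j : {j // j ∉ I}, p j (b j)) := by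
        rw [← sum_mul, mul_comm]
    _ = _ := by
        have h3 : ∑ b : (∀ j : {j // j ∉ I}, Ω j), (∏ j : {j // j ∉ I}, p j (b j)) =
            ∏ j : {j // j ∉ I}, ∑ a, p j a := by
          have := Ep_one (fun j : {j // j ∉ I} => p j)
          simpa [Ep] using this
        rw [h3]
        ring

end IC65
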