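import Pool.Agent.IC65.SchB

/-!
# IC65 module SCH-C: the nested partitions

Recursion on the level `m`; the state is a pair `(cell, i)` with the invariants `card`, `i_congr`.  Next level: for
each value `v` of `cell m` on `T` apply `step` to `A_v = T.filter (cell m · = v)` with `a = D/r^(i+1)`, where `i` is the
value of `i m` on `A_v`; let `lab_v` be the labels; `cell (m+1) x = Nat.pair (cell m x) (lab x)` and
`i (m+1) x = i m x` if `lab x + 1 = 2^(2^m)`, `= i m x + 1` otherwise (for `x ∉ T` take `i (m+1) x = i m x + 1`, or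
anything which satisfies `i_succ`).  At most `2^(2^m) · 2^(2^m) = 2^(2^(m+1))` cells.
-/

open Finset

noncomputable section

namespace IC65

/-- nested partitions with the indices `i` of the radii `D/r^i` -/
structure Levels {α : Type} [MetricSpace α] [DecidableEq α] (T : Finset α) (F : Finset α → ℝ)
    (r c D : ℝ) where
  cell : ℕ → α → ℕ
  i : ℕ → α → ℕ
  card : ∀ m, (T.image (cell m)).card ≤ 2 ^ 2 ^ m
  nest : ∀ m, ∀ x ∈ T, ∀ y ∈ T, cell (m + 1) x = cell (m + 1) y → cell m x = cell m y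
  i_congr : ∀ m, ∀ x ∈ T, ∀ y ∈ T, cell m x = cell m y → i m x = i m y
  i_zero : ∀ x, i 0 x = 0
  i_succ : ∀ m x, i (m + 1) x = i m x ∨ i (m + 1) x = i m x + 1
  ball : ∀ m, ∀ x ∈ T, i (m + 1) x = i m x + 1 → ∃ t ∈ T, cell m t = cell m x ∧
    ∀ y ∈ T, cell (m + 1) y = cell (m + 1) x → dist y t ≤ D / r ^ (i m x + 1)
  big : ∀ m, ∀ x ∈ T, i (m + 1) x = i m x → 2 ^ 2 ^ m ≤ T.card
  star : ∀ m, ∀ x ∈ T, i (m + 1) x = i m x → ∀ t ∈ T, cell (m + 1) t = cell (m + 1) x →
    ∀ H ⊆ T, (∀ s ∈ H, cell (m + 1) s = cell (m + 1) x ∧ dist s t ≤ D / r ^ (i m x + 2)) →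
      F H + c * (D / r ^ (i m x + 1)) * Real.sqrt 2 ^ m ≤
        F (T.filter fun y => cell m y = cell m x)

/-- the invariant of one level -/
private def SInv {α : Type} [DecidableEq α] (T : Finset α) (m : ℕ) (s : (α → ℕ) × (α → ℕ)) : Prop :=
  (T.image s.1).card ≤ 2 ^ 2 ^ m ∧ ∀ x ∈ T, ∀ y ∈ T, s.1 x = s.1 y → s.2 x = s.2 y

/-- the relation between two levels -/
private def SRel {α : Type} [MetricSpace α] [DecidableEq α] (T : Finset α) (F : Finset α → ℝ)
    (r c D : ℝ) (m : ℕ) (s s' : (α → ℕ) × (α → ℕ)) : Prop :=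
  (∀ x ∈ T, ∀ y ∈ T, s'.1 x = s'.1 y → s.1 x = s.1 y) ∧
  (∀ x, s'.2 x = s.2 x ∨ s'.2 x = s.2 x + 1) ∧
  (∀ x ∈ T, s'.2 x = s.2 x + 1 → ∃ t ∈ T, s.1 t = s.1 x ∧
    ∀ y ∈ T, s'.1 y = s'.1 x → dist y t ≤ D / r ^ (s.2 x + 1)) ∧
  (∀ x ∈ T, s'.2 x = s.2 x → 2 ^ 2 ^ m ≤ T.card) ∧
  (∀ x ∈ T, s'.2 x = s.2 x → ∀ t ∈ T, s'.1 t = s'.1 x →
    ∀ H ⊆ T, (∀ y ∈ H, s'.1 y = s'.1 x ∧ dist y t ≤ D / r ^ (s.2 x + 2)) →
      F H + c * (D / r ^ (s.2 x + 1)) * Real.sqrt 2 ^ m ≤
        F (T.filter fun y => s.1 y = s.1 x))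

private theorem levels_step {α : Type} [MetricSpace α] [DecidableEq α] (T : Finset α)
    (F : Finset α → ℝ)
    (hF : ∀ A B, A ⊆ B → F A ≤ F B) {r c : ℝ} (hr : 8 ≤ r) (hc : 0 < c)
    (hgrow : ∀ (m : ℕ) (a : ℝ), 0 < a → ∀ (t : Fin (2 ^ 2 ^ m) → α)
      (H : Fin (2 ^ 2 ^ m) → Finset α),
      (∀ l l', l ≠ l' → a ≤ dist (t l) (t l')) →
      (∀ l, (H l).Nonempty ∧ ∀ s ∈ H l, dist s (t l) ≤ a / r) →
      ∀ b, (∀ l, b ≤ F (H l)) → ∀ B, (∀ l, H l ⊆ B) → b + c * a * Real.sqrt 2 ^ m ≤ F B)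
    {D : ℝ} (hD : 0 < D) (m : ℕ) (s : (α → ℕ) × (α → ℕ)) (hs : SInv T m s) :
    ∃ s', SInv T (m + 1) s' ∧ SRel T F r c D m s s' := by
  classical
  obtain ⟨cell, i⟩ := s
  obtain ⟨hcard, hcongr⟩ := hs
  simp only at hcard hcongr
  have hr0 : 0 < r := by linarith
  obtain ⟨iv, hiv⟩ : ∃ iv : ℕ → ℕ, ∀ x ∈ T, iv (cell x) = i x := by
    refine ⟨fun v => if h : ∃ x ∈ T, cell x = v then i h.choose else 0, ?_⟩
    intro x hx
    have h : ∃ y ∈ T, cell y = cell x := ⟨x, hx, rfl⟩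
    simp only [h, dif_pos]
    exact hcongr _ h.choose_spec.1 _ hx h.choose_spec.2
  have hstep : ∀ v : ℕ, ∃ lab : α → ℕ, (∀ x ∈ T.filter (fun y => cell y = v), lab x < 2 ^ 2 ^ m) ∧
      (∀ x ∈ T.filter (fun y => cell y = v), lab x + 1 ≠ 2 ^ 2 ^ m →
        ∃ t ∈ T.filter (fun y => cell y = v), ∀ y ∈ T.filter (fun y => cell y = v),
          lab y = lab x → dist y t ≤ D / r ^ (iv v + 1)) ∧
      (∀ t ∈ T.filter (fun y => cell y = v), lab t + 1 = 2 ^ 2 ^ m →
        2 ^ 2 ^ m ≤ (T.filter (fun y => cell y = v)).card ∧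
        ∀ H ⊆ T.filter (fun y => cell y = v),
          (∀ s ∈ H, lab s + 1 = 2 ^ 2 ^ m ∧ dist s t ≤ D / r ^ (iv v + 1) / r) →
          F H + c * (D / r ^ (iv v + 1)) * Real.sqrt 2 ^ m ≤
            F (T.filter (fun y => cell y = v))) := by
    intro v
    have ha : 0 < D / r ^ (iv v + 1) := by positivity
    exact step F hF hr hc m ha (hgrow m _ ha) _
  choose lab hl1 hl2 hl3 using hstep
  have hmem : ∀ x ∈ T, x ∈ T.filter (fun y => cell y = cell x) := by
    intro x hx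
    rw [mem_filter]
    exact ⟨hx, rfl⟩
  have hpair : ∀ x y, Nat.pair (cell x) (lab (cell x) x) = Nat.pair (cell y) (lab (cell y) y) →
      cell x = cell y ∧ lab (cell x) x = lab (cell y) y := by
    intro x y h
    exact Nat.pair_eq_pair.1 h
  refine ⟨(fun x => Nat.pair (cell x) (lab (cell x) x),
    fun x => if lab (cell x) x + 1 = 2 ^ 2 ^ m then i x else i x + 1), ⟨?_, ?_⟩, ?_, ?_, ?_, ?_, ?_⟩
  · have h1 : T.image (fun x => Nat.pair (cell x) (lab (cell x) x)) ⊆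
        ((T.image cell) ×ˢ (range (2 ^ 2 ^ m))).image (fun p => Nat.pair p.1 p.2) := by
      intro z hz
      rw [mem_image] at hz
      obtain ⟨x, hx, rfl⟩ := hz
      rw [mem_image]
      refine ⟨(cell x, lab (cell x) x), ?_, rfl⟩
      rw [mem_product, mem_range]
      exact ⟨mem_image_of_mem _ hx, hl1 _ x (hmem x hx)⟩
    calc (T.image (fun x => Nat.pair (cell x) (lab (cell x) x))).card
        ≤ (((T.image cell) ×ˢ (range (2 ^ 2 ^ m))).image (fun p => Nat.pair p.1 p.2)).card :=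
          card_le_card h1
      _ ≤ ((T.image cell) ×ˢ (range (2 ^ 2 ^ m))).card := card_image_le
      _ = (T.image cell).card * 2 ^ 2 ^ m := by rw [card_product, card_range]
      _ ≤ 2 ^ 2 ^ m * 2 ^ 2 ^ m := Nat.mul_le_mul_right _ hcard
      _ = 2 ^ 2 ^ (m + 1) := by
          rw [← pow_add]
          congr 1
          ring
  · intro x hx y hy hxy
    obtain ⟨h1, h2⟩ := hpair x y hxy
    simp only [h2, hcongr x hx y hy h1]
  · intro x _ y _ hxy
    exact (hpair x y hxy).1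
  · intro x
    by_cases h : lab (cell x) x + 1 = 2 ^ 2 ^ m
    · left
      simp only [h, if_true]
    · right
      simp only [h, if_false]
  · intro x hx hi
    have h : lab (cell x) x + 1 ≠ 2 ^ 2 ^ m := by
      intro h
      simp only [h, if_true] at hi
      omega
    obtain ⟨t, ht, ht'⟩ := hl2 (cell x) x (hmem x hx) h
    rw [mem_filter] at ht
    refine ⟨t, ht.1, ht.2, ?_⟩
    intro y hy hxy
    obtain ⟨h1, h2⟩ := hpair y x hxy
    have h3 := ht' y (by rw [mem_filter]; exact ⟨hy, h1⟩) (by rw [← h2, h1])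
    rw [hiv x hx] at h3
    exact h3
  · intro x hx hi
    have h : lab (cell x) x + 1 = 2 ^ 2 ^ m := by
      by_contra h
      simp only [h, if_false] at hi
      omega
    exact ((hl3 (cell x) x (hmem x hx) h).1).trans (card_le_card (filter_subset _ _))
  · intro x hx hi t ht htx H hH hH'
    have h : lab (cell x) x + 1 = 2 ^ 2 ^ m := by
      by_contra h
      simp only [h, if_false] at hi
      omega
    obtain ⟨h1, h2⟩ := hpair t x htx
    have h3 := (hl3 (cell x) t (by rw [mem_filter]; exact ⟨ht, h1⟩)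
      (by rw [← h, ← h2, h1])).2 H ?_ ?_
    · rw [hiv x hx] at h3
      exact h3
    · intro y hy
      rw [mem_filter]
      exact ⟨hH hy, (hpair y x (hH' y hy).1).1⟩
    · intro y hy
      obtain ⟨h4, h5⟩ := hH' y hy
      obtain ⟨h6, h7⟩ := hpair y x h4
      refine ⟨by rw [← h, ← h7, h6], ?_⟩
      rw [hiv x hx, div_div, ← pow_succ]
      exact h5

theorem levels {α : Type} [MetricSpace α] [DecidableEq α] (T : Finset α) (F : Finset α → ℝ)
    (hF : ∀ A B, A ⊆ B → F A ≤ F B) {r c : ℝ} (hr : 8 ≤ r) (hc : 0 < c)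
    (hgrow : ∀ (m : ℕ) (a : ℝ), 0 < a → ∀ (t : Fin (2 ^ 2 ^ m) → α)
      (H : Fin (2 ^ 2 ^ m) → Finset α),
      (∀ l l', l ≠ l' → a ≤ dist (t l) (t l')) →
      (∀ l, (H l).Nonempty ∧ ∀ s ∈ H l, dist s (t l) ≤ a / r) →
      ∀ b, (∀ l, b ≤ F (H l)) → ∀ B, (∀ l, H l ⊆ B) → b + c * a * Real.sqrt 2 ^ m ≤ F B)
    {D : ℝ} (hD : 0 < D) : Nonempty (Levels T F r c D) := by
  classical
  have hex : ∀ (m : ℕ) (s : (α → ℕ) × (α → ℕ)), ∃ s' : (α → ℕ) × (α → ℕ),
      SInv T m s → SInv T (m + 1) s' ∧ SRel T F r c D m s s' := by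
    intro m s
    by_cases hs : SInv T m s
    · obtain ⟨s', hs'⟩ := levels_step T F hF hr hc hgrow hD m s hs
      exact ⟨s', fun _ => hs'⟩
    · exact ⟨s, fun h => absurd h hs⟩
  choose nxt hnxt using hex
  set st : ℕ → (α → ℕ) × (α → ℕ) := fun m =>
    Nat.rec (motive := fun _ => (α → ℕ) × (α → ℕ)) (fun _ => 0, fun _ => 0)
      (fun m s => nxt m s) m with hst
  have hst0 : st 0 = (fun _ => 0, fun _ => 0) := rfl
  have hsts : ∀ m, st (m + 1) = nxt m (st m) := fun m => rfl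
  have hinv : ∀ m, SInv T m (st m) := by
    intro m
    induction m with
    | zero =>
      rw [hst0]
      refine ⟨?_, fun x _ y _ _ => rfl⟩
      calc (T.image (fun _ => 0)).card ≤ ({0} : Finset ℕ).card := by
            apply card_le_card
            intro z hz
            rw [mem_image] at hz
            obtain ⟨_, _, rfl⟩ := hz
            exact mem_singleton_self _
        _ ≤ 2 ^ 2 ^ 0 := by simp
    | succ m ih =>
      rw [hsts]
      exact (hnxt m (st m) ih).1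
  have hrel : ∀ m, SRel T F r c D m (st m) (st (m + 1)) := by
    intro m
    rw [hsts]
    exact (hnxt m (st m) (hinv m)).2
  exact ⟨{ cell := fun m => (st m).1
           i := fun m => (st m).2
           card := fun m => (hinv m).1
           nest := fun m => (hrel m).1
           i_congr := fun m => (hinv m).2
           i_zero := fun x => rfl
           i_succ := fun m => (hrel m).2.1
           ball := fun m => (hrel m).2.2.1
           big := fun m => (hrel m).2.2.2.1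
           star := fun m => (hrel m).2.2.2.2 }⟩

end IC65
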