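import Pool.Agent.IC65.SchA
import Pool.Agent.IC65.SchC

/-!
# IC65 module SCHEME: Talagrand's partitioning scheme, the estimate (uses `seq_lemma`, `levels`)

If `D = 0` all points of `T` coincide (`dist s t ≤ 0`), take `Δ = 0`.  Let `D > 0` and take `levels`.
Fix `x ∈ T`; `A_m = T.filter (cell m · = cell m x)`, `i_m = i m x`, `α_m = √2^m D r^(-i_m)`.
Diameters: `dist y y' ≤ 2 D r^(-i_m)` for `y, y' ∈ A_m` (if `i_m = 0` by the hypothesis on `D`, otherwise go back to
the last level `j < m` with `i_(j+1) = i_j + 1 = i_m` and use `ball`, nestedness).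
`α` is bounded: if `2^(2^m) > card T` then `i_(m+1) = i_m + 1` (`big`) and `α_(m+1) = (√2/r) α_m ≤ α_m`.
Let `J` be the finite set of `seq_lemma` for the first `M` terms.  If `m ∈ J`, `m ≥ 1`: `i_(m+1) = i_m + 1` (otherwise
`α_(m+1) = √2 α_m`) and `i_(m-1) = i_m` (otherwise `α_(m-1) = (r/√2) α_m > √2 α_m` as `r ≥ 8`).  `star` at the
level `m-1` gives for all `t ∈ A_m`, `H ⊆ A_m ∩ B(t, D r^(-i_m-2))`
(*) `F(H) ≤ F(A_(m-1)) - c √2^(m-1) D r^(-i_m-1) = F(A_(m-1)) - (c/(√2 r)) α_m`.
If `m < m'` are in `J` then `i_(m'+1) = i_(m') + 1 ≥ i_(m+1) + 1 = i_m + 2`, and by `ball` at the level `m'` the set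
`A_(m'+1)` lies in a closed ball of radius `D r^(-i_(m')-1) ≤ D r^(-i_m-2)` with the centre in
`A_(m') ⊆ A_m`, so (*) gives `F(A_(m'+1)) ≤ F(A_(m-1)) - (c/(√2 r)) α_m`.  Two elements `m' < m''` of `J` satisfy
`m'' ≥ m' + 2` (`i_(m'+1) ≠ i_(m')`, `i_(m''-1) = i_(m'')`), so `F(A_(m''-1)) ≤ F(A_(m'+1))`.  Hence, if
`m_1 < m_2 < … < m_s` are the elements `≥ 1` of `J`: `F(A_(m_(j+2)-1)) ≤ F(A_(m_j - 1)) - (c/(√2 r)) α_(m_j)`, and for the last
two ones `0 ≤ F(A_(m_j - 1)) - (c/(√2 r)) α_(m_j)` (`H = {x}`).  So `∑_{m ∈ J, m ≥ 1} α_m ≤ 2 (√2 r/c) F(T)` (for instance by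
strong induction: for every finite set `J'` of such indices, all `≥ m₀`, …), and `α_0 = D`.
Finally modify the partitions for `m ≥ L` with `2^(2^L) ≥ |T|`: `cell` injective on `T`, `Δ = 0` (this keeps all the
properties: `card ≤ |T| ≤ 2^(2^m)`; use any injection `T → ℕ`), and `Δ m x = 2 D r^(-i_m)` for `m < L`.
-/

open Finset

noncomputable section

namespace IC65

namespace SchemeAux

variable {α : Type} [MetricSpace α] [DecidableEq α] {T : Finset α} {F : Finset α → ℝ}
  {r c D : ℝ}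

/-- nestedness over several levels -/
theorem nest_le (Lv : Levels T F r c D) {x y : α} (hx : x ∈ T) (hy : y ∈ T) (m : ℕ) :
    ∀ k, Lv.cell (m + k) x = Lv.cell (m + k) y → Lv.cell m x = Lv.cell m y := by
  intro k
  induction k with
  | zero => intro h; exact h
  | succ k ih => intro h; exact ih (Lv.nest (m + k) x hx y hy h)

theorem nest_le' (Lv : Levels T F r c D) {x y : α} (hx : x ∈ T) (hy : y ∈ T) {m k : ℕ}
    (h : m ≤ k) (hc : Lv.cell k x = Lv.cell k y) : Lv.cell m x = Lv.cell m y := by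
  obtain ⟨d, rfl⟩ := Nat.exists_eq_add_of_le h
  exact nest_le Lv hx hy m d hc

theorem i_mono (Lv : Levels T F r c D) (x : α) : Monotone fun m => Lv.i m x := by
  refine monotone_nat_of_le_succ ?_
  intro m
  rcases Lv.i_succ m x with h | h
  · exact h.ge
  · show Lv.i m x ≤ Lv.i (m + 1) x
    omega

theorem diam_le (Lv : Levels T F r c D) (hr : 8 ≤ r) (hD : 0 < D)
    (hdiam : ∀ s ∈ T, ∀ t ∈ T, dist s t ≤ D) (m : ℕ) :
    ∀ x ∈ T, ∀ y ∈ T, ∀ y' ∈ T, Lv.cell m y = Lv.cell m x → Lv.cell m y' = Lv.cell m x →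
      dist y y' ≤ 2 * (D / r ^ (Lv.i m x)) := by
  induction m with
  | zero =>
    intro x hx y hy y' hy' _ _
    rw [Lv.i_zero, pow_zero, div_one]
    linarith [hdiam y hy y' hy']
  | succ m ih =>
    intro x hx y hy y' hy' h1 h2
    rcases Lv.i_succ m x with h | h
    · rw [h]
      exact ih x hx y hy y' hy' (Lv.nest m y hy x hx h1) (Lv.nest m y' hy' x hx h2)
    · obtain ⟨t, ht, _, hb⟩ := Lv.ball m x hx h
      have e1 := hb y hy h1
      have e2 := hb y' hy' h2
      rw [h]
      calc dist y y' ≤ dist y t + dist y' t := dist_triangle_right _ _ _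
        _ ≤ D / r ^ (Lv.i m x + 1) + D / r ^ (Lv.i m x + 1) := add_le_add e1 e2
        _ = 2 * (D / r ^ (Lv.i m x + 1)) := by ring

/-- the numbers `α_m` -/
def al (Lv : Levels T F r c D) (x : α) (m : ℕ) : ℝ := Real.sqrt 2 ^ m * (D / r ^ (Lv.i m x))

theorem al_pos (Lv : Levels T F r c D) (hr : 8 ≤ r) (hD : 0 < D) (x : α) (m : ℕ) :
    0 < al Lv x m := by
  unfold al
  have : 0 < r := by linarith
  positivity

theorem al_succ_eq (Lv : Levels T F r c D) (x : α) (m : ℕ) (h : Lv.i (m + 1) x = Lv.i m x) :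
    al Lv x (m + 1) = Real.sqrt 2 * al Lv x m := by
  unfold al
  rw [h, pow_succ]
  ring

theorem al_succ_lt (Lv : Levels T F r c D) (hr : 8 ≤ r) (x : α) (m : ℕ)
    (h : Lv.i (m + 1) x = Lv.i m x + 1) :
    al Lv x (m + 1) = Real.sqrt 2 / r * al Lv x m := by
  unfold al
  have : r ≠ 0 := by linarith
  rw [h, pow_succ, pow_succ]
  field_simp

theorem sqrt2_lt : Real.sqrt 2 < 2 := by
  have h := Real.sqrt_nonneg 2
  have h2 := Real.mul_self_sqrt (show (0 : ℝ) ≤ 2 by norm_num)
  nlinarith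

theorem sqrt2_pos : 0 < Real.sqrt 2 := Real.sqrt_pos.mpr (by norm_num)

/-- `α` is bounded -/
theorem al_bdd (Lv : Levels T F r c D) (hr : 8 ≤ r) (hD : 0 < D) {x : α} (hx : x ∈ T) :
    ∃ B, ∀ k, al Lv x k ≤ B := by
  -- from the level `card T` on the sequence decreases
  have hlt : ∀ m, T.card ≤ m → T.card < 2 ^ 2 ^ m := by
    intro m hm
    have h1 : m < 2 ^ m := Nat.lt_two_pow_self
    have h2 : 2 ^ m < 2 ^ 2 ^ m := Nat.lt_two_pow_self
    omega
  have hdec : ∀ k, al Lv x (T.card + k) ≤ al Lv x T.card := by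
    intro k
    induction k with
    | zero => exact le_refl _
    | succ k ih =>
      have hi : Lv.i (T.card + k + 1) x = Lv.i (T.card + k) x + 1 := by
        rcases Lv.i_succ (T.card + k) x with h | h
        · exfalso
          have := Lv.big (T.card + k) x hx h
          have := hlt (T.card + k) (by omega)
          omega
        · exact h
      have e := al_succ_lt Lv hr x (T.card + k) hi
      have hpos := al_pos Lv hr hD x (T.card + k)
      have hle : Real.sqrt 2 / r ≤ 1 := by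
        rw [div_le_one (by linarith)]
        linarith [sqrt2_lt]
      calc al Lv x (T.card + (k + 1)) = Real.sqrt 2 / r * al Lv x (T.card + k) := e
        _ ≤ 1 * al Lv x (T.card + k) := by gcongr
        _ ≤ al Lv x T.card := by rw [one_mul]; exact ih
  refine ⟨∑ k ∈ range (T.card + 1), al Lv x k, fun k => ?_⟩
  have hnn : ∀ j ∈ range (T.card + 1), 0 ≤ al Lv x j := fun j _ => (al_pos Lv hr hD x j).le
  by_cases hk : k < T.card + 1
  · exact Finset.single_le_sum hnn (mem_range.mpr hk)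
  · obtain ⟨d, rfl⟩ := Nat.exists_eq_add_of_le (show T.card ≤ k by omega)
    exact (hdec d).trans (Finset.single_le_sum hnn (mem_range.mpr (by omega)))

/-- the cell of `x` at the level `m` -/
def cl (Lv : Levels T F r c D) (x : α) (m : ℕ) : Finset α :=
  T.filter fun y => Lv.cell m y = Lv.cell m x

theorem cl_anti (Lv : Levels T F r c D) {x : α} (hx : x ∈ T) {m k : ℕ} (h : m ≤ k) :
    cl Lv x k ⊆ cl Lv x m := by
  intro y hy
  unfold cl at hy ⊢
  rw [mem_filter] at hy ⊢
  exact ⟨hy.1, nest_le' Lv hy.1 hx h hy.2⟩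

/-- a good index -/
def GI (Lv : Levels T F r c D) (x : α) (m : ℕ) : Prop :=
  1 ≤ m ∧ Lv.i (m + 1) x = Lv.i m x + 1 ∧ Lv.i (m - 1) x = Lv.i m x

/-- `(*)` -/
theorem star' (Lv : Levels T F r c D) (hr : 8 ≤ r) {x : α} (hx : x ∈ T) {m : ℕ}
    (hm : GI Lv x m) {t : α} (ht : t ∈ T) (htc : Lv.cell m t = Lv.cell m x) (H : Finset α)
    (hH : H ⊆ cl Lv x m) (hd : ∀ s ∈ H, dist s t ≤ D / r ^ (Lv.i m x + 2)) :
    F H + c / (Real.sqrt 2 * r) * al Lv x m ≤ F (cl Lv x (m - 1)) := by
  obtain ⟨h1, h2, h3⟩ := hm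
  obtain ⟨k, rfl⟩ : ∃ k, m = k + 1 := ⟨m - 1, by omega⟩
  rw [Nat.add_sub_cancel] at h3
  have h := Lv.star k x hx h3.symm t ht htc H
    (fun s hs => (mem_filter.mp (hH hs)).1)
    (fun s hs => ⟨(mem_filter.mp (hH hs)).2, by rw [h3]; exact hd s hs⟩)
  have hr0 : r ≠ 0 := by linarith
  have e : c / (Real.sqrt 2 * r) * al Lv x (k + 1) =
      c * (D / r ^ (Lv.i k x + 1)) * Real.sqrt 2 ^ k := by
    unfold al
    rw [h3, pow_succ, pow_succ]
    have : Real.sqrt 2 ≠ 0 := sqrt2_pos.ne'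
    field_simp
  rw [e, Nat.add_sub_cancel]
  exact h

theorem one_step (Lv : Levels T F r c D) (hF0 : ∀ A, 0 ≤ F A) (hr : 8 ≤ r) (hD : 0 < D)
    {x : α} (hx : x ∈ T) {m : ℕ} (hm : GI Lv x m) :
    c / (Real.sqrt 2 * r) * al Lv x m ≤ F (cl Lv x (m - 1)) := by
  have hr0 : 0 < r := by linarith
  have h := star' Lv hr hx hm hx rfl {x} (by
    intro y hy
    rw [mem_singleton] at hy
    subst hy
    exact mem_filter.mpr ⟨hx, rfl⟩) (by
    intro s hs
    rw [mem_singleton] at hs
    subst hs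
    rw [dist_self]
    positivity)
  linarith [hF0 {x}]

theorem gap (Lv : Levels T F r c D) {x : α} {m m' : ℕ} (hm : GI Lv x m)
    (hm' : GI Lv x m') (h : m < m') : m + 2 ≤ m' := by
  by_contra hcon
  have : m' = m + 1 := by omega
  subst this
  have e1 := hm.2.1
  have e2 := hm'.2.2
  rw [Nat.add_sub_cancel] at e2
  omega

theorem two_step (Lv : Levels T F r c D) (hFm : ∀ A B, A ⊆ B → F A ≤ F B) (hr : 8 ≤ r)
    (hD : 0 < D) {x : α} (hx : x ∈ T) {m m' m'' : ℕ} (hm : GI Lv x m)
    (hm' : GI Lv x m') (hm'' : GI Lv x m'') (h : m < m') (h' : m' < m'') :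
    F (cl Lv x (m'' - 1)) + c / (Real.sqrt 2 * r) * al Lv x m ≤ F (cl Lv x (m - 1)) := by
  have hr0 : 0 < r := by linarith
  obtain ⟨t, ht, htc, hb⟩ := Lv.ball m' x hx hm'.2.1
  have hg := gap Lv hm' hm'' h'
  have hmono : Lv.i m x + 1 ≤ Lv.i m' x := by
    have := i_mono Lv x (show m + 1 ≤ m' by omega)
    have e := hm.2.1
    simp only at this
    omega
  have hs := star' Lv hr hx hm ht (nest_le' Lv ht hx h.le htc) (cl Lv x (m' + 1))
    (cl_anti Lv hx (by omega)) (by
      intro s hs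
      have hs' := mem_filter.mp hs
      refine (hb s hs'.1 hs'.2).trans ?_
      exact div_le_div_of_nonneg_left hD.le (by positivity)
        (pow_le_pow_right₀ (by linarith) (by omega)))
  have h3 := hFm _ _ (cl_anti Lv hx (show m' + 1 ≤ m'' - 1 by omega))
  linarith

/-- the value of a list -/
def val (G : ℕ → ℝ) : List ℕ → ℝ
  | [] => 0
  | [m] => G m
  | m :: m' :: _ => G m + G m'

theorem list_sum_le (P : ℕ → Prop) (G b : ℕ → ℝ)
    (h1 : ∀ m, P m → b m ≤ G m)
    (h2 : ∀ m m' m'', P m → P m' → P m'' → m < m' → m' < m'' → G m'' + b m ≤ G m) :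
    ∀ l : List ℕ, l.Pairwise (· < ·) → (∀ m ∈ l, P m) → (l.map b).sum ≤ val G l := by
  intro l
  induction l with
  | nil => intro _ _; simp [val]
  | cons m l ih =>
    intro hs hP
    have hs' := List.pairwise_cons.mp hs
    have ih' := ih hs'.2 (fun k hk => hP k (List.mem_cons_of_mem _ hk))
    have hPm := hP m List.mem_cons_self
    rw [List.map_cons, List.sum_cons]
    match l, ih', hs', hP with
    | [], ih', hs', hP =>
      simp only [List.map_nil, List.sum_nil, add_zero, val]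
      exact h1 m hPm
    | [m'], ih', hs', hP =>
      simp only [val] at ih' ⊢
      have := h1 m hPm
      linarith
    | m' :: m'' :: l', ih', hs', hP =>
      simp only [val] at ih' ⊢
      have hs2 := List.pairwise_cons.mp hs'.2
      have := h2 m m' m'' hPm (hP m' (by simp)) (hP m'' (by simp))
        (hs'.1 m' (by simp)) (hs2.1 m'' (by simp))
      linarith

theorem sum_le (P : ℕ → Prop) (G b : ℕ → ℝ) (U : ℝ) (hU : 0 ≤ U)
    (hG : ∀ m, P m → G m ≤ U)
    (h1 : ∀ m, P m → b m ≤ G m)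
    (h2 : ∀ m m' m'', P m → P m' → P m'' → m < m' → m' < m'' → G m'' + b m ≤ G m)
    (J : Finset ℕ) (hJ : ∀ m ∈ J, P m) : ∑ m ∈ J, b m ≤ 2 * U := by
  have hl : (J.sort (· ≤ ·)).Pairwise (· < ·) := (Finset.sortedLT_sort J).pairwise
  have hm : ∀ m ∈ J.sort (· ≤ ·), P m := fun m hm => hJ m ((Finset.mem_sort _).mp hm)
  have h := list_sum_le P G b h1 h2 (J.sort (· ≤ ·)) hl hm
  have e : ((J.sort (· ≤ ·)).map b).sum = ∑ m ∈ J, b m := by
    rw [← Multiset.sum_coe, ← Multiset.map_coe, Finset.sort_eq]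
    rfl
  rw [e] at h
  refine h.trans ?_
  match hJl : J.sort (· ≤ ·), hm with
  | [], _ => simp only [val]; linarith
  | [m], hm =>
    simp only [val]
    linarith [hG m (hm m (by simp))]
  | m :: m' :: l, hm =>
    simp only [val]
    linarith [hG m (hm m (by simp)), hG m' (hm m' (by simp))]

theorem good_of_max (Lv : Levels T F r c D) (hr : 8 ≤ r) (hD : 0 < D) (x : α)
    {m : ℕ} (h1 : 1 ≤ m)
    (hmax : ∀ k, k ≠ m → al Lv x k < Real.sqrt 2 ^ (Nat.dist m k) * al Lv x m) :
    GI Lv x m := by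
  refine ⟨h1, ?_, ?_⟩
  · rcases Lv.i_succ m x with h | h
    · exfalso
      have e := al_succ_eq Lv x m h
      have hlt := hmax (m + 1) (by omega)
      have hd : Nat.dist m (m + 1) = 1 := by
        rw [Nat.dist_eq_sub_of_le (by omega)]; omega
      rw [hd, pow_one, e] at hlt
      exact lt_irrefl _ hlt
    · exact h
  · obtain ⟨k, rfl⟩ : ∃ k, m = k + 1 := ⟨m - 1, by omega⟩
    rw [Nat.add_sub_cancel]
    rcases Lv.i_succ k x with h | h
    · exact h.symm
    · exfalso
      have e := al_succ_lt Lv hr x k h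
      have hlt := hmax k (by omega)
      have hd : Nat.dist (k + 1) k = 1 := by
        rw [Nat.dist_eq_sub_of_le_right (by omega)]; omega
      have hp := al_pos Lv hr hD x k
      rw [hd, pow_one, e] at hlt
      have hsq := Real.mul_self_sqrt (show (0 : ℝ) ≤ 2 by norm_num)
      have e2 : Real.sqrt 2 * (Real.sqrt 2 / r * al Lv x k) = 2 / r * al Lv x k := by
        rw [← mul_assoc, mul_div_assoc', hsq]
      rw [e2] at hlt
      have hle : 2 / r ≤ 1 := by
        rw [div_le_one (by linarith)]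
        linarith
      nlinarith

theorem total (Lv : Levels T F r c D) (hF0 : ∀ A, 0 ≤ F A)
    (hFm : ∀ A B, A ⊆ B → F A ≤ F B) (hr : 8 ≤ r) (hc : 0 < c) (hD : 0 < D)
    {x : α} (hx : x ∈ T) (M : ℕ) :
    ∑ m ∈ range M, al Lv x m ≤ 7 * (D + Real.sqrt 2 * r / c * (2 * F T)) := by
  obtain ⟨B, hB⟩ := al_bdd Lv hr hD hx
  obtain ⟨J, hJ, hsum⟩ := seq_lemma (al Lv x) (al_pos Lv hr hD x) hB M
  have hr0 : 0 < r := by linarith
  have hkap : 0 < c / (Real.sqrt 2 * r) := by
    have := sqrt2_pos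
    positivity
  have hgood : ∀ m ∈ J.filter fun m => 1 ≤ m, GI Lv x m := by
    intro m hm
    rw [mem_filter] at hm
    exact good_of_max Lv hr hD x hm.2 (hJ m hm.1)
  have hS := sum_le (GI Lv x) (fun m => F (cl Lv x (m - 1)))
    (fun m => c / (Real.sqrt 2 * r) * al Lv x m) (F T) (hF0 T)
    (fun m _ => hFm _ _ (filter_subset _ _))
    (fun m hm => one_step Lv hF0 hr hD hx hm)
    (fun m m' m'' a1 a2 a3 a4 a5 => two_step Lv hFm hr hD hx a1 a2 a3 a4 a5)
    (J.filter fun m => 1 ≤ m) hgood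
  rw [← Finset.mul_sum] at hS
  have hS' : ∑ m ∈ J.filter (fun m => 1 ≤ m), al Lv x m ≤
      Real.sqrt 2 * r / c * (2 * F T) := by
    have e : Real.sqrt 2 * r / c = (c / (Real.sqrt 2 * r))⁻¹ := by
      rw [inv_div]
    rw [e, ← div_eq_inv_mul, le_div_iff₀ hkap]
    linarith
  have hsplit := Finset.sum_filter_add_sum_filter_not J (fun m => 1 ≤ m) (al Lv x)
  have h0 : ∑ m ∈ J.filter (fun m => ¬ 1 ≤ m), al Lv x m ≤ D := by
    have hsub : J.filter (fun m => ¬ 1 ≤ m) ⊆ {0} := by
      intro m hm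
      rw [mem_filter] at hm
      rw [mem_singleton]
      omega
    have := Finset.sum_le_sum_of_subset_of_nonneg hsub
      (fun m _ _ => (al_pos Lv hr hD x m).le)
    rw [sum_singleton] at this
    have e0 : al Lv x 0 = D := by
      unfold al
      rw [Lv.i_zero, pow_zero, pow_zero, div_one, one_mul]
    linarith
  linarith

end SchemeAux

open SchemeAux in
theorem scheme {r c : ℝ} (hr : 8 ≤ r) (hc : 0 < c) : ∃ K : ℝ, 1 ≤ K ∧ ∀ {α : Type}
    [MetricSpace α] [DecidableEq α] (T : Finset α) (_ : T.Nonempty) (F : Finset α → ℝ)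
    (_ : ∀ A, 0 ≤ F A) (_ : ∀ A B, A ⊆ B → F A ≤ F B)
    (_ : ∀ (m : ℕ) (a : ℝ), 0 < a → ∀ (t : Fin (2 ^ 2 ^ m) → α) (H : Fin (2 ^ 2 ^ m) → Finset α),
      (∀ l l', l ≠ l' → a ≤ dist (t l) (t l')) →
      (∀ l, (H l).Nonempty ∧ ∀ s ∈ H l, dist s (t l) ≤ a / r) →
      ∀ b, (∀ l, b ≤ F (H l)) → ∀ B, (∀ l, H l ⊆ B) → b + c * a * Real.sqrt 2 ^ m ≤ F B)
    (D : ℝ) (_ : ∀ s ∈ T, ∀ t ∈ T, dist s t ≤ D),
    ∃ (cell : ℕ → α → ℕ) (Δ : ℕ → α → ℝ) (L : ℕ), (∀ m, (T.image (cell m)).card ≤ 2 ^ 2 ^ m) ∧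
      (∀ m, ∀ x ∈ T, ∀ y ∈ T, cell (m + 1) x = cell (m + 1) y → cell m x = cell m y) ∧
      (∀ m x, 0 ≤ Δ m x) ∧
      (∀ m, ∀ x ∈ T, ∀ y ∈ T, cell m x = cell m y → dist x y ≤ Δ m x) ∧
      (∀ x ∈ T, ∀ M, ∑ m ∈ range M, Real.sqrt 2 ^ m * Δ m x ≤ K * (F T + D)) ∧
      (∀ m, L ≤ m → ∀ x ∈ T, ∀ y ∈ T, cell m x = cell m y → x = y) := by
  have hr0 : 0 < r := by linarith
  have hs2 := sqrt2_pos
  refine ⟨14 + 28 * (Real.sqrt 2 * r / c), ?_, ?_⟩
  · have : 0 < Real.sqrt 2 * r / c := by positivity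
    linarith
  intro α _ _ T hT F hF0 hFm hgrow D hdiam
  have hK : 0 < Real.sqrt 2 * r / c := by positivity
  have hD0 : 0 ≤ D := by
    obtain ⟨s, hs⟩ := hT
    have := hdiam s hs s hs
    rwa [dist_self] at this
  rcases hD0.eq_or_lt with hD | hD
  · -- all points coincide
    have heq : ∀ x ∈ T, ∀ y ∈ T, x = y := by
      intro x hx y hy
      have := hdiam x hx y hy
      rw [← hD] at this
      exact dist_le_zero.mp this
    refine ⟨fun _ _ => 0, fun _ _ => 0, 0, ?_, ?_, ?_, ?_, ?_, ?_⟩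
    · intro m
      calc (T.image (fun _ => 0)).card ≤ 1 := by
            refine Finset.card_le_one.mpr ?_
            intro a ha b hb
            simp only [mem_image] at ha hb
            obtain ⟨_, _, rfl⟩ := ha
            obtain ⟨_, _, rfl⟩ := hb
            rfl
        _ ≤ 2 ^ 2 ^ m := Nat.one_le_two_pow
    · intro m x hx y hy _; rfl
    · intro m x; exact le_refl _
    · intro m x hx y hy _
      rw [heq x hx y hy, dist_self]
    · intro x hx M
      simp only [mul_zero, sum_const_zero]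
      have := hF0 T
      rw [← hD]
      positivity
    · intro m _ x hx y hy _
      exact heq x hx y hy
  · obtain ⟨Lv⟩ := levels T F hFm hr hc hgrow hD
    -- an injection
    obtain ⟨e, he⟩ : ∃ e : α → ℕ, ∀ x ∈ T, ∀ y ∈ T, e x = e y → x = y := by
      refine ⟨fun x => if h : x ∈ T then (T.equivFin ⟨x, h⟩ : ℕ) else 0, ?_⟩
      intro x hx y hy h
      simp only [hx, hy, dif_pos] at h
      have h' := T.equivFin.injective (Fin.ext h)
      exact congrArg Subtype.val h'
    refine ⟨fun m x => if m < T.card then Lv.cell m x else e x,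
      fun m x => if m < T.card then 2 * (D / r ^ (Lv.i m x)) else 0, T.card, ?_, ?_, ?_, ?_,
      ?_, ?_⟩
    · intro m
      by_cases hm : m < T.card
      · simp only [hm, if_true]
        exact Lv.card m
      · simp only [hm, if_false]
        refine card_image_le.trans ?_
        have h1 : m < 2 ^ m := Nat.lt_two_pow_self
        have h2 : 2 ^ m < 2 ^ 2 ^ m := Nat.lt_two_pow_self
        omega
    · intro m x hx y hy h
      by_cases hm : m + 1 < T.card
      · have hm' : m < T.card := by omega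
        simp only [hm, hm', if_true] at h ⊢
        exact Lv.nest m x hx y hy h
      · simp only [hm, if_false] at h
        rw [he x hx y hy h]
    · intro m x
      by_cases hm : m < T.card
      · simp only [hm, if_true]
        positivity
      · simp only [hm, if_false]
        exact le_refl _
    · intro m x hx y hy h
      by_cases hm : m < T.card
      · simp only [hm, if_true] at h ⊢
        exact diam_le Lv hr hD hdiam m x hx x hx y hy rfl h.symm
      · simp only [hm, if_false] at h ⊢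
        rw [he x hx y hy h, dist_self]
    · intro x hx M
      have h := total Lv hF0 hFm hr hc hD hx M
      calc ∑ m ∈ range M, Real.sqrt 2 ^ m *
            (if m < T.card then 2 * (D / r ^ (Lv.i m x)) else 0)
          ≤ ∑ m ∈ range M, 2 * al Lv x m := by
            refine sum_le_sum fun m _ => ?_
            have hp := al_pos Lv hr hD x m
            by_cases hm : m < T.card
            · simp only [hm, if_true]
              unfold al
              apply le_of_eq
              ring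
            · simp only [hm, if_false, mul_zero]
              linarith
        _ = 2 * ∑ m ∈ range M, al Lv x m := by rw [← mul_sum]
        _ ≤ 2 * (7 * (D + Real.sqrt 2 * r / c * (2 * F T))) := by linarith
        _ ≤ (14 + 28 * (Real.sqrt 2 * r / c)) * (F T + D) := by
            have hFT := hF0 T
            have : 0 ≤ Real.sqrt 2 * r / c * D := by positivity
            nlinarith
    · intro m hm x hx y hy h
      have hm' : ¬ m < T.card := by omega
      simp only [hm', if_false] at h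
      exact he x hx y hy h

end IC65
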