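import Pool.Agent.IC65.Defs
import Pool.Agent.IC65.GGrow
import Pool.Agent.IC65.Scheme

/-!
# IC65 module MMT: the majorising measure theorem in the form needed

`scheme` for `F = gF`, `D = 4 gF T` (`dist_le_gF`), `growth`; `gF T ≤ gam T`, `‖x‖ ≤ 2 gam T` (`norm_le_gam`).
-/

open MeasureTheory ProbabilityTheory Finset
open scoped RealInnerProductSpace

noncomputable section

namespace IC65

theorem mmt : ∃ K : ℝ, 1 ≤ K ∧ ∀ {n : ℕ} (T : Finset (EuclideanSpace ℝ (Fin n)))
    (_ : T.Nonempty), Nonempty (Cells T (K * gam T)) := by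
  obtain ⟨r, c, hr, hc, hgrow⟩ := growth
  obtain ⟨K, hK, hsch⟩ := scheme hr hc
  refine ⟨5 * K, by linarith, fun {n} T hT => ?_⟩
  obtain ⟨cell, Δ, L, hcard, hnest, hΔ, hdiam, hsum, hsep⟩ := hsch T hT gF gF_nonneg
    (fun A B h => gF_mono h)
    (fun m a ha t H h1 h2 b hb B hB => hgrow m a ha t H h1 h2 b hb B hB)
    (4 * gF T) (fun s hs t ht => dist_le_gF hs ht)
  have hle := gF_le_gam T
  have h0 := gF_nonneg T
  refine ⟨⟨cell, Δ, hcard, hnest, hΔ, ?_, ?_, L, hsep, ?_⟩⟩
  · intro m x hx y hy h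
    rw [← dist_eq_norm]
    exact hdiam m x hx y hy h
  · intro x hx M
    refine (hsum x hx M).trans ?_
    calc K * (gF T + 4 * gF T) = 5 * K * gF T := by ring
      _ ≤ 5 * K * gam T := mul_le_mul_of_nonneg_left hle (by linarith)
  · intro x hx
    have h1 := norm_le_gam hx
    have h2 : 0 ≤ gam T := h0.trans hle
    nlinarith

end IC65
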