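import Pool.Agent.IC65.Defs

/-!
# IC65 module PSI-A: from `E exp(a Z²) ≤ 2` to the moment generating function

By scaling (`Z ↦ √a Z`, `l ↦ l/√a`) let `a = 1`.  If `|l| ≤ 1` use `exp x ≤ x + exp(x²)` (all real
`x`), so `E exp(lZ) ≤ E exp(l² Z²) ≤ (E exp Z²)^(l²) ≤ 2^(l²) ≤ exp(l²)` (Jensen, `l² ≤ 1`); if `|l| ≥ 1`
use `l Z ≤ l²/4 + Z²`, `E exp(lZ) ≤ 2 exp(l²/4) ≤ exp(l²)`.
All sums are over the event `S` with nonnegative weights; divide by `P = ∑_{ω ∈ S} p ω` (if `P = 0` both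
sides vanish).
-/

open Finset

noncomputable section

namespace IC65

variable {Ω : Type}

private theorem psiA_exp_le (x : ℝ) : Real.exp x ≤ x + Real.exp (x ^ 2) := by
  rcases le_or_gt |x| 1 with h | h
  · have h1 := (abs_le.1 (Real.abs_exp_sub_one_sub_id_le h)).2
    have h2 := Real.add_one_le_exp (x ^ 2)
    linarith
  · rcases lt_abs.1 h with h1 | h1
    · have h2 : Real.exp x ≤ Real.exp (x ^ 2) := Real.exp_le_exp.2 (by nlinarith)
      linarith
    · have h2 : Real.exp x ≤ 1 := Real.exp_le_one_iff.2 (by linarith)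
      have h3 := Real.add_one_le_exp (x ^ 2)
      nlinarith

theorem psi_mgf (S : Finset Ω) (p Z : Ω → ℝ) (hp : ∀ ω ∈ S, 0 ≤ p ω)
    (h0 : ∑ ω ∈ S, p ω * Z ω = 0) {a : ℝ} (ha : 0 < a)
    (h : ∑ ω ∈ S, p ω * Real.exp (a * Z ω ^ 2) ≤ 2 * ∑ ω ∈ S, p ω) (l : ℝ) :
    ∑ ω ∈ S, p ω * Real.exp (l * Z ω) ≤ (∑ ω ∈ S, p ω) * Real.exp (l ^ 2 / a) := by
  set s : ℝ := l ^ 2 / a with hs
  have hs0 : 0 ≤ s := by positivity
  have hsa : l ^ 2 = s * a := by
    rw [hs]
    field_simp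
  have hP : 0 ≤ ∑ ω ∈ S, p ω := Finset.sum_nonneg hp
  rcases le_or_gt s 1 with h1 | h1
  · -- small exponent
    have hlog : Real.log 2 ≤ 1 := by
      have := Real.log_two_lt_d9
      linarith
    have key : ∀ ω ∈ S, p ω * Real.exp (l * Z ω) ≤ l * (p ω * Z ω) +
        Real.exp (s * Real.log 2) * ((1 - s) * p ω + s / 2 * (p ω * Real.exp (a * Z ω ^ 2))) := by
      intro ω hω
      have e1 := psiA_exp_le (l * Z ω)
      have e2 : (l * Z ω) ^ 2 = s * Real.log 2 + s * (a * Z ω ^ 2 - Real.log 2) := by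
        rw [mul_pow, hsa]
        ring
      have e3 : Real.exp (s * (a * Z ω ^ 2 - Real.log 2)) ≤
          (1 - s) + s * Real.exp (a * Z ω ^ 2 - Real.log 2) := by
        have := convexOn_exp.2 (Set.mem_univ (0 : ℝ)) (Set.mem_univ (a * Z ω ^ 2 - Real.log 2))
          (sub_nonneg.2 h1) hs0 (by ring)
        simpa using this
      have e4 : Real.exp (a * Z ω ^ 2 - Real.log 2) = Real.exp (a * Z ω ^ 2) / 2 := by
        rw [Real.exp_sub, Real.exp_log (by norm_num)]
      rw [e2, Real.exp_add] at e1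
      rw [e4] at e3
      have e5 : Real.exp (l * Z ω) ≤ l * Z ω + Real.exp (s * Real.log 2) *
          ((1 - s) + s * (Real.exp (a * Z ω ^ 2) / 2)) := by
        refine e1.trans ?_
        have := mul_le_mul_of_nonneg_left e3 (Real.exp_pos (s * Real.log 2)).le
        linarith
      calc p ω * Real.exp (l * Z ω) ≤ p ω * (l * Z ω + Real.exp (s * Real.log 2) *
          ((1 - s) + s * (Real.exp (a * Z ω ^ 2) / 2))) := mul_le_mul_of_nonneg_left e5 (hp ω hω)
        _ = _ := by ring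
    have hsum := Finset.sum_le_sum key
    rw [Finset.sum_add_distrib, ← Finset.mul_sum, h0, mul_zero, zero_add, ← Finset.mul_sum,
      Finset.sum_add_distrib, ← Finset.mul_sum, ← Finset.mul_sum] at hsum
    have e6 : (1 - s) * ∑ ω ∈ S, p ω + s / 2 * ∑ ω ∈ S, p ω * Real.exp (a * Z ω ^ 2) ≤
        ∑ ω ∈ S, p ω := by
      have := mul_le_mul_of_nonneg_left h (by positivity : (0 : ℝ) ≤ s / 2)
      linarith
    have e7 : Real.exp (s * Real.log 2) ≤ Real.exp s :=
      Real.exp_le_exp.2 (by nlinarith)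
    calc ∑ ω ∈ S, p ω * Real.exp (l * Z ω)
        ≤ Real.exp (s * Real.log 2) * ((1 - s) * ∑ ω ∈ S, p ω +
          s / 2 * ∑ ω ∈ S, p ω * Real.exp (a * Z ω ^ 2)) := hsum
      _ ≤ Real.exp (s * Real.log 2) * ∑ ω ∈ S, p ω :=
          mul_le_mul_of_nonneg_left e6 (Real.exp_pos _).le
      _ ≤ Real.exp s * ∑ ω ∈ S, p ω := mul_le_mul_of_nonneg_right e7 hP
      _ = _ := mul_comm _ _
  · -- large exponent
    have key : ∀ ω ∈ S, p ω * Real.exp (l * Z ω) ≤
        Real.exp (s / 4) * (p ω * Real.exp (a * Z ω ^ 2)) := by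
      intro ω hω
      have e1 : l * Z ω ≤ s / 4 + a * Z ω ^ 2 := by
        have e2 : 0 ≤ (l - 2 * (a * Z ω)) ^ 2 := sq_nonneg _
        have e3 : (l - 2 * (a * Z ω)) ^ 2 = 4 * a * (s / 4 + a * Z ω ^ 2 - l * Z ω) := by
          have : (l - 2 * (a * Z ω)) ^ 2 = l ^ 2 - 4 * a * (l * Z ω) + 4 * a * (a * Z ω ^ 2) := by
            ring
          rw [this, hsa]
          ring
        rw [e3] at e2
        have e4 := nonneg_of_mul_nonneg_right e2 (by positivity : (0 : ℝ) < 4 * a)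
        linarith
      have e2 := Real.exp_le_exp.2 e1
      rw [Real.exp_add] at e2
      calc p ω * Real.exp (l * Z ω) ≤ p ω * (Real.exp (s / 4) * Real.exp (a * Z ω ^ 2)) :=
            mul_le_mul_of_nonneg_left e2 (hp ω hω)
        _ = _ := by ring
    have hsum := Finset.sum_le_sum key
    rw [← Finset.mul_sum] at hsum
    have e5 : 2 ≤ Real.exp (3 * s / 4) := by
      have := Real.quadratic_le_exp_of_nonneg (by positivity : 0 ≤ 3 * s / 4)
      nlinarith
    have e6 : Real.exp s = Real.exp (s / 4) * Real.exp (3 * s / 4) := by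
      rw [← Real.exp_add]
      congr 1
      ring
    calc ∑ ω ∈ S, p ω * Real.exp (l * Z ω)
        ≤ Real.exp (s / 4) * ∑ ω ∈ S, p ω * Real.exp (a * Z ω ^ 2) := hsum
      _ ≤ Real.exp (s / 4) * (2 * ∑ ω ∈ S, p ω) := mul_le_mul_of_nonneg_left h (Real.exp_pos _).le
      _ = (∑ ω ∈ S, p ω) * (Real.exp (s / 4) * 2) := by ring
      _ ≤ (∑ ω ∈ S, p ω) * (Real.exp (s / 4) * Real.exp (3 * s / 4)) :=
          mul_le_mul_of_nonneg_left (mul_le_mul_of_nonneg_left e5 (Real.exp_pos _).le) hP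
      _ = _ := by rw [e6]

end IC65
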