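import Pool.Agent.IC65.Defs

/-!
# IC65 module PSI-C: from subgaussian tails to `E exp(Z²/(5β)) ≤ 2`

Two-sided tail `P(|Z| > t) ≤ 2 exp(1 - t²/β) P`, so with `s = t²/β`
`E exp(Z²/(5β)) ≤ 1 + ∫_0^∞ (1/5) exp(s/5) min(1, 2 exp(1 - s)) ds`
`≤ 1 + (exp((1 + log 2)/5) - 1) + (e/2) exp(-(4/5)(1 + log 2)) ≤ 1.76`.
(Any other proof is fine: e.g. layer cake for the finite measure `∑ p ω δ_ω`; or sort the values of `Z²` and
use `Z(ω)² ≤ β (1 + log(2P/q(ω)))`, `q(ω) = P(Z² ≥ Z(ω)²)`, `∑ p(ω) q(ω)^(-1/5) ≤ (5/4) P^(4/5)`.)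
-/

open Finset

noncomputable section

namespace IC65

variable {Ω : Type}

namespace PsiCAux

open MeasureTheory

/-- the density `(1/5) exp(s/5)` -/
def den (s : ℝ) : ℝ := 1 / 5 * Real.exp (s / 5)

theorem den_cont : Continuous den := by
  unfold den; fun_prop

theorem den_nonneg (s : ℝ) : 0 ≤ den s := by
  unfold den; positivity

theorem hasDeriv (s : ℝ) : HasDerivAt (fun s : ℝ => Real.exp (s / 5)) (den s) s := by
  have h : HasDerivAt (fun s : ℝ => Real.exp (s / 5)) (Real.exp (s / 5) * (1 / 5)) s :=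
    ((hasDerivAt_id s).div_const 5).exp
  have h2 : den s = Real.exp (s / 5) * (1 / 5) := mul_comm _ _
  rw [h2]
  exact h

theorem ind_integrable (W : ℝ) :
    IntegrableOn ((Set.Iio W).indicator den) (Set.Ioi (5 / 4 : ℝ)) := by
  rw [IntegrableOn, integrable_indicator_iff measurableSet_Iio]
  rw [IntegrableOn, Measure.restrict_restrict measurableSet_Iio]
  have h1 : Set.Iio W ∩ Set.Ioi (5 / 4 : ℝ) ⊆ Set.Icc (5 / 4 : ℝ) W := by
    intro x hx
    exact ⟨hx.2.le, hx.1.le⟩
  exact (den_cont.continuousOn.integrableOn_compact isCompact_Icc).mono_set h1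

theorem exp_le_ind (W : ℝ) :
    Real.exp (W / 5) ≤ Real.exp (1 / 4) +
      ∫ s in Set.Ioi (5 / 4 : ℝ), (Set.Iio W).indicator den s := by
  rcases le_or_gt W (5 / 4) with h | h
  · have h1 : 0 ≤ ∫ s in Set.Ioi (5 / 4 : ℝ), (Set.Iio W).indicator den s := by
      apply integral_nonneg
      intro s
      exact Set.indicator_nonneg (fun s _ => den_nonneg s) s
    have h2 : Real.exp (W / 5) ≤ Real.exp (1 / 4) := by
      apply Real.exp_le_exp.2
      linarith
    linarith
  · rw [setIntegral_indicator measurableSet_Iio, Set.Ioi_inter_Iio, ← integral_Ioc_eq_integral_Ioo,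
      ← intervalIntegral.integral_of_le h.le,
      intervalIntegral.integral_eq_sub_of_hasDerivAt (fun x _ => hasDeriv x)
        (den_cont.intervalIntegrable _ _)]
    have : (5 / 4 : ℝ) / 5 = 1 / 4 := by norm_num
    rw [this]
    linarith

/-- the majorant -/
def maj (s : ℝ) : ℝ := 2 / 5 * Real.exp 1 * Real.exp (-(4 / 5) * s)

theorem maj_integrable : IntegrableOn maj (Set.Ioi (5 / 4 : ℝ)) := by
  unfold maj
  apply Integrable.const_mul
  exact integrableOn_exp_mul_Ioi (by norm_num) _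

theorem maj_integral : ∫ s in Set.Ioi (5 / 4 : ℝ), maj s = 1 / 2 := by
  unfold maj
  rw [integral_const_mul, integral_exp_mul_Ioi (by norm_num)]
  have h1 : Real.exp 1 * Real.exp (-(4 / 5) * (5 / 4)) = 1 := by
    rw [← Real.exp_add]
    norm_num
  have h2 : 2 / 5 * Real.exp 1 * (-Real.exp (-(4 / 5) * (5 / 4)) / -(4 / 5)) =
      1 / 2 * (Real.exp 1 * Real.exp (-(4 / 5) * (5 / 4))) := by
    ring
  rw [h2, h1]
  norm_num

theorem den_maj (s : ℝ) : den s * (2 * Real.exp (1 - s)) = maj s := by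
  unfold den maj
  have h1 : Real.exp (s / 5) * Real.exp (1 - s) = Real.exp 1 * Real.exp (-(4 / 5) * s) := by
    rw [← Real.exp_add, ← Real.exp_add]
    congr 1
    ring
  calc 1 / 5 * Real.exp (s / 5) * (2 * Real.exp (1 - s))
      = 2 / 5 * (Real.exp (s / 5) * Real.exp (1 - s)) := by ring
    _ = _ := by rw [h1]; ring

theorem exp_quarter : Real.exp (1 / 4) ≤ 3 / 2 := by
  have h1 : Real.exp (1 / 4) ^ 4 = Real.exp 1 := by
    rw [← Real.exp_nat_mul]
    norm_num
  have h2 := Real.exp_one_lt_d9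
  by_contra hc
  push Not at hc
  have h3 : (3 / 2 : ℝ) ^ 4 < Real.exp (1 / 4) ^ 4 :=
    pow_lt_pow_left₀ hc (by norm_num) (by norm_num)
  rw [h1] at h3
  norm_num at h3
  linarith

end PsiCAux

open PsiCAux MeasureTheory

theorem tail_psi (S : Finset Ω) (p Z : Ω → ℝ) (hp : ∀ ω ∈ S, 0 ≤ p ω) {β : ℝ} (hβ : 0 < β)
    (h1 : ∀ t : ℝ, 0 < t → ∑ ω ∈ S with t < Z ω, p ω ≤
      Real.exp (1 - t ^ 2 / β) * ∑ ω ∈ S, p ω)
    (h2 : ∀ t : ℝ, 0 < t → ∑ ω ∈ S with t < -Z ω, p ω ≤
      Real.exp (1 - t ^ 2 / β) * ∑ ω ∈ S, p ω) :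
    ∑ ω ∈ S, p ω * Real.exp (Z ω ^ 2 / (5 * β)) ≤ 2 * ∑ ω ∈ S, p ω := by
  set P := ∑ ω ∈ S, p ω with hP
  have hP0 : 0 ≤ P := sum_nonneg hp
  -- the two sided tail
  have htail : ∀ s : ℝ, 0 < s → ∑ ω ∈ S with s < Z ω ^ 2 / β, p ω ≤
      2 * Real.exp (1 - s) * P := by
    intro s hs
    have hbs : 0 < β * s := mul_pos hβ hs
    have ht : 0 < Real.sqrt (β * s) := Real.sqrt_pos.2 hbs
    have ht2 : Real.sqrt (β * s) ^ 2 / β = s := by
      rw [Real.sq_sqrt hbs.le]
      field_simp
    have ha := h1 _ ht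
    have hb := h2 _ ht
    rw [ht2] at ha hb
    have hc : ∑ ω ∈ S with s < Z ω ^ 2 / β, p ω ≤
        ∑ ω ∈ S with Real.sqrt (β * s) < Z ω, p ω +
          ∑ ω ∈ S with Real.sqrt (β * s) < -Z ω, p ω := by
      rw [sum_filter, sum_filter, sum_filter, ← sum_add_distrib]
      apply sum_le_sum
      intro ω hω
      have hpω := hp ω hω
      by_cases hh : s < Z ω ^ 2 / β
      · rw [if_pos hh]
        have h3 : β * s < Z ω ^ 2 := by
          rw [lt_div_iff₀ hβ] at hh
          linarith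
        have h4 : Real.sqrt (β * s) < |Z ω| := by
          rw [← Real.sqrt_sq_eq_abs]
          exact Real.sqrt_lt_sqrt hbs.le h3
        rcases le_or_gt 0 (Z ω) with h5 | h5
        · rw [abs_of_nonneg h5] at h4
          rw [if_pos h4]
          split_ifs <;> linarith
        · rw [abs_of_neg h5] at h4
          rw [if_pos h4]
          split_ifs <;> linarith
      · rw [if_neg hh]
        split_ifs <;> linarith
    calc _ ≤ _ := hc
      _ ≤ Real.exp (1 - s) * P + Real.exp (1 - s) * P := add_le_add ha hb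
      _ = _ := by ring
  -- the integral
  have hint : ∀ ω ∈ S, IntegrableOn (fun s => p ω * (Set.Iio (Z ω ^ 2 / β)).indicator den s)
      (Set.Ioi (5 / 4 : ℝ)) := fun ω _ => (ind_integrable _).const_mul _
  calc ∑ ω ∈ S, p ω * Real.exp (Z ω ^ 2 / (5 * β))
      ≤ ∑ ω ∈ S, (p ω * Real.exp (1 / 4) +
          ∫ s in Set.Ioi (5 / 4 : ℝ), p ω * (Set.Iio (Z ω ^ 2 / β)).indicator den s) := by
        apply sum_le_sum
        intro ω hω
        have h3 := exp_le_ind (Z ω ^ 2 / β)
        have h4 : Z ω ^ 2 / β / 5 = Z ω ^ 2 / (5 * β) := by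
          rw [div_div, mul_comm β 5]
        rw [h4] at h3
        rw [integral_const_mul, ← mul_add]
        exact mul_le_mul_of_nonneg_left h3 (hp ω hω)
    _ = P * Real.exp (1 / 4) + ∫ s in Set.Ioi (5 / 4 : ℝ),
          ∑ ω ∈ S, p ω * (Set.Iio (Z ω ^ 2 / β)).indicator den s := by
        rw [sum_add_distrib, ← sum_mul, integral_finsetSum _ hint]
    _ ≤ P * Real.exp (1 / 4) + ∫ s in Set.Ioi (5 / 4 : ℝ), P * maj s := by
        refine add_le_add_right (setIntegral_mono_on (integrable_finsetSum _ hint)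
          (maj_integrable.const_mul _) measurableSet_Ioi ?_) _
        intro s hs
        have hs0 : 0 < s := lt_trans (by norm_num) hs
        have h5 := htail s hs0
        have h6 : ∑ ω ∈ S, p ω * (Set.Iio (Z ω ^ 2 / β)).indicator den s =
            (∑ ω ∈ S with s < Z ω ^ 2 / β, p ω) * den s := by
          rw [sum_filter, sum_mul]
          apply sum_congr rfl
          intro ω _
          by_cases hh : s < Z ω ^ 2 / β
          · rw [Set.indicator_of_mem (show s ∈ Set.Iio (Z ω ^ 2 / β) from hh), if_pos hh]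
          · rw [Set.indicator_of_notMem (show s ∉ Set.Iio (Z ω ^ 2 / β) from hh), if_neg hh]
            ring
        rw [h6]
        calc _ ≤ (2 * Real.exp (1 - s) * P) * den s :=
              mul_le_mul_of_nonneg_right h5 (den_nonneg s)
          _ = P * (den s * (2 * Real.exp (1 - s))) := by ring
          _ = P * maj s := by rw [den_maj]
    _ = P * (Real.exp (1 / 4) + 1 / 2) := by
        rw [integral_const_mul, maj_integral]
        ring
    _ ≤ P * 2 := by
        apply mul_le_mul_of_nonneg_left _ hP0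
        have := exp_quarter
        linarith
    _ = 2 * P := by ring

end IC65
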