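import Pool.Agent.IC65.PsiA
import Pool.Agent.IC65.PsiB
import Pool.Agent.IC65.PsiC

/-!
# IC65 module PSI-D: vectors (uses `psi_mgf`, `mgf_sq`, `tail_psi`)

* `good_sg`: `Good` with `β = 44` gives `E exp(⟨V - m, u⟩²/220) ≤ 2` for unit `u` (`tail_psi` for `u` and
  `-u`), then `psi_mgf` with `a = 1/220` (the mean of `⟨V - m, u⟩` over `S` is zero) and `220 ≤ 15²`.
* `mean_bound`: Jensen, `exp⟨m,v⟩ ≤ E[exp⟨V,v⟩ | S] ≤ exp(‖v‖²)/P(S)`; take `v = m/2`.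
* `exc_sg`: `E exp(⟨V,u⟩²/8) ≤ 2` on the whole space (`mgf_sq`, `σ = 1`, `u` a unit vector); given `S`
  with `P(S) ≥ exp(-H)`: `E[exp(⟨V,u⟩²/8) | S] ≤ exp(H + log 2)`.  Let `r = (log √2)/(H + log 2) ≤ 1`.
  Jensen: `E[exp(r ⟨V,u⟩²/8) | S] ≤ √2`, and `exp(r ⟨m,u⟩²/8) ≤ √2` (`m = mean S p V`);
  `⟨V-m,u⟩² ≤ 2⟨V,u⟩² + 2⟨m,u⟩²` gives `E[exp(r ⟨V-m,u⟩²/16) | S] ≤ 2`; then `psi_mgf` with
  `a = r/16`; `16/r = 16 (H + log 2)/(log √2) ≤ 50 (H + 1) ≤ s²`.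
-/

open Finset
open scoped RealInnerProductSpace

noncomputable section

namespace IC65

variable {Ω : Type} {E : Type} [NormedAddCommGroup E] [InnerProductSpace ℝ E]

/-- one-dimensional subgaussian tails (with the constant `β`) of `V` on the event `S` -/
def Good (S : Finset Ω) (p : Ω → ℝ) (V : Ω → E) (β : ℝ) : Prop :=
  ∀ u : E, ‖u‖ = 1 → ∀ t : ℝ, 0 < t →
    ∑ ω ∈ S with t < ⟪V ω - mean S p V, u⟫, p ω ≤ Real.exp (1 - t ^ 2 / β) * ∑ ω ∈ S, p ω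

namespace PsiDAux

theorem inner_mean (S : Finset Ω) (p : Ω → ℝ) (V : Ω → E) (u : E) :
    ⟪mean S p V, u⟫ = (∑ ω ∈ S, p ω)⁻¹ * ∑ ω ∈ S, p ω * ⟪V ω, u⟫ := by
  unfold mean
  rw [real_inner_smul_left, sum_inner]
  congr 1
  exact sum_congr rfl fun ω _ => real_inner_smul_left _ _ _

theorem sum_centred (S : Finset Ω) (p : Ω → ℝ) (V : Ω → E) (u : E) (hP : ∑ ω ∈ S, p ω ≠ 0) :
    ∑ ω ∈ S, p ω * ⟪V ω - mean S p V, u⟫ = 0 := by
  have h1 : ∀ ω, p ω * ⟪V ω - mean S p V, u⟫ = p ω * ⟪V ω, u⟫ - p ω * ⟪mean S p V, u⟫ := by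
    intro ω
    rw [inner_sub_left]
    ring
  simp_rw [h1]
  rw [sum_sub_distrib, ← sum_mul, inner_mean]
  field_simp
  ring

/-- Jensen for the convex function `exp` -/
theorem jensen_exp (S : Finset Ω) (p Z : Ω → ℝ) (hp : ∀ ω ∈ S, 0 ≤ p ω)
    (hP : 0 < ∑ ω ∈ S, p ω) :
    (∑ ω ∈ S, p ω) * Real.exp ((∑ ω ∈ S, p ω)⁻¹ * ∑ ω ∈ S, p ω * Z ω) ≤
      ∑ ω ∈ S, p ω * Real.exp (Z ω) := by
  set P := ∑ ω ∈ S, p ω with hPdef
  have h1 := convexOn_exp.map_sum_le (t := S) (w := fun ω => P⁻¹ * p ω) (p := Z)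
    (fun ω hω => mul_nonneg (inv_nonneg.2 hP.le) (hp ω hω))
    (by rw [← mul_sum, ← hPdef]; exact inv_mul_cancel₀ hP.ne') (fun _ _ => Set.mem_univ _)
  simp only [smul_eq_mul] at h1
  have h2 : ∑ ω ∈ S, P⁻¹ * p ω * Z ω = P⁻¹ * ∑ ω ∈ S, p ω * Z ω := by
    rw [mul_sum]
    exact sum_congr rfl fun ω _ => by ring
  have h3 : ∑ ω ∈ S, P⁻¹ * p ω * Real.exp (Z ω) = P⁻¹ * ∑ ω ∈ S, p ω * Real.exp (Z ω) := by
    rw [mul_sum]
    exact sum_congr rfl fun ω _ => by ring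
  rw [h2, h3] at h1
  have h4 := mul_le_mul_of_nonneg_left h1 hP.le
  rw [← mul_assoc, mul_inv_cancel₀ hP.ne', one_mul] at h4
  exact h4

/-- Jensen for powers -/
theorem jensen_pow (S : Finset Ω) (p W : Ω → ℝ) (hp : ∀ ω ∈ S, 0 ≤ p ω) {A r : ℝ}
    (hr0 : 0 ≤ r) (hr1 : r ≤ 1)
    (h : ∑ ω ∈ S, p ω * Real.exp (W ω) ≤ (∑ ω ∈ S, p ω) * Real.exp A) :
    ∑ ω ∈ S, p ω * Real.exp (r * W ω) ≤ (∑ ω ∈ S, p ω) * Real.exp (r * A) := by
  have key : ∀ ω ∈ S, p ω * Real.exp (r * W ω) ≤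
      Real.exp (r * A) * ((1 - r) * p ω + r * Real.exp (-A) * (p ω * Real.exp (W ω))) := by
    intro ω hω
    have e1 : Real.exp (r * (W ω - A)) ≤ (1 - r) + r * Real.exp (W ω - A) := by
      have := convexOn_exp.2 (Set.mem_univ (0 : ℝ)) (Set.mem_univ (W ω - A))
        (sub_nonneg.2 hr1) hr0 (by ring)
      simpa using this
    have e2 : Real.exp (r * W ω) = Real.exp (r * A) * Real.exp (r * (W ω - A)) := by
      rw [← Real.exp_add]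
      congr 1
      ring
    have e3 : Real.exp (W ω - A) = Real.exp (-A) * Real.exp (W ω) := by
      rw [← Real.exp_add]
      congr 1
      ring
    rw [e2]
    rw [e3] at e1
    have e4 := mul_le_mul_of_nonneg_left e1 (mul_nonneg (hp ω hω) (Real.exp_pos (r * A)).le)
    calc p ω * (Real.exp (r * A) * Real.exp (r * (W ω - A)))
        = p ω * Real.exp (r * A) * Real.exp (r * (W ω - A)) := by ring
      _ ≤ _ := e4
      _ = _ := by ring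
  refine (sum_le_sum key).trans ?_
  rw [← mul_sum, sum_add_distrib, ← mul_sum, ← mul_sum]
  have h1 : r * Real.exp (-A) * ∑ ω ∈ S, p ω * Real.exp (W ω) ≤ r * ∑ ω ∈ S, p ω := by
    have h2 := mul_le_mul_of_nonneg_left h (mul_nonneg hr0 (Real.exp_pos (-A)).le)
    have h3 : Real.exp (-A) * Real.exp A = 1 := by rw [← Real.exp_add]; simp
    calc _ ≤ _ := h2
      _ = r * (∑ ω ∈ S, p ω) * (Real.exp (-A) * Real.exp A) := by ring
      _ = _ := by rw [h3, mul_one]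
  calc Real.exp (r * A) * ((1 - r) * ∑ ω ∈ S, p ω + r * Real.exp (-A) * ∑ ω ∈ S, p ω * Real.exp (W ω))
      ≤ Real.exp (r * A) * ((1 - r) * ∑ ω ∈ S, p ω + r * ∑ ω ∈ S, p ω) :=
        mul_le_mul_of_nonneg_left (add_le_add_right h1 _) (Real.exp_pos _).le
    _ = _ := by ring

theorem exists_unit (v : E) (hv : v ≠ 0) : ∃ u : E, ‖u‖ = 1 ∧ v = ‖v‖ • u := by
  refine ⟨‖v‖⁻¹ • v, ?_, ?_⟩
  · rw [norm_smul, norm_inv, norm_norm]
    exact inv_mul_cancel₀ (norm_ne_zero_iff.2 hv)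
  · rw [smul_smul, mul_inv_cancel₀ (norm_ne_zero_iff.2 hv), one_smul]

end PsiDAux

open PsiDAux

theorem good_sg (S : Finset Ω) (p : Ω → ℝ) (hp : ∀ ω ∈ S, 0 < p ω) (V : Ω → E)
    (h : Good S p V 44) : Sg S p (fun ω => V ω - mean S p V) 15 := by
  intro v
  rcases S.eq_empty_or_nonempty with hS | hS
  · subst hS; simp
  have hP : 0 < ∑ ω ∈ S, p ω := sum_pos hp hS
  have hp' : ∀ ω ∈ S, 0 ≤ p ω := fun ω hω => (hp ω hω).le
  rcases eq_or_ne v 0 with hv | hv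
  · subst hv; simp
  obtain ⟨u, hu, huv⟩ := exists_unit v hv
  have h1 : ∀ t : ℝ, 0 < t → ∑ ω ∈ S with t < ⟪V ω - mean S p V, u⟫, p ω ≤
      Real.exp (1 - t ^ 2 / 44) * ∑ ω ∈ S, p ω := h u hu
  have h2 : ∀ t : ℝ, 0 < t → ∑ ω ∈ S with t < -⟪V ω - mean S p V, u⟫, p ω ≤
      Real.exp (1 - t ^ 2 / 44) * ∑ ω ∈ S, p ω := by
    intro t ht
    have := h (-u) (by rw [norm_neg, hu]) t ht
    simp only [inner_neg_right] at this
    exact this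
  have h3 := tail_psi S p (fun ω => ⟪V ω - mean S p V, u⟫) hp' (by norm_num : (0:ℝ) < 44) h1 h2
  have h4 := psi_mgf S p (fun ω => ⟪V ω - mean S p V, u⟫) hp' (sum_centred S p V u hP.ne')
    (a := 1 / 220) (by norm_num) (by
      refine le_trans (le_of_eq ?_) h3
      apply sum_congr rfl
      intro ω _
      congr 2
      ring) ‖v‖
  have h5 : ∀ ω, ⟪V ω - mean S p V, v⟫ = ‖v‖ * ⟪V ω - mean S p V, u⟫ := by
    intro ω
    conv_lhs => rw [huv]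
    rw [real_inner_smul_right]
  simp_rw [h5]
  refine h4.trans (mul_le_mul_of_nonneg_left (Real.exp_le_exp.2 ?_) hP.le)
  have h6 : ‖v‖ ^ 2 / (1 / 220) = 220 * ‖v‖ ^ 2 := by ring
  rw [h6]
  nlinarith [sq_nonneg ‖v‖]

theorem mean_bound [Fintype Ω] (p : Ω → ℝ) (hp : ∀ ω, 0 < p ω) (h1 : ∑ ω, p ω = 1) (V : Ω → E)
    (hV : Sg univ p V 1) (S : Finset Ω) (hS : S.Nonempty) :
    ‖mean S p V‖ ^ 2 ≤ 4 * Real.log (1 / ∑ ω ∈ S, p ω) := by
  have hP : 0 < ∑ ω ∈ S, p ω := sum_pos (fun ω _ => hp ω) hS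
  set m := mean S p V with hm
  set P := ∑ ω ∈ S, p ω with hPdef
  have h2 := jensen_exp S p (fun ω => ⟪V ω, (1 / 2 : ℝ) • m⟫) (fun ω _ => (hp ω).le) hP
  rw [← hPdef] at h2
  have h3 : P⁻¹ * ∑ ω ∈ S, p ω * ⟪V ω, (1 / 2 : ℝ) • m⟫ = ‖m‖ ^ 2 / 2 := by
    have := inner_mean S p V ((1 / 2 : ℝ) • m)
    rw [← hPdef, ← hm] at this
    rw [← this, real_inner_smul_right, real_inner_self_eq_norm_sq]
    ring
  rw [h3] at h2
  have h4 : ∑ ω ∈ S, p ω * Real.exp ⟪V ω, (1 / 2 : ℝ) • m⟫ ≤ Real.exp (‖m‖ ^ 2 / 4) := by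
    have h5 := hV ((1 / 2 : ℝ) • m)
    rw [h1, one_mul, norm_smul] at h5
    have h6 : (1 : ℝ) ^ 2 * (‖(1 / 2 : ℝ)‖ * ‖m‖) ^ 2 = ‖m‖ ^ 2 / 4 := by
      rw [Real.norm_of_nonneg (by norm_num)]
      ring
    rw [h6] at h5
    refine le_trans ?_ h5
    exact sum_le_sum_of_subset_of_nonneg (subset_univ S)
      (fun ω _ _ => mul_nonneg (hp ω).le (Real.exp_pos _).le)
  have h5 : Real.exp (‖m‖ ^ 2 / 4) ≤ 1 / P := by
    rw [le_div_iff₀ hP]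
    have h6 : Real.exp (‖m‖ ^ 2 / 2) = Real.exp (‖m‖ ^ 2 / 4) * Real.exp (‖m‖ ^ 2 / 4) := by
      rw [← Real.exp_add]
      congr 1
      ring
    rw [h6] at h2
    have h7 := h2.trans h4
    have h8 := Real.exp_pos (‖m‖ ^ 2 / 4)
    nlinarith
  have h6 := Real.log_le_log (Real.exp_pos _) h5
  rw [Real.log_exp] at h6
  linarith

theorem exc_sg [Fintype Ω] (p : Ω → ℝ) (hp : ∀ ω, 0 < p ω) (h1 : ∑ ω, p ω = 1) (V : Ω → E)
    (hV : Sg univ p V 1) (S : Finset Ω) {H s : ℝ} (hH : 0 ≤ H)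
    (hS : Real.exp (-H) ≤ ∑ ω ∈ S, p ω) (hs : 50 * (H + 1) ≤ s ^ 2) :
    Sg S p (fun ω => V ω - mean S p V) s := by
  intro v
  have hP : 0 < ∑ ω ∈ S, p ω := lt_of_lt_of_le (Real.exp_pos _) hS
  have hp' : ∀ ω ∈ S, 0 ≤ p ω := fun ω _ => (hp ω).le
  set P := ∑ ω ∈ S, p ω with hPdef
  rcases eq_or_ne v 0 with hv | hv
  · subst hv; simp [← hPdef]
  obtain ⟨u, hu, huv⟩ := exists_unit v hv
  set m := mean S p V with hm
  have hlog : 0 < Real.log 2 := Real.log_pos (by norm_num)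
  have hlog2 := Real.log_two_gt_d9
  have hA : 0 < H + Real.log 2 := by linarith
  set A := H + Real.log 2 with hAdef
  set r := Real.log 2 / (2 * A) with hr
  have hr0 : 0 < r := by positivity
  have hr1 : r ≤ 1 := by
    rw [hr, div_le_one (by positivity)]
    linarith
  have hrA : r * A = Real.log 2 / 2 := by
    rw [hr]
    field_simp
  -- the square on the whole space
  have h2 : ∑ ω, p ω * Real.exp (⟪V ω, u⟫ ^ 2 / (8 * 1 ^ 2)) ≤ 2 * ∑ ω, p ω := by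
    apply mgf_sq univ p (fun ω => ⟪V ω, u⟫) (fun ω _ => (hp ω).le) one_pos
    intro l
    have := hV (l • u)
    simp only [real_inner_smul_right, norm_smul, hu, mul_one, Real.norm_eq_abs, sq_abs, one_pow,
      one_mul] at this
    simpa using this
  rw [h1] at h2
  have h3 : ∑ ω ∈ S, p ω * Real.exp (⟪V ω, u⟫ ^ 2 / 8) ≤ P * Real.exp A := by
    have h4 : ∑ ω ∈ S, p ω * Real.exp (⟪V ω, u⟫ ^ 2 / 8) ≤ 2 := by
      refine le_trans ?_ (h2.trans (by norm_num))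
      norm_num
      exact sum_le_sum_of_subset_of_nonneg (subset_univ S)
        (fun ω _ _ => mul_nonneg (hp ω).le (Real.exp_pos _).le)
    refine h4.trans ?_
    rw [hAdef, Real.exp_add, Real.exp_log (by norm_num)]
    have h5 : Real.exp (-H) * Real.exp H = 1 := by rw [← Real.exp_add]; simp
    have h6 := mul_le_mul_of_nonneg_right hS (Real.exp_pos H).le
    rw [h5] at h6
    nlinarith
  have h4 := jensen_pow S p (fun ω => ⟪V ω, u⟫ ^ 2 / 8) hp' hr0.le hr1 h3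
  rw [← hPdef, hrA] at h4
  -- the mean
  have h5 : Real.exp (r * (⟪m, u⟫ ^ 2 / 8)) ≤ Real.exp (Real.log 2 / 2) := by
    have h6 := jensen_exp S p (fun ω => r * (⟪V ω, u⟫ ^ 2 / 8)) hp' hP
    rw [← hPdef] at h6
    have h7 := h6.trans h4
    have h8 := le_of_mul_le_mul_left h7 hP
    refine le_trans (Real.exp_le_exp.2 ?_) h8
    -- `⟪m,u⟫² ≤ P⁻¹ ∑ p ⟪V,u⟫²`
    have h9 : ⟪m, u⟫ ^ 2 ≤ P⁻¹ * ∑ ω ∈ S, p ω * ⟪V ω, u⟫ ^ 2 := by
      have e1 : 0 ≤ ∑ ω ∈ S, p ω * (⟪V ω, u⟫ - ⟪m, u⟫) ^ 2 :=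
        sum_nonneg fun ω _ => mul_nonneg (hp ω).le (sq_nonneg _)
      have e2 : ∑ ω ∈ S, p ω * (⟪V ω, u⟫ - ⟪m, u⟫) ^ 2 =
          ∑ ω ∈ S, p ω * ⟪V ω, u⟫ ^ 2 - 2 * ⟪m, u⟫ * (∑ ω ∈ S, p ω * ⟪V ω, u⟫) +
            P * ⟪m, u⟫ ^ 2 := by
        rw [hPdef, mul_sum, sum_mul, ← sum_sub_distrib, ← sum_add_distrib]
        exact sum_congr rfl fun ω _ => by ring
      have e3 : ∑ ω ∈ S, p ω * ⟪V ω, u⟫ = P * ⟪m, u⟫ := by
        have := inner_mean S p V u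
        rw [← hPdef, ← hm] at this
        rw [this, ← mul_assoc, mul_inv_cancel₀ hP.ne', one_mul]
      rw [e2, e3] at e1
      rw [inv_mul_eq_div, le_div_iff₀ hP]
      nlinarith
    have h10 : P⁻¹ * ∑ ω ∈ S, p ω * (r * (⟪V ω, u⟫ ^ 2 / 8)) =
        r / 8 * (P⁻¹ * ∑ ω ∈ S, p ω * ⟪V ω, u⟫ ^ 2) := by
      rw [mul_sum, mul_sum, mul_sum]
      exact sum_congr rfl fun ω _ => by ring
    rw [h10]
    have h11 := mul_le_mul_of_nonneg_left h9 (by positivity : 0 ≤ r / 8)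
    linarith
  -- the centred variable
  have h6 : ∑ ω ∈ S, p ω * Real.exp (r / 16 * ⟪V ω - m, u⟫ ^ 2) ≤ 2 * P := by
    have key : ∀ ω ∈ S, p ω * Real.exp (r / 16 * ⟪V ω - m, u⟫ ^ 2) ≤
        Real.exp (Real.log 2 / 2) * (p ω * Real.exp (r * (⟪V ω, u⟫ ^ 2 / 8))) := by
      intro ω _
      have e1 : r / 16 * ⟪V ω - m, u⟫ ^ 2 ≤ r * (⟪m, u⟫ ^ 2 / 8) + r * (⟪V ω, u⟫ ^ 2 / 8) := by
        rw [inner_sub_left]
        have : (⟪V ω, u⟫ - ⟪m, u⟫) ^ 2 ≤ 2 * ⟪V ω, u⟫ ^ 2 + 2 * ⟪m, u⟫ ^ 2 := by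
          nlinarith [sq_nonneg (⟪V ω, u⟫ + ⟪m, u⟫)]
        have h11 := mul_le_mul_of_nonneg_left this (by positivity : 0 ≤ r / 16)
        linarith
      have e2 := Real.exp_le_exp.2 e1
      rw [Real.exp_add] at e2
      have e3 : Real.exp (r / 16 * ⟪V ω - m, u⟫ ^ 2) ≤
          Real.exp (Real.log 2 / 2) * Real.exp (r * (⟪V ω, u⟫ ^ 2 / 8)) :=
        e2.trans (mul_le_mul_of_nonneg_right h5 (Real.exp_pos _).le)
      calc _ ≤ p ω * (Real.exp (Real.log 2 / 2) * Real.exp (r * (⟪V ω, u⟫ ^ 2 / 8))) :=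
            mul_le_mul_of_nonneg_left e3 (hp ω).le
        _ = _ := by ring
    refine (sum_le_sum key).trans ?_
    rw [← mul_sum]
    refine (mul_le_mul_of_nonneg_left h4 (Real.exp_pos _).le).trans (le_of_eq ?_)
    have e4 : Real.exp (Real.log 2 / 2) * Real.exp (Real.log 2 / 2) = 2 := by
      rw [← Real.exp_add, add_halves, Real.exp_log (by norm_num)]
    calc Real.exp (Real.log 2 / 2) * (P * Real.exp (Real.log 2 / 2))
        = (Real.exp (Real.log 2 / 2) * Real.exp (Real.log 2 / 2)) * P := by ring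
      _ = _ := by rw [e4]
  have h7 := psi_mgf S p (fun ω => ⟪V ω - m, u⟫) hp' (by
      have := sum_centred S p V u hP.ne'
      rw [← hm] at this
      exact this) (a := r / 16) (by positivity) h6 ‖v‖
  have h8 : ∀ ω, ⟪V ω - m, v⟫ = ‖v‖ * ⟪V ω - m, u⟫ := by
    intro ω
    conv_lhs => rw [huv]
    rw [real_inner_smul_right]
  simp_rw [h8]
  refine h7.trans (mul_le_mul_of_nonneg_left (Real.exp_le_exp.2 ?_) hP.le)
  have h9 : ‖v‖ ^ 2 / (r / 16) = 32 * A / Real.log 2 * ‖v‖ ^ 2 := by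
    rw [hr]
    field_simp
    ring
  rw [h9]
  apply mul_le_mul_of_nonneg_right _ (sq_nonneg _)
  refine le_trans ?_ hs
  rw [div_le_iff₀ hlog, hAdef]
  nlinarith

end IC65
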