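import Pool.Agent.IC65.Defs
import Pool.Agent.IC65.GDefs

/-!
# IC65: the norm `ψ₂`
-/

open MeasureTheory ProbabilityTheory
open scoped RealInnerProductSpace ENNReal NNReal

noncomputable section

namespace IC65

/-- `‖Z‖_{ψ₂} = inf {t > 0 | E exp(Z²/t²) ≤ 2}` (`∞` if there is no such `t`) -/
def psi2 {Ω₀ : Type*} [MeasurableSpace Ω₀] (P : Measure Ω₀) (Z : Ω₀ → ℝ) : ℝ≥0∞ :=
  ⨅ (t : ℝ) (_ : 0 < t ∧ ∫⁻ ω, ENNReal.ofReal (Real.exp (Z ω ^ 2 / t ^ 2)) ∂P ≤ 2),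
    ENNReal.ofReal t

/-- `‖V‖_{ψ₂} = sup_{‖x‖ = 1} ‖⟨V,x⟩‖_{ψ₂}` -/
def psi2v {Ω₀ : Type*} [MeasurableSpace Ω₀] (P : Measure Ω₀) {m : ℕ}
    (V : Ω₀ → EuclideanSpace ℝ (Fin m)) : ℝ≥0∞ :=
  ⨆ (x : EuclideanSpace ℝ (Fin m)) (_ : ‖x‖ = 1), psi2 P (fun ω => ⟪V ω, x⟫)

end IC65
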