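import Pool.Agent.IC65.HWDefs

/-!
# IC65 module R-LAW: finitely valued independent variables

The law of `ω ↦ (c i ω)_i` on the finite type `∀ i, κ i` is the product measure (`iIndepFun`, all the sets are
measurable): `P(⋂ {c i = a i}) = ∏ P(c i = a i)`; the integral is the finite sum over the values.
-/

open MeasureTheory ProbabilityTheory Finset

noncomputable section

namespace IC65

theorem fin_law {Ω₀ : Type*} [MeasurableSpace Ω₀] (P : Measure Ω₀) [IsProbabilityMeasure P]
    {ι : Type} [Fintype ι] [DecidableEq ι] {κ : ι → Type} [∀ i, Fintype (κ i)]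
    (c : ∀ i, Ω₀ → κ i) (hc : ∀ i, Measurable[_, ⊤] (c i))
    (hind : iIndepFun (m := fun _ => ⊤) c P) (F : (∀ i, κ i) → ℝ) :
    Integrable (fun ω => F fun i => c i ω) P ∧
      ∫ ω, F (fun i => c i ω) ∂P = Ep (fun i a => P.real (c i ⁻¹' {a})) F := by
  classical
  have hmeas : ∀ a : (∀ i, κ i), MeasurableSet (⋂ i, c i ⁻¹' {a i}) := by
    intro a
    refine MeasurableSet.iInter (fun i => ?_)
    exact hc i trivial
  have hP : ∀ a : (∀ i, κ i), P.real (⋂ i, c i ⁻¹' {a i}) = ∏ i, P.real (c i ⁻¹' {a i}) := by
    intro a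
    have h := iIndepFun.meas_iInter hind (s := fun i => c i ⁻¹' {a i})
      (fun i => ⟨{a i}, trivial, rfl⟩)
    simp only [Measure.real]
    rw [h, ENNReal.toReal_prod]
  have hF : (fun ω => F fun i => c i ω) =
      fun ω => ∑ a : (∀ i, κ i), (⋂ i, c i ⁻¹' {a i}).indicator (fun _ => F a) ω := by
    funext ω
    rw [Finset.sum_eq_single (fun i => c i ω)]
    · rw [Set.indicator_of_mem]
      simp
    · intro b _ hb
      rw [Set.indicator_of_notMem]
      intro hmem
      apply hb
      funext i
      have := Set.mem_iInter.1 hmem i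
      simpa using this.symm
    · intro h
      exact absurd (Finset.mem_univ _) h
  have hint : ∀ a : (∀ i, κ i), Integrable ((⋂ i, c i ⁻¹' {a i}).indicator (fun _ => F a)) P :=
    fun a => (integrable_const (F a)).indicator (hmeas a)
  constructor
  · rw [hF]
    exact integrable_finsetSum _ (fun a _ => hint a)
  · rw [hF, integral_finsetSum _ (fun a _ => hint a)]
    unfold Ep
    refine Finset.sum_congr rfl (fun a _ => ?_)
    rw [integral_indicator_const _ (hmeas a), hP a, smul_eq_mul]

end IC65
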