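import Pool.Agent.IC65.RDiscA
import Pool.Agent.IC65.RLaw
import Pool.Agent.IC65.Fin

/-!
# IC65 module R-DISC: general columns, finite `T` (uses `disc_one`, `fin_law`, `fin_main`)

`A i : Ω₀ → E = EuclideanSpace ℝ (Fin m)` measurable, independent, integrable, with mean zero and
`E exp⟨A i,v⟩ ≤ exp ‖v‖²`.  For `ε > 0` apply `disc_one` to every column (`κ i`, `q i`, `p i`, `V i`), `c i = q i ∘ A i`
(independent: `iIndepFun.comp`), `B i ω = V i (c i ω)`.  By `fin_law`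
`E sup_x(B) = Ep p (fun a => sup_x (fun i => V i (a i))) ≤ C Γ` (`fin_main`).
`| ‖lin X x‖ - ‖lin Y x‖ | ≤ ∑ |x_i| ‖X_i - Y_i‖` and the same for `wn (len ·) x`, so
`E sup_x(A) ≤ E sup_x(B) + 2 (max ‖x‖) ∑_i E ‖A i - B i‖ ≤ C Γ + 2 (max ‖x‖) n ε`; let `ε → 0`.
(The case `n = 0`, `m = 0` is not special.)
-/

open MeasureTheory ProbabilityTheory Finset
open scoped RealInnerProductSpace ENNReal NNReal

noncomputable section

namespace IC65

namespace RDiscB

variable {ι : Type} [Fintype ι] {E : Type} [NormedAddCommGroup E] [InnerProductSpace ℝ E]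

theorem wn_le_sum (d : ι → ℝ) (u : EuclideanSpace ℝ ι) : wn d u ≤ ∑ i, |d i * u i| := by
  unfold wn
  apply Real.sqrt_le_iff.2
  refine ⟨sum_nonneg fun i _ => abs_nonneg _, ?_⟩
  have h : ∀ i ∈ (univ : Finset ι), (d i * u i) ^ 2 = |d i * u i| ^ 2 := fun i _ =>
    (sq_abs _).symm
  rw [sum_congr rfl h]
  exact sum_sq_le_sq_sum_of_nonneg fun i _ => abs_nonneg _

theorem abs_coord_le (x : EuclideanSpace ℝ ι) (i : ι) : |x i| ≤ ‖x‖ := by
  have := EuclideanSpace.norm_eq x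
  rw [this]
  apply Real.le_sqrt_of_sq_le
  rw [← Real.norm_eq_abs]
  exact single_le_sum (f := fun i => ‖x i‖ ^ 2) (fun _ _ => sq_nonneg _) (mem_univ i)

theorem lin_diff (X Y : ι → E) (x : EuclideanSpace ℝ ι) :
    |‖lin X x‖ - ‖lin Y x‖| ≤ ‖x‖ * ∑ i, ‖X i - Y i‖ := by
  refine (abs_norm_sub_norm_le _ _).trans ?_
  rw [← lin_sub_left]
  unfold lin
  refine (norm_sum_le _ _).trans ?_
  rw [mul_sum]
  apply sum_le_sum
  intro i _
  rw [norm_smul, Real.norm_eq_abs]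
  exact mul_le_mul_of_nonneg_right (abs_coord_le x i) (norm_nonneg _)

theorem wn_diff_aux (X Y : ι → E) (x : EuclideanSpace ℝ ι) :
    wn (len X) x ≤ wn (len Y) x + ‖x‖ * ∑ i, ‖X i - Y i‖ := by
  have h1 : wn (len X) x ≤ wn (len Y) x + wn (fun i => len X i - len Y i) x := by
    have := wn_add_left_le (len Y) (fun i => len X i - len Y i) x
    have h2 : (fun i => len Y i + (len X i - len Y i)) = len X := by
      funext i
      ring
    rwa [h2] at this
  refine h1.trans (add_le_add_right ((wn_le_sum _ _).trans ?_) _)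
  rw [mul_sum]
  apply sum_le_sum
  intro i _
  rw [abs_mul, mul_comm]
  exact mul_le_mul (abs_coord_le x i) (abs_norm_sub_norm_le _ _) (abs_nonneg _) (norm_nonneg _)

theorem wn_diff (X Y : ι → E) (x : EuclideanSpace ℝ ι) :
    |wn (len X) x - wn (len Y) x| ≤ ‖x‖ * ∑ i, ‖X i - Y i‖ := by
  have h1 := wn_diff_aux X Y x
  have h2 := wn_diff_aux Y X x
  have h3 : ∑ i, ‖Y i - X i‖ = ∑ i, ‖X i - Y i‖ := sum_congr rfl fun i _ => norm_sub_rev _ _
  rw [h3] at h2
  rw [abs_le]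
  constructor <;> linarith

/-- the supremum -/
def sd (T : Finset (EuclideanSpace ℝ ι)) (hT : T.Nonempty) (X : ι → E) : ℝ :=
  T.sup' hT fun x => |‖lin X x‖ - wn (len X) x|

theorem sd_nonneg (T : Finset (EuclideanSpace ℝ ι)) (hT : T.Nonempty) (X : ι → E) :
    0 ≤ sd T hT X := by
  obtain ⟨x, hx⟩ := hT
  exact (abs_nonneg _).trans (le_sup' (fun x => |‖lin X x‖ - wn (len X) x|) hx)

theorem sd_diff (T : Finset (EuclideanSpace ℝ ι)) (hT : T.Nonempty) {b : ℝ}
    (hb : ∀ x ∈ T, ‖x‖ ≤ b) (X Y : ι → E) :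
    sd T hT X ≤ sd T hT Y + 2 * b * ∑ i, ‖X i - Y i‖ := by
  apply sup'_le
  intro x hx
  have h1 := lin_diff X Y x
  have h2 := wn_diff X Y x
  have h3 : |‖lin Y x‖ - wn (len Y) x| ≤ sd T hT Y :=
    le_sup' (fun x => |‖lin Y x‖ - wn (len Y) x|) hx
  have h4 : ‖x‖ * ∑ i, ‖X i - Y i‖ ≤ b * ∑ i, ‖X i - Y i‖ :=
    mul_le_mul_of_nonneg_right (hb x hx) (sum_nonneg fun _ _ => norm_nonneg _)
  have h5 : ‖lin X x‖ - wn (len X) x = (‖lin X x‖ - ‖lin Y x‖) -
      (wn (len X) x - wn (len Y) x) + (‖lin Y x‖ - wn (len Y) x) := by ring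
  have h6 : |‖lin X x‖ - wn (len X) x| ≤ |‖lin X x‖ - ‖lin Y x‖| +
      |wn (len X) x - wn (len Y) x| + |‖lin Y x‖ - wn (len Y) x| := by
    rw [h5]
    refine (abs_add_le _ _).trans (add_le_add_left ?_ _)
    exact abs_sub _ _
  linarith

end RDiscB

open RDiscB in
theorem disc : ∃ C : ℝ, 1 ≤ C ∧ ∀ {Ω₀ : Type*} [MeasurableSpace Ω₀] (P : Measure Ω₀)
    [IsProbabilityMeasure P] {m n : ℕ} (A : Fin n → Ω₀ → EuclideanSpace ℝ (Fin m))
    (_ : ∀ i, Measurable (A i)) (_ : iIndepFun A P) (_ : ∀ i, Integrable (A i) P)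
    (_ : ∀ i (v : EuclideanSpace ℝ (Fin m)), Integrable (fun ω => Real.exp ⟪A i ω, v⟫) P ∧
      ∫ ω, Real.exp ⟪A i ω, v⟫ ∂P ≤ Real.exp (‖v‖ ^ 2))
    (T : Finset (EuclideanSpace ℝ (Fin n))) (hT : T.Nonempty) {Γ : ℝ} (_ : Cells T Γ),
    ∫⁻ ω, ENNReal.ofReal (T.sup' hT fun x =>
      |‖lin (fun i => A i ω) x‖ - wn (len fun i => A i ω) x|) ∂P ≤ ENNReal.ofReal (C * Γ) := by
  obtain ⟨C, hC, H⟩ := fin_main
  refine ⟨C, hC, ?_⟩
  intro Ω₀ _ P _ m n A hA hind hi hexp T hT Γ K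
  obtain ⟨b, hb⟩ : ∃ b : ℝ, ∀ x ∈ T, ‖x‖ ≤ b := ⟨T.sup' hT fun x => ‖x‖, fun x hx =>
    le_sup' (fun x => ‖x‖) hx⟩
  have hb0 : 0 ≤ b := by
    obtain ⟨x, hx⟩ := hT
    exact (norm_nonneg x).trans (hb x hx)
  have key : ∀ ε : ℝ, 0 < ε → ∫⁻ ω, ENNReal.ofReal (sd T hT fun i => A i ω) ∂P ≤
      ENNReal.ofReal (C * Γ + 2 * b * (n * ε)) := by
    intro ε hε
    choose κ hκ q p V hq hp hp1 hP hSg hint hle using fun i =>
      disc_one P (A i) (hA i) (hi i) (hexp i) hε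
    have hindc : iIndepFun (m := fun _ => ⊤) (fun i ω => q i (A i ω)) P :=
      hind.comp (mγ := fun _ => ⊤) q hq
    have hlaw := fin_law P (fun i ω => q i (A i ω)) (fun i => (hq i).comp (hA i)) hindc
      (fun a => sd T hT fun i => V i (a i))
    have hpe : (fun i a => P.real ((fun ω => q i (A i ω)) ⁻¹' {a})) = p := by
      funext i a
      exact hP i a
    rw [hpe] at hlaw
    have hfin := H (p := p) ⟨hp, hp1⟩ V hSg T hT K
    have h1 : ∀ ω, sd T hT (fun i => A i ω) ≤ sd T hT (fun i => V i (q i (A i ω))) +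
        2 * b * ∑ i, ‖A i ω - V i (q i (A i ω))‖ := fun ω => sd_diff T hT hb _ _
    have hint2 : Integrable (fun ω => 2 * b * ∑ i, ‖A i ω - V i (q i (A i ω))‖) P :=
      (integrable_finsetSum _ fun i _ => hint i).const_mul _
    have hint3 : Integrable (fun ω => sd T hT (fun i => V i (q i (A i ω))) +
        2 * b * ∑ i, ‖A i ω - V i (q i (A i ω))‖) P := hlaw.1.add hint2
    calc ∫⁻ ω, ENNReal.ofReal (sd T hT fun i => A i ω) ∂P
        ≤ ∫⁻ ω, ENNReal.ofReal (sd T hT (fun i => V i (q i (A i ω))) +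
            2 * b * ∑ i, ‖A i ω - V i (q i (A i ω))‖) ∂P :=
          lintegral_mono fun ω => ENNReal.ofReal_le_ofReal (h1 ω)
      _ = ENNReal.ofReal (∫ ω, (sd T hT (fun i => V i (q i (A i ω))) +
            2 * b * ∑ i, ‖A i ω - V i (q i (A i ω))‖) ∂P) := by
          refine (ofReal_integral_eq_lintegral_ofReal hint3 ?_).symm
          filter_upwards with ω
          have h2 := sd_nonneg T hT (fun i => V i (q i (A i ω)))
          have h3 : 0 ≤ ∑ i, ‖A i ω - V i (q i (A i ω))‖ := sum_nonneg fun _ _ => norm_nonneg _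
          simp only [Pi.zero_apply]
          positivity
      _ ≤ _ := by
          apply ENNReal.ofReal_le_ofReal
          rw [integral_add hlaw.1 hint2, hlaw.2, integral_const_mul,
            integral_finsetSum _ fun i _ => hint i]
          have h2 : ∑ i, ∫ ω, ‖A i ω - V i (q i (A i ω))‖ ∂P ≤ n * ε := by
            calc _ ≤ ∑ _i : Fin n, ε := sum_le_sum fun i _ => hle i
              _ = n * ε := by simp
          have h3 := mul_le_mul_of_nonneg_left h2 (by positivity : (0 : ℝ) ≤ 2 * b)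
          exact add_le_add hfin h3
  apply ENNReal.le_of_forall_pos_le_add
  intro ε hε _
  have hε' : 0 < (ε : ℝ) / (2 * b * n + 1) := by positivity
  refine (key _ hε').trans ?_
  refine le_trans ?_ (ENNReal.ofReal_add_le.trans (add_le_add_right (le_of_eq
    ENNReal.ofReal_coe_nnreal) _))
  apply ENNReal.ofReal_le_ofReal
  have h1 : 2 * b * (n * ((ε : ℝ) / (2 * b * n + 1))) ≤ ε := by
    have h2 : 2 * b * (n * ((ε : ℝ) / (2 * b * n + 1))) = (2 * b * n) / (2 * b * n + 1) * ε := by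
      ring
    rw [h2]
    have h3 : (2 * b * n) / (2 * b * n + 1) ≤ 1 := by
      rw [div_le_one (by positivity)]
      linarith
    have := mul_le_mul_of_nonneg_right h3 ε.2
    simpa using this
  linarith

end IC65
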