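import Pool.Agent.IC65.Defs

/-!
# IC65 module R-DISC-A: discretisation of one column

`A : Ω₀ → E` measurable, integrable, with mean zero and `E exp⟨A,v⟩ ≤ exp ‖v‖²`.  Take a simple function
`s : E →ₛ E` (`SimpleFunc.approxOn id ...`) with `E ‖A - s(A)‖ ≤ ε/4` (`tendsto_approxOn_L1_enorm`), `κ` = the subtype of
the `c` in the (finite) range of `s` with `P(s(A) = c) > 0` (nonempty), `q x = s x` if this is in `κ` and some fixed
element `c₀ ∈ κ` otherwise (so `q (A) = s(A)` almost surely), `p c = P(s(A) = c)`,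
`V c = p(c)⁻¹ ∫_{s(A) = c} A` (the conditional mean).  Then
`E ‖A - V(q(A))‖ ≤ 2 E ‖A - s(A)‖`: on the cell `c`: `‖A - V c‖ ≤ ‖A - c‖ + ‖c - V c‖` and `p(c) ‖c - V c‖ ≤ ∫_c ‖A - c‖`.
`Sg univ p V 1`: Jensen on each cell, `p(c) exp⟨V c, v⟩ ≤ ∫_c exp⟨A, v⟩`.
-/

open MeasureTheory ProbabilityTheory Finset
open scoped RealInnerProductSpace

noncomputable section

namespace IC65

namespace RDiscAA

variable {Ω₀ : Type*} [MeasurableSpace Ω₀] {P : Measure Ω₀} [IsProbabilityMeasure P]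

/-- splitting an integral along a finitely valued map -/
theorem integral_split {κ : Type} [Fintype κ] {Q : Ω₀ → κ}
    (hQ : ∀ a, MeasurableSet (Q ⁻¹' {a})) {F : Type*} [NormedAddCommGroup F] [NormedSpace ℝ F]
    {f : Ω₀ → F} (hf : Integrable f P) :
    ∫ ω, f ω ∂P = ∑ a, ∫ ω in Q ⁻¹' {a}, f ω ∂P := by
  classical
  have h1 : ∀ ω, f ω = ∑ a, (Q ⁻¹' {a}).indicator f ω := by
    intro ω
    rw [Finset.sum_eq_single (Q ω)]
    · rw [Set.indicator_of_mem (by simp)]
    · intro a _ ha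
      rw [Set.indicator_of_notMem]
      simp only [Set.mem_preimage, Set.mem_singleton_iff]
      exact fun h => ha h.symm
    · intro h
      exact absurd (Finset.mem_univ _) h
  calc ∫ ω, f ω ∂P = ∫ ω, ∑ a, (Q ⁻¹' {a}).indicator f ω ∂P := integral_congr_ae
        (Filter.Eventually.of_forall h1)
    _ = ∑ a, ∫ ω, (Q ⁻¹' {a}).indicator f ω ∂P :=
        integral_finsetSum _ fun a _ => hf.indicator (hQ a)
    _ = _ := Finset.sum_congr rfl fun a _ => integral_indicator (hQ a)

/-- the simple function -/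
theorem exists_simple {m : ℕ} {A : Ω₀ → EuclideanSpace ℝ (Fin m)} (hA : Measurable A)
    (hi : Integrable A P) {ε : ℝ} (hε : 0 < ε) :
    ∃ s : SimpleFunc (EuclideanSpace ℝ (Fin m)) (EuclideanSpace ℝ (Fin m)),
      Integrable (fun ω => ‖A ω - s (A ω)‖) P ∧ ∫ ω, ‖A ω - s (A ω)‖ ∂P ≤ ε := by
  have hid : Measurable (id : EuclideanSpace ℝ (Fin m) → EuclideanSpace ℝ (Fin m)) :=
    measurable_id
  have hfin : HasFiniteIntegral (fun x : EuclideanSpace ℝ (Fin m) => id x - 0) (P.map A) := by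
    have h1 : Integrable (fun x : EuclideanSpace ℝ (Fin m) => id x - 0) (P.map A) := by
      rw [integrable_map_measure (by fun_prop) hA.aemeasurable]
      simpa [Function.comp_def] using hi
    exact h1.2
  have ht := SimpleFunc.tendsto_approxOn_L1_enorm (μ := P.map A) hid
    (s := Set.univ) (y₀ := 0) trivial (by simp) hfin
  have hev := (ht.eventually (gt_mem_nhds (ENNReal.ofReal_pos.2 hε))).exists
  obtain ⟨n, hn⟩ := hev
  set s := SimpleFunc.approxOn (id : EuclideanSpace ℝ (Fin m) → EuclideanSpace ℝ (Fin m)) hid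
    Set.univ 0 trivial n with hs
  have hmeas : Measurable fun x : EuclideanSpace ℝ (Fin m) => s x - x :=
    s.measurable.sub measurable_id
  have h2 : ∫⁻ ω, ‖A ω - s (A ω)‖ₑ ∂P < ENNReal.ofReal ε := by
    have h3 : ∫⁻ x, ‖s x - id x‖ₑ ∂(P.map A) = ∫⁻ ω, ‖s (A ω) - A ω‖ₑ ∂P :=
      lintegral_map (by simpa using hmeas.enorm) hA
    rw [h3] at hn
    have h4 : ∀ ω, ‖A ω - s (A ω)‖ₑ = ‖s (A ω) - A ω‖ₑ := by
      intro ω
      rw [← enorm_neg, neg_sub]
    simpa only [h4] using hn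
  have hmA : Measurable fun ω => A ω - s (A ω) := hA.sub (s.measurable.comp hA)
  have hint : Integrable (fun ω => A ω - s (A ω)) P :=
    ⟨hmA.aestronglyMeasurable, h2.trans ENNReal.ofReal_lt_top⟩
  refine ⟨s, hint.norm, ?_⟩
  rw [integral_norm_eq_lintegral_enorm hmA.aestronglyMeasurable]
  have h5 := ENNReal.toReal_mono ENNReal.ofReal_ne_top h2.le
  rwa [ENNReal.toReal_ofReal hε.le] at h5

end RDiscAA

open RDiscAA in
theorem disc_one {Ω₀ : Type*} [MeasurableSpace Ω₀] (P : Measure Ω₀) [IsProbabilityMeasure P]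
    {m : ℕ} (A : Ω₀ → EuclideanSpace ℝ (Fin m)) (hA : Measurable A) (hi : Integrable A P)
    (h : ∀ v : EuclideanSpace ℝ (Fin m), Integrable (fun ω => Real.exp ⟪A ω, v⟫) P ∧
      ∫ ω, Real.exp ⟪A ω, v⟫ ∂P ≤ Real.exp (‖v‖ ^ 2)) {ε : ℝ} (hε : 0 < ε) :
    ∃ (κ : Type) (_ : Fintype κ) (q : EuclideanSpace ℝ (Fin m) → κ) (p : κ → ℝ)
      (V : κ → EuclideanSpace ℝ (Fin m)), Measurable[_, ⊤] q ∧ (∀ a, 0 < p a) ∧
      ∑ a, p a = 1 ∧ (∀ a, P.real {ω | q (A ω) = a} = p a) ∧ Sg univ p V 1 ∧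
      Integrable (fun ω => ‖A ω - V (q (A ω))‖) P ∧ ∫ ω, ‖A ω - V (q (A ω))‖ ∂P ≤ ε := by
  classical
  obtain ⟨s, hsint, hsle⟩ := exists_simple hA hi (half_pos hε)
  have hcell : ∀ c, MeasurableSet {ω | s (A ω) = c} := fun c =>
    hA (s.measurableSet_preimage {c})
  -- the values taken with positive probability
  let κ : Type := {c : s.range // 0 < P.real {ω | s (A ω) = (c : EuclideanSpace ℝ (Fin m))}}
  letI : Fintype κ := Fintype.ofFinite κ
  have hsum1 : ∑ c ∈ s.range, P.real {ω | s (A ω) = c} = 1 := by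
    have h1 : (1 : ℝ) = P.real (⋃ c ∈ s.range, {ω | s (A ω) = c}) := by
      have h2 : (⋃ c ∈ s.range, {ω | s (A ω) = c}) = Set.univ := by
        ext ω
        simp only [Set.mem_iUnion, Set.mem_setOf_eq, Set.mem_univ, iff_true]
        exact ⟨s (A ω), s.mem_range_self _, rfl⟩
      rw [h2]
      simp
    rw [h1, measureReal_biUnion_finset]
    · intro c _ c' _ hcc
      refine Set.disjoint_left.2 fun ω h1 h2 => hcc ?_
      simp only [Set.mem_setOf_eq] at h1 h2
      rw [← h1, ← h2]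
    · intro c _
      exact hcell c
  have hne : ∃ c ∈ s.range, 0 < P.real {ω | s (A ω) = c} := by
    by_contra hcon
    push Not at hcon
    have : ∑ c ∈ s.range, P.real {ω | s (A ω) = c} ≤ 0 := Finset.sum_nonpos hcon
    linarith
  obtain ⟨c₀, hc₀, hc₀'⟩ := hne
  let g : EuclideanSpace ℝ (Fin m) → κ := fun c =>
    if hc : ∃ hr : c ∈ s.range, 0 < P.real {ω | s (A ω) = c} then ⟨⟨c, hc.1⟩, hc.2⟩
    else ⟨⟨c₀, hc₀⟩, hc₀'⟩
  have hg : ∀ c : κ, g c.1.1 = c := by
    intro c
    have hc : ∃ hr : c.1.1 ∈ s.range, 0 < P.real {ω | s (A ω) = c.1.1} := ⟨c.1.2, c.2⟩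
    change (if hc : ∃ hr : c.1.1 ∈ s.range, 0 < P.real {ω | s (A ω) = c.1.1} then
      (⟨⟨c.1.1, hc.1⟩, hc.2⟩ : κ) else ⟨⟨c₀, hc₀⟩, hc₀'⟩) = c
    rw [dif_pos hc]
  let q : EuclideanSpace ℝ (Fin m) → κ := fun x => g (s x)
  have hq : Measurable[_, ⊤] q := by
    intro B _
    exact s.measurableSet_preimage (g ⁻¹' B)
  let S : κ → Set Ω₀ := fun a => {ω | q (A ω) = a}
  have hS : ∀ a, MeasurableSet ((fun ω => q (A ω)) ⁻¹' {a}) := fun a =>
    hA (s.measurableSet_preimage (g ⁻¹' {a}))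
  let p : κ → ℝ := fun a => P.real ((fun ω => q (A ω)) ⁻¹' {a})
  have hp : ∀ a, 0 < p a := by
    intro a
    refine lt_of_lt_of_le a.2 (measureReal_mono ?_)
    intro ω hω
    simp only [Set.mem_setOf_eq] at hω
    simp only [Set.mem_preimage, Set.mem_singleton_iff, q, hω, hg]
  have hp1 : ∑ a, p a = 1 := by
    have h1 := integral_split (P := P) hS (integrable_const (1 : ℝ))
    simp only [integral_const, smul_eq_mul, mul_one, probReal_univ,
      MeasurableSet.univ, measureReal_restrict_apply, Set.univ_inter] at h1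
    exact h1.symm
  -- almost surely `s (A) = q (A)`
  have hae : ∀ᵐ ω ∂P, s (A ω) = (q (A ω)).1.1 := by
    have h1 : ∀ c ∈ s.range, ¬ 0 < P.real {ω | s (A ω) = c} → ∀ᵐ ω ∂P, s (A ω) ≠ c := by
      intro c _ hc
      have h2 : P.real {ω | s (A ω) = c} = 0 := le_antisymm (not_lt.1 hc) measureReal_nonneg
      rw [measureReal_eq_zero_iff] at h2
      rw [ae_iff]
      simpa using h2
    have h3 : ∀ᵐ ω ∂P, ∀ c ∈ s.range, ¬ 0 < P.real {ω | s (A ω) = c} → s (A ω) ≠ c := by
      rw [Filter.eventually_all_finset]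
      intro c hc
      by_cases hc' : 0 < P.real {ω | s (A ω) = c}
      · exact Filter.Eventually.of_forall fun ω hn => absurd hc' hn
      · filter_upwards [h1 c hc hc'] with ω hω _
        exact hω
    filter_upwards [h3] with ω hω
    have h4 : 0 < P.real {ω' | s (A ω') = s (A ω)} := by
      by_contra hn
      exact hω (s (A ω)) (s.mem_range_self _) hn rfl
    have h5 := hg ⟨⟨s (A ω), s.mem_range_self _⟩, h4⟩
    simp only at h5
    simp only [q, h5]
  let V : κ → EuclideanSpace ℝ (Fin m) := fun a =>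
    (p a)⁻¹ • ∫ ω in (fun ω => q (A ω)) ⁻¹' {a}, A ω ∂P
  have hpV : ∀ a, p a • V a = ∫ ω in (fun ω => q (A ω)) ⁻¹' {a}, A ω ∂P := by
    intro a
    simp only [V]
    rw [smul_smul, mul_inv_cancel₀ (hp a).ne', one_smul]
  have hmV : Measurable fun ω => V (q (A ω)) := by
    intro B _
    exact hA (s.measurableSet_preimage ((fun c => V (g c)) ⁻¹' B))
  have hiV : Integrable (fun ω => V (q (A ω))) P := by
    refine Integrable.of_bound (C := ∑ a, ‖V a‖) hmV.aestronglyMeasurable ?_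
    filter_upwards with ω
    exact Finset.single_le_sum (f := fun a => ‖V a‖) (fun _ _ => norm_nonneg _)
      (Finset.mem_univ _)
  have hiAV : Integrable (fun ω => ‖A ω - V (q (A ω))‖) P := (hi.sub hiV).norm
  refine ⟨κ, inferInstance, q, p, V, hq, hp, hp1, fun a => rfl, ?_, hiAV, ?_⟩
  · -- Jensen
    intro v
    rw [hp1, one_mul, one_pow, one_mul]
    refine le_trans ?_ (h v).2
    rw [integral_split (P := P) hS (h v).1]
    apply Finset.sum_le_sum
    intro a _
    have h1 : ∫ ω in (fun ω => q (A ω)) ⁻¹' {a}, (Real.exp ⟪V a, v⟫ *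
        (1 - ⟪V a, v⟫ + ⟪A ω, v⟫)) ∂P = p a * Real.exp ⟪V a, v⟫ := by
      have h2 : Integrable (fun ω => ⟪A ω, v⟫) (P.restrict ((fun ω => q (A ω)) ⁻¹' {a})) :=
        (hi.inner_const v).restrict
      rw [integral_const_mul, integral_add (integrable_const _) h2, integral_const]
      have h3 : ∫ ω in (fun ω => q (A ω)) ⁻¹' {a}, ⟪A ω, v⟫ ∂P = p a * ⟪V a, v⟫ := by
        have h4 := integral_inner (𝕜 := ℝ) (hi.restrict (s := (fun ω => q (A ω)) ⁻¹' {a})) v
        have h5 : ∀ ω, ⟪A ω, v⟫ = ⟪v, A ω⟫ := fun ω => real_inner_comm _ _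
        simp only [h5]
        rw [h4, ← hpV a, real_inner_smul_right, real_inner_comm]
      rw [h3]
      simp only [MeasurableSet.univ, measureReal_restrict_apply, Set.univ_inter, smul_eq_mul]
      change Real.exp ⟪V a, v⟫ * (p a * (1 - ⟪V a, v⟫) + p a * ⟪V a, v⟫) = _
      ring
    rw [← h1]
    apply integral_mono
    · exact ((integrable_const _).add (hi.inner_const v)).restrict.const_mul _
    · exact (h v).1.restrict
    · intro ω
      simp only
      have h2 := Real.add_one_le_exp (⟪A ω, v⟫ - ⟪V a, v⟫)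
      calc Real.exp ⟪V a, v⟫ * (1 - ⟪V a, v⟫ + ⟪A ω, v⟫)
          = Real.exp ⟪V a, v⟫ * (⟪A ω, v⟫ - ⟪V a, v⟫ + 1) := by ring
        _ ≤ Real.exp ⟪V a, v⟫ * Real.exp (⟪A ω, v⟫ - ⟪V a, v⟫) :=
            mul_le_mul_of_nonneg_left h2 (Real.exp_pos _).le
        _ = Real.exp ⟪A ω, v⟫ := by
            rw [← Real.exp_add]
            congr 1
            ring
  · -- the distance
    have hiq : Integrable (fun ω => ‖A ω - (q (A ω)).1.1‖) P := by
      refine hsint.congr ?_
      filter_upwards [hae] with ω hω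
      rw [hω]
    have h1 : ∫ ω, ‖A ω - (q (A ω)).1.1‖ ∂P = ∫ ω, ‖A ω - s (A ω)‖ ∂P := by
      apply integral_congr_ae
      filter_upwards [hae] with ω hω
      rw [hω]
    have h2 : ∫ ω, ‖A ω - V (q (A ω))‖ ∂P ≤ 2 * ∫ ω, ‖A ω - (q (A ω)).1.1‖ ∂P := by
      rw [integral_split (P := P) hS hiAV, integral_split (P := P) hS hiq, Finset.mul_sum]
      apply Finset.sum_le_sum
      intro a _
      have e1 : ∫ ω in (fun ω => q (A ω)) ⁻¹' {a}, ‖A ω - V (q (A ω))‖ ∂P =
          ∫ ω in (fun ω => q (A ω)) ⁻¹' {a}, ‖A ω - V a‖ ∂P := by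
        apply setIntegral_congr_fun (hS a)
        intro ω hω
        simp only [Set.mem_preimage, Set.mem_singleton_iff] at hω
        simp only [hω]
      have e2 : ∫ ω in (fun ω => q (A ω)) ⁻¹' {a}, ‖A ω - (q (A ω)).1.1‖ ∂P =
          ∫ ω in (fun ω => q (A ω)) ⁻¹' {a}, ‖A ω - a.1.1‖ ∂P := by
        apply setIntegral_congr_fun (hS a)
        intro ω hω
        simp only [Set.mem_preimage, Set.mem_singleton_iff] at hω
        simp only [hω]
      rw [e1, e2]
      have hiA : Integrable (fun ω => A ω - a.1.1)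
          (P.restrict ((fun ω => q (A ω)) ⁻¹' {a})) := (hi.sub (integrable_const _)).restrict
      have e3 : p a * ‖V a - a.1.1‖ ≤
          ∫ ω in (fun ω => q (A ω)) ⁻¹' {a}, ‖A ω - a.1.1‖ ∂P := by
        have e4 : p a • (V a - a.1.1) =
            ∫ ω in (fun ω => q (A ω)) ⁻¹' {a}, (A ω - a.1.1) ∂P := by
          rw [integral_sub hi.restrict (integrable_const _), smul_sub, hpV a, integral_const]
          simp only [MeasurableSet.univ, measureReal_restrict_apply, Set.univ_inter]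
          rfl
        have e5 := norm_integral_le_integral_norm (μ := P.restrict ((fun ω => q (A ω)) ⁻¹' {a}))
          (fun ω => A ω - a.1.1)
        rw [← e4, norm_smul, Real.norm_eq_abs, abs_of_pos (hp a)] at e5
        exact e5
      calc ∫ ω in (fun ω => q (A ω)) ⁻¹' {a}, ‖A ω - V a‖ ∂P
          ≤ ∫ ω in (fun ω => q (A ω)) ⁻¹' {a}, (‖A ω - a.1.1‖ + ‖V a - a.1.1‖) ∂P := by
            apply integral_mono
            · exact (hi.sub (integrable_const _)).restrict.norm
            · exact hiA.norm.add (integrable_const _)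
            · intro ω
              simp only
              have := norm_sub_le (A ω - a.1.1) (V a - a.1.1)
              rwa [sub_sub_sub_cancel_right] at this
        _ = (∫ ω in (fun ω => q (A ω)) ⁻¹' {a}, ‖A ω - a.1.1‖ ∂P) + p a * ‖V a - a.1.1‖ := by
            rw [integral_add hiA.norm (integrable_const _), integral_const]
            simp only [MeasurableSet.univ, measureReal_restrict_apply, Set.univ_inter,
              smul_eq_mul]
            rfl
        _ ≤ _ := by linarith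
    rw [h1] at h2
    linarith

end IC65
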