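import Pool.Agent.IC65.RPsi
import Pool.Agent.IC65.RDisc
import Pool.Agent.IC65.Mmt

/-!
# IC65 module R-MAIN: general columns, arbitrary `T`

1. Finite `T`: apply `disc` to `A i/K` (`mgf_of_psi2v`) and `mmt`: `E sup ≤ C K gam T` (if `T = ∅` trivial), and
   `ofReal (gam T) = ∫⁻ g, ⨆ x ∈ T, ofReal |⟨g,x⟩|`.
2. Arbitrary `T`: choose a countable dense subset `T₀ ⊆ T` (`TopologicalSpace.exists_countable_dense` for the
   subtype); for fixed `ω` the function of `x` is continuous, so the supremum over `T` is the supremum over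
   `T₀`, the increasing limit of the suprema over the finite sets of the first `k` points; monotone
   convergence (`lintegral_iSup`), and for each finite subset the right hand side is at most the one of `T`.
-/

open MeasureTheory ProbabilityTheory
open scoped RealInnerProductSpace ENNReal NNReal

noncomputable section

namespace IC65

namespace RMainA

theorem iSup_ofReal {α : Type*} (T : Finset α) (hT : T.Nonempty) (f : α → ℝ) :
    ⨆ x ∈ T, ENNReal.ofReal (f x) = ENNReal.ofReal (T.sup' hT f) := by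
  apply le_antisymm
  · exact iSup₂_le fun x hx => ENNReal.ofReal_le_ofReal (Finset.le_sup' f hx)
  · obtain ⟨x, hx, h⟩ := Finset.exists_mem_eq_sup' hT f
    rw [h]
    exact le_iSup₂ (f := fun x (_ : x ∈ T) => ENNReal.ofReal (f x)) x hx

theorem ofReal_gam {n : ℕ} (T : Finset (EuclideanSpace ℝ (Fin n))) (hT : T.Nonempty) :
    ENNReal.ofReal (gam T) = ∫⁻ g, ⨆ x ∈ T, ENNReal.ofReal |⟪g, x⟫|
      ∂stdGaussian (EuclideanSpace ℝ (Fin n)) := by
  unfold gam
  rw [dif_pos hT, ofReal_integral_eq_lintegral_ofReal (integrable_sup'_abs hT)]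
  · apply lintegral_congr
    intro g
    rw [iSup_ofReal T hT]
  · filter_upwards with g
    obtain ⟨x, hx⟩ := hT
    exact (abs_nonneg ⟪g, x⟫).trans (Finset.le_sup' (fun x => |⟪g, x⟫|) hx)

/-- the quantity whose supremum is studied -/
def dev {m n : ℕ} (X : Fin n → EuclideanSpace ℝ (Fin m)) (x : EuclideanSpace ℝ (Fin n)) : ℝ :=
  |‖lin X x‖ - wn (len X) x|

theorem dev_smul {m n : ℕ} {K : ℝ} (hK : 0 < K) (X : Fin n → EuclideanSpace ℝ (Fin m))
    (x : EuclideanSpace ℝ (Fin n)) : dev X x = K * dev (fun i => K⁻¹ • X i) x := by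
  have h1 : lin (fun i => K⁻¹ • X i) x = K⁻¹ • lin X x := by
    unfold lin
    rw [Finset.smul_sum]
    exact Finset.sum_congr rfl fun i _ => smul_comm _ _ _
  have h2 : wn (len fun i => K⁻¹ • X i) x = K⁻¹ * wn (len X) x := by
    have h3 : (len fun i => K⁻¹ • X i) = fun i => K⁻¹ * len X i := by
      funext i
      simp only [len, norm_smul, Real.norm_eq_abs, abs_of_pos (inv_pos.2 hK)]
    rw [h3, wn_smul_left, abs_of_pos (inv_pos.2 hK)]
  unfold dev
  rw [h1, h2, norm_smul, Real.norm_eq_abs, abs_of_pos (inv_pos.2 hK), ← mul_sub, abs_mul,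
    abs_of_pos (inv_pos.2 hK), ← mul_assoc, mul_inv_cancel₀ hK.ne', one_mul]

theorem continuous_dev {m n : ℕ} (X : Fin n → EuclideanSpace ℝ (Fin m)) :
    Continuous (dev X) := by
  unfold dev lin wn
  fun_prop

theorem measurable_dev {Ω₀ : Type*} [MeasurableSpace Ω₀] {m n : ℕ}
    {A : Fin n → Ω₀ → EuclideanSpace ℝ (Fin m)} (hA : ∀ i, Measurable (A i))
    (x : EuclideanSpace ℝ (Fin n)) : Measurable fun ω => dev (fun i => A i ω) x := by
  unfold dev lin wn len
  fun_prop

/-- a supremum of a continuous function over a set is the supremum over a dense sequence -/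
theorem iSup_dense {X : Type*} [TopologicalSpace X] {T : Set X}
    {d : ℕ → T} (hd : DenseRange d) {f : X → ℝ≥0∞} (hf : Continuous f) :
    ⨆ x ∈ T, f x = ⨆ N, ⨆ k ∈ Finset.range (N + 1), f (d k) := by
  apply le_antisymm
  · refine iSup₂_le fun x hx => ?_
    have h1 : ∀ y : T, f y ≤ ⨆ N, ⨆ k ∈ Finset.range (N + 1), f (d k) := by
      intro y
      refine hd.induction_on (p := fun y : T => f y ≤ _) y ?_ ?_
      · exact isClosed_le (hf.comp continuous_subtype_val) continuous_const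
      · intro k
        refine le_trans ?_ (le_iSup (fun N => ⨆ k ∈ Finset.range (N + 1), f (d k)) k)
        exact le_iSup₂ (f := fun k (_ : k ∈ Finset.range _) => f (d k)) k (by simp)
    exact h1 ⟨x, hx⟩
  · refine iSup_le fun N => iSup₂_le fun k _ => ?_
    exact le_iSup₂ (f := fun x (_ : x ∈ T) => f x) (d k : X) (d k).2

end RMainA

open RMainA in
theorem main : ∃ C : ℝ, 0 < C ∧ ∀ {Ω₀ : Type*} [MeasurableSpace Ω₀] (P : Measure Ω₀)
    [IsProbabilityMeasure P] {m n : ℕ} (A : Fin n → Ω₀ → EuclideanSpace ℝ (Fin m))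
    (_ : ∀ i, Measurable (A i)) (_ : iIndepFun A P) (_ : ∀ i, ∫ ω, A i ω ∂P = 0)
    {K : ℝ} (_ : 0 < K) (_ : ∀ i, psi2v P (A i) ≤ ENNReal.ofReal K)
    (T : Set (EuclideanSpace ℝ (Fin n))),
    ∫⁻ ω, ⨆ x ∈ T, ENNReal.ofReal |‖lin (fun i => A i ω) x‖ - wn (len fun i => A i ω) x| ∂P ≤
      ENNReal.ofReal (C * K) * ∫⁻ g, ⨆ x ∈ T, ENNReal.ofReal |⟪g, x⟫|
        ∂stdGaussian (EuclideanSpace ℝ (Fin n)) := by
  obtain ⟨C1, hC1, H1⟩ := disc
  obtain ⟨C2, hC2, H2⟩ := mmt
  refine ⟨C1 * C2, by positivity, ?_⟩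
  intro Ω₀ _ P _ m n A hA hind h0 K hK hpsi T
  -- finite sets
  have hfin : ∀ S : Finset (EuclideanSpace ℝ (Fin n)), S.Nonempty →
      ∫⁻ ω, ⨆ x ∈ S, ENNReal.ofReal (dev (fun i => A i ω) x) ∂P ≤
        ENNReal.ofReal (C1 * C2 * K) * ∫⁻ g, ⨆ x ∈ S, ENNReal.ofReal |⟪g, x⟫|
          ∂stdGaussian (EuclideanSpace ℝ (Fin n)) := by
    intro S hS
    obtain ⟨cells⟩ := H2 S hS
    have hB := H1 P (fun i ω => K⁻¹ • A i ω) (fun i => (hA i).const_smul K⁻¹)
      (hind.comp (fun _ x => K⁻¹ • x) (fun _ => measurable_const_smul _))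
      (fun i => (integrable_of_psi2v (hA i) hK (hpsi i)).smul K⁻¹)
      (fun i v => by
        have := mgf_of_psi2v (hA i) hK (hpsi i) (h0 i) (K⁻¹ • v)
        have h1 : K ^ 2 * ‖K⁻¹ • v‖ ^ 2 = ‖v‖ ^ 2 := by
          rw [norm_smul, Real.norm_eq_abs, abs_of_pos (inv_pos.2 hK), mul_pow, ← mul_assoc,
            ← mul_pow, mul_inv_cancel₀ hK.ne', one_pow, one_mul]
        have h2 : ∀ ω, ⟪K⁻¹ • A i ω, v⟫ = ⟪A i ω, K⁻¹ • v⟫ := by
          intro ω
          rw [real_inner_smul_left, real_inner_smul_right]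
        rw [h1] at this
        simpa only [h2] using this) S hS cells
    rw [← ofReal_gam S hS]
    have h3 : ∀ ω, ⨆ x ∈ S, ENNReal.ofReal (dev (fun i => A i ω) x) =
        ENNReal.ofReal K * ENNReal.ofReal (S.sup' hS fun x =>
          |‖lin (fun i => K⁻¹ • A i ω) x‖ - wn (len fun i => K⁻¹ • A i ω) x|) := by
      intro ω
      rw [← iSup_ofReal, ENNReal.mul_iSup]
      apply iSup_congr
      intro x
      rw [ENNReal.mul_iSup]
      apply iSup_congr
      intro _
      rw [← ENNReal.ofReal_mul hK.le, dev_smul hK]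
      rfl
    simp only [h3]
    rw [lintegral_const_mul' _ _ ENNReal.ofReal_ne_top]
    have hg : 0 ≤ C1 * C2 * K := by positivity
    rw [← ENNReal.ofReal_mul hg]
    calc ENNReal.ofReal K * _ ≤ ENNReal.ofReal K * ENNReal.ofReal (C1 * (C2 * gam S)) :=
          mul_le_mul_right hB _
      _ = ENNReal.ofReal (C1 * C2 * K * gam S) := by
          rw [← ENNReal.ofReal_mul hK.le]
          congr 1
          ring
  change ∫⁻ ω, ⨆ x ∈ T, ENNReal.ofReal (dev (fun i => A i ω) x) ∂P ≤ _
  rcases T.eq_empty_or_nonempty with rfl | hT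
  · simp
  have : Nonempty T := hT.to_subtype
  have hd := TopologicalSpace.denseRange_denseSeq T
  set d := TopologicalSpace.denseSeq T with hddef
  have h1 : ∀ ω, ⨆ x ∈ T, ENNReal.ofReal (dev (fun i => A i ω) x) =
      ⨆ N, ⨆ k ∈ Finset.range (N + 1), ENNReal.ofReal (dev (fun i => A i ω) (d k)) :=
    fun ω => iSup_dense hd (ENNReal.continuous_ofReal.comp (continuous_dev _))
  simp only [h1]
  rw [lintegral_iSup]
  · refine iSup_le fun N => ?_
    classical
    have h2 : ∀ (f : EuclideanSpace ℝ (Fin n) → ℝ≥0∞),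
        ⨆ k ∈ Finset.range (N + 1), f (d k) =
          ⨆ x ∈ (Finset.range (N + 1)).image (fun k => (d k : EuclideanSpace ℝ (Fin n))), f x := by
      intro f
      rw [Finset.iSup_finset_image]
    refine le_trans (le_of_eq (lintegral_congr fun ω =>
      h2 fun x => ENNReal.ofReal (dev (fun i => A i ω) x))) ?_
    refine (hfin _ (by simp)).trans ?_
    refine mul_le_mul_right (lintegral_mono fun g => ?_) _
    refine iSup₂_le fun x hx => ?_
    obtain ⟨k, _, rfl⟩ := Finset.mem_image.1 hx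
    exact le_iSup₂ (f := fun x (_ : x ∈ T) => ENNReal.ofReal |⟪g, x⟫|)
      (d k : EuclideanSpace ℝ (Fin n)) (d k).2
  · intro N
    refine Measurable.biSup _ (Finset.countable_toSet _) fun k _ => ?_
    exact (measurable_dev hA _).ennreal_ofReal
  · intro N N' hN ω
    refine iSup₂_le fun k hk => ?_
    exact le_iSup₂ (f := fun k (_ : k ∈ Finset.range (N' + 1)) =>
      ENNReal.ofReal (dev (fun i => A i ω) (d k))) k
      (by rw [Finset.mem_range] at hk ⊢; omega)

end IC65
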