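import Pool.Agent.IC65.RDefs

/-!
# IC65 module R-PSI: from the `ψ₂` norm to the moment generating function

* `exp_sq_le`: for `t` in the set of the infimum with `t → K`: `exp(Z²/t²) ↑ exp(Z²/K²)` (monotone
  convergence / Fatou), so `psi2 P Z ≤ K` implies `E exp(Z²/K²) ≤ 2`.
* `mgf_of_psi2v`: the proof of `psi_mgf` (PSI-A) for measures: `Z = ⟨V,u⟩`, `‖u‖ = 1`, `a = 1/K²`; for general
  `v = ‖v‖ u`.  (`Z² ≤ K² exp(Z²/K²)`, so `V` is integrable, `∫ ⟨V,u⟩ = ⟨∫ V, u⟩ = 0`.)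
-/

open MeasureTheory ProbabilityTheory
open scoped RealInnerProductSpace ENNReal NNReal

noncomputable section

namespace IC65

variable {Ω₀ : Type*} [MeasurableSpace Ω₀] {P : Measure Ω₀} [IsProbabilityMeasure P]

namespace RPsiA

theorem exp_le_add (x : ℝ) : Real.exp x ≤ x + Real.exp (x ^ 2) := by
  rcases le_or_gt |x| 1 with h | h
  · have h1 := (abs_le.1 (Real.abs_exp_sub_one_sub_id_le h)).2
    have h2 := Real.add_one_le_exp (x ^ 2)
    linarith
  · rcases lt_abs.1 h with h1 | h1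
    · have h2 : Real.exp x ≤ Real.exp (x ^ 2) := Real.exp_le_exp.2 (by nlinarith)
      linarith
    · have h2 : Real.exp x ≤ 1 := Real.exp_le_one_iff.2 (by linarith)
      have h3 := Real.add_one_le_exp (x ^ 2)
      nlinarith

theorem abs_le_exp_sq (x : ℝ) : |x| ≤ Real.exp (x ^ 2) := by
  have h1 := Real.add_one_le_exp (x ^ 2)
  have h2 : |x| ≤ x ^ 2 + 1 := by
    rw [← sq_abs]
    nlinarith [sq_nonneg (|x| - 1), abs_nonneg x]
  linarith

end RPsiA

open RPsiA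

theorem exp_sq_le {Z : Ω₀ → ℝ} (hZ : Measurable Z) {K : ℝ} (hK : 0 < K)
    (h : psi2 P Z ≤ ENNReal.ofReal K) :
    ∫⁻ ω, ENNReal.ofReal (Real.exp (Z ω ^ 2 / K ^ 2)) ∂P ≤ 2 := by
  have h1 : ∀ n : ℕ, ∫⁻ ω, ENNReal.ofReal (Real.exp (Z ω ^ 2 / (K + 1 / ((n : ℝ) + 1)) ^ 2)) ∂P
      ≤ 2 := by
    intro n
    have hε : 0 < 1 / ((n : ℝ) + 1) := by positivity
    have h2 : psi2 P Z < ENNReal.ofReal (K + 1 / ((n : ℝ) + 1)) :=
      h.trans_lt ((ENNReal.ofReal_lt_ofReal_iff (by positivity)).2 (by linarith))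
    unfold psi2 at h2
    rw [iInf_lt_iff] at h2
    obtain ⟨t, h2⟩ := h2
    rw [iInf_lt_iff] at h2
    obtain ⟨⟨ht, h3⟩, h4⟩ := h2
    have h5 : t < K + 1 / ((n : ℝ) + 1) := (ENNReal.ofReal_lt_ofReal_iff (by positivity)).1 h4
    refine le_trans (lintegral_mono fun ω => ?_) h3
    apply ENNReal.ofReal_le_ofReal
    apply Real.exp_le_exp.2
    exact div_le_div_of_nonneg_left (sq_nonneg _) (by positivity)
      (pow_le_pow_left₀ ht.le h5.le 2)
  have h6 : ∀ ω, Filter.Tendsto (fun n : ℕ =>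
      ENNReal.ofReal (Real.exp (Z ω ^ 2 / (K + 1 / ((n : ℝ) + 1)) ^ 2))) Filter.atTop
      (nhds (ENNReal.ofReal (Real.exp (Z ω ^ 2 / K ^ 2)))) := by
    intro ω
    apply ENNReal.tendsto_ofReal
    apply (Real.continuous_exp.tendsto _).comp
    apply Filter.Tendsto.div tendsto_const_nhds _ (by positivity)
    have h7 : Filter.Tendsto (fun n : ℕ => K + 1 / ((n : ℝ) + 1)) Filter.atTop (nhds (K + 0)) :=
      tendsto_const_nhds.add tendsto_one_div_add_atTop_nhds_zero_nat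
    rw [add_zero] at h7
    exact h7.pow 2
  calc ∫⁻ ω, ENNReal.ofReal (Real.exp (Z ω ^ 2 / K ^ 2)) ∂P
      = ∫⁻ ω, Filter.liminf (fun n : ℕ =>
          ENNReal.ofReal (Real.exp (Z ω ^ 2 / (K + 1 / ((n : ℝ) + 1)) ^ 2))) Filter.atTop ∂P :=
        lintegral_congr fun ω => (h6 ω).liminf_eq.symm
    _ ≤ Filter.liminf (fun n : ℕ => ∫⁻ ω,
          ENNReal.ofReal (Real.exp (Z ω ^ 2 / (K + 1 / ((n : ℝ) + 1)) ^ 2)) ∂P) Filter.atTop := by
        apply lintegral_liminf_le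
        intro n
        fun_prop
    _ ≤ Filter.liminf (fun _ : ℕ => (2 : ℝ≥0∞)) Filter.atTop :=
        Filter.liminf_le_liminf (Filter.Eventually.of_forall h1)
    _ = 2 := by simp

namespace RPsiA

/-- the exponential is integrable and its integral is at most `2` -/
theorem int_exp_sq {Z : Ω₀ → ℝ} (hZ : Measurable Z) {K : ℝ} (hK : 0 < K)
    (h : psi2 P Z ≤ ENNReal.ofReal K) :
    Integrable (fun ω => Real.exp (Z ω ^ 2 / K ^ 2)) P ∧
      ∫ ω, Real.exp (Z ω ^ 2 / K ^ 2) ∂P ≤ 2 := by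
  have h1 := exp_sq_le hZ hK h
  have h2 : Integrable (fun ω => Real.exp (Z ω ^ 2 / K ^ 2)) P := by
    refine ⟨by fun_prop, ?_⟩
    rw [hasFiniteIntegral_iff_ofReal (Filter.Eventually.of_forall fun ω => (Real.exp_pos _).le)]
    exact h1.trans_lt (by norm_num)
  refine ⟨h2, ?_⟩
  have h3 := ofReal_integral_eq_lintegral_ofReal h2
    (Filter.Eventually.of_forall fun ω => (Real.exp_pos _).le)
  rw [← h3] at h1
  have h4 : ENNReal.ofReal (∫ ω, Real.exp (Z ω ^ 2 / K ^ 2) ∂P) ≤ ENNReal.ofReal 2 := by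
    simpa using h1
  exact (ENNReal.ofReal_le_ofReal_iff (by norm_num)).1 h4

theorem int_self {Z : Ω₀ → ℝ} (hZ : Measurable Z) {K : ℝ} (hK : 0 < K)
    (h : psi2 P Z ≤ ENNReal.ofReal K) : Integrable Z P := by
  refine ((int_exp_sq hZ hK h).1.const_mul K).mono' hZ.aestronglyMeasurable ?_
  filter_upwards with ω
  have h1 := abs_le_exp_sq (Z ω / K)
  rw [abs_div, abs_of_pos hK, div_pow, div_le_iff₀ hK] at h1
  rw [Real.norm_eq_abs]
  linarith

theorem psi2_le {m : ℕ} {V : Ω₀ → EuclideanSpace ℝ (Fin m)} {K : ℝ}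
    (h : psi2v P V ≤ ENNReal.ofReal K) {u : EuclideanSpace ℝ (Fin m)} (hu : ‖u‖ = 1) :
    psi2 P (fun ω => ⟪V ω, u⟫) ≤ ENNReal.ofReal K :=
  (le_iSup₂ (f := fun (x : EuclideanSpace ℝ (Fin m)) (_ : ‖x‖ = 1) =>
    psi2 P (fun ω => ⟪V ω, x⟫)) u hu).trans h

/-- the moment generating function -/
theorem mgf_le {Z : Ω₀ → ℝ} (hZ : Measurable Z) {K : ℝ} (hK : 0 < K)
    (h : psi2 P Z ≤ ENNReal.ofReal K) (h0 : ∫ ω, Z ω ∂P = 0) (l : ℝ) :
    Integrable (fun ω => Real.exp (l * Z ω)) P ∧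
      ∫ ω, Real.exp (l * Z ω) ∂P ≤ Real.exp (K ^ 2 * l ^ 2) := by
  obtain ⟨hi, h2⟩ := int_exp_sq hZ hK h
  have hZi := int_self hZ hK h
  set s : ℝ := K ^ 2 * l ^ 2 with hs
  have hs0 : 0 ≤ s := by positivity
  have hsa : ∀ ω, (l * Z ω) ^ 2 = s * (Z ω ^ 2 / K ^ 2) := by
    intro ω
    rw [hs]
    field_simp
  have hb : ∀ ω, l * Z ω ≤ s / 4 + Z ω ^ 2 / K ^ 2 := by
    intro ω
    have e2 : 0 ≤ (l * K / 2 - Z ω / K) ^ 2 := sq_nonneg _
    have e3 : (l * K / 2 - Z ω / K) ^ 2 = s / 4 + Z ω ^ 2 / K ^ 2 - l * Z ω := by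
      rw [hs]
      field_simp
      ring
    linarith
  have hb' : ∀ ω, Real.exp (l * Z ω) ≤ Real.exp (s / 4) * Real.exp (Z ω ^ 2 / K ^ 2) := by
    intro ω
    rw [← Real.exp_add]
    exact Real.exp_le_exp.2 (hb ω)
  have hint : Integrable (fun ω => Real.exp (l * Z ω)) P := by
    refine (hi.const_mul (Real.exp (s / 4))).mono' (by fun_prop) ?_
    filter_upwards with ω
    rw [Real.norm_eq_abs, abs_of_pos (Real.exp_pos _)]
    exact hb' ω
  refine ⟨hint, ?_⟩
  rcases le_or_gt s 1 with h1 | h1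
  · have hlog : Real.log 2 ≤ 1 := by
      have := Real.log_two_lt_d9
      linarith
    have key : ∀ ω, Real.exp (l * Z ω) ≤ l * Z ω +
        Real.exp (s * Real.log 2) * ((1 - s) + s / 2 * Real.exp (Z ω ^ 2 / K ^ 2)) := by
      intro ω
      have e1 := exp_le_add (l * Z ω)
      have e2 : (l * Z ω) ^ 2 = s * Real.log 2 + s * (Z ω ^ 2 / K ^ 2 - Real.log 2) := by
        rw [hsa]
        ring
      have e3 : Real.exp (s * (Z ω ^ 2 / K ^ 2 - Real.log 2)) ≤
          (1 - s) + s * Real.exp (Z ω ^ 2 / K ^ 2 - Real.log 2) := by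
        have := convexOn_exp.2 (Set.mem_univ (0 : ℝ)) (Set.mem_univ (Z ω ^ 2 / K ^ 2 - Real.log 2))
          (sub_nonneg.2 h1) hs0 (by ring)
        simpa using this
      have e4 : Real.exp (Z ω ^ 2 / K ^ 2 - Real.log 2) = Real.exp (Z ω ^ 2 / K ^ 2) / 2 := by
        rw [Real.exp_sub, Real.exp_log (by norm_num)]
      rw [e2, Real.exp_add] at e1
      rw [e4] at e3
      refine e1.trans ?_
      have := mul_le_mul_of_nonneg_left e3 (Real.exp_pos (s * Real.log 2)).le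
      linarith
    calc ∫ ω, Real.exp (l * Z ω) ∂P
        ≤ ∫ ω, (l * Z ω + Real.exp (s * Real.log 2) *
            ((1 - s) + s / 2 * Real.exp (Z ω ^ 2 / K ^ 2))) ∂P := by
          refine integral_mono hint ?_ key
          exact (hZi.const_mul l).add (((integrable_const _).add (hi.const_mul _)).const_mul _)
      _ = Real.exp (s * Real.log 2) * ((1 - s) + s / 2 * ∫ ω, Real.exp (Z ω ^ 2 / K ^ 2) ∂P) := by
          have i1 : Integrable (fun ω => l * Z ω) P := hZi.const_mul l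
          have i2 : Integrable (fun ω => (1 - s) + s / 2 * Real.exp (Z ω ^ 2 / K ^ 2)) P :=
            (integrable_const _).add (hi.const_mul _)
          have i3 : Integrable (fun ω => Real.exp (s * Real.log 2) *
            ((1 - s) + s / 2 * Real.exp (Z ω ^ 2 / K ^ 2))) P := i2.const_mul _
          rw [integral_add i1 i3, integral_const_mul, h0, mul_zero, zero_add,
            integral_const_mul, integral_add (integrable_const _) (hi.const_mul _),
            integral_const_mul]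
          simp
      _ ≤ Real.exp (s * Real.log 2) * 1 := by
          apply mul_le_mul_of_nonneg_left _ (Real.exp_pos _).le
          have := mul_le_mul_of_nonneg_left h2 (by positivity : (0 : ℝ) ≤ s / 2)
          linarith
      _ ≤ Real.exp s := by
          rw [mul_one]
          exact Real.exp_le_exp.2 (by nlinarith)
  · calc ∫ ω, Real.exp (l * Z ω) ∂P
        ≤ ∫ ω, Real.exp (s / 4) * Real.exp (Z ω ^ 2 / K ^ 2) ∂P :=
          integral_mono hint (hi.const_mul _) hb'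
      _ = Real.exp (s / 4) * ∫ ω, Real.exp (Z ω ^ 2 / K ^ 2) ∂P := integral_const_mul _ _
      _ ≤ Real.exp (s / 4) * 2 := mul_le_mul_of_nonneg_left h2 (Real.exp_pos _).le
      _ ≤ Real.exp (s / 4) * Real.exp (3 * s / 4) := by
          apply mul_le_mul_of_nonneg_left _ (Real.exp_pos _).le
          have := Real.quadratic_le_exp_of_nonneg (by positivity : 0 ≤ 3 * s / 4)
          nlinarith
      _ = Real.exp s := by
          rw [← Real.exp_add]
          congr 1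
          ring

end RPsiA

theorem integrable_of_psi2v {m : ℕ} {V : Ω₀ → EuclideanSpace ℝ (Fin m)} (hV : Measurable V)
    {K : ℝ} (hK : 0 < K) (h : psi2v P V ≤ ENNReal.ofReal K) : Integrable V P := by
  apply Integrable.of_eval_piLp
  intro i
  have h1 : ‖(EuclideanSpace.single i 1 : EuclideanSpace ℝ (Fin m))‖ = 1 := by simp
  have h2 := psi2_le h h1
  have h3 : (fun ω => ⟪V ω, (EuclideanSpace.single i 1 : EuclideanSpace ℝ (Fin m))⟫) =
      fun ω => V ω i := by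
    funext ω
    rw [EuclideanSpace.inner_single_right]
    simp
  rw [h3] at h2
  exact int_self (by fun_prop) hK h2

theorem mgf_of_psi2v {m : ℕ} {V : Ω₀ → EuclideanSpace ℝ (Fin m)} (hV : Measurable V)
    {K : ℝ} (hK : 0 < K) (h : psi2v P V ≤ ENNReal.ofReal K) (h0 : ∫ ω, V ω ∂P = 0)
    (v : EuclideanSpace ℝ (Fin m)) :
    Integrable (fun ω => Real.exp ⟪V ω, v⟫) P ∧
      ∫ ω, Real.exp ⟪V ω, v⟫ ∂P ≤ Real.exp (K ^ 2 * ‖v‖ ^ 2) := by
  rcases eq_or_ne v 0 with rfl | hv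
  · simp
  · have hn : ‖v‖ ≠ 0 := norm_ne_zero_iff.2 hv
    have hu : ‖(‖v‖⁻¹ • v)‖ = 1 := by
      rw [norm_smul, norm_inv, norm_norm, inv_mul_cancel₀ hn]
    have h1 := psi2_le h hu
    have hint := integrable_of_psi2v hV hK h
    have h2 : ∫ ω, ⟪V ω, ‖v‖⁻¹ • v⟫ ∂P = 0 := by
      have h3 := integral_inner (𝕜 := ℝ) hint (‖v‖⁻¹ • v)
      have h6 : ∀ ω, ⟪V ω, ‖v‖⁻¹ • v⟫ = ⟪‖v‖⁻¹ • v, V ω⟫ := fun ω => real_inner_comm _ _
      simp only [h6]
      rw [h3, h0, inner_zero_right]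
    have h4 := mgf_le (by fun_prop) hK h1 h2 ‖v‖
    have h5 : ∀ ω, ‖v‖ * ⟪V ω, ‖v‖⁻¹ • v⟫ = ⟪V ω, v⟫ := by
      intro ω
      rw [real_inner_smul_right, ← mul_assoc, mul_inv_cancel₀ hn, one_mul]
    simpa only [h5] using h4

end IC65
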