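import Mathlib

/-!
# IC65 module SCH-A: a lemma on bounded sequences

For `k` the numbers `g m = √2^(-|m-k|) a m` tend to `0`, so the maximum of `g` is attained and the set of the
maximisers is finite; let `φ(k)` be a maximiser `m` with `|m - k|` as large as possible.  Then `m` has the
property of the statement: if `j ≠ m` and `a j ≥ √2^|m-j| a m` then
`g j ≥ √2^(|m-j|-|j-k|) a m ≥ √2^(-|m-k|) a m = g m` (triangle inequality), so `j` is a maximiser as well and
equality holds everywhere, `|j-k| = |m-k| + |m-j| > |m-k|`, a contradiction.  `J` = the image of `range M`;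
`a k ≤ √2^(-|φ(k)-k|) a (φ k)` and `∑_k √2^(-|m-k|) ≤ (√2+1)/(√2-1) < 7`.
-/

open Finset

noncomputable section

namespace IC65

private theorem seqA_pow {m k : ℕ} {a : ℝ} (ha : 0 < a)
    (h : Real.sqrt 2 ^ m * a ≤ Real.sqrt 2 ^ k * a) : m ≤ k := by
  have h1 : (1 : ℝ) < Real.sqrt 2 := by
    rw [Real.lt_sqrt zero_le_one]
    norm_num
  have h2 := le_of_mul_le_mul_right h ha
  exact (pow_le_pow_iff_right₀ h1).1 h2

/-- the maximiser -/
private theorem seqA_phi (a : ℕ → ℝ) (ha : ∀ k, 0 < a k) {B : ℝ} (hB : ∀ k, a k ≤ B) (k : ℕ) :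
    ∃ m, (∀ j, a j * Real.sqrt 2 ^ Nat.dist m k ≤ a m * Real.sqrt 2 ^ Nat.dist j k) ∧
      (∀ j, a j * Real.sqrt 2 ^ Nat.dist m k = a m * Real.sqrt 2 ^ Nat.dist j k →
        Nat.dist j k ≤ Nat.dist m k) := by
  have h1 : (1 : ℝ) < Real.sqrt 2 := by
    rw [Real.lt_sqrt zero_le_one]
    norm_num
  have h0 : (0 : ℝ) < Real.sqrt 2 := by linarith
  have hpos : ∀ j : ℕ, (0 : ℝ) < Real.sqrt 2 ^ j := fun j => pow_pos h0 j
  obtain ⟨N, hN⟩ := pow_unbounded_of_one_lt (B / a k) h1
  rw [div_lt_iff₀ (ha k)] at hN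
  set S : Finset ℕ := (range (k + N + 1)).filter fun j => Nat.dist j k ≤ N with hS
  have hkS : k ∈ S := by
    rw [hS, mem_filter, mem_range, Nat.dist_self]
    omega
  have hmemS : ∀ j, Nat.dist j k ≤ N → j ∈ S := by
    intro j hj
    rw [hS, mem_filter, mem_range]
    refine ⟨?_, hj⟩
    unfold Nat.dist at hj
    omega
  obtain ⟨m₀, hm₀, hmax⟩ := S.exists_max_image
    (fun j => a j / Real.sqrt 2 ^ Nat.dist j k) ⟨k, hkS⟩
  obtain ⟨m, hm, hmax'⟩ := (S.filter fun j => a j / Real.sqrt 2 ^ Nat.dist j k =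
    a m₀ / Real.sqrt 2 ^ Nat.dist m₀ k).exists_max_image (fun j => Nat.dist j k)
    ⟨m₀, by rw [mem_filter]; exact ⟨hm₀, rfl⟩⟩
  rw [mem_filter] at hm
  have hall : ∀ j, j ∉ S → a j / Real.sqrt 2 ^ Nat.dist j k < a m / Real.sqrt 2 ^ Nat.dist m k := by
    intro j hj
    have h2 : N < Nat.dist j k := by
      by_contra hcon
      exact hj (hmemS j (not_lt.1 hcon))
    rw [hm.2]
    refine lt_of_lt_of_le ?_ (hmax k hkS)
    rw [Nat.dist_self, pow_zero, div_one, div_lt_iff₀ (hpos _)]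
    refine lt_of_le_of_lt (hB j) (lt_of_lt_of_le hN ?_)
    rw [mul_comm]
    exact mul_le_mul_of_nonneg_left (pow_le_pow_right₀ h1.le h2.le) (ha k).le
  have hkey : ∀ j, a j / Real.sqrt 2 ^ Nat.dist j k ≤ a m / Real.sqrt 2 ^ Nat.dist m k := by
    intro j
    by_cases hj : j ∈ S
    · rw [hm.2]
      exact hmax j hj
    · exact (hall j hj).le
  refine ⟨m, ?_, ?_⟩
  · intro j
    have h2 := hkey j
    rwa [div_le_div_iff₀ (hpos _) (hpos _)] at h2
  · intro j hj
    have h2 : a j / Real.sqrt 2 ^ Nat.dist j k = a m / Real.sqrt 2 ^ Nat.dist m k := by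
      rw [div_eq_div_iff (hpos _).ne' (hpos _).ne']
      exact hj
    have hjS : j ∈ S := by
      by_contra hcon
      exact (hall j hcon).ne h2
    apply hmax' j
    rw [mem_filter]
    exact ⟨hjS, h2.trans hm.2⟩

private theorem seqA_geom (n : ℕ) :
    ∑ i ∈ range n, (1 / Real.sqrt 2) ^ i ≤ 7 / 2 := by
  have h1 : (7 / 5 : ℝ) ≤ Real.sqrt 2 := by
    apply Real.le_sqrt_of_sq_le
    norm_num
  have h2 : 1 / Real.sqrt 2 ≤ 5 / 7 := by
    rw [div_le_div_iff₀ (by linarith) (by norm_num)]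
    linarith
  have h3 : 0 ≤ 1 / Real.sqrt 2 := by positivity
  have h4 := mul_neg_geom_sum (1 / Real.sqrt 2) n
  have h5 : 0 ≤ (1 / Real.sqrt 2) ^ n := by positivity
  have h6 : 0 ≤ ∑ i ∈ range n, (1 / Real.sqrt 2) ^ i :=
    sum_nonneg fun i _ => by positivity
  nlinarith

private theorem seqA_sum (m M : ℕ) :
    ∑ k ∈ range M, (1 / Real.sqrt 2) ^ Nat.dist m k ≤ 7 := by
  have hq : 0 ≤ 1 / Real.sqrt 2 := by positivity
  rw [← sum_filter_add_sum_filter_not (range M) (fun k => k ≤ m)]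
  have h1 : ∑ k ∈ (range M).filter (fun k => k ≤ m), (1 / Real.sqrt 2) ^ Nat.dist m k ≤ 7 / 2 := by
    calc ∑ k ∈ (range M).filter (fun k => k ≤ m), (1 / Real.sqrt 2) ^ Nat.dist m k
        ≤ ∑ k ∈ range (m + 1), (1 / Real.sqrt 2) ^ Nat.dist m k := by
          apply sum_le_sum_of_subset_of_nonneg
          · intro k hk
            rw [mem_filter] at hk
            rw [mem_range]
            omega
          · intro k _ _
            positivity
      _ = ∑ k ∈ range (m + 1), (1 / Real.sqrt 2) ^ (m + 1 - 1 - k) := by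
          apply sum_congr rfl
          intro k hk
          rw [mem_range] at hk
          congr 1
          unfold Nat.dist
          omega
      _ = ∑ i ∈ range (m + 1), (1 / Real.sqrt 2) ^ i :=
          sum_range_reflect (fun i => (1 / Real.sqrt 2) ^ i) (m + 1)
      _ ≤ 7 / 2 := seqA_geom _
  have h2 : ∑ k ∈ (range M).filter (fun k => ¬ k ≤ m), (1 / Real.sqrt 2) ^ Nat.dist m k
      ≤ 7 / 2 := by
    calc ∑ k ∈ (range M).filter (fun k => ¬ k ≤ m), (1 / Real.sqrt 2) ^ Nat.dist m k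
        ≤ ∑ k ∈ Ico m (m + M), (1 / Real.sqrt 2) ^ Nat.dist m k := by
          apply sum_le_sum_of_subset_of_nonneg
          · intro k hk
            rw [mem_filter, mem_range] at hk
            rw [mem_Ico]
            omega
          · intro k _ _
            positivity
      _ = ∑ i ∈ range M, (1 / Real.sqrt 2) ^ i := by
          rw [sum_Ico_eq_sum_range]
          rw [Nat.add_sub_cancel_left]
          apply sum_congr rfl
          intro k _
          congr 1
          unfold Nat.dist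
          omega
      _ ≤ 7 / 2 := seqA_geom _
  linarith

theorem seq_lemma (a : ℕ → ℝ) (ha : ∀ k, 0 < a k) {B : ℝ} (hB : ∀ k, a k ≤ B) (M : ℕ) :
    ∃ J : Finset ℕ, (∀ m ∈ J, ∀ k, k ≠ m → a k < Real.sqrt 2 ^ (Nat.dist m k) * a m) ∧
      ∑ k ∈ range M, a k ≤ 7 * ∑ m ∈ J, a m := by
  classical
  have h1 : (1 : ℝ) < Real.sqrt 2 := by
    rw [Real.lt_sqrt zero_le_one]
    norm_num
  have h0 : (0 : ℝ) < Real.sqrt 2 := by linarith
  choose φ hφ hφ' using seqA_phi a ha hB
  refine ⟨(range M).image φ, ?_, ?_⟩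
  · intro m hm j hj
    rw [mem_image] at hm
    obtain ⟨k, -, rfl⟩ := hm
    by_contra hcon
    rw [not_lt] at hcon
    have h2 := hφ k j
    have htri : Nat.dist j k ≤ Nat.dist (φ k) j + Nat.dist (φ k) k := by
      unfold Nat.dist
      omega
    have h3 : Real.sqrt 2 ^ (Nat.dist (φ k) j + Nat.dist (φ k) k) * a (φ k) ≤
        Real.sqrt 2 ^ Nat.dist j k * a (φ k) := by
      calc Real.sqrt 2 ^ (Nat.dist (φ k) j + Nat.dist (φ k) k) * a (φ k)
          = Real.sqrt 2 ^ Nat.dist (φ k) j * a (φ k) * Real.sqrt 2 ^ Nat.dist (φ k) k := by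
            rw [pow_add]
            ring
        _ ≤ a j * Real.sqrt 2 ^ Nat.dist (φ k) k :=
            mul_le_mul_of_nonneg_right hcon (pow_pos h0 _).le
        _ ≤ a (φ k) * Real.sqrt 2 ^ Nat.dist j k := h2
        _ = Real.sqrt 2 ^ Nat.dist j k * a (φ k) := mul_comm _ _
    have h4 := seqA_pow (ha (φ k)) h3
    have h5 : Nat.dist j k = Nat.dist (φ k) j + Nat.dist (φ k) k := le_antisymm htri h4
    have h6 : a j * Real.sqrt 2 ^ Nat.dist (φ k) k = a (φ k) * Real.sqrt 2 ^ Nat.dist j k := by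
      apply le_antisymm h2
      rw [h5, pow_add]
      calc a (φ k) * (Real.sqrt 2 ^ Nat.dist (φ k) j * Real.sqrt 2 ^ Nat.dist (φ k) k)
          = Real.sqrt 2 ^ Nat.dist (φ k) j * a (φ k) * Real.sqrt 2 ^ Nat.dist (φ k) k := by
            ring
        _ ≤ a j * Real.sqrt 2 ^ Nat.dist (φ k) k :=
            mul_le_mul_of_nonneg_right hcon (pow_pos h0 _).le
    have h7 := hφ' k j h6
    have h8 : Nat.dist (φ k) j = 0 := by omega
    exact hj (Nat.eq_of_dist_eq_zero h8).symm
  · have h2 : ∀ k ∈ range M, a k ≤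
        ∑ m ∈ (range M).image φ, (1 / Real.sqrt 2) ^ Nat.dist m k * a m := by
      intro k hk
      have h3 : a k ≤ (1 / Real.sqrt 2) ^ Nat.dist (φ k) k * a (φ k) := by
        have h4 := hφ k k
        rw [Nat.dist_self, pow_zero, mul_one] at h4
        rw [div_pow, one_pow, div_mul_eq_mul_div, one_mul, le_div_iff₀ (pow_pos h0 _)]
        exact h4
      refine h3.trans ?_
      refine single_le_sum (f := fun m => (1 / Real.sqrt 2) ^ Nat.dist m k * a m) ?_
        (mem_image_of_mem φ hk)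
      intro m _
      have := ha m
      positivity
    calc ∑ k ∈ range M, a k
        ≤ ∑ k ∈ range M, ∑ m ∈ (range M).image φ, (1 / Real.sqrt 2) ^ Nat.dist m k * a m :=
          sum_le_sum h2
      _ = ∑ m ∈ (range M).image φ, (∑ k ∈ range M, (1 / Real.sqrt 2) ^ Nat.dist m k) * a m := by
          rw [sum_comm]
          apply sum_congr rfl
          intro m _
          rw [sum_mul]
      _ ≤ ∑ m ∈ (range M).image φ, 7 * a m := by
          apply sum_le_sum
          intro m _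
          exact mul_le_mul_of_nonneg_right (seqA_sum m M) (ha m).le
      _ = 7 * ∑ m ∈ (range M).image φ, a m := by rw [mul_sum]

end IC65
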