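import Mathlib

/-!
# IC65 module SCH-B: cutting one set (greedy choice of the balls)

`N = 2^(2^m)`.  `D_0 = A`; as long as `D_l` is nonempty and `l < N - 1` choose `t_l ∈ D_l` which maximises
`F(D_l ∩ B(t, a/r))` (closed balls, `D_l.filter fun s => dist s t ≤ a / r`), the piece with the label `l` is
`{s ∈ D_l | dist s t_l < a}` and `D_(l+1)` is the rest (choose the centres by recursion on `l`; if `D_l = ∅` then
all the further pieces are empty).  The label of the points of `D_(N-1)` is `N - 1`.
If `t ∈ A` has the label `N - 1` then all the `D_l`, `l < N - 1`, contain `t`, the points `t_0, …, t_(N-2), t` are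
`a`-separated elements of `A` (so `N ≤ card A`), and the growth condition with `H_l = D_l ∩ B(t_l, a/r)`,
`H_(N-1) = D_(N-1) ∩ B(t, a/r)`, `b = F(H_(N-1))` (`≤ F(H_l)` because `t ∈ D_l`, the choice of `t_l` and
monotonicity) gives `F(H_(N-1)) + c a √2^m ≤ F(A)`.
-/

open Finset

noncomputable section

namespace IC65

/-- the greedy cutting with `k` balls -/
private theorem greedy {α : Type} [MetricSpace α] [DecidableEq α] (F : Finset α → ℝ)
    (hF : ∀ A B, A ⊆ B → F A ≤ F B) {a ρ : ℝ} (ha : 0 < a) (hρ : 0 ≤ ρ) (k : ℕ) :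
    ∀ A : Finset α, ∃ lab : α → ℕ, (∀ x ∈ A, lab x ≤ k) ∧
      (∀ x ∈ A, lab x < k → ∃ t ∈ A, ∀ y ∈ A, lab y = lab x → dist y t ≤ a) ∧
      (∀ x ∈ A, lab x = k → ∃ (t : ℕ → α) (H : ℕ → Finset α),
        (∀ l < k, t l ∈ A ∧ a ≤ dist x (t l)) ∧
        (∀ l < k, ∀ l' < k, l ≠ l' → a ≤ dist (t l) (t l')) ∧
        (∀ l < k, (H l).Nonempty ∧ H l ⊆ A ∧ ∀ s ∈ H l, dist s (t l) ≤ ρ) ∧
        (∀ G ⊆ A, (∀ s ∈ G, lab s = k ∧ dist s x ≤ ρ) → ∀ l < k, F G ≤ F (H l))) := by
  induction k with
  | zero =>
    intro A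
    refine ⟨fun _ => 0, fun x _ => le_rfl, fun x _ h => absurd h (lt_irrefl _), ?_⟩
    intro x _ _
    exact ⟨fun _ => x, fun _ => ∅, fun l hl => absurd hl (Nat.not_lt_zero l),
      fun l hl => absurd hl (Nat.not_lt_zero l), fun l hl => absurd hl (Nat.not_lt_zero l),
      fun G _ _ l hl => absurd hl (Nat.not_lt_zero l)⟩
  | succ k ih =>
    intro A
    rcases A.eq_empty_or_nonempty with rfl | hA
    · exact ⟨fun _ => 0, fun x hx => absurd hx (notMem_empty x),
        fun x hx => absurd hx (notMem_empty x), fun x hx => absurd hx (notMem_empty x)⟩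
    obtain ⟨t₀, ht₀, hmax⟩ := A.exists_max_image (fun t => F (A.filter fun s => dist s t ≤ ρ)) hA
    obtain ⟨lab', h1, h2, h3⟩ := ih (A.filter fun s => a ≤ dist s t₀)
    have hmem : ∀ y, y ∈ A.filter (fun s => a ≤ dist s t₀) ↔ y ∈ A ∧ a ≤ dist y t₀ := by
      intro y
      rw [mem_filter]
    classical
    refine ⟨fun s => if dist s t₀ < a then 0 else lab' s + 1, ?_, ?_, ?_⟩
    · intro x hx
      by_cases h : dist x t₀ < a
      · simp only [h, if_true]
        omega
      · simp only [h, if_false]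
        have := h1 x ((hmem x).2 ⟨hx, not_lt.1 h⟩)
        omega
    · intro x hx hlt
      by_cases h : dist x t₀ < a
      · refine ⟨t₀, ht₀, ?_⟩
        intro y _ hy
        simp only [h, if_true] at hy
        by_contra hcon
        have h4 : ¬ dist y t₀ < a := fun h5 => hcon h5.le
        simp only [h4, if_false] at hy
        omega
      · simp only [h, if_false] at hlt
        obtain ⟨t, ht, ht'⟩ := h2 x ((hmem x).2 ⟨hx, not_lt.1 h⟩) (by omega)
        refine ⟨t, ((hmem t).1 ht).1, ?_⟩
        intro y hyA hy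
        simp only [h, if_false] at hy
        by_cases h4 : dist y t₀ < a
        · simp only [h4, if_true] at hy
          omega
        · simp only [h4, if_false] at hy
          exact ht' y ((hmem y).2 ⟨hyA, not_lt.1 h4⟩) (by omega)
    · intro x hx hk
      by_cases h : dist x t₀ < a
      · simp only [h, if_true] at hk
        omega
      simp only [h, if_false] at hk
      have hxA := (hmem x).2 ⟨hx, not_lt.1 h⟩
      obtain ⟨t, H, h4, h5, h6, h7⟩ := h3 x hxA (by omega)
      refine ⟨fun l => if l = 0 then t₀ else t (l - 1),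
        fun l => if l = 0 then A.filter (fun s => dist s t₀ ≤ ρ) else H (l - 1), ?_, ?_, ?_, ?_⟩
      · intro l hl
        by_cases hl0 : l = 0
        · simp only [hl0, if_true]
          exact ⟨ht₀, not_lt.1 h⟩
        · simp only [hl0, if_false]
          obtain ⟨h8, h9⟩ := h4 (l - 1) (by omega)
          exact ⟨((hmem _).1 h8).1, h9⟩
      · intro l hl l' hl' hne
        by_cases hl0 : l = 0
        · have hl0' : ¬ l' = 0 := fun h' => hne (hl0.trans h'.symm)
          simp only [hl0, hl0', if_true, if_false]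
          rw [dist_comm]
          exact ((hmem _).1 (h4 (l' - 1) (by omega)).1).2
        · by_cases hl0' : l' = 0
          · simp only [hl0, hl0', if_true, if_false]
            exact ((hmem _).1 (h4 (l - 1) (by omega)).1).2
          · simp only [hl0, hl0', if_false]
            exact h5 (l - 1) (by omega) (l' - 1) (by omega) (by omega)
      · intro l hl
        by_cases hl0 : l = 0
        · simp only [hl0, if_true]
          refine ⟨⟨t₀, ?_⟩, filter_subset _ _, ?_⟩
          · rw [mem_filter, dist_self]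
            exact ⟨ht₀, hρ⟩
          · intro s hs
            rw [mem_filter] at hs
            exact hs.2
        · simp only [hl0, if_false]
          obtain ⟨h8, h9, h10⟩ := h6 (l - 1) (by omega)
          exact ⟨h8, h9.trans (filter_subset _ _), h10⟩
      · intro G hG hG' l hl
        have hG'' : ∀ s ∈ G, a ≤ dist s t₀ ∧ lab' s = k := by
          intro s hs
          have h8 := (hG' s hs).1
          by_cases h9 : dist s t₀ < a
          · simp only [h9, if_true] at h8
            omega
          · simp only [h9, if_false] at h8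
            exact ⟨not_lt.1 h9, by omega⟩
        by_cases hl0 : l = 0
        · simp only [hl0, if_true]
          refine le_trans (hF _ _ ?_) (hmax x hx)
          intro s hs
          rw [mem_filter]
          exact ⟨hG hs, (hG' s hs).2⟩
        · simp only [hl0, if_false]
          apply h7 G
          · intro s hs
            exact (hmem s).2 ⟨hG hs, (hG'' s hs).1⟩
          · intro s hs
            exact ⟨(hG'' s hs).2, (hG' s hs).2⟩
          · omega

theorem step {α : Type} [MetricSpace α] [DecidableEq α] (F : Finset α → ℝ)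
    (hF : ∀ A B, A ⊆ B → F A ≤ F B) {r c : ℝ} (hr : 8 ≤ r) (hc : 0 < c) (m : ℕ) {a : ℝ}
    (ha : 0 < a)
    (hgrow : ∀ (t : Fin (2 ^ 2 ^ m) → α) (H : Fin (2 ^ 2 ^ m) → Finset α),
      (∀ l l', l ≠ l' → a ≤ dist (t l) (t l')) →
      (∀ l, (H l).Nonempty ∧ ∀ s ∈ H l, dist s (t l) ≤ a / r) →
      ∀ b, (∀ l, b ≤ F (H l)) → ∀ B, (∀ l, H l ⊆ B) → b + c * a * Real.sqrt 2 ^ m ≤ F B)
    (A : Finset α) :
    ∃ lab : α → ℕ, (∀ x ∈ A, lab x < 2 ^ 2 ^ m) ∧
      (∀ x ∈ A, lab x + 1 ≠ 2 ^ 2 ^ m →
        ∃ t ∈ A, ∀ y ∈ A, lab y = lab x → dist y t ≤ a) ∧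
      (∀ t ∈ A, lab t + 1 = 2 ^ 2 ^ m → 2 ^ 2 ^ m ≤ A.card ∧
        ∀ H ⊆ A, (∀ s ∈ H, lab s + 1 = 2 ^ 2 ^ m ∧ dist s t ≤ a / r) →
          F H + c * a * Real.sqrt 2 ^ m ≤ F A) := by
  have _ := hc
  have hN : 1 ≤ 2 ^ 2 ^ m := Nat.one_le_two_pow
  have hρ : 0 ≤ a / r := by positivity
  obtain ⟨lab, h1, h2, h3⟩ := greedy F hF ha hρ (2 ^ 2 ^ m - 1) A
  refine ⟨lab, ?_, ?_, ?_⟩
  · intro x hx
    have := h1 x hx
    omega
  · intro x hx hne
    have := h1 x hx
    exact h2 x hx (by omega)
  · intro t₁ ht₁ hlab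
    obtain ⟨t, H, h4, h5, h6, h7⟩ := h3 t₁ ht₁ (by omega)
    have hsep : ∀ l l' : Fin (2 ^ 2 ^ m), l ≠ l' →
        a ≤ dist (if (l : ℕ) < 2 ^ 2 ^ m - 1 then t l else t₁)
          (if (l' : ℕ) < 2 ^ 2 ^ m - 1 then t l' else t₁) := by
      intro l l' hne
      have hne' : (l : ℕ) ≠ l' := fun h => hne (Fin.ext h)
      by_cases hl : (l : ℕ) < 2 ^ 2 ^ m - 1
      · by_cases hl' : (l' : ℕ) < 2 ^ 2 ^ m - 1
        · rw [if_pos hl, if_pos hl']
          exact h5 l hl l' hl' hne'
        · rw [if_pos hl, if_neg hl', dist_comm]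
          exact (h4 l hl).2
      · by_cases hl' : (l' : ℕ) < 2 ^ 2 ^ m - 1
        · rw [if_neg hl, if_pos hl']
          exact (h4 l' hl').2
        · have := l.2
          have := l'.2
          omega
    constructor
    · have hinj : Set.InjOn (fun l : Fin (2 ^ 2 ^ m) =>
          if (l : ℕ) < 2 ^ 2 ^ m - 1 then t l else t₁)
          (univ : Finset (Fin (2 ^ 2 ^ m))) := by
        intro l _ l' _ hll
        by_contra hne
        have h8 := hsep l l' hne
        simp only at hll
        rw [hll, dist_self] at h8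
        exact absurd h8 (not_le.2 ha)
      have hmaps : ∀ l ∈ (univ : Finset (Fin (2 ^ 2 ^ m))),
          (if (l : ℕ) < 2 ^ 2 ^ m - 1 then t l else t₁) ∈ A := by
        intro l _
        by_cases hl : (l : ℕ) < 2 ^ 2 ^ m - 1
        · rw [if_pos hl]
          exact (h4 l hl).1
        · rw [if_neg hl]
          exact ht₁
      have h9 := card_le_card_of_injOn _ hmaps hinj
      rwa [card_univ, Fintype.card_fin] at h9
    · intro G hG hG'
      have hG1 : insert t₁ G ⊆ A := insert_subset ht₁ hG
      have hG2 : ∀ s ∈ insert t₁ G, lab s + 1 = 2 ^ 2 ^ m ∧ dist s t₁ ≤ a / r := by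
        intro s hs
        rcases mem_insert.1 hs with rfl | hs
        · exact ⟨hlab, by rw [dist_self]; exact hρ⟩
        · exact hG' s hs
      have h8 : F G ≤ F (insert t₁ G) := hF _ _ (subset_insert _ _)
      refine le_trans (add_le_add_left h8 _) ?_
      refine hgrow (fun l => if (l : ℕ) < 2 ^ 2 ^ m - 1 then t l else t₁)
        (fun l => if (l : ℕ) < 2 ^ 2 ^ m - 1 then H l else insert t₁ G) hsep ?_
        (F (insert t₁ G)) ?_ A ?_
      · intro l
        by_cases hl : (l : ℕ) < 2 ^ 2 ^ m - 1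
        · simp only [hl, if_true]
          exact ⟨(h6 l hl).1, (h6 l hl).2.2⟩
        · simp only [hl, if_false]
          exact ⟨insert_nonempty _ _, fun s hs => (hG2 s hs).2⟩
      · intro l
        by_cases hl : (l : ℕ) < 2 ^ 2 ^ m - 1
        · simp only [hl, if_true]
          refine h7 (insert t₁ G) hG1 ?_ l hl
          intro s hs
          refine ⟨?_, (hG2 s hs).2⟩
          have := (hG2 s hs).1
          omega
        · simp only [hl, if_false]
          exact le_rfl
      · intro l
        by_cases hl : (l : ℕ) < 2 ^ 2 ^ m - 1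
        · simp only [hl, if_true]
          exact (h6 l hl).2.1
        · simp only [hl, if_false]
          exact hG1

end IC65
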